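import Pool.Agent.Work.MP_f82ddf_M4.Interface2
set_option autoImplicit false

/-! # Theorem M (MP_f82ddf_nt), part P4, block BLL: the mean of the bound for the norm of a form. -/

open Topology Filter
open scoped Differential
open Pool.Agent.Work.MP_f82ddf_nt.DQ

namespace M4P
open MvPolynomial Pool.ThmM

namespace BLLp

theorem coeff_spz (F : MvPolynomial (Fin 3) Mer) (z : ℂ) (s : Fin 3 →₀ ℕ) :
    (spz F z).coeff s = if s ∈ F.support then rep (F.coeff s) z else 0 := by
  classical
  unfold spz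
  rw [MvPolynomial.coeff_sum]
  simp only [MvPolynomial.coeff_monomial]
  rw [Finset.sum_ite_eq']

theorem nrm_le (F : MvPolynomial (Fin 3) Mer) (z : ℂ) :
    nrm (spz F z) ≤ F.support.card * ‖vec (cf F) z‖ := by
  unfold nrm
  have hsub : (spz F z).support ⊆ F.support := by
    intro s hs
    rw [MvPolynomial.mem_support_iff, coeff_spz] at hs
    by_contra h
    exact hs (if_neg h)
  calc ∑ s ∈ (spz F z).support, ‖(spz F z).coeff s‖
      ≤ ∑ s ∈ F.support, ‖(spz F z).coeff s‖ :=
        Finset.sum_le_sum_of_subset_of_nonneg hsub (fun _ _ _ => norm_nonneg _)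
    _ ≤ ∑ _s ∈ F.support, ‖vec (cf F) z‖ := by
        refine Finset.sum_le_sum fun s hs => ?_
        rw [coeff_spz, if_pos hs]
        exact norm_le_pi_norm (vec (cf F) z) ⟨s, hs⟩
    _ = F.support.card * ‖vec (cf F) z‖ := by rw [Finset.sum_const, nsmul_eq_mul]

theorem nrm_nonneg' (P : P3) : 0 ≤ nrm P := Finset.sum_nonneg fun _ _ => norm_nonneg _

end BLLp

theorem all_BLL (hREP : Stmt_REP) (hALG : Stmt_ALG) (hORD : Stmt_ORD) (hCMP : Stmt_CMP) :
    BLL := by
  classical
  intro F h p C hF hh hb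
  set N : ℝ := (F.support.card : ℝ) with hN
  have hN1 : 0 < N := by
    rw [hN]
    exact_mod_cast Finset.card_pos.2 (MvPolynomial.support_nonempty.2 hF)
  set K : ℝ := (|C| + 1) * N ^ p with hK
  have hK0 : 0 < K := by positivity
  refine ⟨Real.log K, ?_⟩
  intro r hr
  obtain ⟨s0, hs0⟩ := MvPolynomial.support_nonempty.2 hF
  have hne1 : ∀ᶠ z in codiscrete ℂ, rep (F.coeff s0) z ≠ 0 :=
    hALG.2.2.2.2.2.2.2 _ (MvPolynomial.mem_support_iff.1 hs0)
  have hne2 : ∀ᶠ z in codiscrete ℂ, rep h z ≠ 0 := hALG.2.2.2.2.2.2.2 _ hh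
  have hint1 : CircleIntegrable (fun z => Real.log ‖vec (cf F) z‖) 0 r :=
    MeromorphicOn.circleIntegrable_log_norm fun z _ => (hORD _ (cf F)).1 z
  have hint2 : CircleIntegrable (fun z => Real.log ‖rep h z‖) 0 r :=
    MeromorphicOn.circleIntegrable_log_norm fun z _ => (hREP h).2.1 z
  have hintK : CircleIntegrable (fun _ : ℂ => Real.log K) 0 r := circleIntegrable_const _ _ _
  have hint3 : CircleIntegrable ((p : ℝ) • fun z => Real.log ‖vec (cf F) z‖) 0 r :=
    hint1.const_smul
  have hcmp := hCMP (fun z => Real.log ‖rep h z‖)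
    (((p : ℝ) • fun z => Real.log ‖vec (cf F) z‖) + fun _ => Real.log K) r hr hint2
    (hint3.add hintK) (by
      filter_upwards [hb, hne1, hne2] with z h1 h2 h3
      have hv : 0 < ‖vec (cf F) z‖ := by
        rw [norm_pos_iff]
        intro h0
        exact h2 (congrFun h0 ⟨s0, hs0⟩)
      have hr0 : 0 < ‖rep h z‖ := norm_pos_iff.2 h3
      have hle : ‖rep h z‖ ≤ ‖vec (cf F) z‖ ^ p * K := by
        calc ‖rep h z‖ ≤ C * nrm (spz F z) ^ p := h1
          _ ≤ (|C| + 1) * nrm (spz F z) ^ p := by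
            refine mul_le_mul_of_nonneg_right ?_ (pow_nonneg (BLLp.nrm_nonneg' _) _)
            have := le_abs_self C
            linarith
          _ ≤ (|C| + 1) * (N * ‖vec (cf F) z‖) ^ p := by
            refine mul_le_mul_of_nonneg_left ?_ (by positivity)
            exact pow_le_pow_left₀ (BLLp.nrm_nonneg' _) (BLLp.nrm_le F z) p
          _ = ‖vec (cf F) z‖ ^ p * K := by rw [hK, mul_pow]; ring
      change Real.log ‖rep h z‖ ≤ (p : ℝ) * Real.log ‖vec (cf F) z‖ + Real.log K
      rw [← Real.log_pow, ← Real.log_mul (pow_pos hv p).ne' hK0.ne']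
      exact Real.log_le_log hr0 hle)
  rw [Real.circleAverage_add hint3 hintK, Real.circleAverage_const, Real.circleAverage_smul] at hcmp
  exact hcmp

end M4P
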