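import Pool.Agent.Work.MP_f82ddf_M4.Interface3
set_option autoImplicit false

/-! # Block CHR (helper7): restriction of the numeric Chow form to the plane -/

open Topology Filter
open scoped Differential
open Pool.Agent.Work.MP_f82ddf_nt.DQ

namespace M4P
open MvPolynomial Pool.ThmM Pool.Agent.Work.MP_f82ddf_M5

theorem CHR_C {σ τ : Type} (g : σ → MvPolynomial τ ℂ) (r : ℂ) : sb (K := ℂ) g (C r) = C r := by
  unfold sb
  rw [algHom_C]
  rfl

theorem CHR_X {σ τ : Type} (g : σ → MvPolynomial τ ℂ) (i : σ) : sb (K := ℂ) g (X i) = g i := by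
  unfold sb
  rw [aeval_X]
  exact MvPolynomial.map_id _

/-- the two lines -/
theorem CHR_line {N : ℕ} (F : MvPolynomial (Fin N) ℂ) (u e θ : Fin N → ℂ) :
    lineAt ((sb (K := ℂ) (gB u e θ)).toRingHom.comp C) F
        (fun i => (sb (K := ℂ) (gB u e θ)).toRingHom (X (0, i)))
        (fun i => (sb (K := ℂ) (gB u e θ)).toRingHom (X (1, i))) =
      lineAt (C : ℂ →+* MvPolynomial (Fin 2 × Fin 3) ℂ) (sb (K := ℂ) (gP u e θ) F)
        (fun i => X (0, i)) (fun i => X (1, i)) := by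
  have h : (eval₂Hom (Polynomial.C.comp ((sb (K := ℂ) (gB u e θ)).toRingHom.comp C))
        (fun i => Polynomial.C ((sb (K := ℂ) (gB u e θ)).toRingHom (X (0, i))) * Polynomial.X +
          Polynomial.C ((sb (K := ℂ) (gB u e θ)).toRingHom (X (1, i))))) =
      (eval₂Hom (Polynomial.C.comp (C : ℂ →+* MvPolynomial (Fin 2 × Fin 3) ℂ))
        (fun i : Fin 3 => Polynomial.C (X (0, i)) * Polynomial.X +
          Polynomial.C (X (1, i)))).comp (sb (K := ℂ) (gP u e θ)).toRingHom := by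
    apply MvPolynomial.ringHom_ext
    · intro r
      simp only [RingHom.comp_apply, AlgHom.toRingHom_eq_coe, RingHom.coe_coe, eval₂Hom_C, CHR_C]
    · intro j
      simp only [RingHom.comp_apply, AlgHom.toRingHom_eq_coe, RingHom.coe_coe, eval₂Hom_X', CHR_X,
        gB, gP, map_add, map_mul, eval₂Hom_C]
      ring
  exact congrArg (fun ψ : MvPolynomial (Fin N) ℂ →+* Polynomial (MvPolynomial (Fin 2 × Fin 3) ℂ) => ψ F) h

theorem all_CHR (hF : Stmt_FUN) : M4P.CHR := by
  intro N d D F G u e θ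
  obtain ⟨-, -, hF3, -, -, -⟩ := hF
  have h1 := hF3 N d D ℂ (MvPolynomial (Fin 2 × Fin N) ℂ) (MvPolynomial (Fin 2 × Fin 3) ℂ) C
    (sb (K := ℂ) (gB u e θ)).toRingHom F G (fun i => X (0, i)) (fun i => X (1, i))
  have h2 : sb (K := ℂ) (gB u e θ) (chow d D F G) = (sb (K := ℂ) (gB u e θ)).toRingHom
      (resAt C F G (fun i => X (0, i)) (fun i => X (1, i)) d D) := rfl
  rw [h2, h1]
  unfold chow resAt
  rw [CHR_line, CHR_line]

end M4P
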