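import Pool.Agent.Work.MP_f82ddf_M4.Interface3

set_option autoImplicit false

/-! # Theorem M, P3b, block CRL: the coefficients of `F` from those of `F(b1 × b2)` -/

open Topology Filter
open scoped Differential
open Pool.Agent.Work.MP_f82ddf_nt.DQ

namespace M4P
open MvPolynomial Pool.ThmM Pool.Agent.Work.MP_f82ddf_M5

noncomputable section

namespace CRL

/-- the substitution `b1 = (m2, 0, -m0)`, `b2 = (0, m2, -m1)` -/
def hh : Fin 2 × Fin 3 → MvPolynomial (Fin 3) ℂ := fun p =>
  (![![X 2, 0, -X 0], ![0, X 2, -X 1]] : Fin 2 → Fin 3 → MvPolynomial (Fin 3) ℂ) p.1 p.2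

theorem sb_hh {K : Type} [CommRing K] [Algebra ℂ K] (i : Fin 3) :
    sb (K := K) hh (map (algebraMap ℂ K) (gC i)) = X 2 * X i := by
  fin_cases i
  · simp [gC, sb, hh]
    ring
  · simp [gC, sb, hh]
  · simp [gC, sb, hh]

theorem pull {K : Type} [CommRing K] [Algebra ℂ K] {ρ : ℕ} {F : MvPolynomial (Fin 3) K}
    (hF : F.IsHomogeneous ρ) : sb (K := K) hh (sb gC F) = X 2 ^ ρ * F := by
  have h1 : sb (K := K) hh (sb gC F) = aeval (fun i => (X 2 * X i : MvPolynomial (Fin 3) K)) F := by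
    have h2 : sb (K := K) gC F = aeval (fun i => map (algebraMap ℂ K) (gC i)) F := rfl
    rw [h2, comp_aeval_apply]
    congr 2
    funext i
    exact sb_hh i
  rw [h1, aeval_def, eval₂_eq']
  conv_rhs => rw [← support_sum_monomial_coeff F, Finset.mul_sum]
  refine Finset.sum_congr rfl fun d hd => ?_
  have h3 : ∑ i, d i = ρ := by
    have h4 : d.degree = ρ := by
      by_contra hne
      exact (mem_support_iff.1 hd) (hF.coeff_eq_zero hne)
    rw [← h4, Finsupp.degree_eq_sum]
  have h5 : (∏ i, (X 2 * X i : MvPolynomial (Fin 3) K) ^ d i) = X 2 ^ ρ * ∏ i, X i ^ d i := by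
    rw [← h3, ← Finset.prod_pow_eq_pow_sum, ← Finset.prod_mul_distrib]
    exact Finset.prod_congr rfl fun i _ => mul_pow _ _ _
  have h6 : (monomial d (coeff d F) : MvPolynomial (Fin 3) K) = C (coeff d F) * ∏ i, X i ^ d i := by
    rw [monomial_eq, Finsupp.prod_fintype _ _ (fun i => pow_zero _)]
  rw [h5, h6, algebraMap_eq]
  ring

theorem expand {K : Type} [CommRing K] [Algebra ℂ K] (G : MvPolynomial (Fin 2 × Fin 3) K)
    (s : Fin 3 →₀ ℕ) : (sb (K := K) hh G).coeff s =
      ∑ t ∈ G.support, algebraMap ℂ K (coeff s (∏ i, hh i ^ t i)) * G.coeff t := by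
  have h1 : sb (K := K) hh G = ∑ t ∈ G.support,
      C (G.coeff t) * map (algebraMap ℂ K) (∏ i, hh i ^ t i) := by
    unfold sb
    rw [aeval_def, eval₂_eq', algebraMap_eq]
    refine Finset.sum_congr rfl fun t _ => ?_
    rw [map_prod]
    simp only [map_pow]
  rw [h1, coeff_sum]
  refine Finset.sum_congr rfl fun t _ => ?_
  rw [coeff_C_mul, coeff_map, mul_comm]

end CRL

theorem all_CRL : CRL := by
  intro ρ
  refine ⟨fun s t => coeff (s + Finsupp.single 2 ρ) (∏ i, CRL.hh i ^ t i), ?_⟩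
  intro K _ _ F hF s
  rw [← CRL.expand, CRL.pull hF, X_pow_eq_monomial, add_comm s, coeff_monomial_mul, one_mul]

end

end M4P
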