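import Pool.Agent.Work.MP_f82ddf_M4.Interface3
set_option autoImplicit false

/-! # Theorem M, part P3b, block CTB (helper87) -/

open Topology Filter
open scoped Differential
open Pool.Agent.Work.MP_f82ddf_nt.DQ

namespace M4P
open MvPolynomial Pool.ThmM Pool.Agent.Work.MP_f82ddf_M5

theorem all_CTB : CTB := by
  intro N
  induction N with
  | zero =>
    intro P hP
    refine ⟨0, fun n h => hP n ?_⟩
    rw [MvPolynomial.eq_C_of_isEmpty (P n), MvPolynomial.eval_C] at h
    rw [MvPolynomial.eq_C_of_isEmpty (P n), h, C_0]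
  | succ N ih =>
    intro P hP
    have h1 : ∀ n, (finSuccEquiv ℂ N (P n)) ≠ 0 := fun n h =>
      hP n ((map_eq_zero_iff _ (finSuccEquiv ℂ N).injective).mp h)
    obtain ⟨θ, hθ⟩ := ih (fun n => (finSuccEquiv ℂ N (P n)).leadingCoeff)
      (fun n => Polynomial.leadingCoeff_ne_zero.mpr (h1 n))
    have h2 : ∀ n, Polynomial.map (eval θ) (finSuccEquiv ℂ N (P n)) ≠ 0 := by
      intro n h
      apply hθ n
      have h3 := congrArg (fun q => Polynomial.coeff q (finSuccEquiv ℂ N (P n)).natDegree) h
      simp only [Polynomial.coeff_map, Polynomial.coeff_zero] at h3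
      exact h3
    have h3 : (⋃ n, {x | (Polynomial.map (eval θ) (finSuccEquiv ℂ N (P n))).IsRoot x}).Countable :=
      Set.countable_iUnion fun n => (Polynomial.finite_setOfPred_isRoot (h2 n)).countable
    have h4 : ∃ y : ℂ, y ∉ ⋃ n, {x | (Polynomial.map (eval θ)
        (finSuccEquiv ℂ N (P n))).IsRoot x} := by
      by_contra h
      push Not at h
      apply not_countable_complex
      rw [show (Set.univ : Set ℂ) = ⋃ n, {x | (Polynomial.map (eval θ)
        (finSuccEquiv ℂ N (P n))).IsRoot x} from (Set.eq_univ_of_forall h).symm]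
      exact h3
    obtain ⟨y, hy⟩ := h4
    refine ⟨Fin.cons y θ, fun n h => hy ?_⟩
    rw [Set.mem_iUnion]
    refine ⟨n, ?_⟩
    rw [MvPolynomial.eval_eq_eval_mv_eval'] at h
    exact h

end M4P
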