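import Pool.Agent.Work.MP_f82ddf_M4.Interface3
set_option autoImplicit false

/-! Block DTI: the determinants det (t, b1, b2) are irreducible. -/

open Topology Filter
open scoped Differential
open Pool.Agent.Work.MP_f82ddf_nt.DQ

namespace M4P
open MvPolynomial Pool.ThmM Pool.Agent.Work.MP_f82ddf_M5

namespace DTI

theorem dt_eq (t : Fin 3 → ℂ) : dt t =
    C (t 0) * (X (0, 1) * X (1, 2) - X (0, 2) * X (1, 1)) +
    C (t 1) * (X (0, 2) * X (1, 0) - X (0, 0) * X (1, 2)) +
    C (t 2) * (X (0, 0) * X (1, 1) - X (0, 1) * X (1, 0)) := by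
  simp [dt, sb, gC, lf, Fin.sum_univ_three, Algebra.algebraMap_self, MvPolynomial.algebraMap_eq]

theorem eval_dt (t : Fin 3 → ℂ) (b : Fin 2 × Fin 3 → ℂ) : eval b (dt t) =
    t 0 * (b (0, 1) * b (1, 2) - b (0, 2) * b (1, 1)) +
    t 1 * (b (0, 2) * b (1, 0) - b (0, 0) * b (1, 2)) +
    t 2 * (b (0, 0) * b (1, 1) - b (0, 1) * b (1, 0)) := by
  rw [dt_eq]
  simp

/-- linear forms over a field are irreducible -/
theorem irr_lin {σ : Type} {f : MvPolynomial σ ℂ} (hf : f.IsHomogeneous 1) (h0 : f ≠ 0) :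
    Irreducible f := by
  refine irreducible_of_totalDegree_eq_one (hf.totalDegree h0) ?_
  intro x hx
  by_contra h
  rw [isUnit_iff_ne_zero, not_not] at h
  apply h0
  ext i
  have := hx i
  rw [h, zero_dvd_iff] at this
  rw [this, coeff_zero]

theorem relprime {σ : Type} {f g : MvPolynomial σ ℂ} (hf : f.IsHomogeneous 1) (h0 : f ≠ 0)
    (p : σ → ℂ) (h1 : eval p f = 0) (h2 : eval p g ≠ 0) : IsRelPrime f g := by
  rw [(irr_lin hf h0).isRelPrime_iff_not_dvd]
  rintro ⟨k, hk⟩
  apply h2
  rw [hk, map_mul, h1, zero_mul]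

theorem notin {σ : Type} {f : MvPolynomial σ ℂ} (i : σ) (h : f ∈ supported ℂ {j : σ | j ≠ i}) :
    i ∉ f.vars := by
  intro hi
  exact (mem_supported.1 h) hi rfl

theorem hom2 (t : Fin 3 → ℂ) : (dt t).IsHomogeneous 2 := by
  have h2 : ∀ a b : Fin 2 × Fin 3, (X a * X b : MvPolynomial (Fin 2 × Fin 3) ℂ).IsHomogeneous 2 :=
    fun a b => (isHomogeneous_X _ _).mul (isHomogeneous_X _ _)
  rw [dt_eq]
  exact (((h2 _ _).sub (h2 _ _)).C_mul _ |>.add (((h2 _ _).sub (h2 _ _)).C_mul _)).add
    (((h2 _ _).sub (h2 _ _)).C_mul _)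

theorem val0 (t : Fin 3 → ℂ) :
    eval (fun p => if p = (0, 1) then 1 else if p = (1, 2) then 1 else 0) (dt t) = t 0 := by
  rw [eval_dt]; simp

theorem val1 (t : Fin 3 → ℂ) :
    eval (fun p => if p = (0, 2) then 1 else if p = (1, 0) then 1 else 0) (dt t) = t 1 := by
  rw [eval_dt]; simp

theorem val2 (t : Fin 3 → ℂ) :
    eval (fun p => if p = (0, 0) then 1 else if p = (1, 1) then 1 else 0) (dt t) = t 2 := by
  rw [eval_dt]; simp

theorem irr (t : Fin 3 → ℂ) (ht : t ≠ 0) : Irreducible (dt t) := by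
  by_cases h12 : t 1 = 0 ∧ t 2 = 0
  · have ht0 : t 0 ≠ 0 := by
      intro h0
      apply ht
      funext i
      fin_cases i
      · exact h0
      · exact h12.1
      · exact h12.2
    have he : dt t = (C (t 0) * X (1, 2)) * X (0, 1) + (- (C (t 0) * X (0, 2) * X (1, 1))) := by
      rw [dt_eq, h12.1, h12.2]
      simp only [C_0, zero_mul, add_zero]
      ring
    have hf0 : (C (t 0) * X (1, 2) : MvPolynomial (Fin 2 × Fin 3) ℂ) ≠ 0 :=
      mul_ne_zero (by rwa [Ne, C_eq_zero]) (X_ne_zero _)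
    rw [he]
    refine irreducible_mul_X_add _ _ _ hf0 (notin _ ?_) (notin _ ?_) ?_
    · exact Subalgebra.mul_mem _ (Subalgebra.algebraMap_mem _ _)
        (X_mem_supported.2 (by simp))
    · exact Subalgebra.neg_mem _ (Subalgebra.mul_mem _ (Subalgebra.mul_mem _
        (Subalgebra.algebraMap_mem _ _) (X_mem_supported.2 (by simp)))
        (X_mem_supported.2 (by simp)))
    · refine relprime ((isHomogeneous_X _ _).C_mul _) hf0
        (fun p => if p = (0, 2) then 1 else if p = (1, 1) then 1 else 0) ?_ ?_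
      · simp
      · simpa using ht0
  · have he : dt t = (C (t 2) * X (1, 1) - C (t 1) * X (1, 2)) * X (0, 0) +
        (C (t 0) * (X (0, 1) * X (1, 2) - X (0, 2) * X (1, 1)) +
          C (t 1) * (X (0, 2) * X (1, 0)) - C (t 2) * (X (0, 1) * X (1, 0))) := by
      rw [dt_eq]
      ring
    have hf0 : (C (t 2) * X (1, 1) - C (t 1) * X (1, 2) :
        MvPolynomial (Fin 2 × Fin 3) ℂ) ≠ 0 := by
      intro h
      apply h12
      have h1 := congrArg (eval (fun p => if p = (1, 2) then 1 else 0)) h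
      have h2 := congrArg (eval (fun p => if p = (1, 1) then 1 else 0)) h
      simp at h1 h2
      exact ⟨h1, h2⟩
    rw [he]
    refine irreducible_mul_X_add _ _ _ hf0 (notin _ ?_) (notin _ ?_) ?_
    · exact Subalgebra.sub_mem _ (Subalgebra.mul_mem _ (Subalgebra.algebraMap_mem _ _)
        (X_mem_supported.2 (by simp))) (Subalgebra.mul_mem _ (Subalgebra.algebraMap_mem _ _)
        (X_mem_supported.2 (by simp)))
    · refine Subalgebra.sub_mem _ (Subalgebra.add_mem _ (Subalgebra.mul_mem _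
        (Subalgebra.algebraMap_mem _ _) (Subalgebra.sub_mem _ (Subalgebra.mul_mem _
        (X_mem_supported.2 (by simp)) (X_mem_supported.2 (by simp)))
        (Subalgebra.mul_mem _ (X_mem_supported.2 (by simp)) (X_mem_supported.2 (by simp)))))
        (Subalgebra.mul_mem _ (Subalgebra.algebraMap_mem _ _) (Subalgebra.mul_mem _
        (X_mem_supported.2 (by simp)) (X_mem_supported.2 (by simp)))))
        (Subalgebra.mul_mem _ (Subalgebra.algebraMap_mem _ _) (Subalgebra.mul_mem _
        (X_mem_supported.2 (by simp)) (X_mem_supported.2 (by simp))))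
    · have hh : (C (t 2) * X (1, 1) - C (t 1) * X (1, 2) :
          MvPolynomial (Fin 2 × Fin 3) ℂ).IsHomogeneous 1 :=
        ((isHomogeneous_X _ _).C_mul _).sub ((isHomogeneous_X _ _).C_mul _)
      by_cases h2 : t 2 = 0
      · have h1 : t 1 ≠ 0 := fun h1 => h12 ⟨h1, h2⟩
        refine relprime hh hf0
          (fun p => if p = (0, 2) then 1 else if p = (1, 0) then 1 else 0) ?_ ?_
        · simp
        · simpa using h1
      · refine relprime hh hf0
          (fun p => if p = (0, 1) then 1 else if p = (1, 0) then 1 else 0) ?_ ?_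
        · simp
        · simpa using h2

end DTI

theorem all_DTI : DTI := by
  intro t ht
  have hirr := DTI.irr t ht
  refine ⟨hirr, ?_⟩
  rintro t' ⟨H, hH⟩
  have h0 : dt t ≠ 0 := hirr.ne_zero
  have h0' : dt t' ≠ 0 := fun h => h0 (by rw [hH, h, zero_mul])
  have hH0 : H ≠ 0 := fun h => h0 (by rw [hH, h, mul_zero])
  have hd := congrArg MvPolynomial.totalDegree hH
  rw [totalDegree_mul_of_isDomain h0' hH0, (DTI.hom2 t).totalDegree h0,
    (DTI.hom2 t').totalDegree h0'] at hd
  have hH1 := (totalDegree_eq_zero_iff_eq_C (p := H)).1 (by omega)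
  refine ⟨coeff 0 H, ?_⟩
  rw [hH1] at hH
  funext i
  fin_cases i
  · have := congrArg (eval (fun p => if p = (0, 1) then 1 else if p = (1, 2) then 1 else 0)) hH
    rw [map_mul, DTI.val0, DTI.val0, eval_C, mul_comm] at this
    exact this
  · have := congrArg (eval (fun p => if p = (0, 2) then 1 else if p = (1, 0) then 1 else 0)) hH
    rw [map_mul, DTI.val1, DTI.val1, eval_C, mul_comm] at this
    exact this
  · have := congrArg (eval (fun p => if p = (0, 0) then 1 else if p = (1, 1) then 1 else 0)) hH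
    rw [map_mul, DTI.val2, DTI.val2, eval_C, mul_comm] at this
    exact this

end M4P
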