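import Pool.Agent.Work.MP_f82ddf_M4.Interface
set_option autoImplicit false

/-! # Theorem M, part P4, block ESY (helper87) -/

namespace M4P

namespace ESY
open MvPolynomial

theorem lf_hom (t : Fin 3 → ℂ) : (lf t).IsHomogeneous 1 := by
  unfold lf
  refine MvPolynomial.IsHomogeneous.sum _ _ _ fun i _ => ?_
  have h1 : (C (t i) * X i : P3).IsHomogeneous (0 + 1) :=
    (isHomogeneous_C (Fin 3) (t i)).mul (isHomogeneous_X ℂ i)
  rwa [zero_add] at h1

theorem prod_hom {ρ : ℕ} (t : Fin ρ → Fin 3 → ℂ) : (∏ i, lf (t i)).IsHomogeneous ρ := by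
  have h1 := MvPolynomial.IsHomogeneous.prod (Finset.univ : Finset (Fin ρ)) (fun i => lf (t i))
    (fun _ => 1) (fun i _ => lf_hom (t i))
  rwa [Finset.sum_const, Finset.card_univ, Fintype.card_fin, smul_eq_mul, mul_one] at h1

/-- the line `m0 + X m` -/
noncomputable def ev (m0 m : Fin 3 → ℂ) : P3 →ₐ[ℂ] Polynomial ℂ :=
  aeval fun j => Polynomial.C (m0 j) + Polynomial.C (m j) * Polynomial.X

theorem ev_lf (m0 m t : Fin 3 → ℂ) (h : ∑ j, t j * m0 j = 1) :
    ev m0 m (lf t) = 1 + Polynomial.C (∑ j, t j * m j) * Polynomial.X := by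
  unfold ev lf
  rw [map_sum]
  have h1 : ∀ i : Fin 3, aeval (fun j => Polynomial.C (m0 j) + Polynomial.C (m j) * Polynomial.X)
      (C (t i) * X i : P3) = Polynomial.C (t i * m0 i) +
        Polynomial.C (t i * m i) * Polynomial.X := by
    intro i
    rw [map_mul, aeval_C, aeval_X]
    simp only [Polynomial.algebraMap_eq, Polynomial.C_mul]
    ring
  rw [Finset.sum_congr rfl fun i _ => h1 i, Finset.sum_add_distrib, ← Finset.sum_mul,
    ← map_sum, ← map_sum, h, Polynomial.C_1]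

theorem coeff_prod {ρ : ℕ} (a : Fin ρ → ℂ) (k : ℕ) :
    (∏ i, (1 + Polynomial.C (a i) * Polynomial.X : Polynomial ℂ)).coeff k = esm ρ a k := by
  rw [Finset.prod_one_add, Polynomial.finsetSum_coeff]
  unfold esm
  have h1 : ∀ s : Finset (Fin ρ), (∏ i ∈ s, (Polynomial.C (a i) * Polynomial.X :
      Polynomial ℂ)).coeff k = if s.card = k then ∏ i ∈ s, a i else 0 := by
    intro s
    rw [Finset.prod_mul_distrib, Finset.prod_const, ← map_prod, Polynomial.coeff_C_mul,
      Polynomial.coeff_X_pow]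
    by_cases h : s.card = k
    · rw [if_pos h.symm, if_pos h, mul_one]
    · rw [if_neg (fun h' => h h'.symm), if_neg h, mul_zero]
  rw [Finset.sum_congr rfl fun s _ => h1 s, ← Finset.sum_filter, Finset.powersetCard_eq_filter]

theorem ev_coeff {ρ : ℕ} (m0 m : Fin 3 → ℂ) (P : P3) (hP : P.IsHomogeneous ρ) (k : ℕ) :
    (ev m0 m P).coeff k = ∑ s ∈ Finset.finsuppAntidiag (Finset.univ : Finset (Fin 3)) ρ,
      (∏ j, (Polynomial.C (m0 j) + Polynomial.C (m j) * Polynomial.X) ^ s j :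
        Polynomial ℂ).coeff k * P.coeff s := by
  unfold ev
  rw [aeval_def, eval₂_eq', Polynomial.finsetSum_coeff]
  have h1 : ∀ s : Fin 3 →₀ ℕ, (algebraMap ℂ (Polynomial ℂ) (P.coeff s) *
      ∏ j, (Polynomial.C (m0 j) + Polynomial.C (m j) * Polynomial.X) ^ s j).coeff k =
      (∏ j, (Polynomial.C (m0 j) + Polynomial.C (m j) * Polynomial.X) ^ s j :
        Polynomial ℂ).coeff k * P.coeff s := by
    intro s
    rw [Polynomial.algebraMap_eq, Polynomial.coeff_C_mul, mul_comm]
  rw [Finset.sum_congr rfl fun s _ => h1 s]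
  refine Finset.sum_subset ?_ ?_
  · intro s hs
    rw [Finset.mem_finsuppAntidiag]
    refine ⟨?_, Finset.subset_univ _⟩
    have h2 := hP (mem_support_iff.1 hs)
    rw [← h2]
    simp [Finsupp.weight_apply, Finsupp.sum_fintype]
  · intro s _ hs
    rw [notMem_support_iff.1 hs, mul_zero]

end ESY

open ESY in
theorem all_ESY : ESY := by
  intro ρ m0 m k
  have h1 : (fun t : SS ρ m0 => esm ρ (fun i => ∑ j, t.1 i j * m j) k) =
      ∑ s ∈ Finset.finsuppAntidiag (Finset.univ : Finset (Fin 3)) ρ,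
        (∏ j, (Polynomial.C (m0 j) + Polynomial.C (m j) * Polynomial.X) ^ s j :
          Polynomial ℂ).coeff k • fun t : SS ρ m0 => (∏ i, lf (t.1 i)).coeff s := by
    funext t
    rw [Finset.sum_apply]
    show _ = ∑ s ∈ Finset.finsuppAntidiag (Finset.univ : Finset (Fin 3)) ρ,
        (∏ j, (Polynomial.C (m0 j) + Polynomial.C (m j) * Polynomial.X) ^ s j :
          Polynomial ℂ).coeff k * (∏ i, lf (t.1 i)).coeff s
    rw [← ev_coeff m0 m _ (prod_hom t.1) k, map_prod,
      Finset.prod_congr rfl fun i _ => ev_lf m0 m (t.1 i) (t.2 i), coeff_prod]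
  rw [h1]
  refine Subalgebra.sum_mem _ fun s _ => Subalgebra.smul_mem _ ?_ _
  exact Algebra.subset_adjoin ⟨s, rfl⟩

end M4P
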