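import Pool.Agent.Work.MP_f82ddf_M4.Interface
set_option autoImplicit false

/-! # Block ETA (helper6): Newton approximation of a root -/

namespace M4P

namespace ETA

theorem coeff_eval (p : Polynomial (Polynomial ℂ)) (η : Polynomial ℂ) (hη : η.coeff 0 = 0) :
    (p.eval η).coeff 0 = (p.coeff 0).coeff 0 := by
  conv_lhs => rw [← Polynomial.divX_mul_X_add p]
  rw [Polynomial.eval_add, Polynomial.eval_mul, Polynomial.eval_X, Polynomial.eval_C,
    Polynomial.coeff_add, Polynomial.mul_coeff_zero, hη, mul_zero, zero_add]

end ETA

theorem all_ETA : ETA := by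
  intro b qt h0 h1
  induction b with
  | zero => exact ⟨0, by simp, by simp⟩
  | succ b ih =>
    rcases Nat.eq_zero_or_pos b with rfl | hb
    · refine ⟨0, by simp, ?_⟩
      rw [zero_add, pow_one, Polynomial.X_dvd_iff, ETA.coeff_eval _ _ (by simp)]
      exact h0
    · obtain ⟨η, hη, r, hr⟩ := ih
      have hd : ((Polynomial.derivative qt).eval η).coeff 0 ≠ 0 := by
        rw [ETA.coeff_eval _ _ hη, Polynomial.coeff_derivative]
        simpa using h1
      set dd : ℂ := ((Polynomial.derivative qt).eval η).coeff 0 with hdd
      set c : ℂ := -(r.coeff 0) / dd with hc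
      obtain ⟨k, hk⟩ := Polynomial.binomExpansion qt η (Polynomial.C c * Polynomial.X ^ b)
      refine ⟨η + Polynomial.C c * Polynomial.X ^ b, ?_, ?_⟩
      · rw [Polynomial.coeff_add, hη, Polynomial.mul_coeff_zero, Polynomial.coeff_X_pow]
        simp [hb.ne]
      · rw [hk, hr]
        have e : Polynomial.X ^ b * r + (Polynomial.derivative qt).eval η *
            (Polynomial.C c * Polynomial.X ^ b) + k * (Polynomial.C c * Polynomial.X ^ b) ^ 2 =
            Polynomial.X ^ b * (r + (Polynomial.derivative qt).eval η * Polynomial.C c +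
              k * Polynomial.C c ^ 2 * Polynomial.X ^ b) := by ring
        rw [e, pow_succ]
        apply mul_dvd_mul_left
        rw [Polynomial.X_dvd_iff, Polynomial.coeff_add, Polynomial.coeff_add,
          Polynomial.mul_coeff_zero, Polynomial.mul_coeff_zero, Polynomial.coeff_C_zero,
          Polynomial.coeff_X_pow, if_neg hb.ne, mul_zero, add_zero, ← hdd, hc]
        field_simp
        ring

end M4P
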