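import Pool.Agent.Work.MP_f82ddf_M4.Interface2
set_option autoImplicit false

/-! # Block EVZ (helper59): evaluation commutes with taking the value -/

open Topology Filter
open scoped Differential
open Pool.Agent.Work.MP_f82ddf_nt.DQ

namespace M4P
open MvPolynomial Pool.ThmM

namespace EVZ

private theorem rep_sum (hA : Stmt_ALG) {α : Type} (S : Finset α) (g : α → Mer) :
    ∀ᶠ z in codiscrete ℂ, rep (∑ s ∈ S, g s) z = ∑ s ∈ S, rep (g s) z := by
  classical
  obtain ⟨-, ha, -, -, -, -, hc, -⟩ := hA
  induction S using Finset.induction_on with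
  | empty =>
    have h := hc 0
    rw [map_zero] at h
    filter_upwards [h] with z hz
    rw [Finset.sum_empty, Finset.sum_empty, hz]
  | insert a S hS ih =>
    rw [Finset.sum_insert hS]
    filter_upwards [ih, ha (g a) (∑ s ∈ S, g s)] with z h1 h2
    rw [Finset.sum_insert hS, h2, h1]

end EVZ

open M4P.EVZ in
theorem all_EVZ (hA : Stmt_ALG) : M4P.EVZ := by
  intro F p
  have h0 : evC p F = ∑ s ∈ F.support, F.coeff s * algebraMap ℂ Mer (∏ i, p i ^ s i) := by
    unfold evC
    rw [MvPolynomial.eval_eq']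
    refine Finset.sum_congr rfl fun s _ => ?_
    rw [map_prod]
    simp only [map_pow]
  have h1 : ∀ z, eval p (spz F z) = ∑ s ∈ F.support, rep (F.coeff s) z * ∏ i, p i ^ s i := by
    intro z
    unfold spz
    rw [map_sum]
    refine Finset.sum_congr rfl fun s _ => ?_
    rw [MvPolynomial.eval_monomial, Finsupp.prod_fintype]
    intro i
    exact pow_zero _
  have h2 := rep_sum hA F.support
    (fun s => F.coeff s * algebraMap ℂ Mer (∏ i, p i ^ s i))
  have h3 : ∀ᶠ z in codiscrete ℂ, ∀ s ∈ F.support,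
      rep (F.coeff s * algebraMap ℂ Mer (∏ i, p i ^ s i)) z
        = rep (F.coeff s) z * ∏ i, p i ^ s i := by
    rw [Filter.eventually_all_finset]
    intro s _
    obtain ⟨-, -, -, hm, -, -, hc, -⟩ := hA
    filter_upwards [hm (F.coeff s) (algebraMap ℂ Mer (∏ i, p i ^ s i)), hc (∏ i, p i ^ s i)]
      with z h4 h5
    rw [h4, h5]
  filter_upwards [h2, h3] with z h4 h5
  rw [h0, h1, h4]
  exact Finset.sum_congr rfl h5

end M4P
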