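import Pool.Agent.Work.MP_f82ddf_M4.Interface3
set_option autoImplicit false

open Topology Filter
open scoped Differential
open Pool.Agent.Work.MP_f82ddf_nt.DQ

namespace M4P
open MvPolynomial Pool.ThmM Pool.Agent.Work.MP_f82ddf_M5

namespace EXF

/-- A codiscrete condition fails only on a countable set. -/
theorem cnt_of_cod {p : ℂ → Prop} (h : ∀ᶠ z in codiscrete ℂ, p z) : {z | ¬ p z}.Countable := by
  have h3 := (mem_codiscrete'.1 h).2
  exact (HereditarilyLindelofSpace.isLindelof _).countable_of_isDiscrete h3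

theorem exists_notMem {E : Set ℂ} (hE : E.Countable) : ∃ z, z ∉ E := by
  by_contra hcon
  push Not at hcon
  have h2 : (Set.univ : Set ℂ).Countable := hE.mono fun z _ => hcon z
  exact not_countable_complex h2

theorem rep_sum (hA : Stmt_ALG) {α : Type} (S : Finset α) (g : α → Mer) :
    ∀ᶠ z in codiscrete ℂ, rep (∑ s ∈ S, g s) z = ∑ s ∈ S, rep (g s) z := by
  classical
  obtain ⟨-, ha, -, -, -, -, hc, -⟩ := hA
  induction S using Finset.induction_on with
  | empty =>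
    have h := hc 0
    rw [map_zero] at h
    filter_upwards [h] with z hz
    rw [Finset.sum_empty, Finset.sum_empty, hz]
  | insert a S hS ih =>
    rw [Finset.sum_insert hS]
    filter_upwards [ih, ha (g a) (∑ s ∈ S, g s)] with z h1 h2
    rw [Finset.sum_insert hS, h2, h1]

open Classical in
theorem coeff_vz {σ : Type} (F : MvPolynomial σ Mer) (z : ℂ) (s : σ →₀ ℕ) :
    (vz F z).coeff s = if s ∈ F.support then rep (F.coeff s) z else 0 := by
  unfold vz
  rw [coeff_sum]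
  simp only [coeff_monomial]
  rw [Finset.sum_ite_eq']

theorem dt_hom (t : Fin 3 → ℂ) : (dt t).IsHomogeneous 2 := by
  have h : dt t = C (t 0) * (X (0, 1) * X (1, 2) - X (0, 2) * X (1, 1)) +
      C (t 1) * (X (0, 2) * X (1, 0) - X (0, 0) * X (1, 2)) +
      C (t 2) * (X (0, 0) * X (1, 1) - X (0, 1) * X (1, 0)) := by
    simp [dt, sb, lf, gC, Fin.sum_univ_three, algebraMap_eq]
  rw [h]
  have hX : ∀ (i j : Fin 2 × Fin 3), ((X i * X j : MvPolynomial (Fin 2 × Fin 3) ℂ)).IsHomogeneous 2 :=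
    fun i j => (isHomogeneous_X ℂ i).mul (isHomogeneous_X ℂ j)
  have hC : ∀ (c : ℂ) (P : MvPolynomial (Fin 2 × Fin 3) ℂ), P.IsHomogeneous 2 →
      (C c * P).IsHomogeneous 2 := fun c P hP => by
    have := (isHomogeneous_C (Fin 2 × Fin 3) c).mul hP
    rwa [zero_add] at this
  exact ((hC _ _ ((hX _ _).sub (hX _ _))).add (hC _ _ ((hX _ _).sub (hX _ _)))).add
    (hC _ _ ((hX _ _).sub (hX _ _)))

theorem lf_hom (t : Fin 3 → ℂ) : (lf t).IsHomogeneous 1 := by
  unfold lf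
  refine IsHomogeneous.sum _ _ _ fun i _ => ?_
  have := (isHomogeneous_C (Fin 3) (t i)).mul (isHomogeneous_X ℂ i)
  rwa [zero_add] at this

theorem prod_hom {σ : Type} {k n : ℕ} (c : ℂ) (f : Fin n → MvPolynomial σ ℂ)
    (hf : ∀ i, (f i).IsHomogeneous k) : (C c * ∏ i, f i).IsHomogeneous (n * k) := by
  have h1 := IsHomogeneous.prod Finset.univ f (fun _ => k) (fun i _ => hf i)
  have h2 := (isHomogeneous_C σ c).mul h1
  simpa using h2

theorem sb_prod {n : ℕ} (c : ℂ) (t : Fin n → Fin 3 → ℂ) :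
    sb (K := ℂ) gC (C c * ∏ i, lf (t i)) = C c * ∏ i, dt (t i) := by
  rw [map_mul, map_prod, algHom_C]
  rfl

end EXF

open EXF in
theorem all_EXF (hVZM : VZM) (hVZS : VZS) (hCRL : CRL) (hALG : Stmt_ALG) : EXF := by
  classical
  intro m Rp q E hRp hhom hE hfac
  obtain ⟨-, -, hne, heq, hvh⟩ := hVZM (Fin 2 × Fin 3)
  have hE1 := hE.union (cnt_of_cod (hne Rp hRp))
  -- the degree
  have hdeg : ∀ z, z ∉ E ∪ {z | ¬ vz Rp z ≠ 0} → ∃ (n : ℕ) (c : ℂ) (t : Fin n → Fin 3 → ℂ),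
      m = n * 2 ∧ vz Rp z = C c * ∏ i, dt (t i) ∧ ∀ i, t i ≠ 0 ∧ eval (t i) q = 0 := by
    intro z hz
    have hz1 : z ∉ E := fun h => hz (Or.inl h)
    have hz2 : vz Rp z ≠ 0 := by
      by_contra h
      exact hz (Or.inr (by simpa using h))
    obtain ⟨n, c, t, h1, h2⟩ := hfac z hz1
    refine ⟨n, c, t, ?_, h1, h2⟩
    have h3 := hvh Rp m z hhom
    have h4 := prod_hom c (fun i => dt (t i)) (fun i => dt_hom (t i))
    rw [← h1] at h4
    exact h3.inj_right h4 hz2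
  obtain ⟨z1, hz1⟩ := exists_notMem hE1
  obtain ⟨ρ, -, -, hmρ, -, -⟩ := hdeg z1 hz1
  have hfac2 : ∀ z, z ∉ E ∪ {z | ¬ vz Rp z ≠ 0} → ∃ (c : ℂ) (t : Fin ρ → Fin 3 → ℂ),
      vz Rp z = C c * ∏ i, dt (t i) ∧ ∀ i, t i ≠ 0 ∧ eval (t i) q = 0 := by
    intro z hz
    obtain ⟨n, c, t, h1, h2, h3⟩ := hdeg z hz
    have h4 : n = ρ := by omega
    subst h4
    exact ⟨c, t, h2, h3⟩
  obtain ⟨M, hM⟩ := hCRL ρ
  obtain ⟨T3, hT3⟩ : ∃ T3 : Finset (Fin 3 →₀ ℕ), T3 = Finset.finsuppAntidiag Finset.univ ρ := ⟨_, rfl⟩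
  have hmem : ∀ s, s ∈ T3 ↔ s.degree = ρ := by
    intro s
    rw [hT3, Finset.mem_finsuppAntidiag, Finsupp.degree_eq_sum]
    constructor
    · exact fun h => h.1
    · exact fun h => ⟨h, Finset.subset_univ _⟩
  obtain ⟨G, hG⟩ : ∃ G : (Fin 3 →₀ ℕ) → Mer, G = fun s => ∑ t ∈ Rp.support,
    algebraMap ℂ Mer (M s t) * Rp.coeff t := ⟨_, rfl⟩
  obtain ⟨F, hF⟩ : ∃ F : MvPolynomial (Fin 3) Mer, F = ∑ s ∈ T3, monomial s (G s) := ⟨_, rfl⟩
  have hFc : ∀ s, F.coeff s = if s ∈ T3 then G s else 0 := by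
    intro s
    rw [hF, coeff_sum]
    simp only [coeff_monomial]
    rw [Finset.sum_ite_eq']
  have hFhom : F.IsHomogeneous ρ := by
    rw [hF]
    refine IsHomogeneous.sum _ _ _ fun s hs => ?_
    exact isHomogeneous_monomial _ ((hmem s).1 hs)
  -- exceptional sets
  have e1 : ∀ᶠ z in codiscrete ℂ, rep (0 : Mer) z = 0 := by
    have h1 := hALG.2.2.2.2.2.2.1 0
    rw [map_zero] at h1
    exact h1
  have e2 : ∀ᶠ z in codiscrete ℂ, ∀ s ∈ T3, rep (G s) z = ∑ t ∈ Rp.support, M s t * rep (Rp.coeff t) z := by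
    rw [Filter.eventually_all_finset]
    intro s _
    have h1 := rep_sum hALG Rp.support (fun t => algebraMap ℂ Mer (M s t) * Rp.coeff t)
    have h2 : ∀ᶠ z in codiscrete ℂ, ∀ t ∈ Rp.support,
        rep (algebraMap ℂ Mer (M s t) * Rp.coeff t) z = M s t * rep (Rp.coeff t) z := by
      rw [Filter.eventually_all_finset]
      intro t _
      obtain ⟨-, -, -, hm, -, -, hc, -⟩ := hALG
      filter_upwards [hm (algebraMap ℂ Mer (M s t)) (Rp.coeff t), hc (M s t)] with z h4 h5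
      rw [h4, h5]
    filter_upwards [h1, h2] with z h3 h4
    rw [hG]
    rw [h3]
    exact Finset.sum_congr rfl h4
  have hE2 := (hE1.union (cnt_of_cod e1)).union (cnt_of_cod e2)
  have key : ∀ z, z ∉ (E ∪ {z | ¬ vz Rp z ≠ 0}) ∪ {z | ¬ rep (0 : Mer) z = 0} ∪
      {z | ¬ ∀ s ∈ T3, rep (G s) z = ∑ t ∈ Rp.support, M s t * rep (Rp.coeff t) z} →
      ∃ (c : ℂ) (t : Fin ρ → Fin 3 → ℂ), vz Rp z = C c * ∏ i, dt (t i) ∧
        vz F z = C c * ∏ i, lf (t i) ∧ ∀ i, t i ≠ 0 ∧ eval (t i) q = 0 := by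
    intro z hz
    have hz1 : z ∉ E ∪ {z | ¬ vz Rp z ≠ 0} := fun h => hz (Or.inl (Or.inl h))
    have hz2 : rep (0 : Mer) z = 0 := by
      by_contra h
      exact hz (Or.inl (Or.inr h))
    have hz3 : ∀ s ∈ T3, rep (G s) z = ∑ t ∈ Rp.support, M s t * rep (Rp.coeff t) z := by
      by_contra h
      exact hz (Or.inr h)
    obtain ⟨c, t, h1, h2⟩ := hfac2 z hz1
    refine ⟨c, t, h1, ?_, h2⟩
    have hLhom : (C c * ∏ i, lf (t i)).IsHomogeneous ρ := by
      have := prod_hom c (fun i => lf (t i)) (fun i => lf_hom (t i))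
      rwa [mul_one] at this
    have hsb := sb_prod c t
    rw [← h1] at hsb
    ext s
    have h3 : (vz F z).coeff s = rep (F.coeff s) z := by
      rw [coeff_vz]
      split_ifs with h
      · rfl
      · rw [notMem_support_iff.1 h, hz2]
    rw [h3, hFc]
    split_ifs with hs
    · rw [hz3 s hs, hM ℂ _ hLhom s, hsb]
      have hsub : (vz Rp z).support ⊆ Rp.support := by
        intro a ha
        rw [mem_support_iff, coeff_vz] at ha
        by_contra h
        rw [if_neg h] at ha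
        exact ha rfl
      rw [Finset.sum_subset hsub]
      · refine Finset.sum_congr rfl fun a ha => ?_
        rw [coeff_vz, if_pos ha]
        rfl
      · intro a _ ha
        rw [notMem_support_iff.1 ha, mul_zero]
    · rw [hz2]
      exact (hLhom.coeff_eq_zero (fun h => hs ((hmem s).2 h))).symm
  have hsbF : sb gC F = Rp := by
    have hv := (hVZS (Fin 3) (Fin 2 × Fin 3) gC F).1
    refine heq _ _ _ (hE2.union (cnt_of_cod hv)) fun z hz => ?_
    have hz1 := fun h => hz (Or.inl h)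
    have hz2 : vz (sb gC F) z = sb gC (vz F z) := by
      by_contra h
      exact hz (Or.inr h)
    obtain ⟨c, t, h1, h2, -⟩ := key z hz1
    rw [hz2, h2, sb_prod, h1]
  refine ⟨ρ, F, _, hFhom, ?_, hsbF, hE2, ?_⟩
  · rintro rfl
    apply hRp
    rw [← hsbF, map_zero]
  · intro z hz
    obtain ⟨c, t, -, h2, h3⟩ := key z hz
    exact ⟨c, t, h2, h3⟩

end M4P

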