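import Pool.Agent.Work.MP_f82ddf_M4.Interface3
set_option autoImplicit false

/-! # Theorem M, part P3b, block FACN: divisors of the numeric Chow form -/

open Topology Filter
open scoped Differential
open Pool.Agent.Work.MP_f82ddf_nt.DQ

namespace M4P.FACN
open MvPolynomial Pool.ThmM M4P Pool.Agent.Work.MP_f82ddf_M5

/-- A prime polynomial divides every polynomial which vanishes on its zeros. -/
theorem dvd_of_zeros {σ : Type} [Finite σ] (p g : MvPolynomial σ ℂ) (hp : Prime p)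
    (h : ∀ b : σ → ℂ, eval b p = 0 → eval b g = 0) : p ∣ g := by
  have hI : (Ideal.span {p}).IsPrime := (Ideal.span_singleton_prime hp.ne_zero).mpr hp
  have h1 := MvPolynomial.IsPrime.vanishingIdeal_zeroLocus (K := ℂ) (Ideal.span {p})
  rw [← Ideal.mem_span_singleton, ← h1, mem_vanishingIdeal_iff]
  intro b hb
  rw [zeroLocus_span] at hb
  have h2 : aeval b p = 0 := hb p (Set.mem_singleton p)
  exact h b h2

theorem step {d D : ℕ} {q X' : P3} {V : Finset (Fin 3 → ℂ)} (hDTI : M4P.DTI)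
    (hV : ∀ v ∈ V, v ≠ 0 ∧ eval v q = 0)
    (hZ : ∀ (b : Fin 2 × Fin 3 → ℂ) (t0 : Fin 3 → ℂ), eval b (chow d D q X') = 0 →
      eval b (dt t0 * ∏ v ∈ V, dt v) = 0)
    (p : MvPolynomial (Fin 2 × Fin 3) ℂ) (hp : Prime p) (hpd : p ∣ chow d D q X') :
    ∃ (r : ℂ) (v : Fin 3 → ℂ), p = C r * dt v ∧ v ≠ 0 ∧ eval v q = 0 := by
  have h1 : ∀ t0, p ∣ dt t0 * ∏ v ∈ V, dt v := by
    intro t0
    refine dvd_of_zeros p _ hp fun b hb => hZ b t0 ?_
    obtain ⟨s, hs⟩ := hpd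
    rw [hs, map_mul, hb, zero_mul]
  have h2 : ∃ v ∈ V, p ∣ dt v := by
    by_contra hcon
    have h3 : ¬ p ∣ ∏ v ∈ V, dt v := by
      intro h
      exact hcon ((Prime.dvd_finsetProd_iff hp _).mp h)
    have h4 : ∀ t0, p ∣ dt t0 := fun t0 => (hp.dvd_or_dvd (h1 t0)).resolve_right h3
    have e0 : (![1, 0, 0] : Fin 3 → ℂ) ≠ 0 := by
      intro h
      have := congrFun h 0
      simp at this
    have e1 : (![0, 1, 0] : Fin 3 → ℂ) ≠ 0 := by
      intro h
      have := congrFun h 1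
      simp at this
    have h5 : Associated p (dt ![1, 0, 0]) :=
      hp.irreducible.associated_of_dvd (hDTI _ e0).1 (h4 _)
    have h6 : Associated p (dt ![0, 1, 0]) :=
      hp.irreducible.associated_of_dvd (hDTI _ e1).1 (h4 _)
    obtain ⟨c, hc⟩ := (hDTI _ e0).2 ![0, 1, 0] ((h6.symm.trans h5).dvd)
    have := congrFun hc 0
    simp at this
  obtain ⟨v, hvV, hpv⟩ := h2
  obtain ⟨hv0, hvq⟩ := hV v hvV
  have h7 : Associated (dt v) p :=
    (hp.irreducible.associated_of_dvd (hDTI _ hv0).1 hpv).symm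
  obtain ⟨w, hw⟩ := h7
  obtain ⟨r, -, hr⟩ := (isUnit_iff_eq_C_of_isReduced (P := (w : MvPolynomial (Fin 2 × Fin 3) ℂ))).mp
    w.isUnit
  exact ⟨r, v, by rw [← hw, hr, mul_comm], hv0, hvq⟩

end M4P.FACN

namespace M4P
open MvPolynomial Pool.ThmM Pool.Agent.Work.MP_f82ddf_M5

theorem all_FACN : M4P.ZRN → M4P.DTI → Stmt_LINE → M4P.FACN := by
  intro hZRN hDTI hLINE d D q X' hq hqh hXh hq1 hd hD hnd R' hR'
  obtain ⟨V, hV, hZ⟩ := hZRN d D q X' hq hqh hXh hq1 hd hD hnd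
  have hG : chow d D q X' ≠ 0 := hLINE 3 d D q X' hq hqh hXh hnd
  revert hR'
  induction R' using UniqueFactorizationMonoid.induction_on_prime with
  | h₁ =>
    intro h
    exact absurd (zero_dvd_iff.mp h) hG
  | h₂ x hx =>
    intro _
    obtain ⟨r, -, hr⟩ := isUnit_iff_eq_C_of_isReduced.mp hx
    refine ⟨0, r, fun i => i.elim0, ?_, fun i => i.elim0⟩
    rw [hr]
    simp
  | h₃ a p ha hp ih =>
    intro h
    obtain ⟨n, c, t, hR, ht⟩ := ih (dvd_trans (Dvd.intro_left _ rfl) h)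
    obtain ⟨r, v, hpv, hv0, hvq⟩ := FACN.step hDTI hV hZ p hp (dvd_trans (Dvd.intro _ rfl) h)
    refine ⟨n + 1, r * c, Fin.cons v t, ?_, ?_⟩
    · rw [Fin.prod_univ_succ]
      simp only [Fin.cons_zero, Fin.cons_succ]
      rw [hpv, hR, C_mul]
      ring
    · intro i
      refine Fin.cases ?_ ?_ i
      · exact ⟨hv0, hvq⟩
      · intro j
        exact ht j

end M4P
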