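import Pool.Agent.Work.MP_f82ddf_M4.Interface

set_option autoImplicit false

/-! # Block FIN (helper52): two forms without common factor have finitely many common zeros -/

namespace M4P
namespace FIN

open MvPolynomial

noncomputable section

abbrev R2 := MvPolynomial (Fin 2) ℂ

theorem bez0 {R K : Type} [CommRing R] [IsDomain R] [IsGCDMonoid R] [Field K] [Algebra R K]
    [IsFractionRing R K] (F H : Polynomial R) (hF : Irreducible F) (hd : F.natDegree ≠ 0)
    (hH : ¬ F ∣ H) :
    ∃ r : R, r ≠ 0 ∧ ∃ U V : Polynomial R, F * U + H * V = Polynomial.C r := by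
  have hi := IsFractionRing.injective R K
  have hp : F.IsPrimitive := hF.isPrimitive hd
  have h1 : Irreducible (F.map (algebraMap R K)) :=
    hp.irreducible_iff_irreducible_map_fraction_map.1 hF
  have h2 : ¬ F.map (algebraMap R K) ∣ H.map (algebraMap R K) :=
    fun h => hH (hp.dvd_of_fraction_map_dvd_fraction_map h)
  have h3 : IsCoprime (F.map (algebraMap R K)) (H.map (algebraMap R K)) :=
    (h1.coprime_iff_not_dvd).2 h2
  have hne : Polynomial.resultant F H ≠ 0 := by
    intro h0
    have h4 := Polynomial.resultant_map_map F H F.natDegree H.natDegree (algebraMap R K)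
    rw [h0, map_zero] at h4
    have h5 : Polynomial.resultant (F.map (algebraMap R K)) (H.map (algebraMap R K)) = 0 := by
      rw [Polynomial.natDegree_map_eq_of_injective hi, Polynomial.natDegree_map_eq_of_injective hi]
      exact h4
    exact (Polynomial.resultant_eq_zero_iff.1 h5).2 h3
  obtain ⟨U, V, -, -, h⟩ := Polynomial.exists_mul_add_mul_eq_C_resultant F H
    le_rfl le_rfl (Or.inl hd)
  exact ⟨_, hne, U, V, h⟩

theorem bez (F H : Polynomial R2) (hF : Irreducible F) (hd : F.natDegree ≠ 0) (hH : ¬ F ∣ H) :
    ∃ r : R2, r ≠ 0 ∧ ∃ U V : Polynomial R2, F * U + H * V = Polynomial.C r :=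
  bez0 (K := FractionRing R2) F H hF hd hH

/-- the main variable is `X 1` -/
def Ph : P3 ≃ₐ[ℂ] Polynomial R2 :=
  (renameEquiv ℂ (Equiv.swap (0 : Fin 3) 1)).trans (finSuccEquiv ℂ 2)

theorem Ph_ev (t : Fin 3 → ℂ) (p : P3) :
    Polynomial.eval (t 1) ((Ph p).map (eval ![t 0, t 2])) = eval t p := by
  induction p using MvPolynomial.induction_on with
  | C a =>
    have : Ph (C a) = Polynomial.C (C a) := by
      have h := Ph.commutes a
      rw [← MvPolynomial.algebraMap_eq, h]
      rfl
    rw [this]
    simp
  | add p q hp hq =>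
    rw [map_add, Polynomial.map_add, Polynomial.eval_add, hp, hq, map_add]
  | mul_X p i hp =>
    rw [map_mul, Polynomial.map_mul, Polynomial.eval_mul, hp, map_mul]
    refine congrArg₂ (· * ·) rfl ?_
    fin_cases i
    · have : Ph (X 0) = Polynomial.C (X 0) := by
        show finSuccEquiv ℂ 2 (rename (Equiv.swap (0 : Fin 3) 1) (X 0)) = _
        rw [rename_X]
        exact finSuccEquiv_X_succ (j := 0)
      simp [this]
    · have : Ph (X 1) = Polynomial.X := by
        show finSuccEquiv ℂ 2 (rename (Equiv.swap (0 : Fin 3) 1) (X 1)) = _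
        rw [rename_X, Equiv.swap_apply_right]
        exact finSuccEquiv_X_zero
      simp [this]
    · have : Ph (X 2) = Polynomial.C (X 1) := by
        show finSuccEquiv ℂ 2 (rename (Equiv.swap (0 : Fin 3) 1) (X 2)) = _
        rw [rename_X]
        exact finSuccEquiv_X_succ (j := 1)
      simp [this]

theorem hom_smul {σ : Type} [Fintype σ] {n : ℕ} {p : MvPolynomial σ ℂ} (hp : p.IsHomogeneous n)
    (c : ℂ) (t : σ → ℂ) : eval (c • t) p = c ^ n * eval t p := by
  rw [eval_eq, eval_eq, Finset.mul_sum]
  refine Finset.sum_congr rfl fun s hs => ?_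
  have h1 : s.degree = n := by
    by_contra h
    exact (mem_support_iff.1 hs) (hp.coeff_eq_zero h)
  rw [← h1]
  have h2 : ∏ i ∈ s.support, (c • t) i ^ s i = c ^ s.degree * ∏ i ∈ s.support, t i ^ s i := by
    simp only [Pi.smul_apply, smul_eq_mul, mul_pow, Finset.prod_mul_distrib]
    refine congrArg₂ (· * ·) ?_ rfl
    rw [Finset.prod_pow_eq_pow_sum]
    rfl
  rw [h2]
  ring

/-- the common zeros lie over finitely many directions -/
theorem dirs (r : R2) (hr : r ≠ 0) : ∃ D : Finset (Fin 2 → ℂ), (∀ w ∈ D, w ≠ 0) ∧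
    ∀ w : Fin 2 → ℂ, w ≠ 0 → (∀ c : ℂ, eval (c • w) r = 0) → ∃ v ∈ D, ∃ c : ℂ, w = c • v := by
  classical
  obtain ⟨k, hk⟩ : ∃ k, homogeneousComponent k r ≠ 0 := by
    by_contra h
    push Not at h
    apply hr
    rw [← sum_homogeneousComponent r]
    exact Finset.sum_eq_zero fun i _ => h i
  set g := homogeneousComponent k r with hg
  have hgh : g.IsHomogeneous k := homogeneousComponent_isHomogeneous k r
  -- the zeros of `r` on lines are zeros of `g`
  have hz : ∀ w : Fin 2 → ℂ, (∀ c : ℂ, eval (c • w) r = 0) → eval w g = 0 := by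
    intro w hw
    set N := r.totalDegree + 1 with hN
    let P : Polynomial ℂ := ∑ i ∈ Finset.range N,
      Polynomial.C (eval w (homogeneousComponent i r)) * Polynomial.X ^ i
    have hP : P = 0 := by
      apply Polynomial.funext
      intro c
      have h1 := hw c
      conv at h1 => lhs; rw [← sum_homogeneousComponent r]
      rw [map_sum] at h1
      rw [Polynomial.eval_zero, ← h1, Polynomial.eval_finsetSum]
      refine Finset.sum_congr rfl fun i _ => ?_
      rw [Polynomial.eval_mul, Polynomial.eval_C, Polynomial.eval_pow, Polynomial.eval_X,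
        hom_smul (homogeneousComponent_isHomogeneous i r) c w, mul_comm]
    by_cases hkN : k < N
    · have h1 : P.coeff k = eval w g := by
        simp only [P, Polynomial.finsetSum_coeff, Polynomial.coeff_C_mul, Polynomial.coeff_X_pow]
        rw [Finset.sum_eq_single k]
        · simp [hg]
        · intro b _ hb
          simp [Ne.symm hb]
        · intro h
          exact absurd (Finset.mem_range.2 hkN) h
      rw [← h1, hP, Polynomial.coeff_zero]
    · exact absurd (homogeneousComponent_eq_zero k r (by omega)) hk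
  let G : Polynomial ℂ := aeval ![Polynomial.X, 1] g
  have hGe : ∀ x, Polynomial.eval x G = eval ![x, 1] g := by
    intro x
    have h : ∀ p : R2, Polynomial.eval x (aeval ![Polynomial.X, (1 : Polynomial ℂ)] p) =
        eval ![x, 1] p := by
      intro p
      induction p using MvPolynomial.induction_on with
      | C a => simp
      | add p q hp hq => rw [map_add, Polynomial.eval_add, hp, hq, map_add]
      | mul_X p i hp =>
        rw [map_mul, Polynomial.eval_mul, hp, map_mul]
        refine congrArg₂ (· * ·) rfl ?_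
        fin_cases i <;> simp
    exact h g
  have hsc : ∀ w : Fin 2 → ℂ, w 1 ≠ 0 → eval w g = w 1 ^ k * Polynomial.eval (w 0 / w 1) G := by
    intro w hw
    rw [hGe, ← hom_smul hgh]
    congr 2
    funext i
    fin_cases i
    · simp [mul_div_cancel₀ _ hw]
    · simp
  have hG : G ≠ 0 := by
    intro h0
    have h1 : g * X 1 = 0 := by
      apply MvPolynomial.funext
      intro w
      rw [map_mul, eval_X, map_zero]
      by_cases hw : w 1 = 0
      · rw [hw, mul_zero]
      · rw [hsc w hw, h0, Polynomial.eval_zero, mul_zero, zero_mul]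
    rcases mul_eq_zero.1 h1 with h2 | h2
    · exact hk h2
    · exact X_ne_zero 1 h2
  refine ⟨insert ![1, 0] (G.roots.toFinset.image fun x => ![x, 1]), ?_, ?_⟩
  · intro w hw
    rw [Finset.mem_insert, Finset.mem_image] at hw
    rcases hw with rfl | ⟨x, _, rfl⟩
    · intro h
      have := congrFun h 0
      simp at this
    · intro h
      have := congrFun h 1
      simp at this
  · intro w hw hwz
    by_cases h1 : w 1 = 0
    · refine ⟨![1, 0], Finset.mem_insert_self _ _, w 0, ?_⟩
      funext i
      fin_cases i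
      · simp
      · simp [h1]
    · refine ⟨![w 0 / w 1, 1], Finset.mem_insert_of_mem (Finset.mem_image_of_mem _ ?_), w 1, ?_⟩
      · rw [Multiset.mem_toFinset, Polynomial.mem_roots hG, Polynomial.IsRoot.def]
        have h2 := hz w hwz
        rw [hsc w h1] at h2
        exact (mul_eq_zero.1 h2).resolve_left (pow_ne_zero _ h1)
      · funext i
        fin_cases i
        · simp [mul_div_cancel₀ _ h1]
        · simp

/-- `q` restricted to a line of direction `w` is not zero -/
theorem line {d : ℕ} {q : P3} (hq : q.IsHomogeneous d) (hq1 : eval ![0, 1, 0] q ≠ 0)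
    (w : Fin 2 → ℂ) : (Ph q).map (eval w) ≠ 0 := by
  intro h0
  have h1 : ∀ y : ℂ, eval ![w 0, y, w 1] q = 0 := by
    intro y
    rw [← Ph_ev]
    have e : (![w 0, w 1] : Fin 2 → ℂ) = w := by
      funext i
      fin_cases i <;> rfl
    show Polynomial.eval y ((Ph q).map (eval ![w 0, w 1])) = 0
    rw [e, h0, Polynomial.eval_zero]
  let P : Polynomial ℂ := aeval ![Polynomial.C (w 0) * Polynomial.X, 1,
    Polynomial.C (w 1) * Polynomial.X] q
  have hPe : ∀ s, Polynomial.eval s P = eval ![w 0 * s, 1, w 1 * s] q := by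
    intro s
    have h : ∀ p : P3, Polynomial.eval s (aeval ![Polynomial.C (w 0) * Polynomial.X, 1,
        Polynomial.C (w 1) * Polynomial.X] p) = eval ![w 0 * s, 1, w 1 * s] p := by
      intro p
      induction p using MvPolynomial.induction_on with
      | C a => simp
      | add p q hp hq => rw [map_add, Polynomial.eval_add, hp, hq, map_add]
      | mul_X p i hp =>
        rw [map_mul, Polynomial.eval_mul, hp, map_mul]
        refine congrArg₂ (· * ·) rfl ?_
        fin_cases i <;> simp
    exact h q
  have h2 : P * Polynomial.X = 0 := by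
    apply Polynomial.funext
    intro s
    rw [Polynomial.eval_mul, Polynomial.eval_X, Polynomial.eval_zero]
    by_cases hs : s = 0
    · rw [hs, mul_zero]
    · rw [hPe]
      have e : (![w 0 * s, 1, w 1 * s] : Fin 3 → ℂ) = s • ![w 0, s⁻¹, w 1] := by
        funext i
        fin_cases i
        · simp [mul_comm]
        · simp [hs]
        · simp [mul_comm]
      rw [e, hom_smul hq, h1, mul_zero, zero_mul]
  have h3 : P = 0 := (mul_eq_zero.1 h2).resolve_right Polynomial.X_ne_zero
  apply hq1
  have h4 := hPe 0
  rw [h3, Polynomial.eval_zero, mul_zero, mul_zero] at h4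
  exact h4.symm

end
end FIN

open MvPolynomial FIN in
theorem all_FIN : FIN := by
  classical
  intro d e q H hirr hq hH hq1 hndvd
  have hd : d ≠ 0 := by
    rintro rfl
    have h1 : q.totalDegree = 0 := (totalDegree_zero_iff_isHomogeneous _).2 hq
    rw [totalDegree_eq_zero_iff_eq_C] at h1
    apply hirr.not_isUnit
    rw [h1]
    rw [h1, eval_C] at hq1
    exact (isUnit_iff_ne_zero.2 hq1).map C
  have hF : Irreducible (Ph q) := (MulEquiv.irreducible_iff Ph).2 hirr
  have hnd : ¬ Ph q ∣ Ph H := fun h => hndvd ((map_dvd_iff Ph).1 h)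
  have hdeg : (Ph q).natDegree ≠ 0 := by
    intro h0
    obtain ⟨r, hr⟩ := Polynomial.natDegree_eq_zero.1 h0
    have h1 := Ph_ev ![0, 1, 0] q
    have h2 := Ph_ev ((0 : ℂ) • ![0, 1, 0]) q
    rw [← hr] at h1 h2
    rw [hom_smul hq, zero_pow hd, zero_mul] at h2
    apply hq1
    rw [← h1]
    simp only [Polynomial.map_C, Polynomial.eval_C] at h2 ⊢
    rw [zero_smul] at h2
    exact h2
  obtain ⟨r, hr, U, V, hUV⟩ := bez (Ph q) (Ph H) hF hdeg hnd
  obtain ⟨D, hD0, hD⟩ := dirs r hr
  refine ⟨D.biUnion fun w => ((Ph q).map (eval w)).roots.toFinset.image fun y => ![w 0, y, w 1],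
    ?_, ?_⟩
  · intro v hv
    rw [Finset.mem_biUnion] at hv
    obtain ⟨w, hw, hv⟩ := hv
    rw [Finset.mem_image] at hv
    obtain ⟨y, _, rfl⟩ := hv
    intro h
    apply hD0 w hw
    funext i
    fin_cases i
    · exact congrFun h 0
    · exact congrFun h 2
  · intro t ht htq htH
    have hline : ∀ c : ℂ, eval (c • ![t 0, t 2]) r = 0 := by
      intro c
      have h1 : eval (c • t) q = 0 := by rw [hom_smul hq, htq, mul_zero]
      have h2 : eval (c • t) H = 0 := by rw [hom_smul hH, htH, mul_zero]
      have h3 := congrArg (fun p => Polynomial.eval ((c • t) 1)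
        (Polynomial.map (eval ![(c • t) 0, (c • t) 2]) p)) hUV
      simp only [Polynomial.map_add, Polynomial.map_mul, Polynomial.eval_add, Polynomial.eval_mul,
        Polynomial.map_C, Polynomial.eval_C] at h3
      rw [Ph_ev, Ph_ev, h1, h2, zero_mul, zero_mul, zero_add] at h3
      rw [h3]
      congr 2
      funext i
      fin_cases i <;> simp
    have hne : (![t 0, t 2] : Fin 2 → ℂ) ≠ 0 := by
      intro h
      have h0 : t 0 = 0 := congrFun h 0
      have h2 : t 2 = 0 := congrFun h 1
      have h1 : t = t 1 • ![0, 1, 0] := by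
        funext i
        fin_cases i
        · simp [h0]
        · simp
        · simp [h2]
      rw [h1, hom_smul hq] at htq
      have h3 : t 1 = 0 := by
        by_contra h3
        exact (mul_ne_zero (pow_ne_zero _ h3) hq1) htq
      apply ht
      funext i
      fin_cases i
      · exact h0
      · exact h3
      · exact h2
    obtain ⟨w, hw, c, hc⟩ := hD _ hne hline
    have hc0 : c ≠ 0 := by
      rintro rfl
      exact hne (by rw [hc, zero_smul])
    have h0 : t 0 = c * w 0 := congrFun hc 0
    have h2 : t 2 = c * w 1 := congrFun hc 1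
    have hv : t = c • ![w 0, t 1 / c, w 1] := by
      funext i
      fin_cases i
      · simp [h0]
      · simp [mul_div_cancel₀ _ hc0]
      · simp [h2]
    refine ⟨![w 0, t 1 / c, w 1], ?_, c, hv⟩
    rw [Finset.mem_biUnion]
    refine ⟨w, hw, Finset.mem_image_of_mem (fun y => ![w 0, y, w 1]) ?_⟩
    rw [Multiset.mem_toFinset, Polynomial.mem_roots (line hq hq1 w), Polynomial.IsRoot.def]
    rw [hv, hom_smul hq] at htq
    have h4 := (mul_eq_zero.1 htq).resolve_left (pow_ne_zero _ hc0)
    rw [← Ph_ev] at h4
    have e : (![w 0, w 1] : Fin 2 → ℂ) = w := by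
      funext i
      fin_cases i <;> rfl
    rw [← e]
    exact h4

end M4P
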