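import Pool.Agent.Work.MP_f82ddf_M4.Interface3
import Pool.Agent.Work.MP_f82ddf_M4.B_DTI
set_option autoImplicit false

/-! Block FIX: removal of the constant factors. -/

open Topology Filter
open scoped Differential
open Pool.Agent.Work.MP_f82ddf_nt.DQ

namespace M4P
open MvPolynomial Pool.ThmM Pool.Agent.Work.MP_f82ddf_M5

namespace FIX

theorem cnt_of_cod {p : ℂ → Prop} (h : ∀ᶠ z in codiscrete ℂ, p z) : {z | ¬ p z}.Countable := by
  have h3 := (mem_codiscrete'.1 h).2
  exact (HereditarilyLindelofSpace.isLindelof _).countable_of_isDiscrete h3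

theorem lf_hom (t : Fin 3 → ℂ) : (lf t).IsHomogeneous 1 := by
  unfold lf
  exact IsHomogeneous.sum _ _ _ fun i _ => (isHomogeneous_X _ _).C_mul _

theorem lf_eval (t : Fin 3 → ℂ) (i : Fin 3) : eval (fun j => if j = i then 1 else 0) (lf t) = t i := by
  unfold lf
  simp

theorem lf_ne (t : Fin 3 → ℂ) (h : t ≠ 0) : lf t ≠ 0 := by
  intro h0
  apply h
  funext i
  rw [← lf_eval t i, h0, map_zero]
  rfl

theorem lf_irr (t : Fin 3 → ℂ) (h : t ≠ 0) : Irreducible (lf t) :=
  DTI.irr_lin (lf_hom t) (lf_ne t h)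

theorem lf_smul (c : ℂ) (t : Fin 3 → ℂ) : lf (c • t) = C c * lf t := by
  unfold lf
  rw [Finset.mul_sum]
  refine Finset.sum_congr rfl fun i _ => ?_
  rw [Pi.smul_apply, smul_eq_mul, C_mul, mul_assoc]

/-- homogeneity: scaling of the zeros -/
theorem eval_smul {d : ℕ} {q : P3} (hq : q.IsHomogeneous d) (c : ℂ) (t : Fin 3 → ℂ)
    (h : eval t q = 0) : eval (c • t) q = 0 := by
  have h1 : eval (c • t) q = c ^ d * eval t q := by
    rw [eval_eq, eval_eq, Finset.mul_sum]
    refine Finset.sum_congr rfl fun s hs => ?_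
    have h2 : ∏ i ∈ s.support, (c • t) i ^ s i = c ^ d * ∏ i ∈ s.support, t i ^ s i := by
      have h3 : ∑ i ∈ s.support, s i = d := by
        have h4 := hq (mem_support_iff.1 hs)
        rw [Finsupp.weight_apply] at h4
        simpa [Finsupp.sum] using h4
      rw [← h3, ← Finset.prod_pow_eq_pow_sum, ← Finset.prod_mul_distrib]
      refine Finset.prod_congr rfl fun i _ => ?_
      rw [Pi.smul_apply, smul_eq_mul, mul_pow]
    rw [h2]
    ring
  rw [h1, h, mul_zero]

/-- cancelling a linear factor -/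
theorem cancel {ρ : ℕ} (v : Fin 3 → ℂ) (hv : v ≠ 0) (P : P3) (hP : P ≠ 0) (c : ℂ)
    (t : Fin (ρ + 1) → Fin 3 → ℂ) (ht : ∀ i, t i ≠ 0) (h : lf v * P = C c * ∏ i, lf (t i)) :
    ∃ (i : Fin (ρ + 1)) (c' : ℂ), P = C c' * ∏ j, lf (t (i.succAbove j)) := by
  have hirr := lf_irr v hv
  have hpr := hirr.prime
  have h0 : lf v * P ≠ 0 := mul_ne_zero (lf_ne v hv) hP
  have hc : c ≠ 0 := by
    intro hc
    rw [hc, C_0, zero_mul] at h
    exact h0 h
  have hd : lf v ∣ C c * ∏ i, lf (t i) := ⟨P, h.symm⟩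
  rcases hpr.dvd_or_dvd hd with h1 | h1
  · exfalso
    have : IsUnit (C c : P3) := (isUnit_iff_ne_zero.2 hc).map C
    exact hpr.not_isUnit (isUnit_of_dvd_unit h1 this)
  · obtain ⟨i, _, hi⟩ := (Prime.dvd_finsetProd_iff hpr _).1 h1
    obtain ⟨G, hG⟩ := hi
    have hne := lf_ne (t i) (ht i)
    have hG0 : G ≠ 0 := fun h2 => hne (by rw [hG, h2, mul_zero])
    have hdeg := congrArg MvPolynomial.totalDegree hG
    rw [totalDegree_mul_of_isDomain (lf_ne v hv) hG0, (lf_hom v).totalDegree (lf_ne v hv),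
      (lf_hom (t i)).totalDegree hne] at hdeg
    have hG1 := (totalDegree_eq_zero_iff_eq_C (p := G)).1 (by omega)
    refine ⟨i, c * coeff 0 G, ?_⟩
    have h2 : lf v * P = lf v * (C (c * coeff 0 G) * ∏ j, lf (t (i.succAbove j))) := by
      rw [h, Fin.prod_univ_succAbove _ i, hG, C_mul, ← hG1]
      ring
    exact mul_left_cancel₀ (lf_ne v hv) h2

end FIX

theorem all_FIX : LFD → VZM → FIX := by
  intro hLFD hVZM ρ
  obtain ⟨V1, V2, V3, _, _⟩ := hVZM (Fin 3)
  induction ρ with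
  | zero =>
    intro d q F E _ _ hF _ _
    exact ⟨1, 0, F, one_ne_zero, by rw [map_one, one_mul], hF, Or.inl rfl⟩
  | succ ρ ih =>
    intro d q F E hq hF0 hF hE hfac
    by_cases hmov : ∀ v : Fin 3 → ℂ, v ≠ 0 → ∃ m : Fin 3 → ℂ, (∑ i, v i * m i = 0) ∧ evC m F ≠ 0
    · refine ⟨1, ρ + 1, F, one_ne_zero, by rw [map_one, one_mul], hF, Or.inr ⟨E, hF, hE, ?_, hmov⟩⟩
      intro z hz
      obtain ⟨c, t, h1, h2⟩ := hfac z hz
      refine ⟨Function.update t 0 (c • t 0), ?_, ?_⟩
      · rw [h1, Fin.prod_univ_succ, Fin.prod_univ_succ, Function.update_self, FIX.lf_smul,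
          mul_assoc]
        congr 2
      · intro i
        by_cases hi : i = 0
        · subst hi
          rw [Function.update_self]
          exact FIX.eval_smul hq c _ (h2 0).2
        · rw [Function.update_of_ne hi]
          exact (h2 i).2
    · push Not at hmov
      obtain ⟨v, hv, hvm⟩ := hmov
      obtain ⟨F1, hF1, hFF⟩ := hLFD ρ F v hv hF hvm
      have hF10 : F1 ≠ 0 := fun h => hF0 (by rw [hFF, h, mul_zero])
      have c1 := FIX.cnt_of_cod (V1 (map (algebraMap ℂ Mer) (lf v)) F1)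
      have c2 := FIX.cnt_of_cod (V2 (lf v))
      have c3 := FIX.cnt_of_cod (V3 F1 hF10)
      have hcnt := ((hE.union c1).union c2).union c3
      obtain ⟨κ, ρ', F', hκ, hF', hF'h, hor⟩ := ih d q F1 _ hq hF10 hF1 hcnt (by
        intro z hz
        simp only [Set.mem_union, Set.mem_ofPred_eq, not_or, not_not] at hz
        obtain ⟨⟨⟨z0, z1⟩, z2⟩, z3⟩ := hz
        obtain ⟨c, t, h1, h2⟩ := hfac z z0
        have h3 : lf v * vz F1 z = C c * ∏ i, lf (t i) := by
          rw [← h1, hFF]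
          change _ = vz (map (algebraMap ℂ Mer) (lf v) * F1) z
          rw [z1, z2]
        obtain ⟨i, c', h4⟩ := FIX.cancel v hv _ z3 c t (fun i => (h2 i).1) h3
        exact ⟨c', fun j => t (i.succAbove j), h4, fun j => h2 _⟩)
      refine ⟨lf v * κ, ρ', F', mul_ne_zero (FIX.lf_ne v hv) hκ, ?_, hF'h, hor⟩
      rw [hFF, hF', map_mul, mul_assoc]

end M4P
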