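import Pool.Agent.Work.MP_f82ddf_M4.Interface3
import Pool.Agent.Work.MP_f82ddf_M1.B_REP
import Pool.Agent.Work.MP_f82ddf_M1.B_ALG

set_option autoImplicit false

/-! # Block GEN (helper52): choice of a generic point -/

open Topology Filter
open scoped Differential
open Pool.Agent.Work.MP_f82ddf_nt.DQ

namespace M4P
namespace GEN

open MvPolynomial Pool.ThmM

/-- functions of order `≥ 0` have a value -/
theorem lim (h : Mer) (z : ℂ) (hh : 0 ≤ om h z) :
    ∃ c : ℂ, 0 < om (h - algebraMap ℂ Mer c) z := by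
  have hA := p_ALG p_REP
  have hm : ∀ f : Mer, MeromorphicAt (rep f) z := fun f => (p_REP f).2.2.choose z
  obtain ⟨c, hc⟩ := (tendsto_nhds_iff_meromorphicOrderAt_nonneg (hm h)).2 hh
  refine ⟨c, ?_⟩
  have h1 : rep (h - algebraMap ℂ Mer c) =ᶠ[𝓝[≠] z] fun w => rep h w - c := by
    have e1 := ALG.cod.1 (hA.2.2.1 h (algebraMap ℂ Mer c)) z
    have e2 := ALG.cod.1 (hA.2.2.2.2.2.2.1 c) z
    filter_upwards [e1, e2] with w h3 h4
    rw [h3, h4]
  have h2 : Tendsto (rep (h - algebraMap ℂ Mer c)) (𝓝[≠] z) (𝓝 0) := by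
    refine Tendsto.congr' h1.symm ?_
    have h3 := hc.sub_const c
    rwa [sub_self] at h3
  exact (tendsto_zero_iff_meromorphicOrderAt_pos (hm _)).1 h2

section
variable (hV : Stmt_VAL) (z : ℂ)
include hV

theorem omc (a : ℂ) : 0 ≤ om (algebraMap ℂ Mer a) z := by
  by_cases h : a = 0
  · rw [h, map_zero, ((hV z).2.2.1 0).2 rfl]
    exact le_top
  · rw [(hV z).2.2.2.1 a h]

theorem omneg (f : Mer) : om (-f) z = om f z := by
  have h1 : -f = algebraMap ℂ Mer (-1) * f := by
    rw [map_neg, map_one, neg_one_mul]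
  rw [h1, (hV z).1, (hV z).2.2.2.1 (-1) (by norm_num), zero_add]

theorem omsum {ι : Type} (s : Finset ι) (f : ι → Mer) (h : ∀ i ∈ s, 0 < om (f i) z) :
    0 < om (∑ i ∈ s, f i) z := by
  classical
  induction s using Finset.induction_on with
  | empty =>
    rw [Finset.sum_empty, ((hV z).2.2.1 0).2 rfl]
    exact WithTop.coe_lt_top 0
  | insert a s ha ih =>
    rw [Finset.sum_insert ha]
    refine lt_of_lt_of_le (lt_min ?_ ?_) ((hV z).2.1 _ _)
    · exact h a (Finset.mem_insert_self _ _)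
    · exact ih fun i hi => h i (Finset.mem_insert_of_mem hi)

/-- perturbation by an element of positive order -/
theorem ompert (a b : Mer) (ha : om a z = 0) (hb : 0 < om b z) : om (a + b) z = 0 := by
  apply le_antisymm
  · by_contra h
    push Not at h
    have h1 := (hV z).2.1 (a + b) (-b)
    rw [add_neg_cancel_right, ha, omneg hV z] at h1
    exact absurd (lt_min h hb) (not_lt.2 h1)
  · have h1 := (hV z).2.1 a b
    rw [ha, min_eq_left hb.le] at h1
    exact h1

theorem key {N : ℕ} (G : MvPolynomial (Fin N) Mer) (hG : G ≠ 0) :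
    ∃ L : MvPolynomial (Fin N) ℂ, L ≠ 0 ∧ ∀ θ : Fin N → ℂ, eval θ L ≠ 0 →
      om (evC θ G) z = vP G z := by
  classical
  obtain ⟨s0, hs0, hv⟩ := Finset.exists_mem_eq_inf G.support (support_nonempty.2 hG)
    (fun s => om (G.coeff s) z)
  have hvP : vP G z = om (G.coeff s0) z := hv
  have h0 : G.coeff s0 ≠ 0 := mem_support_iff.1 hs0
  have hu0 : (G.coeff s0)⁻¹ ≠ 0 := inv_ne_zero h0
  have hone : om (1 : Mer) z = 0 := by
    have := (hV z).2.2.2.1 1 one_ne_zero
    rwa [map_one] at this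
  have hus : om (G.coeff s0) z + om (G.coeff s0)⁻¹ z = 0 := by
    rw [← (hV z).1, mul_inv_cancel₀ h0, hone]
  have hut : om (G.coeff s0)⁻¹ z ≠ ⊤ := fun h => hu0 (((hV z).2.2.1 _).1 h)
  have hex : ∀ s, ∃ c : ℂ, s ∈ G.support →
      0 < om (G.coeff s * (G.coeff s0)⁻¹ - algebraMap ℂ Mer c) z := by
    intro s
    by_cases hs : s ∈ G.support
    · obtain ⟨c, hc⟩ := lim (G.coeff s * (G.coeff s0)⁻¹) z (by
        rw [(hV z).1, ← hus]
        refine add_le_add ?_ le_rfl
        rw [← hv]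
        exact Finset.inf_le (f := fun s => om (G.coeff s) z) hs)
      exact ⟨c, fun _ => hc⟩
    · exact ⟨0, fun h => absurd h hs⟩
  choose c hc using hex
  let L : MvPolynomial (Fin N) ℂ := ∑ s ∈ G.support, monomial s (c s)
  have hLc : L.coeff s0 = c s0 := by
    simp only [L, coeff_sum, coeff_monomial]
    rw [Finset.sum_ite_eq' G.support s0 c, if_pos hs0]
  have hc0 : c s0 ≠ 0 := by
    intro h
    have h1 := hc s0 hs0
    rw [h, map_zero, sub_zero, mul_inv_cancel₀ h0, hone] at h1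
    exact lt_irrefl _ h1
  refine ⟨L, fun h => hc0 (by rw [← hLc, h, coeff_zero]), ?_⟩
  intro θ hθ
  have e1 : evC θ G = ∑ s ∈ G.support, G.coeff s * algebraMap ℂ Mer (∏ i, θ i ^ s i) := by
    rw [evC, eval_eq']
    refine Finset.sum_congr rfl fun s _ => ?_
    rw [map_prod]
    simp only [map_pow]
  have e2 : eval θ L = ∑ s ∈ G.support, c s * ∏ i, θ i ^ s i := by
    simp only [L, map_sum]
    refine Finset.sum_congr rfl fun s _ => ?_
    rw [eval_monomial, Finsupp.prod_fintype]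
    intro i
    exact pow_zero _
  have e3 : evC θ G * (G.coeff s0)⁻¹ = algebraMap ℂ Mer (eval θ L) +
      ∑ s ∈ G.support, (G.coeff s * (G.coeff s0)⁻¹ - algebraMap ℂ Mer (c s)) *
        algebraMap ℂ Mer (∏ i, θ i ^ s i) := by
    rw [e1, e2, map_sum, Finset.sum_mul, ← Finset.sum_add_distrib]
    refine Finset.sum_congr rfl fun s _ => ?_
    rw [map_mul]
    ring
  have h3 : om (evC θ G * (G.coeff s0)⁻¹) z = 0 := by
    rw [e3]
    refine ompert hV z _ _ ((hV z).2.2.2.1 _ hθ) (omsum hV z _ _ fun s hs => ?_)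
    rw [(hV z).1]
    exact add_pos_of_pos_of_nonneg (hc s hs) (omc hV z _)
  rw [(hV z).1, ← hus] at h3
  rw [hvP]
  exact WithTop.add_right_cancel hut h3

end

end GEN

open MvPolynomial Pool.ThmM GEN in
theorem all_GEN : CTB → Stmt_VAL → GEN := by
  intro hT hV N H G Z hH hG hZ
  obtain ⟨f, hf⟩ := (hZ.insert 0).exists_eq_range (Set.insert_nonempty 0 Z)
  choose L hL0 hL using fun z => key hV z G hG
  obtain ⟨θ, hθ⟩ := hT N (fun n => Nat.casesOn n H fun m => L (f m)) (by
    intro n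
    cases n with
    | zero => exact hH
    | succ m => exact hL0 _)
  have h1 : ∀ z ∈ insert 0 Z, om (evC θ G) z = vP G z := by
    intro z hz
    rw [hf] at hz
    obtain ⟨m, rfl⟩ := hz
    exact hL (f m) θ (hθ (m + 1))
  refine ⟨θ, hθ 0, ?_, fun z hz => h1 z (Set.mem_insert_of_mem 0 hz)⟩
  intro h0
  have h2 := h1 0 (Set.mem_insert 0 Z)
  rw [h0, ((hV 0).2.2.1 0).2 rfl] at h2
  obtain ⟨s0, hs0, hv⟩ := Finset.exists_mem_eq_inf G.support (support_nonempty.2 hG)
    (fun s => om (G.coeff s) 0)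
  have h3 : vP G 0 = om (G.coeff s0) 0 := hv
  rw [h3] at h2
  exact (mem_support_iff.1 hs0) (((hV 0).2.2.1 _).1 h2.symm)

end M4P
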