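import Pool.Agent.Work.MP_f82ddf_M4.Interface2
set_option autoImplicit false

/-! # m4_blocks, block GLU (helper62): gluing of local meromorphic functions -/

open Topology Filter
open Pool.Agent.Work.MP_f82ddf_nt.DQ

namespace M4P.GLU
open MvPolynomial Topology Filter Pool.ThmM

theorem cod {p : ℂ → Prop} : (∀ᶠ z in codiscrete ℂ, p z) ↔ ∀ z₀, ∀ᶠ z in 𝓝[≠] z₀, p z := by
  unfold Filter.Eventually Filter.codiscrete
  rw [mem_codiscreteWithin_iff_forall_mem_nhdsNE]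
  simp

theorem nebot {E : Set ℂ} (hE : E.Countable) (y : ℂ) : (𝓝[Eᶜ] y).NeBot := by
  have h : Dense Eᶜ := hE.dense_compl ℝ
  exact mem_closure_iff_nhdsWithin_neBot.1 (h y)

theorem eq_of_ev {E : Set ℂ} (hE : E.Countable) {f g : ℂ → ℂ} {y : ℂ} (hf : ContinuousAt f y)
    (hg : ContinuousAt g y) (h : ∀ᶠ z in 𝓝 y, z ∉ E → f z = g z) : f y = g y := by
  have := nebot hE y
  have h' : f =ᶠ[𝓝[Eᶜ] y] g := by
    rw [EventuallyEq, eventually_nhdsWithin_iff]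
    exact h
  exact tendsto_nhds_unique_of_eventuallyEq (hf.tendsto.mono_left nhdsWithin_le_nhds)
    (hg.tendsto.mono_left nhdsWithin_le_nhds) h'

/-- Nearby points: a property of the punctured neighbourhood holds in full neighbourhoods of its points. -/
theorem ev_ev {p : ℂ → Prop} {z0 : ℂ} (h : ∀ᶠ z in 𝓝[≠] z0, p z) : ∀ᶠ y in 𝓝[≠] z0, ∀ᶠ z in 𝓝 y, p z := by
  filter_upwards [eventually_eventually_nhdsWithin.2 h, self_mem_nhdsWithin] with y hy hne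
  rwa [IsOpen.nhdsWithin_eq isOpen_compl_singleton hne] at hy

/-- Two local functions which agree with `G` outside of `E` are equal on a punctured neighbourhood. -/
theorem uniq {E : Set ℂ} (hE : E.Countable) {G φ ψ : ℂ → ℂ} {z0 : ℂ} (hφ : MeromorphicAt φ z0)
    (hψ : MeromorphicAt ψ z0) (h1 : ∀ᶠ z in 𝓝[≠] z0, z ∉ E → φ z = G z)
    (h2 : ∀ᶠ z in 𝓝[≠] z0, z ∉ E → ψ z = G z) : ∀ᶠ z in 𝓝[≠] z0, φ z = ψ z := by
  have h3 : ∀ᶠ z in 𝓝[≠] z0, z ∉ E → φ z = ψ z := by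
    filter_upwards [h1, h2] with z a b hz
    rw [a hz, b hz]
  filter_upwards [ev_ev h3, hφ.eventually_analyticAt, hψ.eventually_analyticAt] with y hy ha hb
  exact eq_of_ev hE ha.continuousAt hb.continuousAt hy

theorem main (hA : Stmt_ALG) (E : Set ℂ) (G : ℂ → ℂ) (hE : E.Countable)
    (h3 : ∀ z0 : ℂ, ∃ φ : ℂ → ℂ, MeromorphicAt φ z0 ∧ ∀ᶠ z in 𝓝[≠] z0, z ∉ E → φ z = G z) :
    ∃ h : Mer, ∀ (z0 : ℂ) (φ : ℂ → ℂ), MeromorphicAt φ z0 → (∀ᶠ z in 𝓝[≠] z0, z ∉ E → φ z = G z) →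
      ∀ᶠ z in 𝓝[≠] z0, rep h z = φ z := by
  choose φ hφm hφe using h3
  set H : ℂ → ℂ := fun z => limUnder (𝓝[≠] z) (φ z) with hH
  have hHφ : ∀ z0, ∀ᶠ y in 𝓝[≠] z0, H y = φ z0 y := by
    intro z0
    filter_upwards [ev_ev (hφe z0), (hφm z0).eventually_analyticAt] with y hy ha
    have h4 : ∀ᶠ z in 𝓝[≠] y, φ y z = φ z0 z :=
      uniq hE (hφm y) ha.meromorphicAt (hφe y) (eventually_nhdsWithin_of_eventually_nhds hy)
    have h5 : Tendsto (φ y) (𝓝[≠] y) (𝓝 (φ z0 y)) := by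
      refine Tendsto.congr' ?_ (ha.continuousAt.tendsto.mono_left nhdsWithin_le_nhds)
      filter_upwards [h4] with z hz using hz.symm
    exact h5.limUnder_eq
  have hHm : ∀ z0, MeromorphicAt H z0 := by
    intro z0
    refine (hφm z0).congr ?_
    filter_upwards [hHφ z0] with z hz using hz.symm
  refine ⟨Mer.mk H hHm, ?_⟩
  intro z0 ψ hψm hψe
  have h6 := cod.1 (hA.1 (Mer.mk H hHm) H hHm rfl) z0
  filter_upwards [h6, hHφ z0, uniq hE (hφm z0) hψm (hφe z0) hψe] with z a b c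
  rw [a, b, c]

end M4P.GLU

namespace M4P
theorem all_GLU (hA : Pool.ThmM.Stmt_ALG) : GLU := fun E G hE h3 => M4P.GLU.main hA E G hE h3
end M4P
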