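import Pool.Agent.Work.MP_f82ddf_M4.Interface
set_option autoImplicit false

/-! # Theorem M, part P4, block HEX1 (helper38) -/

namespace M4P

namespace HEX1

open Polynomial

/-- the linear algebra: a multiplier `κ` -/
theorem kap (d b : ℕ) (c : ℕ → Polynomial ℂ) (hb : d * (d - 1) < 2 * b) :
    ∃ κ : Polynomial ℂ, κ ≠ 0 ∧ κ.degree < b ∧
      ∀ i j, i < d → j < b → b ≤ i + j → ((κ * c i) %ₘ X ^ b).coeff j = 0 := by
  classical
  let I : Finset (ℕ × ℕ) := (Finset.range d).sigma (fun i => Finset.Ico (b - i) b) |>.map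
    ⟨fun p : (_ : ℕ) × ℕ => (p.1, p.2), fun p q h => by
      obtain ⟨p1, p2⟩ := p
      obtain ⟨q1, q2⟩ := q
      simp only [Prod.mk.injEq] at h
      obtain ⟨rfl, rfl⟩ := h
      rfl⟩
  have hI : I.card ≤ d * (d - 1) / 2 := by
    rw [Finset.card_map, Finset.card_sigma]
    calc ∑ i ∈ Finset.range d, (Finset.Ico (b - i) b).card
        ≤ ∑ i ∈ Finset.range d, i := by
          refine Finset.sum_le_sum fun i _ => ?_
          rw [Nat.card_Ico]
          omega
      _ = d * (d - 1) / 2 := Finset.sum_range_id d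
  have hmem : ∀ i j, i < d → j < b → b ≤ i + j → (i, j) ∈ I := by
    intro i j hi hj hij
    refine Finset.mem_map.2 ⟨⟨i, j⟩, Finset.mem_sigma.2 ⟨Finset.mem_range.2 hi,
      Finset.mem_Ico.2 ⟨?_, hj⟩⟩, rfl⟩
    show b - i ≤ j
    omega
  have hmon : (X ^ b : Polynomial ℂ).Monic := monic_X_pow b
  let f : Polynomial.degreeLT ℂ b →ₗ[ℂ] (I → ℂ) := LinearMap.pi fun p =>
    ((lcoeff ℂ p.1.2).comp ((modByMonicHom (X ^ b)).comp
      (LinearMap.mulRight ℂ (c p.1.1)))).comp (Submodule.subtype _)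
  have hlt : Module.finrank ℂ (I → ℂ) < Module.finrank ℂ (Polynomial.degreeLT ℂ b) := by
    rw [Module.finrank_fintype_fun_eq_card, Fintype.card_coe,
      (Polynomial.degreeLTEquiv ℂ b).finrank_eq, Module.finrank_fintype_fun_eq_card,
      Fintype.card_fin]
    omega
  haveI : Module.Finite ℂ (Polynomial.degreeLT ℂ b) :=
    Module.Finite.equiv (Polynomial.degreeLTEquiv ℂ b).symm
  have hker := LinearMap.ker_ne_bot_of_finrank_lt (f := f) hlt
  obtain ⟨κ, hκ, hκ0⟩ := Submodule.exists_mem_ne_zero_of_ne_bot hker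
  refine ⟨κ.1, fun h => hκ0 (Subtype.ext h), Polynomial.mem_degreeLT.1 κ.2, ?_⟩
  intro i j hi hj hij
  have h1 := congrFun (LinearMap.mem_ker.1 hκ) ⟨(i, j), hmem i j hi hj hij⟩
  exact h1

end HEX1

open Polynomial in
theorem all_HEX1 : ETA → HEX1 := by
  classical
  intro hETA d b qt hd hmon hdeg h0 h1 hb
  obtain ⟨η, hη0, hη⟩ := hETA b qt h0 h1
  have hlin : (X - C η : Polynomial (Polynomial ℂ)).Monic := monic_X_sub_C η
  have hdiv : C (qt.eval η) + (X - C η) * (qt /ₘ (X - C η)) = qt := by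
    rw [← modByMonic_X_sub_C_eq_C_eval]
    exact modByMonic_add_div qt (X - C η)
  set q1 := qt /ₘ (X - C η) with hq1
  have hq1deg : q1.natDegree = d - 1 := by
    rw [hq1, natDegree_divByMonic qt hlin, hdeg, natDegree_X_sub_C]
  have hq1lead : q1.coeff (d - 1) = 1 := by
    have h2 : (X - C η : Polynomial (Polynomial ℂ)).degree ≤ qt.degree := by
      rw [degree_X_sub_C, degree_eq_natDegree hmon.ne_zero, hdeg]
      exact_mod_cast hd
    have h3 := leadingCoeff_divByMonic_of_monic hlin h2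
    rw [← hq1, hmon.leadingCoeff, leadingCoeff, hq1deg] at h3
    exact h3
  obtain ⟨κ, hκ0, hκd, hκ⟩ := HEX1.kap d b (fun i => q1.coeff i) hb
  have hXb : (X ^ b : Polynomial ℂ).Monic := monic_X_pow b
  set H : Polynomial (Polynomial ℂ) :=
    ∑ i ∈ Finset.range d, C ((κ * q1.coeff i) %ₘ X ^ b) * X ^ i with hH
  have hHc : ∀ i, H.coeff i = if i < d then (κ * q1.coeff i) %ₘ X ^ b else 0 := by
    intro i
    rw [hH, finset_sum_coeff]
    simp only [coeff_C_mul, coeff_X_pow, mul_ite, mul_one, mul_zero]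
    rw [Finset.sum_ite_eq]
    simp only [Finset.mem_range]
  -- `H` and `C κ * q1` agree modulo `γ^b`
  obtain ⟨A0, hA0⟩ : C (X ^ b : Polynomial ℂ) ∣ H - C κ * q1 := by
    rw [C_dvd_iff_dvd_coeff]
    intro i
    rw [coeff_sub, hHc, coeff_C_mul]
    by_cases hi : i < d
    · rw [if_pos hi]
      have h2 := modByMonic_add_div (κ * q1.coeff i) (X ^ b)
      refine ⟨-((κ * q1.coeff i) /ₘ X ^ b), ?_⟩
      linear_combination h2
    · rw [if_neg hi, coeff_eq_zero_of_natDegree_lt (by rw [hq1deg]; omega), mul_zero, sub_zero]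
      exact dvd_zero _
  obtain ⟨s, hs⟩ := sub_dvd_pow_sub_pow (X : Polynomial (Polynomial ℂ)) (C η) b
  obtain ⟨e1, he1⟩ := hη
  obtain ⟨e2, he2⟩ : (X ^ b : Polynomial ℂ) ∣ η ^ b := pow_dvd_pow_of_dvd (X_dvd_iff.2 hη0) b
  refine ⟨H, C κ * (q1 * C e2 - C e1 * s) + A0 * X ^ b, C κ * s, ?_, ?_, ?_, ?_⟩
  · intro h2
    have h3 := hHc (d - 1)
    rw [h2, coeff_zero, if_pos (by omega), hq1lead, mul_one,
      (modByMonic_eq_self_iff hXb).2 (by rw [degree_X_pow]; exact hκd)] at h3
    exact hκ0 h3.symm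
  · refine lt_of_le_of_lt ((natDegree_le_iff_coeff_eq_zero (n := d - 1)).2 ?_) (by omega)
    intro N hN
    rw [hHc, if_neg (by omega)]
  · intro i j hij
    rw [hHc]
    by_cases hi : i < d
    · rw [if_pos hi]
      by_cases hj : j < b
      · exact hκ i j hi hj hij
      · apply coeff_eq_zero_of_degree_lt
        refine lt_of_lt_of_le (degree_modByMonic_lt _ hXb) ?_
        rw [degree_X_pow]
        exact_mod_cast not_lt.1 hj
    · rw [if_neg hi, coeff_zero]
  · have h4 : H = C κ * q1 + C (X ^ b) * A0 := by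
      rw [← hA0]
      ring
    have h5 : (X : Polynomial (Polynomial ℂ)) ^ b = (X - C η) * s + C (X ^ b) * C e2 := by
      rw [← C_mul, ← he2, C_pow, ← hs]
      ring
    have h6 : (X - C η) * q1 = qt - C (X ^ b) * C e1 := by
      rw [← C_mul, ← he1, eq_sub_iff_add_eq, add_comm]
      exact hdiv
    have h7 : q1 * X ^ b = qt * s - C (X ^ b) * C e1 * s + q1 * (C (X ^ b) * C e2) := by
      calc q1 * X ^ b = ((X - C η) * q1) * s + q1 * (C (X ^ b) * C e2) := by
            conv_lhs => rw [h5]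
            ring
        _ = _ := by
            rw [h6]
            ring
    calc H * X ^ b = C κ * (q1 * X ^ b) + C (X ^ b) * A0 * X ^ b := by
          rw [h4]
          ring
      _ = _ := by
          rw [h7]
          ring

end M4P
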