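import Pool.Agent.Work.MP_f82ddf_M4.Interface3
set_option autoImplicit false

/-! # Theorem M (MP_f82ddf_nt), part P3b: block IR2 (the plane section is irreducible for generic numeric theta).  helper96. -/

namespace M4P
namespace IR2
open MvPolynomial

noncomputable section

/-! ### dehomogenisation over a commutative ring (after helper79, HEX2) -/

/-- Dehomogenisation. -/
def ph (K : Type) [CommRing K] : MvPolynomial (Fin 3) K →ₐ[K] Polynomial (Polynomial K) :=
  MvPolynomial.aeval ![1, Polynomial.X, Polynomial.C Polynomial.X]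

section
variable {K : Type} [CommRing K]

lemma ph_X0 : ph K (X 0) = 1 := by simp [ph]
lemma ph_X1 : ph K (X 1) = Polynomial.X := by simp [ph]
lemma ph_X2 : ph K (X 2) = Polynomial.C Polynomial.X := by simp [ph]
lemma ph_C (c : K) : ph K (C c) = Polynomial.C (Polynomial.C c) := by
  simp [ph]

lemma ph_monomial (s : Fin 3 →₀ ℕ) (c : K) :
    ph K (monomial s c) = Polynomial.monomial (s 1) (Polynomial.monomial (s 2) c) := by
  rw [MvPolynomial.monomial_eq, Finsupp.prod_fintype _ _ (fun i => pow_zero _), Fin.prod_univ_three]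
  rw [map_mul, map_mul, map_mul, map_pow, map_pow, map_pow, ph_C, ph_X0, ph_X1, ph_X2, one_pow, one_mul]
  rw [← Polynomial.C_mul_X_pow_eq_monomial, ← Polynomial.C_mul_X_pow_eq_monomial, Polynomial.C_mul,
    Polynomial.C_pow]
  ring

lemma ph_coeff_sum (F : MvPolynomial (Fin 3) K) (i j : ℕ) :
    ((ph K F).coeff i).coeff j = ∑ t ∈ F.support, (if t 1 = i ∧ t 2 = j then F.coeff t else 0) := by
  conv_lhs => rw [← F.support_sum_monomial_coeff]
  rw [map_sum, Polynomial.finsetSum_coeff, Polynomial.finsetSum_coeff]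
  refine Finset.sum_congr rfl (fun t _ => ?_)
  rw [ph_monomial, Polynomial.coeff_monomial]
  by_cases h1 : t 1 = i
  · rw [if_pos h1, Polynomial.coeff_monomial]
    by_cases h2 : t 2 = j
    · rw [if_pos h2, if_pos ⟨h1, h2⟩]
    · rw [if_neg h2, if_neg (fun h => h2 h.2)]
  · rw [if_neg h1, Polynomial.coeff_zero, if_neg (fun h => h1 h.1)]

lemma hom_deg {F : MvPolynomial (Fin 3) K} {N : ℕ} (hF : F.IsHomogeneous N) {t : Fin 3 →₀ ℕ}
    (ht : F.coeff t ≠ 0) : t 0 + t 1 + t 2 = N := by
  by_contra h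
  apply ht
  apply hF.coeff_eq_zero
  rw [Finsupp.degree_eq_sum, Fin.sum_univ_three]
  exact h

lemma ext3 {s t : Fin 3 →₀ ℕ} (h0 : s 0 = t 0) (h1 : s 1 = t 1) (h2 : s 2 = t 2) : s = t := by
  ext i
  fin_cases i
  · exact h0
  · exact h1
  · exact h2

lemma ph_coeff (F : MvPolynomial (Fin 3) K) (N : ℕ) (hF : F.IsHomogeneous N) (s : Fin 3 →₀ ℕ)
    (hs : s 0 + s 1 + s 2 = N) : ((ph K F).coeff (s 1)).coeff (s 2) = F.coeff s := by
  rw [ph_coeff_sum, Finset.sum_eq_single s]
  · rw [if_pos ⟨rfl, rfl⟩]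
  · intro t ht hts
    apply if_neg
    rintro ⟨h1, h2⟩
    apply hts
    have h := hom_deg hF (MvPolynomial.mem_support_iff.mp ht)
    apply ext3 _ h1 h2
    omega
  · intro h
    rw [if_pos ⟨rfl, rfl⟩]
    exact MvPolynomial.notMem_support_iff.mp h

/-- total degree at most `N` (dehomogenised) -/
lemma ph_TD (F : MvPolynomial (Fin 3) K) (N : ℕ) (hF : F.totalDegree ≤ N) :
    ∀ i j, N < i + j → ((ph K F).coeff i).coeff j = 0 := by
  intro i j hij
  rw [ph_coeff_sum]
  apply Finset.sum_eq_zero
  intro t ht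
  apply if_neg
  rintro ⟨h1, h2⟩
  have h := MvPolynomial.le_totalDegree ht
  rw [Finsupp.sum_fintype _ _ (fun _ => rfl), Fin.sum_univ_three] at h
  omega

/-- exponent vector -/
def mk (a b c : ℕ) : Fin 3 →₀ ℕ := Finsupp.equivFunOnFinite.symm ![a, b, c]

lemma mk0 (a b c : ℕ) : mk a b c 0 = a := rfl
lemma mk1 (a b c : ℕ) : mk a b c 1 = b := rfl
lemma mk2 (a b c : ℕ) : mk a b c 2 = c := rfl

lemma ev_ph (F : MvPolynomial (Fin 3) K) : ((ph K F).coeff 0).coeff 0 = eval ![1, 0, 0] F := by
  induction F using MvPolynomial.induction_on with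
  | C a => simp
  | add p q hp hq => rw [map_add, map_add, Polynomial.coeff_add, Polynomial.coeff_add, hp, hq]
  | mul_X p i hp =>
    rw [map_mul, map_mul, Polynomial.mul_coeff_zero, Polynomial.mul_coeff_zero, hp, eval_X]
    fin_cases i
    · simp [ph_X0]
    · simp [ph_X1]
    · simp [ph_X2]

lemma ev_top (d : ℕ) (F : MvPolynomial (Fin 3) K) (hF : F.IsHomogeneous d) :
    ((ph K F).coeff d).coeff 0 = eval ![0, 1, 0] F := by
  have h0 : ((ph K F).coeff d).coeff 0 = F.coeff (mk 0 d 0) :=
    ph_coeff F d hF (mk 0 d 0) (by rw [mk0, mk1, mk2]; omega)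
  rw [h0, eval_eq', Finset.sum_eq_single (mk 0 d 0)]
  · rw [Fin.prod_univ_three, mk0, mk1, mk2]
    simp
  · intro t ht hts
    have h := hom_deg hF (MvPolynomial.mem_support_iff.mp ht)
    rw [Fin.prod_univ_three]
    by_cases h2 : t 0 = 0
    · by_cases h3 : t 2 = 0
      · exact absurd (ext3 (by rw [mk0]; exact h2) (by rw [mk1]; omega) (by rw [mk2]; exact h3)) hts
      · simp [h3]
    · simp [h2]
  · intro h
    rw [MvPolynomial.notMem_support_iff.mp h, zero_mul]

/-- dehomogenisation and change of rings -/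
lemma ph_map {K' : Type} [CommRing K'] (φ : K →+* K') (F : MvPolynomial (Fin 3) K) :
    ph K' (map φ F) = (ph K F).map (Polynomial.mapRingHom φ) := by
  induction F using MvPolynomial.induction_on with
  | C a => rw [map_C, ph_C, ph_C, Polynomial.map_C]; simp
  | add p q hp hq => rw [map_add, map_add, map_add, Polynomial.map_add, hp, hq]
  | mul_X p i hp =>
    rw [map_mul, map_mul, map_mul, Polynomial.map_mul, hp, map_X]
    congr 1
    fin_cases i
    · simp [ph_X0]
    · simp [ph_X1]
    · simp [ph_X2]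

/-- Newton approximation of a root (after helper6, ETA) -/
lemma coeff_eval (p : Polynomial (Polynomial K)) (η : Polynomial K) (hη : η.coeff 0 = 0) :
    (p.eval η).coeff 0 = (p.coeff 0).coeff 0 := by
  conv_lhs => rw [← Polynomial.divX_mul_X_add p]
  rw [Polynomial.eval_add, Polynomial.eval_mul, Polynomial.eval_X, Polynomial.eval_C,
    Polynomial.coeff_add, Polynomial.mul_coeff_zero, hη, mul_zero, zero_add]

lemma newt (b : ℕ) (qt : Polynomial (Polynomial K)) (h0 : (qt.coeff 0).coeff 0 = 0)
    (h1 : IsUnit ((qt.coeff 1).coeff 0)) :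
    ∃ η : Polynomial K, η.coeff 0 = 0 ∧ (Polynomial.X ^ b : Polynomial K) ∣ qt.eval η := by
  induction b with
  | zero => exact ⟨0, by simp, by simp⟩
  | succ b ih =>
    rcases Nat.eq_zero_or_pos b with rfl | hb
    · refine ⟨0, by simp, ?_⟩
      rw [zero_add, pow_one, Polynomial.X_dvd_iff, coeff_eval _ _ (by simp)]
      exact h0
    · obtain ⟨η, hη, r, hr⟩ := ih
      have hd : ((Polynomial.derivative qt).eval η).coeff 0 = (qt.coeff 1).coeff 0 := by
        rw [coeff_eval _ _ hη, Polynomial.coeff_derivative]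
        simp
      obtain ⟨v, hv⟩ := h1
      set c : K := -(r.coeff 0) * (↑(v⁻¹) : K) with hc
      obtain ⟨k, hk⟩ := Polynomial.binomExpansion qt η (Polynomial.C c * Polynomial.X ^ b)
      refine ⟨η + Polynomial.C c * Polynomial.X ^ b, ?_, ?_⟩
      · rw [Polynomial.coeff_add, hη, Polynomial.mul_coeff_zero, Polynomial.coeff_X_pow]
        simp [hb.ne]
      · rw [hk, hr]
        have e : Polynomial.X ^ b * r + (Polynomial.derivative qt).eval η *
            (Polynomial.C c * Polynomial.X ^ b) + k * (Polynomial.C c * Polynomial.X ^ b) ^ 2 =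
            Polynomial.X ^ b * (r + (Polynomial.derivative qt).eval η * Polynomial.C c +
              k * Polynomial.C c ^ 2 * Polynomial.X ^ b) := by ring
        rw [e, pow_succ]
        apply mul_dvd_mul_left
        rw [Polynomial.X_dvd_iff, Polynomial.coeff_add, Polynomial.coeff_add,
          Polynomial.mul_coeff_zero, Polynomial.mul_coeff_zero, Polynomial.coeff_C_zero,
          Polynomial.coeff_X_pow, if_neg hb.ne, mul_zero, add_zero, hd, ← hv, hc]
        have : (↑v : K) * (-(r.coeff 0) * (↑(v⁻¹) : K)) = -(r.coeff 0) * ((↑v : K) * ↑(v⁻¹)) := by ring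
        rw [this, Units.mul_inv, mul_one, add_neg_cancel]

end

/-! ### the dehomogenisation of a prime form is prime -/

section
variable {K : Type} [Field K]

/-- substitution `β ↦ β/α`, `γ ↦ γ/α` -/
def ps (K : Type) [Field K] : Polynomial (Polynomial K) →+* FractionRing (MvPolynomial (Fin 3) K) :=
  Polynomial.eval₂RingHom (Polynomial.eval₂RingHom ((algebraMap (MvPolynomial (Fin 3) K) _).comp C)
    (algebraMap (MvPolynomial (Fin 3) K) (FractionRing (MvPolynomial (Fin 3) K)) (X 2) /
      algebraMap (MvPolynomial (Fin 3) K) _ (X 0)))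
    (algebraMap (MvPolynomial (Fin 3) K) (FractionRing (MvPolynomial (Fin 3) K)) (X 1) /
      algebraMap (MvPolynomial (Fin 3) K) _ (X 0))

lemma a0_ne : algebraMap (MvPolynomial (Fin 3) K) (FractionRing (MvPolynomial (Fin 3) K)) (X 0) ≠ 0 := by
  intro h
  rw [← map_zero (algebraMap (MvPolynomial (Fin 3) K) (FractionRing (MvPolynomial (Fin 3) K)))] at h
  exact X_ne_zero (R := K) (0 : Fin 3) (IsFractionRing.injective _ _ h)

lemma ps_C (c : K) : ps K (Polynomial.C (Polynomial.C c)) = algebraMap (MvPolynomial (Fin 3) K) _ (C c) := by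
  simp [ps]

lemma ps_X : algebraMap (MvPolynomial (Fin 3) K) _ (X 0) * ps K Polynomial.X =
    algebraMap (MvPolynomial (Fin 3) K) _ (X 1) := by
  rw [ps, Polynomial.coe_eval₂RingHom, Polynomial.eval₂_X, mul_div_cancel₀ _ a0_ne]

lemma ps_CX : algebraMap (MvPolynomial (Fin 3) K) _ (X 0) * ps K (Polynomial.C Polynomial.X) =
    algebraMap (MvPolynomial (Fin 3) K) _ (X 2) := by
  rw [ps, Polynomial.coe_eval₂RingHom, Polynomial.eval₂_C, Polynomial.coe_eval₂RingHom, Polynomial.eval₂_X,
    mul_div_cancel₀ _ a0_ne]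

/-- `x` has a homogenisation -/
def HasL (x : Polynomial (Polynomial K)) : Prop := ∃ (a : MvPolynomial (Fin 3) K) (m : ℕ), ph K a = x ∧
  algebraMap (MvPolynomial (Fin 3) K) (FractionRing (MvPolynomial (Fin 3) K)) a =
    algebraMap (MvPolynomial (Fin 3) K) _ (X 0) ^ m * ps K x

lemma HasL.add {x y : Polynomial (Polynomial K)} (hx : HasL x) (hy : HasL y) : HasL (x + y) := by
  obtain ⟨a, m, h1, h2⟩ := hx
  obtain ⟨b, k, h3, h4⟩ := hy
  refine ⟨X 0 ^ k * a + X 0 ^ m * b, m + k, ?_, ?_⟩
  · rw [map_add, map_mul, map_mul, map_pow, map_pow, ph_X0, one_pow, one_pow, one_mul, one_mul, h1, h3]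
  · rw [map_add, map_mul, map_mul, map_pow, map_pow, h2, h4, map_add]
    ring

lemma HasL.mul {x y : Polynomial (Polynomial K)} (hx : HasL x) (hy : HasL y) : HasL (x * y) := by
  obtain ⟨a, m, h1, h2⟩ := hx
  obtain ⟨b, k, h3, h4⟩ := hy
  refine ⟨a * b, m + k, ?_, ?_⟩
  · rw [map_mul, h1, h3]
  · rw [map_mul, h2, h4, map_mul]
    ring

lemma HasL.c (c : K) : HasL (Polynomial.C (Polynomial.C c)) :=
  ⟨C c, 0, ph_C c, by rw [ps_C, pow_zero, one_mul]⟩

lemma HasL.x : HasL (Polynomial.X : Polynomial (Polynomial K)) :=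
  ⟨X 1, 1, ph_X1, by rw [pow_one, ps_X]⟩

lemma HasL.cx : HasL (Polynomial.C Polynomial.X : Polynomial (Polynomial K)) :=
  ⟨X 2, 1, ph_X2, by rw [pow_one, ps_CX]⟩

lemma HasL.cp (p : Polynomial K) : HasL (Polynomial.C p) := by
  induction p using Polynomial.induction_on with
  | C a => exact HasL.c a
  | add p q hp hq => rw [Polynomial.C_add]; exact hp.add hq
  | monomial n a h =>
    rw [pow_succ, ← mul_assoc, Polynomial.C_mul]
    exact h.mul HasL.cx

lemma HasL.all (x : Polynomial (Polynomial K)) : HasL x := by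
  induction x using Polynomial.induction_on with
  | C a => exact HasL.cp a
  | add p q hp hq => exact hp.add hq
  | monomial n a h =>
    rw [pow_succ, ← mul_assoc]
    exact h.mul HasL.x

lemma ps_hom (F : MvPolynomial (Fin 3) K) (d : ℕ) (hF : F.IsHomogeneous d) :
    algebraMap (MvPolynomial (Fin 3) K) (FractionRing (MvPolynomial (Fin 3) K)) (X 0) ^ d * ps K (ph K F) =
      algebraMap (MvPolynomial (Fin 3) K) _ F := by
  conv_lhs => rw [← F.support_sum_monomial_coeff]
  conv_rhs => rw [← F.support_sum_monomial_coeff]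
  rw [map_sum, map_sum, map_sum, Finset.mul_sum]
  refine Finset.sum_congr rfl (fun t ht => ?_)
  have hd := hom_deg hF (MvPolynomial.mem_support_iff.mp ht)
  rw [MvPolynomial.monomial_eq, Finsupp.prod_fintype _ _ (fun i => pow_zero _), Fin.prod_univ_three]
  simp only [map_mul, map_pow, ph_C, ph_X0, ph_X1, ph_X2, one_pow, one_mul, ps_C]
  rw [← ps_X, ← ps_CX, ← hd, pow_add, pow_add]
  ring

lemma ph_prime (q : MvPolynomial (Fin 3) K) (d : ℕ) (hq : Irreducible q) (hd : q.IsHomogeneous d)
    (h0 : ¬ IsUnit (ph K q)) (hne : ph K q ≠ 0) : Prime (ph K q) := by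
  have hp : Prime q := hq.prime
  refine ⟨hne, h0, ?_⟩
  rintro x y ⟨z, hz⟩
  obtain ⟨a, m, ha1, ha2⟩ := HasL.all x
  obtain ⟨b, k, hb1, hb2⟩ := HasL.all y
  obtain ⟨c, l, hc1, hc2⟩ := HasL.all z
  have key : a * b * X 0 ^ (d + l) = q * c * X 0 ^ (m + k) := by
    apply IsFractionRing.injective (MvPolynomial (Fin 3) K) (FractionRing (MvPolynomial (Fin 3) K))
    rw [map_mul, map_mul, map_mul, map_mul, map_pow, map_pow, ha2, hb2, hc2, ← ps_hom q d hd]
    have h1 : ps K x * ps K y = ps K (ph K q) * ps K z := by rw [← map_mul, hz, map_mul]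
    calc _ = (ps K x * ps K y) * (algebraMap (MvPolynomial (Fin 3) K) (FractionRing (MvPolynomial (Fin 3) K)) (X 0) ^ m *
          algebraMap (MvPolynomial (Fin 3) K) _ (X 0) ^ k * algebraMap (MvPolynomial (Fin 3) K) _ (X 0) ^ (d + l)) := by ring
      _ = _ := by rw [h1]; ring
  have hdvd : q ∣ a * b * X 0 ^ (d + l) := by
    rw [key, mul_assoc]
    exact dvd_mul_right _ _
  rcases hp.dvd_or_dvd hdvd with h | h
  · rcases hp.dvd_or_dvd h with h | h
    · left
      rw [← ha1]
      exact map_dvd (ph K) h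
    · right
      rw [← hb1]
      exact map_dvd (ph K) h
  · exfalso
    apply h0
    have := map_dvd (ph K) h
    rw [map_pow, ph_X0, one_pow] at this
    exact isUnit_of_dvd_one this

end

/-! ### independence modulo a high power of `γ` -/

lemma det_deg {R : Type} [CommRing R] (m D : ℕ) (M : Matrix (Fin m) (Fin m) (Polynomial R))
    (h : ∀ i j, (M i j).natDegree ≤ D) : M.det.natDegree ≤ m * D := by
  rw [Matrix.det_apply]
  apply Polynomial.natDegree_sum_le_of_forall_le
  intro σ _
  refine (Polynomial.natDegree_smul_le _ _).trans ?_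
  refine (Polynomial.natDegree_prod_le _ _).trans ?_
  calc _ ≤ ∑ _i : Fin m, D := Finset.sum_le_sum (fun i _ => h _ _)
    _ = m * D := by simp

lemma res_deg {R : Type} [CommRing R] (g P : Polynomial (Polynomial R)) (m k D : ℕ)
    (hg : ∀ i, (g.coeff i).natDegree ≤ D) (hP : ∀ i, (P.coeff i).natDegree ≤ D) :
    (Polynomial.resultant g P m k).natDegree ≤ (m + k) * D := by
  unfold Polynomial.resultant
  apply det_deg
  intro i j
  unfold Polynomial.sylvester
  rw [Matrix.of_apply]
  induction j using Fin.addCases with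
  | left j =>
    rw [Fin.addCases_left]
    split_ifs
    · exact hP _
    · simp
  | right j =>
    rw [Fin.addCases_right]
    split_ifs
    · exact hg _
    · simp

section
variable {K : Type} [Field K]

lemma ind (g P : Polynomial (Polynomial K)) (d n : ℕ) (hg : Irreducible g) (hgd : g.natDegree = d) (hd : 1 ≤ d)
    (hgc : ∀ i, (g.coeff i).natDegree ≤ d) (hP0 : P ≠ 0) (hPd : P.natDegree < d)
    (hPc : ∀ i, (P.coeff i).natDegree ≤ d) (η : Polynomial K) (hn : 2 * d * d < n)
    (h1 : (Polynomial.X ^ n : Polynomial K) ∣ g.eval η) (h2 : (Polynomial.X ^ n : Polynomial K) ∣ P.eval η) :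
    False := by
  have hinj : Function.Injective (algebraMap (Polynomial K) (FractionRing (Polynomial K))) :=
    IsFractionRing.injective _ _
  have hprim : g.IsPrimitive := hg.isPrimitive (by omega)
  have hirr := (hprim.irreducible_iff_irreducible_map_fraction_map (K := FractionRing (Polynomial K))).mp hg
  have hPm : P.map (algebraMap (Polynomial K) (FractionRing (Polynomial K))) ≠ 0 := by
    rwa [Ne, Polynomial.map_eq_zero_iff hinj]
  have hnd : ¬ g.map (algebraMap (Polynomial K) (FractionRing (Polynomial K))) ∣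
      P.map (algebraMap (Polynomial K) (FractionRing (Polynomial K))) := by
    apply Polynomial.not_dvd_of_natDegree_lt hPm
    rw [Polynomial.natDegree_map_eq_of_injective hinj, Polynomial.natDegree_map_eq_of_injective hinj]
    omega
  have hcop := (hirr.coprime_iff_not_dvd).mpr hnd
  have hres := Polynomial.resultant_ne_zero _ _ hcop
  rw [Polynomial.natDegree_map_eq_of_injective hinj, Polynomial.natDegree_map_eq_of_injective hinj,
    Polynomial.resultant_map_map] at hres
  have hr : Polynomial.resultant g P ≠ 0 := by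
    intro h
    apply hres
    rw [h, map_zero]
  obtain ⟨p, q, _, _, e⟩ := Polynomial.exists_mul_add_mul_eq_C_resultant g P le_rfl le_rfl (Or.inl (by omega))
  have e2 := congrArg (Polynomial.eval η) e
  rw [Polynomial.eval_add, Polynomial.eval_mul, Polynomial.eval_mul, Polynomial.eval_C] at e2
  have h3 : (Polynomial.X ^ n : Polynomial K) ∣ Polynomial.resultant g P := by
    rw [← e2]
    exact dvd_add (h1.mul_right _) (h2.mul_right _)
  have h4 := Polynomial.natDegree_le_of_dvd h3 hr
  rw [Polynomial.natDegree_X_pow] at h4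
  have h5 := res_deg g P g.natDegree P.natDegree d hgc hPc
  have h6 : (g.natDegree + P.natDegree) * d ≤ 2 * d * d := by
    apply Nat.mul_le_mul_right
    omega
  omega

end

/-- the matrix of the coefficients of `γ^i η^j` -/
def Mt {A : Type} [CommRing A] (n d : ℕ) (η : Polynomial A) : Matrix (Fin n) (Fin d × Fin d) A :=
  Matrix.of fun k p => (Polynomial.X ^ (p.1 : ℕ) * η ^ (p.2 : ℕ) : Polynomial A).coeff k

/-- the polynomial with coefficients `c` -/
def Pc {F : Type} [CommRing F] (d : ℕ) (c : Fin d × Fin d → F) : Polynomial (Polynomial F) :=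
  ∑ p, Polynomial.C (Polynomial.C (c p) * Polynomial.X ^ (p.1 : ℕ)) * Polynomial.X ^ (p.2 : ℕ)

lemma Pc_coeff {F : Type} [CommRing F] (d : ℕ) (c : Fin d × Fin d → F) (i j : ℕ) :
    ((Pc d c).coeff j).coeff i = ∑ p : Fin d × Fin d, if (p.1 : ℕ) = i ∧ (p.2 : ℕ) = j then c p else 0 := by
  unfold Pc
  rw [Polynomial.finsetSum_coeff, Polynomial.finsetSum_coeff]
  refine Finset.sum_congr rfl (fun p _ => ?_)
  rw [Polynomial.coeff_C_mul_X_pow]
  by_cases h1 : j = (p.2 : ℕ)
  · rw [if_pos h1, Polynomial.coeff_C_mul_X_pow]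
    by_cases h2 : i = (p.1 : ℕ)
    · rw [if_pos h2, if_pos ⟨h2.symm, h1.symm⟩]
    · rw [if_neg h2, if_neg (fun h => h2 h.1.symm)]
  · rw [if_neg h1, Polynomial.coeff_zero, if_neg (fun h => h1 h.2.symm)]

lemma Pc_small {F : Type} [CommRing F] (d : ℕ) (c : Fin d × Fin d → F) (p : Fin d × Fin d) :
    ((Pc d c).coeff p.2).coeff p.1 = c p := by
  rw [Pc_coeff, Finset.sum_eq_single p]
  · rw [if_pos ⟨rfl, rfl⟩]
  · intro p' _ hne
    apply if_neg
    rintro ⟨h1, h2⟩
    exact hne (Prod.ext (Fin.ext h1) (Fin.ext h2))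
  · intro h
    exact absurd (Finset.mem_univ _) h

lemma Pc_big {F : Type} [CommRing F] (d : ℕ) (c : Fin d × Fin d → F) (i j : ℕ) (h : d ≤ i ∨ d ≤ j) :
    ((Pc d c).coeff j).coeff i = 0 := by
  rw [Pc_coeff]
  apply Finset.sum_eq_zero
  intro p _
  apply if_neg
  rintro ⟨h1, h2⟩
  have h3 := p.1.2
  have h4 := p.2.2
  omega

lemma Pc_eval {A F : Type} [CommRing A] [CommRing F] (φ : A →+* F) (n d : ℕ) (η : Polynomial A)
    (c : Fin d × Fin d → F) (k : Fin n) :
    ((Pc d c).eval (η.map φ)).coeff k = ((Mt n d η).map φ).mulVec c k := by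
  unfold Pc Mt
  rw [Polynomial.eval_finsetSum, Polynomial.finsetSum_coeff, Matrix.mulVec, dotProduct]
  refine Finset.sum_congr rfl (fun p _ => ?_)
  rw [Polynomial.eval_mul, Polynomial.eval_C, Polynomial.eval_pow, Polynomial.eval_X, mul_assoc,
    Polynomial.coeff_C_mul, Matrix.map_apply, Matrix.of_apply, mul_comm (c p), ← Polynomial.coeff_map,
    Polynomial.map_mul, Polynomial.map_pow, Polynomial.map_pow, Polynomial.map_X]

lemma Pc_dvd {A F : Type} [CommRing A] [CommRing F] (φ : A →+* F) (n d : ℕ) (η : Polynomial A)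
    (c : Fin d × Fin d → F) :
    (Polynomial.X ^ n : Polynomial F) ∣ (Pc d c).eval (η.map φ) ↔ ((Mt n d η).map φ).mulVec c = 0 := by
  rw [Polynomial.X_pow_dvd_iff]
  constructor
  · intro h
    ext k
    rw [← Pc_eval, h k k.2, Pi.zero_apply]
  · intro h k hk
    have := Pc_eval φ n d η c ⟨k, hk⟩
    rw [h, Pi.zero_apply] at this
    exact this

lemma linv {A : Type} [CommRing A] [IsDomain A] {m I : Type} [Fintype m] [Fintype I] [DecidableEq m] [DecidableEq I]
    (M : Matrix m I A)
    (h : ∀ c : I → FractionRing A, (M.map (algebraMap A (FractionRing A))).mulVec c = 0 → c = 0) :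
    ∃ (b : A) (B : Matrix I m A), b ≠ 0 ∧ B * M = b • (1 : Matrix I I A) := by
  have hinj : Function.Injective (algebraMap A (FractionRing A)) := IsFractionRing.injective _ _
  have hker : LinearMap.ker (Matrix.toLin' (M.map (algebraMap A (FractionRing A)))) = ⊥ := by
    rw [LinearMap.ker_eq_bot']
    intro c hc
    exact h c hc
  obtain ⟨L, hL⟩ := LinearMap.exists_leftInverse_of_injective _ hker
  have h1 : LinearMap.toMatrix' L * M.map (algebraMap A (FractionRing A)) = 1 := by
    have := congrArg LinearMap.toMatrix' hL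
    rwa [LinearMap.toMatrix'_comp, LinearMap.toMatrix'_toLin', LinearMap.toMatrix'_id] at this
  obtain ⟨b, hb⟩ := IsLocalization.exist_integer_multiples_of_finite (nonZeroDivisors A)
    (fun p : I × m => LinearMap.toMatrix' L p.1 p.2)
  choose B' hB' using hb
  refine ⟨(b : A), Matrix.of (fun i k => B' (i, k)), nonZeroDivisors.coe_ne_zero b, ?_⟩
  have h2 : (Matrix.of (fun i k => B' (i, k))).map (algebraMap A (FractionRing A)) =
      (algebraMap A (FractionRing A) b) • LinearMap.toMatrix' L := by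
    ext i k
    rw [Matrix.map_apply, Matrix.of_apply, hB', Matrix.smul_apply, Algebra.smul_def, smul_eq_mul]
  have h3 : (Matrix.of (fun i k => B' (i, k)) * M).map (algebraMap A (FractionRing A)) =
      ((b : A) • (1 : Matrix I I A)).map (algebraMap A (FractionRing A)) := by
    rw [Matrix.map_mul, h2, Matrix.smul_mul, h1]
    ext i j
    rw [Matrix.smul_apply, Matrix.map_apply, Matrix.smul_apply, smul_eq_mul, smul_eq_mul, map_mul,
      Matrix.one_apply, Matrix.one_apply]
    split_ifs <;> simp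
  ext i j
  have h4 := congrFun (congrFun h3 i) j
  rw [Matrix.map_apply, Matrix.map_apply] at h4
  exact hinj h4

lemma linv_map {A F : Type} [CommRing A] [Field F] {m I : Type} [Fintype m] [Fintype I] [DecidableEq m]
    [DecidableEq I] (M : Matrix m I A) (b : A) (B : Matrix I m A) (h : B * M = b • (1 : Matrix I I A))
    (φ : A →+* F) (hb : φ b ≠ 0) (c : I → F) (hc : (M.map φ).mulVec c = 0) : c = 0 := by
  have h1 : (B.map φ) * (M.map φ) = φ b • (1 : Matrix I I F) := by
    rw [← Matrix.map_mul, h]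
    ext i j
    rw [Matrix.map_apply, Matrix.smul_apply, Matrix.smul_apply, smul_eq_mul, smul_eq_mul, map_mul,
      Matrix.one_apply, Matrix.one_apply]
    split_ifs <;> simp
  have h2 : ((B.map φ) * (M.map φ)).mulVec c = 0 := by
    rw [← Matrix.mulVec_mulVec, hc, Matrix.mulVec_zero]
  rw [h1, Matrix.smul_mulVec, Matrix.one_mulVec] at h2
  exact (smul_eq_zero.mp h2).resolve_left hb

/-! ### the universal plane section -/

/-- the form on the plane, with the coordinates of `θ` as variables -/
def qA {N : ℕ} (u e : Fin N → ℂ) (Q : MvPolynomial (Fin N) ℂ) : MvPolynomial (Fin 3) (MvPolynomial (Fin N) ℂ) :=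
  eval₂ (C.comp C) (fun j => C (C (u j)) * X 0 + C (C (e j)) * X 1 + C (X j) * X 2) Q

lemma qA_hom {N d : ℕ} (u e : Fin N → ℂ) (Q : MvPolynomial (Fin N) ℂ) (hQ : Q.IsHomogeneous d) :
    (qA u e Q).IsHomogeneous d := by
  have h := hQ.eval₂ (n := 1) (C.comp C : ℂ →+* MvPolynomial (Fin 3) (MvPolynomial (Fin N) ℂ))
    (fun j => C (C (u j)) * X 0 + C (C (e j)) * X 1 + C (X j) * X 2)
    (fun r => isHomogeneous_C _ _) (fun j => by
      have h0 := (isHomogeneous_C (Fin 3) (C (u j) : MvPolynomial (Fin N) ℂ)).mul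
        (isHomogeneous_X (MvPolynomial (Fin N) ℂ) (0 : Fin 3))
      have h1 := (isHomogeneous_C (Fin 3) (C (e j) : MvPolynomial (Fin N) ℂ)).mul
        (isHomogeneous_X (MvPolynomial (Fin N) ℂ) (1 : Fin 3))
      have h2 := (isHomogeneous_C (Fin 3) (X j : MvPolynomial (Fin N) ℂ)).mul
        (isHomogeneous_X (MvPolynomial (Fin N) ℂ) (2 : Fin 3))
      rw [zero_add] at h0 h1 h2
      exact (h0.add h1).add h2)
  rw [one_mul] at h
  exact h

lemma qA_ev {N : ℕ} (u e : Fin N → ℂ) (Q : MvPolynomial (Fin N) ℂ) :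
    eval ![1, 0, 0] (qA u e Q) = C (eval u Q) := by
  unfold qA
  rw [eval₂_comp_left (eval ![1, 0, 0] : MvPolynomial (Fin 3) (MvPolynomial (Fin N) ℂ) →+* _),
    ← eval₂_id Q, eval₂_comp_left (C : ℂ →+* MvPolynomial (Fin N) ℂ)]
  congr 1
  · ext r; simp
  · ext j; simp

lemma qA_ev1 {N : ℕ} (u e : Fin N → ℂ) (Q : MvPolynomial (Fin N) ℂ) :
    eval ![0, 1, 0] (qA u e Q) = C (eval e Q) := by
  unfold qA
  rw [eval₂_comp_left (eval ![0, 1, 0] : MvPolynomial (Fin 3) (MvPolynomial (Fin N) ℂ) →+* _),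
    ← eval₂_id Q, eval₂_comp_left (C : ℂ →+* MvPolynomial (Fin N) ℂ)]
  congr 1
  · ext r; simp
  · ext j; simp

lemma qA_der {N : ℕ} (u e : Fin N → ℂ) (Q : MvPolynomial (Fin N) ℂ) :
    ((ph _ (qA u e Q)).coeff 1).coeff 0 = C (∑ j, e j * eval u (pderiv j Q)) := by
  induction Q using MvPolynomial.induction_on with
  | C a =>
    unfold qA
    rw [eval₂_C]
    simp
  | add p q hp hq =>
    have h1 : qA u e (p + q) = qA u e p + qA u e q := by unfold qA; rw [eval₂_add]
    rw [h1, map_add, Polynomial.coeff_add, Polynomial.coeff_add, hp, hq, ← map_add, ← Finset.sum_add_distrib]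
    congr 1
    refine Finset.sum_congr rfl (fun j _ => ?_)
    rw [map_add, map_add, mul_add]
  | mul_X p i hp =>
    have h1 : qA u e (p * X i) = qA u e p * (C (C (u i)) * X 0 + C (C (e i)) * X 1 + C (X i) * X 2) := by
      unfold qA; rw [eval₂_mul, eval₂_X]
    have h2 : ph _ (C (C (u i)) * X 0 + C (C (e i)) * X 1 + C (X i) * X 2 :
        MvPolynomial (Fin 3) (MvPolynomial (Fin N) ℂ)) = Polynomial.C (Polynomial.C (C (u i)) +
          Polynomial.C (X i) * Polynomial.X) + Polynomial.C (Polynomial.C (C (e i))) * Polynomial.X := by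
      rw [map_add, map_add, map_mul, map_mul, map_mul, ph_C, ph_C, ph_C, ph_X0, ph_X1, ph_X2, Polynomial.C_add,
        Polynomial.C_mul]
      ring
    rw [h1, map_mul, h2, mul_add, Polynomial.coeff_add, Polynomial.coeff_add, Polynomial.coeff_mul_C,
      ← mul_assoc, Polynomial.coeff_mul_X, Polynomial.coeff_mul_C, Polynomial.coeff_mul_C,
      Polynomial.mul_coeff_zero, hp, ev_ph, qA_ev]
    have h3 : (Polynomial.C (C (u i)) + Polynomial.C (X i) * Polynomial.X :
        Polynomial (MvPolynomial (Fin N) ℂ)).coeff 0 = C (u i) := by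
      simp
    rw [h3, ← C_mul, ← C_mul, ← C_add]
    congr 1
    have h4 : ∀ j, e j * eval u (pderiv j (p * X i)) = e j * eval u (pderiv j p) * u i +
        (if j = i then e i * eval u p else 0) := by
      intro j
      rw [Derivation.leibniz, map_add, smul_eq_mul, smul_eq_mul, map_mul, map_mul, eval_X, pderiv_X]
      by_cases hji : j = i
      · rw [if_pos hji, hji]
        simp
        ring
      · rw [if_neg hji]
        simp [Ne.symm hji]
        ring
    rw [Finset.sum_congr rfl (fun j _ => h4 j), Finset.sum_add_distrib, Finset.sum_ite_eq', if_pos (Finset.mem_univ _),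
      ← Finset.sum_mul]
    ring

lemma qA_gen {N : ℕ} (u e : Fin N → ℂ) (Q : MvPolynomial (Fin N) ℂ) :
    map (algebraMap (MvPolynomial (Fin N) ℂ) (FractionRing (MvPolynomial (Fin N) ℂ))) (qA u e Q) = qgen u e Q := by
  unfold qA qgen
  rw [eval₂_comp_left (map (algebraMap (MvPolynomial (Fin N) ℂ) (FractionRing (MvPolynomial (Fin N) ℂ))))]
  congr 1
  · apply RingHom.ext
    intro r
    rw [RingHom.comp_apply, RingHom.comp_apply, map_C, RingHom.comp_apply,
      IsScalarTower.algebraMap_apply ℂ (MvPolynomial (Fin N) ℂ) (FractionRing (MvPolynomial (Fin N) ℂ))]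
    rfl
  · funext j
    rw [Function.comp_apply, map_add, map_add, map_mul, map_mul, map_mul, map_C, map_C, map_C, map_X, map_X, map_X,
      IsScalarTower.algebraMap_apply ℂ (MvPolynomial (Fin N) ℂ) (FractionRing (MvPolynomial (Fin N) ℂ)),
      IsScalarTower.algebraMap_apply ℂ (MvPolynomial (Fin N) ℂ) (FractionRing (MvPolynomial (Fin N) ℂ))]
    rfl

lemma qA_num {N : ℕ} (u e θ : Fin N → ℂ) (Q : MvPolynomial (Fin N) ℂ) :
    map (eval θ) (qA u e Q) = sb (K := ℂ) (gP u e θ) Q := by
  unfold qA sb gP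
  rw [eval₂_comp_left (map (eval θ)), aeval_def]
  congr 1
  · apply RingHom.ext
    intro r
    simp
  · funext j
    simp

end

end IR2

open MvPolynomial IR2 in
theorem all_IR2 (h : IR1) : M4P.IR2 := by
  intro N d Q u e hN hQ hd hu he hc
  have hirr := h N d Q u e hN hQ hd hu he
  -- the universal section and its degree
  have hdA := qA_hom u e Q hd
  have hd1 : 1 ≤ d := by
    by_contra hlt
    have h0 : d = 0 := by omega
    subst h0
    have h1 := ev_top 0 _ hdA
    rw [ev_ph, qA_ev, qA_ev1, hu] at h1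
    exact he (C_injective _ _ h1.symm)
  obtain ⟨n, hn⟩ : ∃ n, n = 2 * d * d + 1 := ⟨_, rfl⟩
  -- the root
  obtain ⟨η, _, hη⟩ := newt (2 * n) (ph (MvPolynomial (Fin N) ℂ) (qA u e Q)) (by rw [ev_ph, qA_ev, hu, C_0])
    (by rw [qA_der]; exact (isUnit_iff_ne_zero.mpr hc).map C)
  -- facts over a general field
  have gen : ∀ (F : Type) [Field F] (φ : MvPolynomial (Fin N) ℂ →+* F),
      (∀ i j, d < i + j → ((ph F (map φ (qA u e Q))).coeff i).coeff j = 0) ∧
      ((ph F (map φ (qA u e Q))).coeff d).coeff 0 ≠ 0 ∧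
      (ph F (map φ (qA u e Q))).natDegree = d ∧
      (Polynomial.X ^ (2 * n) : Polynomial F) ∣ (ph F (map φ (qA u e Q))).eval (η.map φ) := by
    intro F _ φ
    have h1 : ∀ i j, d < i + j → ((ph F (map φ (qA u e Q))).coeff i).coeff j = 0 :=
      ph_TD _ _ (hdA.map φ).totalDegree_le
    have h2 : ((ph F (map φ (qA u e Q))).coeff d).coeff 0 ≠ 0 := by
      rw [ph_map, Polynomial.coeff_map, Polynomial.coe_mapRingHom, Polynomial.coeff_map, ev_top d _ hdA, qA_ev1]
      exact ((isUnit_iff_ne_zero.mpr he).map (φ.comp C)).ne_zero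
    refine ⟨h1, h2, ?_, ?_⟩
    · apply le_antisymm
      · rw [Polynomial.natDegree_le_iff_coeff_eq_zero]
        intro k hk
        ext j
        rw [h1 k j (by omega), Polynomial.coeff_zero]
      · apply Polynomial.le_natDegree_of_ne_zero
        intro h0
        rw [h0, Polynomial.coeff_zero] at h2
        exact h2 rfl
    · rw [ph_map]
      have h3 := map_dvd (Polynomial.mapRingHom φ) hη
      rw [map_pow, Polynomial.coe_mapRingHom, Polynomial.map_X] at h3
      have h4 : ((ph (MvPolynomial (Fin N) ℂ) (qA u e Q)).map (Polynomial.mapRingHom φ)).eval (η.map φ) =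
          ((ph (MvPolynomial (Fin N) ℂ) (qA u e Q)).eval η).map φ := by
        rw [← Polynomial.coe_mapRingHom, Polynomial.eval_map_apply]
      rw [h4]
      exact h3
  -- independence over the field of rational functions
  obtain ⟨b, B, hb, hB⟩ := linv (Mt n d η) (by
    intro c hc0
    obtain ⟨g1, g2, g3, g4⟩ := gen _ (algebraMap (MvPolynomial (Fin N) ℂ) (FractionRing (MvPolynomial (Fin N) ℂ)))
    rw [qA_gen] at g1 g2 g3 g4
    have hne : ph _ (qgen u e Q) ≠ 0 := by
      intro h0
      rw [h0, Polynomial.coeff_zero, Polynomial.coeff_zero] at g2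
      exact g2 rfl
    have hprime : Prime (ph _ (qgen u e Q)) := by
      apply ph_prime (qgen u e Q) d hirr
      · rw [← qA_gen]
        exact hdA.map _
      · intro hun
        have := Polynomial.natDegree_eq_zero_of_isUnit hun
        omega
      · exact hne
    by_contra hcne
    refine ind (ph _ (qgen u e Q)) (Pc d c) d n hprime.irreducible g3 hd1 ?_ ?_ ?_ ?_ (η.map _) (by omega)
      ((pow_dvd_pow _ (by omega)).trans g4) ((Pc_dvd _ n d η c).mpr hc0)
    · intro i
      rw [Polynomial.natDegree_le_iff_coeff_eq_zero]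
      intro j hj
      exact g1 i j (by omega)
    · intro h0
      apply hcne
      funext p
      rw [← Pc_small d c p, h0]
      simp
    · have h1 : (Pc d c).natDegree ≤ d - 1 := by
        rw [Polynomial.natDegree_le_iff_coeff_eq_zero]
        intro j hj
        ext i
        rw [Pc_big d c i j (by omega), Polynomial.coeff_zero]
      omega
    · intro j
      rw [Polynomial.natDegree_le_iff_coeff_eq_zero]
      intro i hi
      exact Pc_big d c i j (by omega))
  refine ⟨b, hb, ?_⟩
  intro θ hθ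
  obtain ⟨g1, g2, g3, g4⟩ := gen ℂ (eval θ)
  rw [qA_num] at g1 g2 g3 g4
  have hq0 : (sb (K := ℂ) (gP u e θ) Q).totalDegree ≤ d := by
    rw [← qA_num]
    exact (hdA.map _).totalDegree_le
  have hne : ph ℂ (sb (K := ℂ) (gP u e θ) Q) ≠ 0 := by
    intro h0
    rw [h0, Polynomial.coeff_zero, Polynomial.coeff_zero] at g2
    exact g2 rfl
  have hne' : sb (K := ℂ) (gP u e θ) Q ≠ 0 := by
    intro h0
    rw [h0, map_zero] at hne
    exact hne rfl
  -- a factor of smaller degree cannot vanish at the root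
  have fac : ∀ a : MvPolynomial (Fin 3) ℂ, a.totalDegree < d → ph ℂ a ≠ 0 →
      ¬ (Polynomial.X ^ n : Polynomial ℂ) ∣ (ph ℂ a).eval (η.map (eval θ)) := by
    intro a ha ha0 hdvd
    have hT := ph_TD a (d - 1) (by omega)
    have hP : Pc d (fun p => ((ph ℂ a).coeff p.2).coeff p.1) = ph ℂ a := by
      ext j i
      by_cases hij : i < d ∧ j < d
      · exact Pc_small d _ (⟨i, hij.1⟩, ⟨j, hij.2⟩)
      · rw [Pc_big d _ i j (by omega), hT j i (by omega)]
    rw [← hP, Pc_dvd] at hdvd
    have h0 := linv_map (Mt n d η) b B hB (eval θ) hθ _ hdvd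
    apply ha0
    rw [← hP, h0]
    unfold Pc
    simp
  constructor
  · intro hun
    have := Polynomial.natDegree_eq_zero_of_isUnit (hun.map (ph ℂ))
    omega
  · intro a a' haa
    by_contra hcon
    rw [not_or] at hcon
    have ha0 : a ≠ 0 := by
      rintro rfl
      rw [zero_mul] at haa
      exact hne' haa
    have ha0' : a' ≠ 0 := by
      rintro rfl
      rw [mul_zero] at haa
      exact hne' haa
    have hpos : ∀ x : MvPolynomial (Fin 3) ℂ, x ≠ 0 → ¬ IsUnit x → 1 ≤ x.totalDegree := by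
      intro x hx hxu
      by_contra hlt
      have h0 : x.totalDegree = 0 := by omega
      rw [totalDegree_eq_zero_iff_eq_C] at h0
      apply hxu
      rw [h0]
      apply IsUnit.map
      rw [isUnit_iff_ne_zero]
      intro h1
      rw [h1, C_0] at h0
      exact hx h0
    have h1 := hpos a ha0 hcon.1
    have h2 := hpos a' ha0' hcon.2
    have h3 := totalDegree_mul_of_isDomain ha0 ha0'
    rw [← haa] at h3
    have h4 : ph ℂ a * ph ℂ a' ≠ 0 := by
      rw [← map_mul, ← haa]
      exact hne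
    have h5 : (Polynomial.X ^ (2 * n) : Polynomial ℂ) ∣
        (ph ℂ a).eval (η.map (eval θ)) * (ph ℂ a').eval (η.map (eval θ)) := by
      rw [← Polynomial.eval_mul, ← map_mul, ← haa]
      exact g4
    have h6 := fac a (by omega) (left_ne_zero_of_mul h4)
    have h7 := fac a' (by omega) (right_ne_zero_of_mul h4)
    rw [pow_dvd_iff_le_emultiplicity, not_le] at h6 h7
    rw [pow_dvd_iff_le_emultiplicity, emultiplicity_mul Polynomial.prime_X] at h5
    have h8 := ENat.add_lt_add h6 h7
    have h9 := lt_of_le_of_lt h5 h8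
    rw [two_mul, Nat.cast_add] at h9
    exact lt_irrefl _ h9

end M4P
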