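import Pool.Agent.Work.MP_f82ddf_M4.Interface3
set_option autoImplicit false

/-! # Theorem M, part P3b, block LFD: division by a linear form -/

open Topology Filter
open scoped Differential
open Pool.Agent.Work.MP_f82ddf_nt.DQ

namespace M4P.LFD
open MvPolynomial Pool.ThmM M4P

/-- The homogeneous components of the product with a linear form. -/
theorem hc {σ K : Type} [CommRing K] {u G : MvPolynomial σ K} {ρ : ℕ}
    (hu : u.IsHomogeneous 1) :
    homogeneousComponent (ρ + 1) (u * G) = u * homogeneousComponent ρ G := by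
  classical
  conv_lhs => rw [← sum_homogeneousComponent G]
  rw [Finset.mul_sum, map_sum]
  have h1 : ∀ i ∈ Finset.range (G.totalDegree + 1),
      homogeneousComponent (ρ + 1) (u * homogeneousComponent i G) =
        if i = ρ then u * homogeneousComponent ρ G else 0 := by
    intro i _
    have h2 : u * homogeneousComponent i G ∈ homogeneousSubmodule σ K (1 + i) :=
      (mem_homogeneousSubmodule _ _).mpr (hu.mul (homogeneousComponent_isHomogeneous i G))
    rw [homogeneousComponent_of_mem h2]
    by_cases hi : i = ρ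
    · subst hi
      rw [if_pos (by omega), if_pos rfl]
    · rw [if_neg (by omega), if_neg hi]
  rw [Finset.sum_congr rfl h1, Finset.sum_ite_eq']
  split_ifs with h3
  · rfl
  · rw [homogeneousComponent_eq_zero, mul_zero]
    rw [Finset.mem_range] at h3
    omega

/-- Substitution of congruent elements. -/
theorem dvd_sub_subst {σ K : Type} [CommRing K] (u : MvPolynomial σ K)
    (g : σ → MvPolynomial σ K) (hg : ∀ i, u ∣ X i - g i) (F : MvPolynomial σ K) :
    u ∣ F - aeval g F := by
  induction F using MvPolynomial.induction_on with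
  | C a =>
    rw [aeval_C, MvPolynomial.algebraMap_eq, sub_self]
    exact dvd_zero u
  | add p q hp hq =>
    rw [map_add, add_sub_add_comm]
    exact dvd_add hp hq
  | mul_X p i hp =>
    rw [map_mul, aeval_X]
    have h : p * X i - aeval g p * g i = (p - aeval g p) * X i + aeval g p * (X i - g i) := by
      ring
    rw [h]
    exact dvd_add (hp.mul_right _) ((hg i).mul_left _)

theorem lf_hom (v : Fin 3 → ℂ) : (lf v).IsHomogeneous 1 := by
  unfold lf
  refine IsHomogeneous.sum _ _ _ fun i _ => ?_
  have := (isHomogeneous_C (Fin 3) (v i)).mul (isHomogeneous_X ℂ i)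
  simpa using this

end M4P.LFD

namespace M4P
open MvPolynomial Pool.ThmM

theorem all_LFD : M4P.LFD := by
  intro ρ F v hv hF hz
  obtain ⟨k, hk⟩ : ∃ k, v k ≠ 0 := by
    by_contra h
    push Not at h
    exact hv (funext h)
  obtain ⟨u, hu⟩ : ∃ u : MvPolynomial (Fin 3) Mer, u = map (algebraMap ℂ Mer) (lf v) := ⟨_, rfl⟩
  have hu1 : u.IsHomogeneous 1 := by
    rw [hu]
    exact (LFD.lf_hom v).map _
  obtain ⟨w, hw⟩ : ∃ w : Fin 3 → ℂ, w = Pi.single k (v k)⁻¹ := ⟨_, rfl⟩
  have hvw : ∑ i, v i * w i = 1 := by
    rw [hw, Finset.sum_eq_single k]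
    · rw [Pi.single_eq_same, mul_inv_cancel₀ hk]
    · intro i _ hi
      rw [Pi.single_eq_of_ne hi, mul_zero]
    · intro h
      exact absurd (Finset.mem_univ k) h
  obtain ⟨g, hg⟩ : ∃ g : Fin 3 → MvPolynomial (Fin 3) Mer,
      g = fun i => X i - C (algebraMap ℂ Mer (w i)) * u := ⟨_, rfl⟩
  have hdiv : u ∣ F - aeval g F := by
    apply LFD.dvd_sub_subst
    intro i
    rw [hg]
    have : (X i : MvPolynomial (Fin 3) Mer) - (X i - C (algebraMap ℂ Mer (w i)) * u) =
        C (algebraMap ℂ Mer (w i)) * u := by ring
    show u ∣ X i - (X i - C (algebraMap ℂ Mer (w i)) * u)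
    rw [this]
    exact Dvd.intro_left _ rfl
  have hinj : Function.Injective (algebraMap ℂ Mer) := (algebraMap ℂ Mer).injective
  have hzero : aeval g F = 0 := by
    apply funext_set (fun _ => Set.range (algebraMap ℂ Mer))
      (fun _ => Set.infinite_range_of_injective hinj)
    intro y hy
    have hy2 : ∀ i, ∃ p : ℂ, algebraMap ℂ Mer p = y i := fun i => hy i (Set.mem_univ i)
    choose p hp using hy2
    have hy3 : y = fun i => algebraMap ℂ Mer (p i) := funext fun i => (hp i).symm
    have hevu : eval y u = algebraMap ℂ Mer (∑ j, v j * p j) := by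
      rw [hu, hy3, eval_map, ← MvPolynomial.aeval_def]
      unfold lf
      simp only [map_sum, map_mul, aeval_C, aeval_X]
    have hcomp : eval y (aeval g F) = eval (fun i => eval y (g i)) F := by
      rw [aeval_eq_bind₁]
      show eval₂Hom _ _ _ = _
      rw [eval₂Hom_bind₁]
      rfl
    have hgi : (fun i => eval y (g i)) =
        fun i => algebraMap ℂ Mer (p i - w i * ∑ j, v j * p j) := by
      funext i
      rw [hg]
      simp only [map_sub, map_mul, eval_X, eval_C]
      rw [hevu, hy3]
    rw [hcomp, hgi, map_zero]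
    apply hz (fun i => p i - w i * ∑ j, v j * p j)
    have : ∑ i, v i * (p i - w i * ∑ j, v j * p j) =
        (∑ j, v j * p j) - (∑ i, v i * w i) * ∑ j, v j * p j := by
      rw [Finset.sum_mul, ← Finset.sum_sub_distrib]
      refine Finset.sum_congr rfl fun i _ => ?_
      ring
    rw [this, hvw]
    ring
  rw [hzero, sub_zero] at hdiv
  obtain ⟨G, hG⟩ := hdiv
  refine ⟨homogeneousComponent ρ G, homogeneousComponent_isHomogeneous ρ G, ?_⟩
  rw [← hu, ← LFD.hc hu1, ← hG]
  exact (homogeneousComponent_eq_self hF).symm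

end M4P
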