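import Pool.Agent.Work.MP_f82ddf_M4.Interface3
set_option autoImplicit false

/-! # Theorem M, part P3b, block LNR (helper87) -/

open Topology Filter
open scoped Differential
open Pool.Agent.Work.MP_f82ddf_nt.DQ

namespace M4P
open MvPolynomial Pool.ThmM Pool.Agent.Work.MP_f82ddf_M5

theorem all_LNR (hLIN : Pool.ThmM.Stmt_LIN) (hVPD : Pool.ThmM.Stmt_VPD)
    (hNNP : Pool.ThmM.Stmt_NNP) : LNR := by
  intro σ τ _ _ F G M hG hM
  have hF : F ≠ 0 := by
    intro h
    apply hG
    ext s
    rw [hM s, h]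
    simp
  have hc : cf G ≠ 0 := by
    intro h
    apply hG
    ext s
    rw [MvPolynomial.coeff_zero]
    by_contra hs
    exact hs (congrFun h ⟨s, MvPolynomial.mem_support_iff.mpr hs⟩)
  obtain ⟨h1, C, h2⟩ := hLIN F.support G.support (fun k i => M k i) (cf F) (cf G)
    (fun k => by
      unfold cf
      rw [hM k]
      exact (Finset.sum_coe_sort F.support
        (fun t => algebraMap ℂ Mer (M k t) * MvPolynomial.coeff t F)).symm) hc
  refine ⟨fun z => ?_, C, fun r hr => ?_⟩
  · rw [hVPD σ F hF z, hVPD τ G hG z]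
    exact WithTop.coe_le_coe.mpr (h1 z)
  · have h3 := h2 r (by linarith : (0:ℝ) < r).ne'
    have h4 := hNNP.2.2.2.1 (dv (cf F)) (dv (cf G)) r h1 hr
    unfold TP TT
    linarith

end M4P
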