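import Pool.Agent.Work.MP_f82ddf_M4.Interface
set_option autoImplicit false

/-! # Theorem M, part P4, block LOC: the local holomorphic norm. -/

namespace M4P
open MvPolynomial Topology Filter

noncomputable section

namespace LOC

/-- Evaluation of a form of degree `ρ` as a sum over a fixed finite set of exponents. -/
lemma eval_fixed {ρ : ℕ} {Q : P3} (hQ : Q.IsHomogeneous ρ) (m : Fin 3 → ℂ) :
    eval m Q = ∑ s ∈ Finset.finsuppAntidiag (Finset.univ : Finset (Fin 3)) ρ, Q.coeff s * ∏ i, m i ^ s i := by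
  rw [eval_eq']
  refine Finset.sum_subset ?_ ?_
  · intro s hs
    rw [Finset.mem_finsuppAntidiag]
    refine ⟨?_, Finset.subset_univ _⟩
    have h1 := hQ.degree_eq_sum_deg_support hs
    rw [h1]
    symm
    exact Finset.sum_subset (Finset.subset_univ _) (fun i _ hi => Finsupp.notMem_support_iff.mp hi)
  · intro s _ hs
    rw [notMem_support_iff.mp hs, zero_mul]

lemma eval_analyticAt {ρ : ℕ} {Psi : ℂ → P3} {z0 : ℂ} (hP : ∀ᶠ z in 𝓝 z0, (Psi z).IsHomogeneous ρ)
    (hH : ∀ s : Fin 3 →₀ ℕ, AnalyticAt ℂ (fun z => (Psi z).coeff s) z0)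
    (m : Fin 3 → ℂ) : AnalyticAt ℂ (fun z => eval m (Psi z)) z0 := by
  have h2 : AnalyticAt ℂ (fun z =>
      ∑ s ∈ Finset.finsuppAntidiag (Finset.univ : Finset (Fin 3)) ρ, (Psi z).coeff s * ∏ i, m i ^ s i) z0 := by
    refine Finset.analyticAt_fun_sum _ (fun s _ => ?_)
    exact (hH s).mul analyticAt_const
  refine h2.congr ?_
  filter_upwards [hP] with z hz
  exact (eval_fixed hz m).symm

/-- Homogeneity and scaling of the point. -/
lemma eval_scale {p : ℕ} {P : P3} (hP : P.IsHomogeneous p) (c : ℂ) (t : Fin 3 → ℂ) :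
    eval (fun j => c * t j) P = c ^ p * eval t P := by
  rw [eval_fixed hP, eval_fixed hP, Finset.mul_sum]
  refine Finset.sum_congr rfl (fun s hs => ?_)
  rw [Finset.mem_finsuppAntidiag] at hs
  have h1 : ∏ i, (c * t i) ^ s i = c ^ p * ∏ i, t i ^ s i := by
    simp_rw [mul_pow]
    rw [Finset.prod_mul_distrib, Finset.prod_pow_eq_pow_sum, hs.1]
  rw [h1]
  ring

lemma lf_scale (c : ℂ) (t : Fin 3 → ℂ) : lf (fun j => c * t j) = C c * lf t := by
  simp only [lf, Finset.mul_sum]
  refine Finset.sum_congr rfl (fun i _ => ?_)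
  rw [C_mul, mul_assoc]

lemma eval_lf (m t : Fin 3 → ℂ) : eval m (lf t) = ∑ j, t j * m j := by
  simp [lf, map_sum]

/-- Evaluation at a point of an element of the algebra. -/
lemma aeval_pt {S : Type} (f : (Fin 3 →₀ ℕ) → S → ℂ) (N : MvPolynomial (Fin 3 →₀ ℕ) ℂ) (t : S) :
    (aeval f N : S → ℂ) t = aeval (fun s => f s t) N := by
  induction N using MvPolynomial.induction_on with
  | C a => simp
  | add p q hp hq => rw [map_add, map_add, Pi.add_apply, hp, hq]
  | mul_X p i hp => rw [map_mul, map_mul, Pi.mul_apply, hp, aeval_X, aeval_X]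

end LOC

theorem all_LOC : M4P.MSA → M4P.LOC := by
  intro hMSA ρ Psi p P z0 hhom hhol hP hz0
  -- the choice of m0
  obtain ⟨m0, hm0⟩ : ∃ m0 : Fin 3 → ℂ, eval m0 (Psi z0) ≠ 0 := by
    by_contra hcon
    refine hz0 (MvPolynomial.funext (fun x => ?_))
    rw [map_zero]
    by_contra hx
    exact hcon ⟨x, hx⟩
  set c : ℂ → ℂ := fun z => eval m0 (Psi z) with hc
  have hcd : AnalyticAt ℂ c z0 := LOC.eval_analyticAt hhom hhol m0
  -- the polynomial N
  have h1 := hMSA ρ m0 p P hP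
  rw [BB, Algebra.adjoin_range_eq_range_aeval] at h1
  obtain ⟨N, hN⟩ := h1
  have hN' : ∀ t : SS ρ m0, aeval (fun s => (∏ i, lf (t.1 i)).coeff s) N = ∏ i, eval (t.1 i) P := by
    intro t
    have h2 : (aeval (fun (s : Fin 3 →₀ ℕ) => fun t : SS ρ m0 => (∏ i, lf (t.1 i)).coeff s) N :
        SS ρ m0 → ℂ) t = ∏ i, eval (t.1 i) P := congrFun hN t
    rw [LOC.aeval_pt] at h2
    exact h2
  refine ⟨fun z => c z ^ p * aeval (fun s => (Psi z).coeff s / c z) N, ?_, ?_⟩
  · refine AnalyticAt.mul (hcd.pow p) ?_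
    refine AnalyticAt.aeval_mvPolynomial (fun s => ?_) N
    exact (hhol s).div hcd hm0
  · have h3 : ∀ᶠ z in 𝓝 z0, c z ≠ 0 := hcd.continuousAt.eventually_ne hm0
    filter_upwards [h3] with z hz t ht
    have hcz : c z = ∏ i, ∑ j, t i j * m0 j := by
      rw [hc]
      change eval m0 (Psi z) = _
      rw [ht, map_prod]
      exact Finset.prod_congr rfl (fun i _ => LOC.eval_lf _ _)
    have hu : ∀ i, ∑ j, t i j * m0 j ≠ 0 := by
      intro i h0
      apply hz
      rw [hcz]
      exact Finset.prod_eq_zero (Finset.mem_univ i) h0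
    let u : Fin ρ → ℂ := fun i => ∑ j, t i j * m0 j
    let t' : SS ρ m0 := ⟨fun i j => (u i)⁻¹ * t i j, by
      intro i
      have h4 : ∑ j, (u i)⁻¹ * t i j * m0 j = (u i)⁻¹ * u i := by
        rw [Finset.mul_sum]
        exact Finset.sum_congr rfl (fun j _ => by ring)
      rw [h4]
      exact inv_mul_cancel₀ (hu i)⟩
    have h5 : ∏ i, lf (t'.1 i) = C (c z)⁻¹ * Psi z := by
      have h6 : ∀ i, lf (t'.1 i) = C (u i)⁻¹ * lf (t i) := fun i => LOC.lf_scale _ _
      simp_rw [h6]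
      rw [Finset.prod_mul_distrib, ← ht, ← map_prod, Finset.prod_inv_distrib, hcz]
    have h7 : (fun s => (Psi z).coeff s / c z) = fun s => (∏ i, lf (t'.1 i)).coeff s := by
      funext s
      rw [h5, coeff_C_mul]
      field_simp
    have h8 : ∀ i, eval (t'.1 i) P = (u i)⁻¹ ^ p * eval (t i) P := fun i => LOC.eval_scale hP _ _
    change c z ^ p * aeval (fun s => (Psi z).coeff s / c z) N = _
    rw [h7, hN' t']
    simp_rw [h8]
    rw [Finset.prod_mul_distrib, Finset.prod_pow, Finset.prod_inv_distrib]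
    have h9 : ∏ i, u i = c z := hcz.symm
    rw [h9, ← mul_assoc, ← mul_pow, mul_inv_cancel₀ hz, one_pow, one_mul]

end

end M4P
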