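import Pool.Agent.Work.MP_f82ddf_M4.Interface
set_option autoImplicit false

/-! # Theorem M, part P4, block MSA (helper87) -/

namespace M4P

open MvPolynomial in
theorem all_MSA : ESY → NEW → POW → MSA := by
  intro hE hN hP ρ m0 p P hp
  refine (hN ρ (SS ρ m0) (BB ρ m0) fun i t => eval (t.1 i) P).2 fun k => ?_
  have key : ∀ R ∈ Submodule.span ℂ (Set.range fun m : Fin 3 → ℂ => lf m ^ (p * k)),
      (fun t : SS ρ m0 => ∑ i, eval (t.1 i) R) ∈ BB ρ m0 := by
    intro R hR
    induction hR using Submodule.span_induction with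
    | mem x hx =>
      obtain ⟨m, rfl⟩ := hx
      have h1 := (hN ρ (SS ρ m0) (BB ρ m0) fun i t => ∑ j, t.1 i j * m j).1
        (fun l => hE ρ m0 m l) (p * k)
      have h2 : (fun t : SS ρ m0 => ∑ i, eval (t.1 i) (lf m ^ (p * k))) =
          fun t : SS ρ m0 => ∑ i, (∑ j, t.1 i j * m j) ^ (p * k) := by
        funext t
        refine Finset.sum_congr rfl fun i _ => ?_
        rw [map_pow]
        congr 1
        unfold lf
        rw [map_sum]
        refine Finset.sum_congr rfl fun j _ => ?_
        rw [map_mul, eval_C, eval_X, mul_comm]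
      rw [h2]
      exact h1
    | zero =>
      have h2 : (fun t : SS ρ m0 => ∑ i, eval (t.1 i) (0 : P3)) = 0 := by
        funext t
        simp
      rw [h2]
      exact Subalgebra.zero_mem _
    | add x y _ _ hx hy =>
      have h2 : (fun t : SS ρ m0 => ∑ i, eval (t.1 i) (x + y)) =
          (fun t : SS ρ m0 => ∑ i, eval (t.1 i) x) + fun t : SS ρ m0 => ∑ i, eval (t.1 i) y := by
        funext t
        rw [Pi.add_apply, ← Finset.sum_add_distrib]
        exact Finset.sum_congr rfl fun i _ => map_add _ _ _
      rw [h2]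
      exact Subalgebra.add_mem _ hx hy
    | smul a x _ hx =>
      have h2 : (fun t : SS ρ m0 => ∑ i, eval (t.1 i) (a • x)) =
          a • fun t : SS ρ m0 => ∑ i, eval (t.1 i) x := by
        funext t
        show _ = a * ∑ i, eval (t.1 i) x
        rw [Finset.mul_sum]
        exact Finset.sum_congr rfl fun i _ => smul_eval _ _ _
      rw [h2]
      exact Subalgebra.smul_mem _ hx _
  have h3 := key (P ^ k) (hP (p * k) (P ^ k) (hp.pow k))
  have h4 : (fun t : SS ρ m0 => ∑ i, eval (t.1 i) (P ^ k)) =
      fun t : SS ρ m0 => ∑ i, (eval (t.1 i) P) ^ k := by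
    funext t
    exact Finset.sum_congr rfl fun i _ => map_pow _ _ _
  rw [h4] at h3
  exact h3

end M4P
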