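import Pool.Agent.Work.MP_f82ddf_M4.Interface
set_option autoImplicit false

/-! # Theorem M, part P4, block NEW: Newton's identities in a subalgebra of functions. -/

namespace M4P
open MvPolynomial Topology Filter

noncomputable section

namespace NEW

lemma aeval_psum {ρ : ℕ} {S : Type} (a : Fin ρ → S → ℂ) (k : ℕ) :
    aeval a (psum (Fin ρ) ℂ k) = fun t => ∑ i, a i t ^ k := by
  rw [psum, map_sum]
  funext t
  simp [Finset.sum_apply]

lemma aeval_esymm {ρ : ℕ} {S : Type} (a : Fin ρ → S → ℂ) (k : ℕ) :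
    aeval a (esymm (Fin ρ) ℂ k) = fun t => esm ρ (fun i => a i t) k := by
  rw [esymm, map_sum]
  funext t
  simp [Finset.sum_apply, Finset.prod_apply, esm, map_prod]

lemma part1 {ρ : ℕ} {S : Type} (B : Subalgebra ℂ (S → ℂ)) (a : Fin ρ → S → ℂ)
    (he : ∀ k, (aeval a (esymm (Fin ρ) ℂ k)) ∈ B) : ∀ k, (aeval a (psum (Fin ρ) ℂ k)) ∈ B := by
  intro k
  induction k using Nat.strong_induction_on with
  | _ k ih =>
    rcases Nat.eq_zero_or_pos k with h0 | h0
    · subst h0
      rw [psum_zero, map_natCast]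
      exact B.natCast_mem _
    · rw [psum_eq_mul_esymm_sub_sum (Fin ρ) ℂ k h0, map_sub, map_sum]
      refine B.sub_mem ?_ (B.sum_mem ?_)
      · rw [map_mul, map_mul, map_pow, map_neg, map_one, map_natCast]
        exact B.mul_mem (B.mul_mem (B.pow_mem (B.neg_mem B.one_mem) _) (B.natCast_mem _)) (he k)
      · rintro ⟨i, j⟩ hx
        rw [Finset.mem_filter, Finset.HasAntidiagonal.mem_antidiagonal] at hx
        obtain ⟨h1, h2⟩ := hx
        rw [map_mul, map_mul, map_pow, map_neg, map_one]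
        refine B.mul_mem (B.mul_mem (B.pow_mem (B.neg_mem B.one_mem) _) (he _)) (ih _ ?_)
        have h3 : 0 < i := h2.1
        have h4 : i + j = k := h1
        change j < k
        omega

lemma part2 {ρ : ℕ} {S : Type} (B : Subalgebra ℂ (S → ℂ)) (a : Fin ρ → S → ℂ)
    (hp : ∀ k, (aeval a (psum (Fin ρ) ℂ k)) ∈ B) : ∀ k, (aeval a (esymm (Fin ρ) ℂ k)) ∈ B := by
  intro k
  induction k using Nat.strong_induction_on with
  | _ k ih =>
    rcases Nat.eq_zero_or_pos k with h0 | h0
    · subst h0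
      rw [esymm_zero, map_one]
      exact B.one_mem
    · have h1 := congrArg (aeval a) (mul_esymm_eq_sum (Fin ρ) ℂ k)
      rw [map_mul, map_natCast] at h1
      have h2 : (k : S → ℂ) * aeval a (esymm (Fin ρ) ℂ k) ∈ B := by
        rw [h1, map_mul, map_sum, map_pow, map_neg, map_one]
        refine B.mul_mem (B.pow_mem (B.neg_mem B.one_mem) _) (B.sum_mem ?_)
        rintro ⟨i, j⟩ hx
        rw [Finset.mem_filter] at hx
        rw [map_mul, map_mul, map_pow, map_neg, map_one]
        exact B.mul_mem (B.mul_mem (B.pow_mem (B.neg_mem B.one_mem) _) (ih _ hx.2)) (hp _)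
      have h3 : ((k : ℂ)⁻¹) • ((k : S → ℂ) * aeval a (esymm (Fin ρ) ℂ k)) = aeval a (esymm (Fin ρ) ℂ k) := by
        funext t
        have hk : (k : ℂ) ≠ 0 := by exact_mod_cast h0.ne'
        simp only [Pi.smul_apply, Pi.mul_apply, Pi.natCast_apply, smul_eq_mul]
        rw [← mul_assoc, inv_mul_cancel₀ hk, one_mul]
      rw [← h3]
      exact B.smul_mem h2 _

lemma esm_top (ρ : ℕ) (a : Fin ρ → ℂ) : esm ρ a ρ = ∏ i, a i := by
  have h : Finset.powersetCard ρ (Finset.univ : Finset (Fin ρ)) = {Finset.univ} := by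
    have h1 := Finset.powersetCard_self (Finset.univ : Finset (Fin ρ))
    rwa [Finset.card_univ, Fintype.card_fin] at h1
  rw [esm, h, Finset.sum_singleton]

end NEW

theorem all_NEW : M4P.NEW := by
  intro ρ S B a
  refine ⟨fun h k => ?_, fun h => ?_⟩
  · rw [← NEW.aeval_psum a k]
    refine NEW.part1 B a (fun k => ?_) k
    rw [NEW.aeval_esymm]
    exact h k
  · have h1 := NEW.part2 B a (fun k => by rw [NEW.aeval_psum]; exact h k) ρ
    rw [NEW.aeval_esymm] at h1
    have h2 : (fun t => ∏ i, a i t) = fun t => esm ρ (fun i => a i t) ρ := by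
      funext t
      rw [NEW.esm_top]
    rw [h2]
    exact h1

end

end M4P
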