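import Pool.Agent.Work.MP_f82ddf_M4.Interface2
set_option autoImplicit false

/-! # m4_blocks, block NEX (helper62): existence of norms with the order and the bound -/

open Topology Filter
open Pool.Agent.Work.MP_f82ddf_nt.DQ

namespace M4P.NEX
open MvPolynomial Topology Filter Pool.ThmM

theorem cod {p : ℂ → Prop} : (∀ᶠ z in codiscrete ℂ, p z) ↔ ∀ z₀, ∀ᶠ z in 𝓝[≠] z₀, p z := by
  unfold Filter.Eventually Filter.codiscrete
  rw [mem_codiscreteWithin_iff_forall_mem_nhdsNE]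
  simp

theorem nebot {E : Set ℂ} (hE : E.Countable) (y : ℂ) : (𝓝[Eᶜ] y).NeBot := by
  have h : Dense Eᶜ := hE.dense_compl ℝ
  exact mem_closure_iff_nhdsWithin_neBot.1 (h y)

theorem eq_of_ev {E : Set ℂ} (hE : E.Countable) {f g : ℂ → ℂ} {y : ℂ} (hf : ContinuousAt f y)
    (hg : ContinuousAt g y) (h : ∀ᶠ z in 𝓝 y, z ∉ E → f z = g z) : f y = g y := by
  have := nebot hE y
  have h' : f =ᶠ[𝓝[Eᶜ] y] g := by
    rw [EventuallyEq, eventually_nhdsWithin_iff]
    exact h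
  exact tendsto_nhds_unique_of_eventuallyEq (hf.tendsto.mono_left nhdsWithin_le_nhds)
    (hg.tendsto.mono_left nhdsWithin_le_nhds) h'

theorem le_of_ev {E : Set ℂ} (hE : E.Countable) {f g : ℂ → ℝ} {y : ℂ} (hf : ContinuousAt f y)
    (hg : ContinuousAt g y) (h : ∀ᶠ z in 𝓝 y, z ∉ E → f z ≤ g z) : f y ≤ g y := by
  have := nebot hE y
  have h' : f ≤ᶠ[𝓝[Eᶜ] y] g := by
    rw [EventuallyLE, eventually_nhdsWithin_iff]
    exact h
  exact le_of_tendsto_of_tendsto (hf.tendsto.mono_left nhdsWithin_le_nhds)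
    (hg.tendsto.mono_left nhdsWithin_le_nhds) h'

theorem ev_ev {p : ℂ → Prop} {z0 : ℂ} (h : ∀ᶠ z in 𝓝[≠] z0, p z) : ∀ᶠ y in 𝓝[≠] z0, ∀ᶠ z in 𝓝 y, p z := by
  filter_upwards [eventually_eventually_nhdsWithin.2 h, self_mem_nhdsWithin] with y hy hne
  rwa [IsOpen.nhdsWithin_eq isOpen_compl_singleton hne] at hy

theorem uniq {E : Set ℂ} (hE : E.Countable) {φ ψ : ℂ → ℂ} {z0 : ℂ} (hφ : MeromorphicAt φ z0)
    (hψ : MeromorphicAt ψ z0) (h3 : ∀ᶠ z in 𝓝[≠] z0, z ∉ E → φ z = ψ z) : ∀ᶠ z in 𝓝[≠] z0, φ z = ψ z := by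
  filter_upwards [ev_ev h3, hφ.eventually_analyticAt, hψ.eventually_analyticAt] with y hy ha hb
  exact eq_of_ev hE ha.continuousAt hb.continuousAt hy

theorem compl_countable {s : Set ℂ} (hs : s ∈ codiscrete ℂ) : sᶜ.Countable := by
  have h3 : IsDiscrete (sᶜ ∩ Set.univ) := isDiscrete_of_codiscreteWithin (by rwa [compl_compl])
  rw [Set.inter_univ] at h3
  exact (HereditarilyLindelofSpace.isLindelof _).countable_of_isDiscrete h3

theorem nrm_nonneg (p : P3) : 0 ≤ nrm p := Finset.sum_nonneg fun _ _ => norm_nonneg _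

theorem coeff_spz (F : MvPolynomial (Fin 3) Mer) (z : ℂ) (s : Fin 3 →₀ ℕ) :
    (spz F z).coeff s = if s ∈ F.support then rep (F.coeff s) z else 0 := by
  classical
  unfold spz
  rw [MvPolynomial.coeff_sum]
  simp only [MvPolynomial.coeff_monomial]
  rw [Finset.sum_ite_eq']

theorem nrm_spz (F : MvPolynomial (Fin 3) Mer) (z : ℂ) :
    nrm (spz F z) = ∑ s ∈ F.support, ‖rep (F.coeff s) z‖ := by
  classical
  unfold nrm
  have hsub : (spz F z).support ⊆ F.support := by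
    intro s hs
    rw [MvPolynomial.mem_support_iff, coeff_spz] at hs
    by_contra h
    exact hs (if_neg h)
  rw [Finset.sum_subset hsub (by
    intro s _ hs
    rw [notMem_support_iff.1 hs, norm_zero])]
  refine Finset.sum_congr rfl fun s hs => ?_
  rw [coeff_spz, if_pos hs]

theorem deg_eq {n : ℕ} {R : Type} [CommRing R] {p : MvPolynomial (Fin 3) R} (hp : p.IsHomogeneous n)
    {s : Fin 3 →₀ ℕ} (hs : s ∈ p.support) : ∑ i, s i = n := by
  have h1 : s.degree = n := by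
    rw [Finsupp.degree_eq_weight_one]
    exact hp (mem_support_iff.1 hs)
  rw [← h1, Finsupp.degree_eq_sum]

theorem eval_le {p : ℕ} {P : P3} (hP : P.IsHomogeneous p) (t : Fin 3 → ℂ) :
    ‖eval t P‖ ≤ nrm P * (∑ j, ‖t j‖) ^ p := by
  rw [eval_eq', nrm, Finset.sum_mul]
  refine (norm_sum_le _ _).trans (Finset.sum_le_sum fun s hs => ?_)
  rw [norm_mul]
  refine mul_le_mul_of_nonneg_left ?_ (norm_nonneg _)
  rw [norm_prod]
  have h2 : (∑ j, ‖t j‖) ^ p = ∏ j, (∑ j, ‖t j‖) ^ (s j) := by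
    rw [Finset.prod_pow_eq_pow_sum, deg_eq hP hs]
  rw [h2]
  refine Finset.prod_le_prod (fun i _ => norm_nonneg _) fun i _ => ?_
  rw [norm_pow]
  refine pow_le_pow_left₀ (norm_nonneg _) ?_ _
  exact Finset.single_le_sum (f := fun j => ‖t j‖) (fun j _ => norm_nonneg _) (Finset.mem_univ i)

theorem eval_smul {p : ℕ} {P : P3} (hP : P.IsHomogeneous p) (c : ℂ) (t : Fin 3 → ℂ) :
    eval (c • t) P = c ^ p * eval t P := by
  rw [eval_eq', eval_eq', Finset.mul_sum]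
  refine Finset.sum_congr rfl fun s hs => ?_
  simp only [Pi.smul_apply, smul_eq_mul, mul_pow, Finset.prod_mul_distrib]
  rw [Finset.prod_pow_eq_pow_sum, deg_eq hP hs]
  ring

theorem lf_smul (c : ℂ) (t : Fin 3 → ℂ) : lf (c • t) = C c * lf t := by
  simp only [lf, Pi.smul_apply, smul_eq_mul, C_mul, Finset.mul_sum, mul_assoc]

theorem prod_upd {ρ : ℕ} {R : Type} [CommRing R] (f : (Fin 3 → ℂ) → R) (k : R) (c : ℂ) (t : Fin ρ → Fin 3 → ℂ)
    (i0 : Fin ρ) (h : f (c • t i0) = k * f (t i0)) :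
    ∏ i, f (if i = i0 then c • t i else t i) = k * ∏ i, f (t i) := by
  classical
  have h1 : ∀ i, f (if i = i0 then c • t i else t i) = (if i = i0 then k else 1) * f (t i) := by
    intro i
    by_cases hi : i = i0
    · rw [if_pos hi, if_pos hi, hi, h]
    · rw [if_neg hi, if_neg hi, one_mul]
  rw [Finset.prod_congr rfl fun i _ => h1 i, Finset.prod_mul_distrib, Finset.prod_ite_eq']
  simp

theorem local_zero (hREP : Stmt_REP) {p : ℕ} {F : MvPolynomial (Fin 3) Mer} {P : P3} {E : Set ℂ}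
    (hE : E.Countable) (hfac : ∀ z, z ∉ E → ∃ t : Fin 0 → Fin 3 → ℂ, spz F z = ∏ i, lf (t i))
    (hF : F ≠ 0) (hFh : F.IsHomogeneous 0) (z0 : ℂ) :
    ∃ φ : ℂ → ℂ, MeromorphicAt φ z0 ∧ p • vP F z0 ≤ meromorphicOrderAt φ z0 ∧
      ∀ᶠ z in 𝓝[≠] z0, ∀ t : Fin 0 → Fin 3 → ℂ, spz F z = ∏ i, lf (t i) → φ z = ∏ i, eval (t i) P := by
  have ho : meromorphicOrderAt (fun _ : ℂ => (1 : ℂ)) z0 = 0 :=
    (analyticAt_const.meromorphicNFAt).meromorphicOrderAt_eq_zero_iff.2 one_ne_zero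
  refine ⟨fun _ => 1, MeromorphicAt.const 1 z0, ?_, Eventually.of_forall fun z t _ => by simp⟩
  rw [ho]
  refine nsmul_nonpos ?_ p
  obtain ⟨s, hs⟩ := support_nonempty.2 hF
  have hs0 : s = 0 := by
    ext i
    have := deg_eq hFh hs
    have h2 : s i ≤ ∑ i, s i := Finset.single_le_sum (f := fun i => s i) (fun _ _ => Nat.zero_le _) (Finset.mem_univ i)
    simp only [Finsupp.coe_zero, Pi.zero_apply]
    omega
  have h1 : ∀ᶠ z in 𝓝[≠] z0, rep (F.coeff s) z = (fun _ : ℂ => (1 : ℂ)) z := by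
    refine uniq hE ((hREP _).2.1 z0) (MeromorphicAt.const 1 z0) (Eventually.of_forall fun z hz => ?_)
    obtain ⟨t, ht⟩ := hfac z hz
    have h3 := coeff_spz F z s
    rw [if_pos hs, ht] at h3
    rw [← h3, hs0]
    simp
  have h2 : om (F.coeff s) z0 = 0 := by
    rw [← ho]
    exact meromorphicOrderAt_congr h1
  rw [← h2]
  exact Finset.inf_le (f := fun α => om (coeff α F) z0) hs

theorem local_pos (hLOC : LOC) (hREP : Stmt_REP) (hVPD : Stmt_VPD) {ρ p : ℕ} {F : MvPolynomial (Fin 3) Mer} {P : P3}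
    (i0 : Fin ρ) (hF : F ≠ 0) (hFh : F.IsHomogeneous ρ) (hP : P.IsHomogeneous p) (z0 : ℂ) :
    ∃ φ : ℂ → ℂ, MeromorphicAt φ z0 ∧ p • vP F z0 ≤ meromorphicOrderAt φ z0 ∧
      ∀ᶠ z in 𝓝[≠] z0, ∀ t : Fin ρ → Fin 3 → ℂ, spz F z = ∏ i, lf (t i) → φ z = ∏ i, eval (t i) P := by
  classical
  obtain ⟨n, hn⟩ : ∃ n : ℤ, vP F z0 = (n : WithTop ℤ) := ⟨_, hVPD _ F hF z0⟩
  set g : (Fin 3 →₀ ℕ) → ℂ → ℂ := fun s z => (z - z0) ^ (-n) * rep (F.coeff s) z with hg
  have hid : MeromorphicAt (fun z : ℂ => z - z0) z0 := (MeromorphicAt.id z0).sub (MeromorphicAt.const z0 z0)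
  have hgm : ∀ s, MeromorphicAt (g s) z0 := fun s => (hid.zpow (-n)).mul ((hREP _).2.1 z0)
  have hgo : ∀ s, meromorphicOrderAt (g s) z0 = ((-n : ℤ) : WithTop ℤ) + om (F.coeff s) z0 := by
    intro s
    have h1 := meromorphicOrderAt_mul (hid.zpow (-n)) ((hREP (F.coeff s)).2.1 z0)
    have h2 : meromorphicOrderAt ((fun z : ℂ => z - z0) ^ (-n)) z0 = ((-n : ℤ) : WithTop ℤ) :=
      meromorphicOrderAt_zpow_id_sub_const
    rw [h2] at h1
    exact h1
  set a : (Fin 3 →₀ ℕ) → ℂ → ℂ := fun s => toMeromorphicNFAt (g s) z0 with ha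
  have hle : ∀ s ∈ F.support, (n : WithTop ℤ) ≤ om (F.coeff s) z0 := by
    intro s hs
    rw [← hn]
    exact Finset.inf_le (f := fun α => om (coeff α F) z0) hs
  have haan : ∀ s ∈ F.support, AnalyticAt ℂ (a s) z0 := by
    intro s hs
    rw [← (hgm s).meromorphicOrderAt_nonneg_iff_analyticAt_toMeromorphicNFAt, hgo]
    have h1 := add_le_add (le_refl ((-n : ℤ) : WithTop ℤ)) (hle s hs)
    refine le_trans (le_of_eq ?_) h1
    rw [← WithTop.coe_add, neg_add_cancel, WithTop.coe_zero]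
  obtain ⟨s0, hs0, hs0n⟩ := Finset.exists_mem_eq_inf F.support (support_nonempty.2 hF)
    (fun α => om (coeff α F) z0)
  have hs0' : om (F.coeff s0) z0 = (n : WithTop ℤ) := by
    rw [← hn]
    exact hs0n.symm
  have has0 : a s0 z0 ≠ 0 := by
    rw [← (hgm s0).meromorphicOrderAt_eq_zero_iff_toMeromorphicNFAt_ne_zero, hgo, hs0',
      ← WithTop.coe_add, neg_add_cancel, WithTop.coe_zero]
  have haz : ∀ s z, z ≠ z0 → a s z = (z - z0) ^ (-n) * rep (F.coeff s) z := by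
    intro s z hz
    exact ((hgm s).eqOn_compl_singleton_toMeromorphicNFAt hz).symm
  set Psi : ℂ → P3 := fun z => ∑ s ∈ F.support, monomial s (a s z) with hPsi
  have hcoef : ∀ z s, (Psi z).coeff s = if s ∈ F.support then a s z else 0 := by
    intro z s
    show (∑ s ∈ F.support, monomial s (a s z)).coeff s = _
    rw [MvPolynomial.coeff_sum]
    simp only [MvPolynomial.coeff_monomial]
    rw [Finset.sum_ite_eq']
  have hPh : ∀ z, (Psi z).IsHomogeneous ρ := by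
    intro z
    refine IsHomogeneous.sum _ _ _ fun s hs => ?_
    refine isHomogeneous_monomial _ ?_
    rw [Finsupp.degree_eq_sum]
    exact deg_eq hFh hs
  have hspz : ∀ z, z ≠ z0 → Psi z = C ((z - z0) ^ (-n)) * spz F z := by
    intro z hz
    show ∑ s ∈ F.support, monomial s (a s z) = C ((z - z0) ^ (-n)) * ∑ s ∈ F.support, monomial s (rep (F.coeff s) z)
    rw [Finset.mul_sum]
    refine Finset.sum_congr rfl fun s _ => ?_
    rw [haz s z hz, C_mul_monomial]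
  obtain ⟨φ0, hφa, hφ0⟩ := hLOC ρ Psi p P z0 (Eventually.of_forall hPh) (by
    intro s
    by_cases hs : s ∈ F.support
    · have : (fun z => (Psi z).coeff s) = a s := by
        funext z
        rw [hcoef, if_pos hs]
      rw [this]
      exact haan s hs
    · have : (fun z => (Psi z).coeff s) = fun _ => 0 := by
        funext z
        rw [hcoef, if_neg hs]
      rw [this]
      exact analyticAt_const) hP (by
    intro h0
    have h1 := hcoef z0 s0
    rw [h0, if_pos hs0, coeff_zero] at h1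
    exact has0 h1.symm)
  refine ⟨fun z => (z - z0) ^ (n * p) * φ0 z, (hid.zpow _).mul hφa.meromorphicAt, ?_, ?_⟩
  · have h1 := meromorphicOrderAt_mul (hid.zpow (n * p)) hφa.meromorphicAt
    have h2 : meromorphicOrderAt ((fun z : ℂ => z - z0) ^ (n * p)) z0 = ((n * p : ℤ) : WithTop ℤ) :=
      meromorphicOrderAt_zpow_id_sub_const
    rw [h2] at h1
    have h3 : meromorphicOrderAt (fun z => (z - z0) ^ (n * p) * φ0 z) z0 = ((n * p : ℤ) : WithTop ℤ) +
      meromorphicOrderAt φ0 z0 := h1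
    rw [h3, hn]
    have h4 : p • (n : WithTop ℤ) = ((n * p : ℤ) : WithTop ℤ) := by
      rw [← WithTop.coe_nsmul, nsmul_eq_mul, mul_comm]
    rw [h4]
    exact le_add_of_nonneg_right hφa.meromorphicOrderAt_nonneg
  · filter_upwards [eventually_nhdsWithin_of_eventually_nhds hφ0, self_mem_nhdsWithin] with z hz hne t ht
    have hne' : z - z0 ≠ 0 := sub_ne_zero.2 hne
    have h1 : Psi z = ∏ i, lf (if i = i0 then (z - z0) ^ (-n) • t i else t i) := by
      rw [prod_upd lf (C ((z - z0) ^ (-n))) _ t i0 (lf_smul _ _), hspz z hne, ht]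
    have h2 := hz _ h1
    rw [prod_upd (fun x => eval x P) (((z - z0) ^ (-n)) ^ p) _ t i0 (eval_smul hP _ _)] at h2
    show (z - z0) ^ (n * p) * φ0 z = _
    rw [h2, ← mul_assoc, ← zpow_natCast ((z - z0) ^ (-n)) p, ← zpow_mul, ← zpow_add₀ hne']
    have : n * (p : ℤ) + -n * (p : ℤ) = 0 := by ring
    rw [this, zpow_zero, one_mul]

theorem local_norm (hLOC : LOC) (hREP : Stmt_REP) (hVPD : Stmt_VPD) {ρ p : ℕ} {F : MvPolynomial (Fin 3) Mer} {P : P3}
    {E : Set ℂ} (hE : E.Countable) (hfac : ∀ z, z ∉ E → ∃ t : Fin ρ → Fin 3 → ℂ, spz F z = ∏ i, lf (t i))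
    (hF : F ≠ 0) (hFh : F.IsHomogeneous ρ) (hP : P.IsHomogeneous p) (z0 : ℂ) :
    ∃ φ : ℂ → ℂ, MeromorphicAt φ z0 ∧ p • vP F z0 ≤ meromorphicOrderAt φ z0 ∧
      ∀ᶠ z in 𝓝[≠] z0, ∀ t : Fin ρ → Fin 3 → ℂ, spz F z = ∏ i, lf (t i) → φ z = ∏ i, eval (t i) P := by
  rcases Nat.eq_zero_or_pos ρ with h0 | h0
  · subst h0
    exact local_zero hREP hE hfac hF hFh z0
  · exact local_pos hLOC hREP hVPD ⟨0, h0⟩ hF hFh hP z0

theorem main (hLOC : LOC) (hGLU : GLU) (hBND : BND) (hREP : Stmt_REP) (hVPD : Stmt_VPD) (ρ : ℕ) (q : P3)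
    (F : MvPolynomial (Fin 3) Mer) (E : Set ℂ) (p : ℕ) (P : P3)
    (hd : Dat ρ q F E) (hP : P.IsHomogeneous p) :
    ∃ h : Mer, IsN ρ F P h ∧ (∀ z, p • vP F z ≤ om h z) ∧
      ∃ C : ℝ, ∀ᶠ z in codiscrete ℂ, ‖rep h z‖ ≤ C * nrm (spz F z) ^ p := by
  classical
  have hF : F ≠ 0 := by
    obtain ⟨m, _, hm⟩ := hd.mov (fun _ => 1) (by
      intro h
      have := congrFun h 0
      simp at this)
    intro h0
    apply hm
    rw [h0]
    exact map_zero _
  obtain ⟨C, hC, hCb⟩ := hBND ρ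
  have hfac : ∀ z, z ∉ E → ∃ t : Fin ρ → Fin 3 → ℂ, spz F z = ∏ i, lf (t i) := by
    intro z hz
    obtain ⟨t, ht, _⟩ := hd.fac z hz
    exact ⟨t, ht⟩
  have hfac2 : ∀ z, ∃ t : Fin ρ → Fin 3 → ℂ, z ∉ E → spz F z = ∏ i, lf (t i) := by
    intro z
    by_cases hz : z ∈ E
    · exact ⟨fun _ _ => 0, fun h => absurd hz h⟩
    · obtain ⟨t, ht⟩ := hfac z hz
      exact ⟨t, fun _ => ht⟩
  choose τ hτ using hfac2
  set G : ℂ → ℂ := fun z => ∏ i, eval (τ z i) P with hG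
  choose φ hφm hφo hφe using fun z0 => local_norm hLOC hREP hVPD hd.cnt hfac hF hd.hom hP z0
  have hφG : ∀ z0, ∀ᶠ z in 𝓝[≠] z0, z ∉ E → φ z0 z = G z := by
    intro z0
    filter_upwards [hφe z0] with z hz hzE
    exact hz (τ z) (hτ z hzE)
  obtain ⟨h, hh⟩ := hGLU E G hd.cnt (fun z0 => ⟨φ z0, hφm z0, hφG z0⟩)
  have hhφ : ∀ z0, ∀ᶠ z in 𝓝[≠] z0, rep h z = φ z0 z := fun z0 => hh z0 (φ z0) (hφm z0) (hφG z0)
  have hGb : ∀ z, z ∉ E → ‖G z‖ ≤ (nrm P ^ ρ * C ^ p) * nrm (spz F z) ^ p := by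
    intro z hz
    calc ‖G z‖ = ∏ i, ‖eval (τ z i) P‖ := by rw [hG]; exact norm_prod _ _
      _ ≤ ∏ i, (nrm P * (∑ j, ‖τ z i j‖) ^ p) :=
          Finset.prod_le_prod (fun _ _ => norm_nonneg _) fun i _ => eval_le hP _
      _ = nrm P ^ ρ * (∏ i, (∑ j, ‖τ z i j‖)) ^ p := by
          rw [Finset.prod_mul_distrib, Finset.prod_const, Finset.card_univ, Fintype.card_fin, Finset.prod_pow]
      _ ≤ nrm P ^ ρ * (C * nrm (spz F z)) ^ p := by
          refine mul_le_mul_of_nonneg_left ?_ (pow_nonneg (nrm_nonneg _) _)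
          refine pow_le_pow_left₀ (Finset.prod_nonneg fun i _ => Finset.sum_nonneg fun j _ => norm_nonneg _) ?_ _
          rw [hτ z hz]
          exact hCb _
      _ = (nrm P ^ ρ * C ^ p) * nrm (spz F z) ^ p := by rw [mul_pow]; ring
  refine ⟨h, ?_, ?_, nrm P ^ ρ * C ^ p, ?_⟩
  · have h1 : ∀ᶠ z in codiscrete ℂ, ∀ t : Fin ρ → Fin 3 → ℂ, spz F z = ∏ i, lf (t i) → rep h z = ∏ i, eval (t i) P := by
      rw [cod]
      intro z0
      filter_upwards [hhφ z0, hφe z0] with z a b t ht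
      rw [a]
      exact b t ht
    refine ⟨_, compl_countable h1, ?_⟩
    intro z hz
    rw [Set.mem_compl_iff, not_not] at hz
    exact hz
  · intro z0
    have h1 : om h z0 = meromorphicOrderAt (φ z0) z0 := meromorphicOrderAt_congr (hhφ z0)
    rw [h1]
    exact hφo z0
  · rw [cod]
    intro z0
    have han : ∀ᶠ z in 𝓝[≠] z0, ∀ s ∈ F.support, AnalyticAt ℂ (rep (F.coeff s)) z := by
      rw [Filter.eventually_all_finset]
      intro s _
      exact ((hREP (F.coeff s)).2.1 z0).eventually_analyticAt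
    have hphi := (hφm z0).eventually_analyticAt
    filter_upwards [ev_ev (hφG z0), hhφ z0, han, hphi] with y hy1 hy2 hy3 hy4
    rw [hy2]
    refine le_of_ev hd.cnt (f := fun z => ‖φ z0 z‖) (g := fun z => nrm P ^ ρ * C ^ p * nrm (spz F z) ^ p)
      hy4.continuousAt.norm ?_ ?_
    · have h5 : (fun z => nrm (spz F z)) = fun z => ∑ s ∈ F.support, ‖rep (F.coeff s) z‖ := by
        funext z
        exact nrm_spz F z
      have h6 : ContinuousAt (fun z => nrm (spz F z)) y := by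
        rw [h5]
        exact tendsto_finsetSum _ fun s hs => (hy3 s hs).continuousAt.norm
      exact continuousAt_const.mul (h6.pow p)
    · filter_upwards [hy1] with z hz hzE
      rw [hz hzE]
      exact hGb z hzE

end M4P.NEX

namespace M4P
open Pool.ThmM in
theorem all_NEX : LOC → GLU → BND → Stmt_REP → Stmt_ALG → Stmt_VAL → Stmt_VPD → NEX :=
  fun hLOC hGLU hBND hREP _ _ hVPD ρ q F E p P hd hP => M4P.NEX.main hLOC hGLU hBND hREP hVPD ρ q F E p P hd hP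
end M4P
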