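import Pool.Agent.Work.MP_f82ddf_M4.Interface2
set_option autoImplicit false

/-! # NHN: the norm of H is not zero -/

open Topology Filter
open scoped Differential
open Pool.Agent.Work.MP_f82ddf_nt.DQ

namespace M4P
open MvPolynomial Pool.ThmM

namespace NHN

/-- the complement of a codiscrete set is countable -/
theorem compl_countable {s : Set ℂ} (hs : s ∈ codiscrete ℂ) : sᶜ.Countable := by
  have h3 : IsDiscrete (sᶜ ∩ Set.univ) := isDiscrete_of_codiscreteWithin (by rwa [compl_compl])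
  rw [Set.inter_univ] at h3
  exact (HereditarilyLindelofSpace.isLindelof _).countable_of_isDiscrete h3

theorem ev_countable {p : ℂ → Prop} (hp : ∀ᶠ z in codiscrete ℂ, p z) :
    {z | ¬ p z}.Countable := compl_countable hp

theorem eval_lf (m t : Fin 3 → ℂ) : eval m (lf t) = ∑ i, t i * m i := by
  unfold lf
  simp

/-- off a countable set the value of the form at `m` is not zero -/
theorem nz (hE : EVZ) (hA : Stmt_ALG) (F : MvPolynomial (Fin 3) Mer) (m : Fin 3 → ℂ)
    (hm : evC m F ≠ 0) : {z | eval m (spz F z) = 0}.Countable := by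
  have h1 := hE F m
  have h2 := hA.2.2.2.2.2.2.2 _ hm
  have h3 : ∀ᶠ z in codiscrete ℂ, eval m (spz F z) ≠ 0 := by
    filter_upwards [h1, h2] with z hz1 hz2
    rwa [← hz1]
  refine (ev_countable h3).mono ?_
  intro z hz
  exact fun h => h hz

end NHN

open NHN in
theorem all_NHN : FIN → EVZ → Stmt_ALG → NHN := by
  intro hFIN hEVZ hALG ρ d e q H F E h hD hqi hq hH hq1 hqH hN hh
  obtain ⟨V, hV0, hV⟩ := hFIN d e q H hqi hq hH hq1 hqH
  obtain ⟨EN, hEN, hNz⟩ := hN
  obtain ⟨m0, -, hm0⟩ := hD.mov ![1, 0, 0] (by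
    intro h0
    have := congrFun h0 0
    simp at this)
  have hc0 := nz hEVZ hALG F m0 hm0
  have hrep : ∀ᶠ z in codiscrete ℂ, rep (0 : Mer) z = 0 := by
    have h1 := hALG.2.2.2.2.2.2.1 0
    rw [map_zero] at h1
    exact h1
  have hc1 := ev_countable hrep
  let Z : (Fin 3 → ℂ) → Set ℂ := fun v =>
    {z | ∀ m : Fin 3 → ℂ, (∑ j, v j * m j = 0) → eval m (spz F z) = 0}
  let E' : Set ℂ := E ∪ EN ∪ {z | eval m0 (spz F z) = 0} ∪ {z | ¬ rep (0 : Mer) z = 0}
  have hE' : E'.Countable := ((hD.cnt.union hEN).union hc0).union hc1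
  have hcov : E'ᶜ ⊆ ⋃ v ∈ V, Z v := by
    intro z hz
    have hzE : z ∉ E := fun h => hz (Or.inl (Or.inl (Or.inl h)))
    have hzN : z ∉ EN := fun h => hz (Or.inl (Or.inl (Or.inr h)))
    have hz0 : eval m0 (spz F z) ≠ 0 := fun h => hz (Or.inl (Or.inr h))
    have hzr : rep (0 : Mer) z = 0 := by
      by_contra hcon
      exact hz (Or.inr hcon)
    obtain ⟨t, ht, htq⟩ := hD.fac z hzE
    have hprod : ∏ i, eval (t i) H = 0 := by
      rw [← hNz z hzN t ht, hh]
      exact hzr
    obtain ⟨i, -, hi⟩ := Finset.prod_eq_zero_iff.1 hprod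
    have hti : t i ≠ 0 := by
      intro h0
      apply hz0
      rw [ht, map_prod]
      apply Finset.prod_eq_zero (Finset.mem_univ i)
      rw [eval_lf, h0]
      simp
    obtain ⟨v, hv, c, hc⟩ := hV (t i) hti (htq i) hi
    rw [Set.mem_iUnion₂]
    refine ⟨v, hv, ?_⟩
    intro m hm
    rw [ht, map_prod]
    apply Finset.prod_eq_zero (Finset.mem_univ i)
    rw [eval_lf, hc]
    have h1 : ∑ j, (c • v) j * m j = c * ∑ j, v j * m j := by
      rw [Finset.mul_sum]
      apply Finset.sum_congr rfl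
      intro j _
      rw [Pi.smul_apply, smul_eq_mul, mul_assoc]
    rw [h1, hm, mul_zero]
  have hZ : ∀ v ∈ V, (Z v).Countable := by
    intro v hv
    obtain ⟨m, hm, hz⟩ := hD.mov v (hV0 v hv)
    refine (nz hEVZ hALG F m hz).mono ?_
    intro w hw
    exact hw m hm
  have h1 : (⋃ v ∈ V, Z v).Countable := (V.countable_toSet).biUnion hZ
  have h2 : (Set.univ : Set ℂ).Countable := by
    refine (hE'.union h1).mono ?_
    intro z _
    by_cases hz : z ∈ E'
    · exact Or.inl hz
    · exact Or.inr (hcov hz)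
  exact not_countable_complex h2

end M4P
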