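import Pool.Agent.Work.MP_f82ddf_M4.Interface3
import Pool.Agent.Work.MP_f82ddf_M1.B_REP
import Pool.Agent.Work.MP_f82ddf_M1.B_ALG
set_option autoImplicit false

/-! # Theorem M (MP_f82ddf_nt), part P3b, block NUF (helper74). -/

open Topology Filter
open scoped Differential
open Pool.Agent.Work.MP_f82ddf_nt.DQ

namespace M4P
open MvPolynomial Pool.ThmM Pool.Agent.Work.MP_f82ddf_M5

namespace NUF

theorem map_ne {σ : Type} (κ : MvPolynomial σ ℂ) (hκ : κ ≠ 0) :
    MvPolynomial.map (algebraMap ℂ Mer) κ ≠ 0 := by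
  intro h
  apply hκ
  have hinj := MvPolynomial.map_injective (σ := σ) (algebraMap ℂ Mer) (algebraMap ℂ Mer).injective
  exact hinj (h.trans (map_zero _).symm)

/-- the order of a numeric polynomial is zero -/
theorem vP_map (hVAL : Pool.ThmM.Stmt_VAL) {σ : Type} (κ : MvPolynomial σ ℂ) (hκ : κ ≠ 0) (z : ℂ) :
    vP (MvPolynomial.map (algebraMap ℂ Mer) κ) z = 0 := by
  obtain ⟨_, _, _, hnum, _, _⟩ := hVAL z
  have hne := map_ne κ hκ
  have h0 : ∀ α ∈ (MvPolynomial.map (algebraMap ℂ Mer) κ).support,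
      om (MvPolynomial.coeff α (MvPolynomial.map (algebraMap ℂ Mer) κ)) z = 0 := by
    intro α hα
    rw [MvPolynomial.mem_support_iff, MvPolynomial.coeff_map] at hα
    rw [MvPolynomial.coeff_map]
    refine hnum _ ?_
    intro h
    apply hα
    rw [h, map_zero]
  unfold vP
  rw [Finset.inf_congr rfl h0]
  refine Finset.inf_const ?_ 0
  exact MvPolynomial.support_nonempty.2 hne

/-- the height of a numeric polynomial is constant -/
theorem TP_map (hVAL : Pool.ThmM.Stmt_VAL) (hVPD : Stmt_VPD) {σ : Type} (κ : MvPolynomial σ ℂ)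
    (hκ : κ ≠ 0) : ∃ K : ℝ, ∀ r : ℝ, r ≠ 0 →
      TP (MvPolynomial.map (algebraMap ℂ Mer) κ) r = K := by
  have hne := map_ne κ hκ
  have hdv : dvP (MvPolynomial.map (algebraMap ℂ Mer) κ) = 0 := by
    ext z
    have h1 := hVPD σ _ hne z
    rw [vP_map hVAL κ hκ z] at h1
    have h2 : ((dvP (MvPolynomial.map (algebraMap ℂ Mer) κ) z : ℤ) : WithTop ℤ) = ((0 : ℤ) : WithTop ℤ) :=
      h1.symm
    exact WithTop.coe_injective h2
  let v : (MvPolynomial.map (algebraMap ℂ Mer) κ).support → ℂ := fun α => MvPolynomial.coeff α κ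
  refine ⟨Real.log ‖v‖, fun r hr => ?_⟩
  have hLL : LL (cf (MvPolynomial.map (algebraMap ℂ Mer) κ)) r = Real.log ‖v‖ := by
    have hc : ∀ α : (MvPolynomial.map (algebraMap ℂ Mer) κ).support,
        ∀ᶠ z in codiscrete ℂ, rep (cf (MvPolynomial.map (algebraMap ℂ Mer) κ) α) z = v α := by
      intro α
      have h1 : cf (MvPolynomial.map (algebraMap ℂ Mer) κ) α = algebraMap ℂ Mer (v α) :=
        MvPolynomial.coeff_map _ _ _
      rw [h1]
      exact ALG.const p_REP (v α)
    have hall : (fun z => Real.log ‖vec (cf (MvPolynomial.map (algebraMap ℂ Mer) κ)) z‖)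
        =ᶠ[codiscrete ℂ] fun _ => Real.log ‖v‖ := by
      filter_upwards [eventually_all.2 hc] with z hz
      have : vec (cf (MvPolynomial.map (algebraMap ℂ Mer) κ)) z = v := funext hz
      rw [this]
    have hcw : (fun z => Real.log ‖vec (cf (MvPolynomial.map (algebraMap ℂ Mer) κ)) z‖)
        =ᶠ[codiscreteWithin (Metric.sphere 0 |r|)] fun _ => Real.log ‖v‖ :=
      hall.filter_mono (Filter.codiscreteWithin_mono (Set.subset_univ _))
    unfold LL
    rw [Real.circleAverage_congr_codiscreteWithin hcw hr, Real.circleAverage_const]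
  change LL (cf (MvPolynomial.map (algebraMap ℂ Mer) κ)) r -
    NN (dvP (MvPolynomial.map (algebraMap ℂ Mer) κ)) r = _
  rw [hLL, hdv]
  have h0 : NN 0 r = 0 := by
    unfold NN
    rw [map_zero]
    rfl
  rw [h0, sub_zero]

end NUF

theorem all_NUF (hGAU : Stmt_GAU) (hGEL : Stmt_GEL) (hVAL : Pool.ThmM.Stmt_VAL) (hVPD : Stmt_VPD) :
    M4P.NUF := by
  intro σ _ κ F' hκ hF
  have hne := NUF.map_ne κ hκ
  refine ⟨fun z => ?_, ?_⟩
  · rw [hGAU σ _ F' z, NUF.vP_map hVAL κ hκ z, zero_add]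
  · obtain ⟨C, hC⟩ := hGEL σ _ F' hne hF
    obtain ⟨K, hK⟩ := NUF.TP_map hVAL hVPD κ hκ
    refine ⟨C + |K|, fun r hr => ?_⟩
    have hr0 : r ≠ 0 := by linarith
    have h1 := (hC r hr0).2
    have h2 := hK r hr0
    rw [h2] at h1
    have h3 := abs_add_le (TP (MvPolynomial.map (algebraMap ℂ Mer) κ * F') r - K - TP F' r) K
    have h4 : TP (MvPolynomial.map (algebraMap ℂ Mer) κ * F') r - K - TP F' r + K =
        TP (MvPolynomial.map (algebraMap ℂ Mer) κ * F') r - TP F' r := by ring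
    rw [h4] at h3
    linarith

end M4P
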