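import Pool.Agent.Work.MP_f82ddf_M4.Interface
set_option autoImplicit false

/-! # Theorem M (MP_f82ddf_nt), part P4, block BND. -/

namespace M4P
open MvPolynomial Topology Filter

namespace BND

noncomputable section

/-- the exponents of degree `ρ` -/
def Ex (ρ : ℕ) : Finset (Fin 3 →₀ ℕ) := (Finset.univ : Finset (Fin 3)).finsuppAntidiag ρ

theorem mem_Ex {ρ : ℕ} {P : P3} (hP : P.IsHomogeneous ρ) {s : Fin 3 →₀ ℕ} (hs : P.coeff s ≠ 0) :
    s ∈ Ex ρ := by
  have h1 := hP hs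
  rw [Ex, Finset.mem_finsuppAntidiag]
  refine ⟨?_, Finset.subset_univ _⟩
  rw [← h1, Finsupp.weight_apply, Finsupp.sum_fintype _ _ (by simp)]
  simp

theorem eval_sum {ρ : ℕ} {P : P3} (hP : P.IsHomogeneous ρ) (m : Fin 3 → ℂ) :
    eval m P = ∑ s ∈ Ex ρ, P.coeff s * ∏ i, m i ^ s i := by
  rw [MvPolynomial.eval_eq']
  refine Finset.sum_subset ?_ ?_
  · intro s hs
    exact mem_Ex hP (MvPolynomial.mem_support_iff.1 hs)
  · intro s _ hs
    rw [MvPolynomial.notMem_support_iff.1 hs, zero_mul]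

theorem eval_lf (m t : Fin 3 → ℂ) : eval m (lf t) = ∑ j, t j * m j := by
  simp [lf]

theorem nrm_sum {ρ : ℕ} {P : P3} (hP : P.IsHomogeneous ρ) :
    nrm P = ∑ s ∈ BND.Ex ρ, ‖P.coeff s‖ := by
  refine Finset.sum_subset ?_ ?_
  · intro s hs
    exact BND.mem_Ex hP (MvPolynomial.mem_support_iff.1 hs)
  · intro s _ hs
    rw [MvPolynomial.notMem_support_iff.1 hs, norm_zero]

theorem nrm_nonneg (P : P3) : 0 ≤ nrm P := Finset.sum_nonneg fun _ _ => norm_nonneg _

theorem nrm_pos {P : P3} (hP : P ≠ 0) : 0 < nrm P := by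
  obtain ⟨s, hs⟩ := MvPolynomial.ne_zero_iff.1 hP
  have h1 : ‖P.coeff s‖ ≤ nrm P :=
    Finset.single_le_sum (f := fun s => ‖P.coeff s‖) (fun _ _ => norm_nonneg _)
      (MvPolynomial.mem_support_iff.2 hs)
  exact lt_of_lt_of_le (norm_pos_iff.2 hs) h1

theorem lf_hom (t : Fin 3 → ℂ) : (lf t).IsHomogeneous 1 := by
  refine MvPolynomial.IsHomogeneous.sum _ _ _ fun i _ => ?_
  have h := (isHomogeneous_C (Fin 3) (t i)).mul (isHomogeneous_X ℂ i)
  simpa using h

theorem prod_hom {ρ : ℕ} (t : Fin ρ → Fin 3 → ℂ) : (∏ i, lf (t i)).IsHomogeneous ρ := by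
  have h := MvPolynomial.IsHomogeneous.prod (Finset.univ : Finset (Fin ρ)) (fun i => lf (t i))
    (fun _ => 1) (fun i _ => lf_hom (t i))
  simpa using h

theorem cont_lf {ρ : ℕ} (i : Fin ρ) (s : Fin 3 →₀ ℕ) :
    Continuous fun t : Fin ρ → Fin 3 → ℂ => (lf (t i)).coeff s := by
  have h : (fun t : Fin ρ → Fin 3 → ℂ => (lf (t i)).coeff s) =
      fun t => ∑ j, t i j * (X j : P3).coeff s := by
    funext t
    rw [lf, MvPolynomial.coeff_sum]
    exact Finset.sum_congr rfl fun j _ => by rw [MvPolynomial.coeff_C_mul]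
  rw [h]
  fun_prop

theorem cont_prod {ρ : ℕ} (S : Finset (Fin ρ)) :
    ∀ s : Fin 3 →₀ ℕ, Continuous fun t : Fin ρ → Fin 3 → ℂ => (∏ i ∈ S, lf (t i)).coeff s := by
  classical
  induction S using Finset.induction_on with
  | empty => intro s; simp only [Finset.prod_empty]; exact continuous_const
  | insert a S ha ih =>
    intro s
    have h : (fun t : Fin ρ → Fin 3 → ℂ => (∏ i ∈ insert a S, lf (t i)).coeff s) =
        fun t => ∑ x ∈ Finset.HasAntidiagonal.antidiagonal s, (lf (t a)).coeff x.1 *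
          (∏ i ∈ S, lf (t i)).coeff x.2 := by
      funext t
      rw [Finset.prod_insert ha, MvPolynomial.coeff_mul]
    rw [h]
    exact continuous_finsetSum _ fun x _ => (cont_lf a x.1).mul (ih x.2)

theorem lf_smul (a : ℂ) (t : Fin 3 → ℂ) : lf (a • t) = C a * lf t := by
  rw [lf, lf, Finset.mul_sum]
  refine Finset.sum_congr rfl fun i _ => ?_
  rw [Pi.smul_apply, smul_eq_mul, C_mul, mul_assoc]

theorem lf_ne {t : Fin 3 → ℂ} (h : t ≠ 0) : lf t ≠ 0 := by
  intro h0
  apply h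
  funext i
  have h1 := congrArg (eval (Pi.single i (1 : ℂ))) h0
  rw [BND.eval_lf, map_zero] at h1
  simpa [Pi.single_apply] using h1

theorem nrm_C_mul {ρ : ℕ} (a : ℂ) {P : P3} (hP : P.IsHomogeneous ρ) :
    nrm (C a * P) = ‖a‖ * nrm P := by
  have h := (isHomogeneous_C (Fin 3) a).mul hP
  rw [zero_add] at h
  rw [nrm_sum h, nrm_sum hP, Finset.mul_sum]
  exact Finset.sum_congr rfl fun s _ => by rw [MvPolynomial.coeff_C_mul, norm_mul]

end

end BND

theorem all_BND : BND := by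
  intro ρ
  let K : Set (Fin ρ → Fin 3 → ℂ) := {t | ∀ i, ∑ j, ‖t i j‖ = 1}
  have hcl : IsClosed K := by
    have : K = ⋂ i, {t : Fin ρ → Fin 3 → ℂ | ∑ j, ‖t i j‖ = 1} := by
      ext t; simp [K]
    rw [this]
    refine isClosed_iInter fun i => ?_
    exact isClosed_eq (by fun_prop) continuous_const
  have hbd : K ⊆ Metric.closedBall 0 1 := by
    intro t ht
    rw [mem_closedBall_zero_iff]
    refine (pi_norm_le_iff_of_nonneg zero_le_one).2 fun i => ?_
    refine (pi_norm_le_iff_of_nonneg zero_le_one).2 fun j => ?_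
    rw [← ht i]
    exact Finset.single_le_sum (f := fun j => ‖t i j‖) (fun _ _ => norm_nonneg _)
      (Finset.mem_univ j)
  have hK : IsCompact K := (isCompact_closedBall _ _).of_isClosed_subset hcl hbd
  have hne : K.Nonempty := ⟨fun _ => ![1, 0, 0], fun i => by simp [Fin.sum_univ_three]⟩
  have hcont : Continuous fun t : Fin ρ → Fin 3 → ℂ => nrm (∏ i, lf (t i)) := by
    have h : (fun t : Fin ρ → Fin 3 → ℂ => nrm (∏ i, lf (t i))) =
        fun t => ∑ s ∈ BND.Ex ρ, ‖(∏ i, lf (t i)).coeff s‖ := by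
      funext t; exact BND.nrm_sum (BND.prod_hom t)
    rw [h]
    exact continuous_finsetSum _ fun s _ => (BND.cont_prod Finset.univ s).norm
  obtain ⟨t0, ht0, hmin⟩ := hK.exists_isMinOn hne hcont.continuousOn
  have hpos : 0 < nrm (∏ i, lf (t0 i)) := by
    apply BND.nrm_pos
    refine Finset.prod_ne_zero_iff.2 fun i _ => BND.lf_ne ?_
    intro h
    have h1 := ht0 i
    rw [h] at h1
    simp at h1
  refine ⟨(nrm (∏ i, lf (t0 i)))⁻¹, inv_pos.2 hpos, fun t => ?_⟩
  by_cases hz : ∃ i, ∑ j, ‖t i j‖ = 0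
  · obtain ⟨i, hi⟩ := hz
    rw [Finset.prod_eq_zero (Finset.mem_univ i) hi]
    exact mul_nonneg (inv_nonneg.2 hpos.le) (BND.nrm_nonneg _)
  · push Not at hz
    let n : Fin ρ → ℝ := fun i => ∑ j, ‖t i j‖
    have hn : ∀ i, 0 < n i := fun i =>
      lt_of_le_of_ne (Finset.sum_nonneg fun _ _ => norm_nonneg _) (Ne.symm (hz i))
    let t' : Fin ρ → Fin 3 → ℂ := fun i => ((n i : ℂ))⁻¹ • t i
    have ht' : t' ∈ K := by
      intro i
      have h1 : ∀ j, ‖t' i j‖ = (n i)⁻¹ * ‖t i j‖ := by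
        intro j
        simp only [t', Pi.smul_apply, smul_eq_mul, norm_mul, norm_inv, Complex.norm_real,
          Real.norm_eq_abs, abs_of_pos (hn i)]
      rw [Finset.sum_congr rfl fun j _ => h1 j, ← Finset.mul_sum]
      exact inv_mul_cancel₀ (hn i).ne'
    have h2 : ∀ i, t i = (n i : ℂ) • t' i := by
      intro i
      simp only [t', smul_smul]
      rw [mul_inv_cancel₀ (by exact_mod_cast (hn i).ne'), one_smul]
    have h3 : ∏ i, lf (t i) = C (∏ i, (n i : ℂ)) * ∏ i, lf (t' i) := by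
      rw [map_prod, ← Finset.prod_mul_distrib]
      refine Finset.prod_congr rfl fun i _ => ?_
      rw [← BND.lf_smul, ← h2 i]
    rw [h3, BND.nrm_C_mul _ (BND.prod_hom t')]
    have h4 : ‖∏ i, (n i : ℂ)‖ = ∏ i, n i := by
      rw [norm_prod]
      exact Finset.prod_congr rfl fun i _ => by
        rw [Complex.norm_real, Real.norm_eq_abs, abs_of_pos (hn i)]
    rw [h4]
    have h5 : nrm (∏ i, lf (t0 i)) ≤ nrm (∏ i, lf (t' i)) := hmin ht'
    have h6 : 0 ≤ ∏ i, n i := Finset.prod_nonneg fun i _ => (hn i).le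
    rw [inv_mul_eq_div, le_div_iff₀ hpos]
    exact mul_le_mul_of_nonneg_left h5 h6

end M4P
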