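import Pool.Agent.Work.MP_f82ddf_M4.Interface2
import Pool.Agent.Work.MP_f82ddf_M4.B_BND
set_option autoImplicit false

/-! # Theorem M (MP_f82ddf_nt), part P4, block ORD (over Mer). -/

open Topology Filter
open scoped Differential
open Pool.Agent.Work.MP_f82ddf_nt.DQ

namespace M4P
open MvPolynomial Pool.ThmM

namespace ORD

/-- A codiscrete condition fails only on a countable set. -/
theorem cnt_of_cod {p : ℂ → Prop} (h : ∀ᶠ z in codiscrete ℂ, p z) : {z | ¬ p z}.Countable := by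
  have h3 := (mem_codiscrete'.1 h).2
  exact (HereditarilyLindelofSpace.isLindelof _).countable_of_isDiscrete h3

/-- An element of `Mer` which vanishes outside of a countable set is zero. -/
theorem eq_zero_of_cnt (hA : Stmt_ALG) {k : Mer} {E : Set ℂ} (hE : E.Countable)
    (hk : ∀ z, z ∉ E → rep k z = 0) : k = 0 := by
  by_contra h0
  have h1 := cnt_of_cod (hA.2.2.2.2.2.2.2 k h0)
  have h2 : (Set.univ : Set ℂ) ⊆ E ∪ {z | ¬ rep k z ≠ 0} := by
    intro z _
    by_cases hz : z ∈ E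
    · exact Or.inl hz
    · exact Or.inr fun h => h (hk z hz)
  exact not_countable_complex ((hE.union h1).mono h2)

theorem rep_pow (hA : Stmt_ALG) (g : Mer) (b : ℕ) :
    ∀ᶠ z in codiscrete ℂ, rep (g ^ b) z = rep g z ^ b := by
  induction b with
  | zero =>
    have h := hA.2.2.2.2.2.2.1 1
    rw [map_one] at h
    filter_upwards [h] with z hz
    rw [pow_zero, pow_zero, hz]
  | succ b ih =>
    filter_upwards [ih, hA.2.2.2.1 (g ^ b) g] with z h1 h2
    rw [pow_succ, pow_succ, h2, h1]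

end ORD

theorem all_ORD (hEVZ : EVZ) (hALG : Stmt_ALG) (_hREP : Stmt_REP) : ORD := by
  intro ρ b q H H1 Q1 F E h h1 hD ⟨E1, hE1, hh⟩ ⟨E2, hE2, hh1⟩ hrel
  rw [← sub_eq_zero]
  have c1 := ORD.cnt_of_cod (hALG.2.2.1 (h * evC ![0, 1, 0] F ^ b) (evC ![0, 0, 1] F ^ b * h1))
  have c2 := ORD.cnt_of_cod (hALG.2.2.2.1 h (evC ![0, 1, 0] F ^ b))
  have c3 := ORD.cnt_of_cod (hALG.2.2.2.1 (evC ![0, 0, 1] F ^ b) h1)
  have c4 := ORD.cnt_of_cod (ORD.rep_pow hALG (evC ![0, 1, 0] F) b)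
  have c5 := ORD.cnt_of_cod (ORD.rep_pow hALG (evC ![0, 0, 1] F) b)
  have c6 := ORD.cnt_of_cod (hEVZ F ![0, 1, 0])
  have c7 := ORD.cnt_of_cod (hEVZ F ![0, 0, 1])
  have hc := (((((((hD.cnt.union hE1).union hE2).union c1).union c2).union c3).union c4).union
    c5).union (c6.union c7)
  refine ORD.eq_zero_of_cnt hALG hc fun z hz => ?_
  simp only [Set.mem_union, Set.mem_ofPred_eq, not_or, not_not] at hz
  obtain ⟨⟨⟨⟨⟨⟨⟨⟨z0, z1⟩, z2⟩, z3⟩, z4⟩, z5⟩, z6⟩, z7⟩, z8, z9⟩ := hz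
  rw [z3, z4, z5, z6, z7, z8, z9]
  obtain ⟨t, ht, hq⟩ := hD.fac z z0
  rw [hh z z1 t ht, hh1 z z2 t ht, ht, map_prod, map_prod, ← Finset.prod_pow,
    ← Finset.prod_pow, ← Finset.prod_mul_distrib, ← Finset.prod_mul_distrib, sub_eq_zero]
  refine Finset.prod_congr rfl fun i _ => ?_
  have h2 := congrArg (eval (t i)) hrel
  rw [map_mul, map_add, map_mul, map_mul, map_pow, map_pow, eval_X, eval_X, hq i, zero_mul,
    add_zero] at h2
  rw [BND.eval_lf, BND.eval_lf]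
  simpa [Fin.sum_univ_three] using h2

end M4P
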