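import Pool.Agent.Work.MP_f82ddf_M4.Interface3
set_option autoImplicit false

/-! # Block PFZ (helper6): the values of R on the plane are products of determinants -/

open Topology Filter
open scoped Differential
open Pool.Agent.Work.MP_f82ddf_nt.DQ

namespace M4P
open MvPolynomial Pool.ThmM Pool.Agent.Work.MP_f82ddf_M5

noncomputable section

namespace PFZ

/-- the complement of a codiscrete set is countable -/
theorem compl_countable {s : Set ℂ} (hs : s ∈ codiscrete ℂ) : sᶜ.Countable := by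
  have h3 : IsDiscrete (sᶜ ∩ Set.univ) := isDiscrete_of_codiscreteWithin (by rwa [compl_compl])
  rw [Set.inter_univ] at h3
  exact (HereditarilyLindelofSpace.isLindelof _).countable_of_isDiscrete h3

theorem eval_sb {σ τ : Type} (g : σ → MvPolynomial τ ℂ) (F : MvPolynomial σ ℂ) (p : τ → ℂ) :
    eval p (sb (K := ℂ) g F) = eval (fun i => eval p (g i)) F := by
  have h : (aeval (R := ℂ) p).comp (sb (K := ℂ) g) = aeval (fun i => eval p (g i)) := by
    refine algHom_ext fun i => ?_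
    rw [AlgHom.comp_apply, sb, aeval_X, aeval_X]
    show aeval p (map (RingHom.id ℂ) (g i)) = _
    rw [MvPolynomial.map_id]
    rfl
  exact DFunLike.congr_fun h F

theorem sb_hom {σ τ : Type} (g : σ → MvPolynomial τ ℂ) (hg : ∀ i, (g i).IsHomogeneous 1)
    (F : MvPolynomial σ ℂ) {d : ℕ} (hF : F.IsHomogeneous d) : (sb (K := ℂ) g F).IsHomogeneous d := by
  have h := hF.aeval (R := ℂ) (n := 1) (fun i => map (algebraMap ℂ ℂ) (g i))
    (fun i => (hg i).map _)
  rwa [one_mul] at h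

theorem gP_hom {N : ℕ} (u e θ : Fin N → ℂ) (j : Fin N) : (gP u e θ j).IsHomogeneous 1 :=
  ((((isHomogeneous_X ℂ (0 : Fin 3)).C_mul (u j)).add
    ((isHomogeneous_X ℂ (1 : Fin 3)).C_mul (e j))).add
    ((isHomogeneous_X ℂ (2 : Fin 3)).C_mul (θ j)))

theorem eval_u {N : ℕ} (u e θ : Fin N → ℂ) (F : MvPolynomial (Fin N) ℂ) :
    eval ![1, 0, 0] (sb (K := ℂ) (gP u e θ) F) = eval u F := by
  rw [eval_sb]
  congr 2
  funext j
  simp [gP]

theorem eval_e {N : ℕ} (u e θ : Fin N → ℂ) (F : MvPolynomial (Fin N) ℂ) :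
    eval ![0, 1, 0] (sb (K := ℂ) (gP u e θ) F) = eval e F := by
  rw [eval_sb]
  congr 2
  funext j
  simp [gP]

theorem vzC (a : Mer) (z : ℂ) (h : vz (C a : MvPolynomial (Fin 0) Mer) z ≠ 0) : rep a z ≠ 0 := by
  intro h0
  apply h
  refine Finset.sum_eq_zero fun s hs => ?_
  have h1 : s = 0 := Subsingleton.elim _ _
  subst h1
  rw [coeff_zero_C, h0, monomial_zero]

end PFZ

open PFZ in
theorem all_PFZ : VZM → VZS → VZC → CHR → FACN → PFZ := by
  intro h1 h2 h3 h4 h5 N d Q XM R u e θ hQ hX hu he hXu hirr hR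
  obtain ⟨S, hS⟩ := hR
  obtain ⟨a1, a2, a3, a4, a5⟩ := h1 (Fin 2 × Fin N)
  obtain ⟨b1, b2, b3, b4, b5⟩ := h1 (Fin N)
  have c3 := (h1 (Fin 0)).2.2.1 (C (evC u XM)) (by
    rw [Ne, C_eq_zero]
    exact hXu)
  have e1 := a1 R S
  have e2 := b2 Q
  have e3 := h3 N d d (map (algebraMap ℂ Mer) Q) XM
  have e4 := (h2 _ _ (gB u e θ) R).1
  have e5 := (h2 (Fin N) (Fin N) (fun i => X i) XM).2 u
  have hall := (((e1.and e2).and (e3.and e4)).and (e5.and c3))
  refine ⟨_, compl_countable hall, ?_⟩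
  intro z hz
  rw [Set.mem_compl_iff, not_not] at hz
  obtain ⟨⟨⟨q1, q2⟩, ⟨q3, q4⟩⟩, q5, q6⟩ := hz
  have q7 := vzC _ _ q6
  rw [q5] at q7
  have hd : 1 ≤ d := by
    rcases Nat.eq_zero_or_pos d with rfl | hd
    · exfalso
      have g1 : Q.totalDegree = 0 := (totalDegree_zero_iff_isHomogeneous _).2 hQ
      rw [totalDegree_eq_zero_iff_eq_C] at g1
      rw [g1, eval_C] at hu he
      exact he hu
    · exact hd
  have hdvd : sb (K := ℂ) (gB u e θ) (vz R z) ∣
      chow d d (sb (K := ℂ) (gP u e θ) Q) (sb (K := ℂ) (gP u e θ) (vz XM z)) := by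
    rw [← h4, ← q2, ← q3, hS, q1]
    exact map_dvd _ (dvd_mul_right _ _)
  rw [q4]
  refine h5 d d _ _ hirr (sb_hom _ (gP_hom u e θ) Q hQ)
    (sb_hom _ (gP_hom u e θ) _ (b5 XM d z hX)) ?_ hd hd ?_ _ hdvd
  · rw [eval_e]
    exact he
  · rintro ⟨w, hw⟩
    apply q7
    rw [← eval_u u e θ, hw, map_mul, eval_u, hu, zero_mul]

end

end M4P
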