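import Pool.Agent.Work.MP_f82ddf_M4.Interface2
set_option autoImplicit false

/-! # Theorem M (MP_f82ddf_nt), part P4, block PLANE. -/

open Topology Filter
open scoped Differential
open Pool.Agent.Work.MP_f82ddf_nt.DQ

namespace M4P
open MvPolynomial Pool.ThmM

namespace PLANE

theorem om_pow (hV : Stmt_VAL) (g : Mer) (hg : g ≠ 0) (b : ℕ) (z : ℂ) :
    om (g ^ b) z = ((b * dv1 g z : ℤ) : WithTop ℤ) := by
  induction b with
  | zero =>
    have h := (hV z).2.2.2.1 1 one_ne_zero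
    rw [map_one] at h
    rw [pow_zero, h]; simp
  | succ b ih =>
    rw [pow_succ, (hV z).1, ih, (hV z).2.2.2.2.1 g hg, ← WithTop.coe_add]
    congr 1
    push_cast
    ring

end PLANE

theorem all_PLANE (hNEX : NEX) (hHEX2 : HEX2) (hNHN : NHN) (hORD : ORD) (hBLL : BLL)
    (hVAL : Stmt_VAL) (hNNP : Stmt_NNP) (hJEN : Stmt_JEN) (hVPD : Stmt_VPD) : PLANE := by
  intro ρ d q F E hirr hq h100 hd100 h010 hD hf
  obtain ⟨H, H1, Q1, hH, hH1, hndvd, hrel⟩ := hHEX2 d q hq h100 hd100 h010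
  have hv : (![1, 0, 0] : Fin 3 → ℂ) ≠ 0 := fun h => by simpa using congrFun h 0
  obtain ⟨m1, -, hm1⟩ := hD.mov ![1, 0, 0] hv
  have hF : F ≠ 0 := by
    rintro rfl
    exact hm1 (by simp [evC])
  obtain ⟨h, hh, hbd, C1, hC1⟩ := hNEX ρ q F E (d ^ 2 - 1) H hD hH
  obtain ⟨h1, hh1, hbd1, -⟩ := hNEX ρ q F E (d ^ 2 - 1) H1 hD hH1
  have h0 : h ≠ 0 := hNHN ρ d (d ^ 2 - 1) q H F E h hD hirr hq hH h010 hndvd hh
  have hrel2 := hORD ρ (d ^ 2) q H H1 Q1 F E h h1 hD hh hh1 hrel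
  obtain ⟨K, hK⟩ := hBLL F h (d ^ 2 - 1) C1 hF h0 hC1
  obtain ⟨C2, hC2⟩ := hJEN h
  refine ⟨K - C2, fun D hD0 hcond r hr => ?_⟩
  have hbd' : ∀ z, ((d ^ 2 - 1 : ℕ) : ℤ) * dvP F z ≤ dv1 h z := by
    intro z
    have h2 := hbd z
    rw [(hVAL z).2.2.2.2.1 h h0, hVPD (Fin 3) F hF z, ← WithTop.coe_nsmul, WithTop.coe_le_coe,
      nsmul_eq_mul] at h2
    exact h2
  have hle : (d ^ 2) • D + (d ^ 2 - 1) • dvP F ≤ dv1 h := by
    intro z
    show (d ^ 2) • D z + (d ^ 2 - 1) • dvP F z ≤ dv1 h z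
    rw [nsmul_eq_mul, nsmul_eq_mul]
    have hD0z : (0 : ℤ) ≤ D z := hD0 z
    rcases hD0z.eq_or_lt with h2 | h2
    · rw [← h2, mul_zero, zero_add]
      exact hbd' z
    · obtain ⟨e1, e2⟩ := hcond z h2
      have hg : evC ![0, 1, 0] F ≠ 0 := by
        intro h3
        rw [(hVAL z).2.2.1 _ |>.2 h3, hVPD (Fin 3) F hF z] at e1
        exact WithTop.top_ne_coe e1
      rw [(hVAL z).2.2.2.2.1 _ hg, hVPD (Fin 3) F hF z] at e1
      rw [(hVAL z).2.2.2.2.1 _ hf, hVPD (Fin 3) F hF z, ← WithTop.coe_add,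
        WithTop.coe_le_coe] at e2
      have e1' := WithTop.coe_eq_coe.1 e1
      have hh10 : h1 ≠ 0 := by
        rintro rfl
        rw [mul_zero] at hrel2
        exact mul_ne_zero h0 (pow_ne_zero _ hg) hrel2
      have h3 := congrArg (fun k => om k z) hrel2
      rw [(hVAL z).1, (hVAL z).1, PLANE.om_pow hVAL _ hg, PLANE.om_pow hVAL _ hf,
        (hVAL z).2.2.2.2.1 h h0, (hVAL z).2.2.2.2.1 h1 hh10, ← WithTop.coe_add,
        ← WithTop.coe_add, WithTop.coe_eq_coe] at h3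
      have h4 := hbd1 z
      rw [(hVAL z).2.2.2.2.1 h1 hh10, hVPD (Fin 3) F hF z, ← WithTop.coe_nsmul,
        WithTop.coe_le_coe, nsmul_eq_mul] at h4
      rw [e1'] at h3
      have h5 : ((d ^ 2 : ℕ) : ℤ) * (dvP F z + D z) ≤
          ((d ^ 2 : ℕ) : ℤ) * dv1 (evC ![0, 0, 1] F) z :=
        mul_le_mul_of_nonneg_left e2 (Int.natCast_nonneg _)
      rw [mul_add] at h5
      linarith
  have hN := hNNP.2.2.2.1 _ _ r hle hr
  rw [hNNP.1, hNNP.2.2.1, hNNP.2.2.1] at hN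
  have hr0 : r ≠ 0 := by linarith
  have h6 := hK r hr0
  rw [hC2 r hr0] at h6
  have h7 : TP F r = LL (cf F) r - NN (dvP F) r := rfl
  rw [h7, mul_sub]
  linarith

end M4P
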