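import Pool.Agent.Work.MP_f82ddf_M4.Interface3
set_option autoImplicit false

/-! # Theorem M (MP_f82ddf_nt), part P3b, block PLN (helper53): the assembly. -/

open Topology Filter
open scoped Differential
open Pool.Agent.Work.MP_f82ddf_nt.DQ

namespace M4P
open MvPolynomial Pool.ThmM Pool.Agent.Work.MP_f82ddf_M5

namespace PLN

/-! ### substitutions -/

theorem eval_alg {τ K : Type} [CommRing K] [Algebra ℂ K] (P : MvPolynomial τ ℂ) (p : τ → ℂ) :
    MvPolynomial.eval (fun i => algebraMap ℂ K (p i)) (map (algebraMap ℂ K) P) =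
      algebraMap ℂ K (eval p P) := by
  induction P using MvPolynomial.induction_on with
  | C a => simp
  | add a b ha hb => rw [map_add, map_add, map_add, map_add, ha, hb]
  | mul_X a i ha => rw [map_mul, map_mul, map_mul, map_mul, ha, map_X, eval_X, eval_X]

theorem eval_sb {σ τ K : Type} [CommRing K] [Algebra ℂ K] (g : σ → MvPolynomial τ ℂ)
    (F : MvPolynomial σ K) (p : τ → ℂ) :
    MvPolynomial.eval (fun i => algebraMap ℂ K (p i)) (sb g F) =
      MvPolynomial.eval (fun j => algebraMap ℂ K (eval p (g j))) F := by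
  unfold sb
  induction F using MvPolynomial.induction_on with
  | C a => simp
  | add a b ha hb => rw [map_add, map_add, map_add, ha, hb]
  | mul_X a j ha => rw [map_mul, map_mul, map_mul, ha, aeval_X, eval_X, eval_alg]

theorem evC_sb {σ τ : Type} (g : σ → MvPolynomial τ ℂ) (F : MvPolynomial σ Mer) (p : τ → ℂ) :
    evC p (sb g F) = evC (fun j => eval p (g j)) F := eval_sb g F p

theorem eval_sbC {σ τ : Type} (g : σ → MvPolynomial τ ℂ) (F : MvPolynomial σ ℂ) (p : τ → ℂ) :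
    eval p (sb (K := ℂ) g F) = eval (fun j => eval p (g j)) F := eval_sb (K := ℂ) g F p

theorem evC_map {τ : Type} (P : MvPolynomial τ ℂ) (p : τ → ℂ) :
    evC p (map (algebraMap ℂ Mer) P) = algebraMap ℂ Mer (eval p P) := eval_alg P p

theorem evC_mul {τ : Type} (F G : MvPolynomial τ Mer) (p : τ → ℂ) :
    evC p (F * G) = evC p F * evC p G := by
  unfold evC
  rw [map_mul]

theorem evC_zero {τ : Type} (p : τ → ℂ) : evC p (0 : MvPolynomial τ Mer) = 0 := by
  unfold evC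
  rw [map_zero]

theorem sb_hom {σ τ K : Type} [CommRing K] [Algebra ℂ K] (g : σ → MvPolynomial τ ℂ)
    (hg : ∀ i, (g i).IsHomogeneous 1) {F : MvPolynomial σ K} {m : ℕ} (hF : F.IsHomogeneous m) :
    (sb g F).IsHomogeneous m := by
  unfold sb
  have h := hF.aeval (S := K) (fun i => map (algebraMap ℂ K) (g i)) (n := 1)
    (fun i => (hg i).map _)
  rw [one_mul] at h
  exact h

theorem sb_coeff {σ τ K : Type} [CommRing K] [Algebra ℂ K] (g : σ → MvPolynomial τ ℂ)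
    (F : MvPolynomial σ K) (s : τ →₀ ℕ) :
    (sb g F).coeff s = ∑ t ∈ F.support,
      algebraMap ℂ K (coeff s (∏ i ∈ t.support, g i ^ t i)) * F.coeff t := by
  unfold sb
  rw [aeval_def, eval₂_eq, coeff_sum]
  refine Finset.sum_congr rfl fun t _ => ?_
  have h1 : ∏ i ∈ t.support, (map (algebraMap ℂ K) (g i)) ^ t i =
      map (algebraMap ℂ K) (∏ i ∈ t.support, g i ^ t i) := by
    rw [map_prod]
    exact Finset.prod_congr rfl fun i _ => by rw [map_pow]
  rw [h1, algebraMap_eq, coeff_C_mul, coeff_map, mul_comm]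

theorem gP_hom {N : ℕ} (u e θ : Fin N → ℂ) (j : Fin N) : (gP u e θ j).IsHomogeneous 1 := by
  unfold gP
  refine ((?_ : IsHomogeneous _ 1).add ?_).add ?_
  · exact (isHomogeneous_C_mul_X _ _)
  · exact (isHomogeneous_C_mul_X _ _)
  · exact (isHomogeneous_C_mul_X _ _)

theorem gB_hom {N : ℕ} (u e θ : Fin N → ℂ) (p : Fin 2 × Fin N) :
    (gB u e θ p).IsHomogeneous 1 := by
  unfold gB
  refine ((?_ : IsHomogeneous _ 1).add ?_).add ?_
  · exact (isHomogeneous_C_mul_X _ _)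
  · exact (isHomogeneous_C_mul_X _ _)
  · exact (isHomogeneous_C_mul_X _ _)

theorem pderiv_sb {N : ℕ} {τ : Type} (g : Fin N → MvPolynomial τ ℂ) (Q : MvPolynomial (Fin N) ℂ)
    (i : τ) : pderiv i (sb (K := ℂ) g Q) =
      ∑ j, sb (K := ℂ) g (pderiv j Q) * pderiv i (map (algebraMap ℂ ℂ) (g j)) := by
  classical
  unfold sb
  induction Q using MvPolynomial.induction_on with
  | C a => simp
  | add a b ha hb =>
    rw [map_add, map_add, ha, hb, ← Finset.sum_add_distrib]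
    refine Finset.sum_congr rfl fun j _ => ?_
    rw [map_add, map_add, add_mul]
  | mul_X a n ha =>
    rw [map_mul, aeval_X, Derivation.leibniz, ha]
    have h1 : ∀ j : Fin N, (aeval fun i => map (algebraMap ℂ ℂ) (g i)) (pderiv j (a * X n)) *
        pderiv i (map (algebraMap ℂ ℂ) (g j)) =
        (if j = n then (aeval fun i => map (algebraMap ℂ ℂ) (g i)) a *
          pderiv i (map (algebraMap ℂ ℂ) (g j)) else 0) +
        map (algebraMap ℂ ℂ) (g n) *
          ((aeval fun i => map (algebraMap ℂ ℂ) (g i)) (pderiv j a) *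
            pderiv i (map (algebraMap ℂ ℂ) (g j))) := by
      intro j
      rw [Derivation.leibniz, pderiv_X, smul_eq_mul, smul_eq_mul, map_add, map_mul, map_mul,
        aeval_X]
      by_cases hj : j = n
      · subst hj
        rw [Pi.single_eq_same, map_one, if_pos rfl]
        ring
      · rw [Pi.single_eq_of_ne' (Ne.symm (Ne.symm hj)), map_zero, if_neg hj]
        ring
    rw [Finset.sum_congr rfl fun j _ => h1 j, Finset.sum_add_distrib, Finset.sum_ite_eq',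
      if_pos (Finset.mem_univ n), ← Finset.mul_sum, smul_eq_mul, smul_eq_mul]

theorem evP_1 {N : ℕ} (u e θ : Fin N → ℂ) (j : Fin N) : eval ![1, 0, 0] (gP u e θ j) = u j := by
  unfold gP
  simp

theorem evP_2 {N : ℕ} (u e θ : Fin N → ℂ) (j : Fin N) : eval ![0, 1, 0] (gP u e θ j) = e j := by
  unfold gP
  simp

theorem q_1 {N : ℕ} (u e θ : Fin N → ℂ) (Q : MvPolynomial (Fin N) ℂ) :
    eval ![1, 0, 0] (sb (K := ℂ) (gP u e θ) Q) = eval u Q := by
  rw [eval_sbC]
  congr 1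
  congr 1
  funext j
  exact evP_1 u e θ j

theorem q_2 {N : ℕ} (u e θ : Fin N → ℂ) (Q : MvPolynomial (Fin N) ℂ) :
    eval ![0, 1, 0] (sb (K := ℂ) (gP u e θ) Q) = eval e Q := by
  rw [eval_sbC]
  congr 1
  congr 1
  funext j
  exact evP_2 u e θ j

theorem pderiv_gP {N : ℕ} (u e θ : Fin N → ℂ) (j : Fin N) :
    pderiv 1 (map (algebraMap ℂ ℂ) (gP u e θ j)) = C (e j) := by
  unfold gP
  simp [pderiv_X]

theorem q_3 {N : ℕ} (u e θ : Fin N → ℂ) (Q : MvPolynomial (Fin N) ℂ) :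
    eval ![1, 0, 0] (pderiv 1 (sb (K := ℂ) (gP u e θ) Q)) = ∑ j, e j * eval u (pderiv j Q) := by
  rw [pderiv_sb, map_sum]
  refine Finset.sum_congr rfl fun j _ => ?_
  rw [map_mul, q_1, pderiv_gP, eval_C, mul_comm]

theorem evC_ru {N : ℕ} (u e : Fin N → ℂ) (R : MvPolynomial (Fin 2 × Fin N) Mer) :
    evC e (ru u R) = rab u e R := by
  unfold ru rab
  rw [evC_sb]
  congr 1
  funext p
  by_cases hp : p.1 = 0
  · rw [if_pos hp, if_pos hp, eval_C]
  · rw [if_neg hp, if_neg hp, eval_X]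

/-- the point `((1,0,0), (0,1,0))` -/
def pt : Fin 2 × Fin 3 → ℂ := fun p => if p.1 = 0 then ![1, 0, 0] p.2 else ![0, 1, 0] p.2

theorem evC_pt {N : ℕ} (u e θ : Fin N → ℂ) (R : MvPolynomial (Fin 2 × Fin N) Mer) :
    evC pt (sb (gB u e θ) R) = rab u e R := by
  unfold rab
  rw [evC_sb]
  congr 1
  funext p
  unfold gB pt
  by_cases hp : p.1 = 0
  · simp [hp]
  · simp [hp]

/-! ### orders -/

theorem evC_eq {σ : Type} (F : MvPolynomial σ Mer) (p : σ → ℂ) :
    evC p F = ∑ α : F.support, algebraMap ℂ Mer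
      (∏ i ∈ (α : σ →₀ ℕ).support, p i ^ (α : σ →₀ ℕ) i) * cf F α := by
  unfold evC cf
  rw [eval_eq, ← Finset.sum_coe_sort]
  refine Finset.sum_congr rfl fun α _ => ?_
  rw [map_prod, mul_comm]
  simp only [map_pow]

theorem low (hL : Stmt_LOW) {σ : Type} (F : MvPolynomial σ Mer) (p : σ → ℂ) (h : evC p F ≠ 0) :
    dvP F ≤ dv1 (evC p F) ∧ ∃ K : ℝ, ∀ r : ℝ, 1 ≤ r → -K ≤ TP F r := by
  obtain ⟨h1, C, K, h2, h3, h4⟩ := hL F.support (cf F) _ (evC p F) (evC_eq F p) h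
  exact ⟨h1, K, h4⟩

theorem supp_countable (D : Function.locallyFinsupp ℂ ℤ) : {z | D z ≠ 0}.Countable := by
  have h := D.discreteSupport
  exact (HereditarilyLindelofSpace.isLindelof _).countable_of_isDiscrete h

theorem om_const (hV : Pool.ThmM.Stmt_VAL) (a : ℂ) (ha : a ≠ 0) (f : Mer) (z : ℂ) :
    om (algebraMap ℂ Mer a * f) z = om f z := by
  rw [(hV z).1, (hV z).2.2.2.1 a ha, zero_add]

theorem NN_zero (hN : Stmt_NNP) (r : ℝ) : NN 0 r = 0 := by
  have h := hN.1 0 0 r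
  rw [add_zero] at h
  linarith

/-- forms of degree `0` -/
theorem deg0 {σ : Type} (F : MvPolynomial σ Mer) (hF : F.IsHomogeneous 0) (h0 : F ≠ 0)
    (p : σ → ℂ) (z : ℂ) : om (evC p F) z = vP F z := by
  classical
  have h1 : F.totalDegree = 0 := hF.totalDegree h0
  have h2 := totalDegree_eq_zero_iff_eq_C.1 h1
  have h3 : F.coeff 0 ≠ 0 := by
    intro h4
    rw [h4, map_zero] at h2
    exact h0 h2
  rw [h2]
  unfold vP evC
  rw [eval_C, support_C, if_neg h3, Finset.inf_singleton, coeff_C, if_pos rfl]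

end PLN

theorem all_PLN (hPLANE : PLANE) (hPFZ : PFZ) (hCRL : CRL) (hEXF : EXF) (hFIX : FIX) (hIR2 : IR2)
    (hGEN : GEN) (hLNR : LNR) (hNUF : NUF) (hRTP : RTP) (hVAL : Pool.ThmM.Stmt_VAL) (hNNP : Stmt_NNP)
    (hVPD : Stmt_VPD) (hLOW : Stmt_LOW) (_hORD : Pool.ThmM.Stmt_ORD) : PLN := by
  intro N d m Q XM R u e hN hQi hQh hXh hQu hQe hQd hXu hRd hRh hf
  have hR0 : R ≠ 0 := by
    rintro rfl
    exact hf (PLN.evC_zero _)
  have hru : ru u R ≠ 0 := by
    intro h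
    apply hf
    rw [← PLN.evC_ru, h, PLN.evC_zero]
  have hfo : ∀ z, om (rab u e R) z = ((dv1 (rab u e R) z : ℤ) : WithTop ℤ) := fun z =>
    (hVAL z).2.2.2.2.1 _ hf
  have hRo : ∀ z, vP R z = ((dvP R z : ℤ) : WithTop ℤ) := fun z => hVPD _ R hR0 z
  have hZ : {z | vP R z < om (rab u e R) z}.Countable := by
    refine ((PLN.supp_countable (dvP R)).union (PLN.supp_countable (dv1 (rab u e R)))).mono ?_
    intro z hz
    by_contra h
    rw [Set.mem_union, not_or] at h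
    obtain ⟨h1, h2⟩ := h
    have h1' : dvP R z = 0 := by
      by_contra h3
      exact h1 h3
    have h2' : dv1 (rab u e R) z = 0 := by
      by_contra h3
      exact h2 h3
    have h3 : vP R z < om (rab u e R) z := hz
    rw [hRo, hfo, h1', h2'] at h3
    exact lt_irrefl _ h3
  obtain ⟨H, hH, hHi⟩ := hIR2 N d Q u e hN hQi hQh hQu hQe hQd
  obtain ⟨θ, hθH, hθg, hθo⟩ := hGEN N H (ru u R) _ hH hru hZ
  have hqi := hHi θ hθH
  have hqh : (sb (K := ℂ) (gP u e θ) Q).IsHomogeneous d := PLN.sb_hom _ (PLN.gP_hom u e θ) hQh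
  have hq1 : eval ![1, 0, 0] (sb (K := ℂ) (gP u e θ) Q) = 0 := by rw [PLN.q_1, hQu]
  have hq2 : eval ![0, 1, 0] (sb (K := ℂ) (gP u e θ) Q) ≠ 0 := by rw [PLN.q_2]; exact hQe
  have hq3 : eval ![1, 0, 0] (pderiv 1 (sb (K := ℂ) (gP u e θ) Q)) ≠ 0 := by
    rw [PLN.q_3]; exact hQd
  -- the restriction to the plane
  have hRp0 : sb (gB u e θ) R ≠ 0 := by
    intro h
    apply hf
    rw [← PLN.evC_pt u e θ R, h, PLN.evC_zero]
  have hRph : (sb (gB u e θ) R).IsHomogeneous m := PLN.sb_hom _ (PLN.gB_hom u e θ) hRh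
  obtain ⟨E, hE, hEf⟩ := hPFZ N d Q XM R u e θ hQh hXh hQu hQe hXu hqi hRd
  obtain ⟨ρ, F, E', hFh, hF0, hFC, hE', hFf⟩ := hEXF m _ _ E hRp0 hRph hE hEf
  obtain ⟨κ, ρ', F', hκ, hFF, hFh', hcase⟩ := hFIX ρ d _ F E' hqh hF0 hFh hE' hFf
  obtain ⟨hT1, hT2, hT3⟩ := hRTP N ρ u e θ R F hFh hFC
  have hF0' : F' ≠ 0 := by
    rintro rfl
    rw [mul_zero] at hFF
    exact hF0 hFF
  -- the values `f` and `g`
  have e1 : rab u e R = algebraMap ℂ Mer (eval ![0, 0, 1] κ) * evC ![0, 0, 1] F' := by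
    rw [hT1, hFF, PLN.evC_mul, PLN.evC_map]
  have e2 : evC θ (ru u R) =
      algebraMap ℂ Mer ((-1) ^ ρ * eval ![0, 1, 0] κ) * evC ![0, 1, 0] F' := by
    rw [hT3, hT2, hFF, PLN.evC_mul, PLN.evC_map, map_mul, map_pow, map_neg, map_one, mul_assoc]
  have hc1 : eval ![0, 0, 1] κ ≠ 0 := by
    intro h
    rw [h, map_zero, zero_mul] at e1
    exact hf e1
  have hf' : evC ![0, 0, 1] F' ≠ 0 := by
    intro h
    rw [h, mul_zero] at e1
    exact hf e1
  have hc2 : (-1) ^ ρ * eval ![0, 1, 0] κ ≠ 0 := by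
    intro h
    rw [h, map_zero, zero_mul] at e2
    exact hθg e2
  have hg' : evC ![0, 1, 0] F' ≠ 0 := by
    intro h
    rw [h, mul_zero] at e2
    exact hθg e2
  have ho1 : ∀ z, om (rab u e R) z = om (evC ![0, 0, 1] F') z := by
    intro z
    rw [e1, PLN.om_const hVAL _ hc1]
  have ho2 : ∀ z, om (evC θ (ru u R)) z = om (evC ![0, 1, 0] F') z := by
    intro z
    rw [e2, PLN.om_const hVAL _ hc2]
  -- heights
  obtain ⟨a1, C1, b1⟩ := hLNR _ _ R (sb (gB u e θ) R)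
    (fun s t => coeff s (∏ i ∈ t.support, gB u e θ i ^ t i)) hRp0 (PLN.sb_coeff _ R)
  obtain ⟨M, hM⟩ := hCRL ρ
  obtain ⟨a2, C2, b2⟩ := hLNR _ _ (sb (gB u e θ) R) F M hF0 (by
    intro s
    have h := hM Mer F hFh s
    rw [hFC] at h
    exact h)
  obtain ⟨a3, C3, b3⟩ := hNUF _ κ F' hκ hF0'
  have hv : ∀ z, vP R z ≤ vP F' z := by
    intro z
    rw [← a3 z, ← hFF]
    exact (a1 z).trans (a2 z)
  have hT : ∀ r : ℝ, 1 ≤ r → TP F' r ≤ TP R r + (C1 + C2 + C3) := by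
    intro r hr
    have h1 := b1 r hr
    have h2 := b2 r hr
    have h3 := (abs_le.1 (b3 r hr)).1
    rw [← hFF] at h3
    linarith
  obtain ⟨hlow, _⟩ := PLN.low hLOW F' ![0, 1, 0] hg'
  have hev : ∀ z, vP F' z ≤ om (evC ![0, 1, 0] F') z := by
    intro z
    rw [hVPD _ F' hF0' z, (hVAL z).2.2.2.2.1 _ hg', WithTop.coe_le_coe]
    exact hlow z
  -- the points of `D`
  have key : ∀ D : Function.locallyFinsupp ℂ ℤ,
      (∀ z, 0 < D z → vP (ru u R) z = vP R z ∧
        vP R z + ((D z : ℤ) : WithTop ℤ) ≤ om (rab u e R) z) →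
      ∀ z, 0 < D z → om (evC ![0, 1, 0] F') z = vP F' z ∧
        vP F' z + ((D z : ℤ) : WithTop ℤ) ≤ om (evC ![0, 0, 1] F') z := by
    intro D hD z hz
    obtain ⟨h1, h2⟩ := hD z hz
    have h3 : vP R z < om (rab u e R) z := by
      refine lt_of_lt_of_le ?_ h2
      rw [hRo, ← WithTop.coe_add, WithTop.coe_lt_coe]
      omega
    have h4 := hθo z h3
    rw [ho2, h1] at h4
    have h5 : vP F' z = vP R z := le_antisymm ((hev z).trans h4.le) (hv z)
    rw [h5, ← ho1]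
    exact ⟨h4, h2⟩
  have hT0 : (0 : ℝ) ≤ ((d ^ 2 - 1 : ℕ) : ℝ) := Nat.cast_nonneg _
  rcases hcase with hρ | ⟨E'', hDat⟩
  · -- `F'` is constant
    subst hρ
    obtain ⟨_, K, hK⟩ := PLN.low hLOW R (fun p => if p.1 = 0 then u p.2 else e p.2) hf
    refine ⟨(d ^ 2 - 1 : ℕ) * K, fun D hD0 hD r hr => ?_⟩
    have hD' : D = 0 := by
      ext z
      have h1 : (0 : ℤ) ≤ D z := hD0 z
      rcases h1.eq_or_lt with h2 | h2
      · exact h2.symm
      · exfalso
        obtain ⟨_, h4⟩ := key D hD z h2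
        rw [PLN.deg0 F' hFh' hF0' _ z, hVPD _ F' hF0' z, ← WithTop.coe_add,
          WithTop.coe_le_coe] at h4
        omega
    rw [hD', PLN.NN_zero hNNP, mul_zero]
    have h1 := hK r hr
    nlinarith
  · obtain ⟨C4, hC4⟩ := hPLANE ρ' d _ F' E'' hqi hqh hq1 hq3 hq2 hDat hf'
    refine ⟨(d ^ 2 - 1 : ℕ) * (C1 + C2 + C3) + C4, fun D hD0 hD r hr => ?_⟩
    have h1 := hC4 D hD0 (key D hD) r hr
    have h2 := mul_le_mul_of_nonneg_left (hT r hr) hT0
    linarith

end M4P
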