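import Pool.Agent.Work.MP_f82ddf_M4.Interface
set_option autoImplicit false

/-! # Block POW (helper40): forms are spanned by powers of linear forms -/

namespace M4P
open MvPolynomial

noncomputable section

namespace POW40

/-- the exponent as a finitely supported function -/
def ex (a : Fin 3 → ℕ) : Fin 3 →₀ ℕ := Finsupp.equivFunOnFinite.symm a

theorem ex_apply (a : Fin 3 → ℕ) (i : Fin 3) : ex a i = a i := rfl

theorem ex_inj {a b : Fin 3 → ℕ} (h : ex a = ex b) : a = b := by
  funext i
  rw [← ex_apply a i, h, ex_apply]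

theorem prodX (a : Fin 3 → ℕ) : (∏ i, X i ^ a i : P3) = monomial (ex a) 1 := by
  rw [monomial_eq, C_1, one_mul, Finsupp.prod_fintype _ _ (fun i => pow_zero _)]
  rfl

theorem lf_pow (k : ℕ) (m : Fin 3 → ℂ) : lf m ^ k =
    ∑ a ∈ Finset.piAntidiag Finset.univ k,
      ((Nat.multinomial Finset.univ a : ℂ) * ∏ i, m i ^ a i) • (monomial (ex a) 1 : P3) := by
  unfold lf
  rw [Finset.sum_pow_eq_sum_piAntidiag]
  refine Finset.sum_congr rfl fun a _ => ?_
  have h1 : (∏ i, (C (m i) * X i : P3) ^ a i) = C (∏ i, m i ^ a i) * monomial (ex a) 1 := by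
    rw [← prodX, map_prod, ← Finset.prod_mul_distrib]
    refine Finset.prod_congr rfl fun i _ => ?_
    rw [mul_pow, map_pow]
  rw [h1, smul_eq_C_mul, map_mul, mul_assoc]
  simp

end POW40

open POW40

theorem all_POW : POW := by
  intro k P hP
  by_contra hcon
  obtain ⟨f, hf, hW⟩ := Submodule.exists_dual_map_eq_bot_of_notMem hcon inferInstance
  have hf0 : ∀ m : Fin 3 → ℂ, f (lf m ^ k) = 0 := by
    intro m
    have h1 : f (lf m ^ k) ∈ (Submodule.span ℂ (Set.range fun m : Fin 3 → ℂ => lf m ^ k)).map f :=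
      Submodule.mem_map_of_mem (Submodule.subset_span ⟨m, rfl⟩)
    rw [hW] at h1
    exact (Submodule.mem_bot ℂ).1 h1
  -- the polynomial in `m`
  set G : P3 := ∑ a ∈ Finset.piAntidiag Finset.univ k,
    monomial (ex a) ((Nat.multinomial Finset.univ a : ℂ) * f (monomial (ex a) 1)) with hG
  have hG0 : G = 0 := by
    apply MvPolynomial.funext
    intro m
    have h1 := hf0 m
    rw [lf_pow, map_sum] at h1
    rw [map_zero, hG, map_sum, ← h1]
    refine Finset.sum_congr rfl fun a _ => ?_
    rw [eval_monomial, Finsupp.prod_fintype _ _ (fun i => pow_zero _), map_smul, smul_eq_mul]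
    have h2 : (∏ i, m i ^ (ex a) i) = ∏ i, m i ^ a i := rfl
    rw [h2]
    ring
  have hmon : ∀ a ∈ Finset.piAntidiag (Finset.univ : Finset (Fin 3)) k,
      f (monomial (ex a) 1 : P3) = 0 := by
    intro a ha
    have h1 : G.coeff (ex a) = 0 := by rw [hG0, coeff_zero]
    rw [hG, coeff_sum, Finset.sum_eq_single a] at h1
    · rw [coeff_monomial, if_pos rfl] at h1
      have h2 : (Nat.multinomial Finset.univ a : ℂ) ≠ 0 := by
        exact_mod_cast (Nat.multinomial_pos _ _).ne'
      exact (mul_eq_zero.1 h1).resolve_left h2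
    · intro b _ hb
      rw [coeff_monomial, if_neg (fun h => hb (ex_inj h))]
    · intro h
      exact absurd ha h
  apply hf
  rw [P.as_sum, map_sum]
  refine Finset.sum_eq_zero fun s hs => ?_
  have h3 : (monomial s (P.coeff s) : P3) = P.coeff s • monomial s 1 := by
    rw [smul_monomial, smul_eq_mul, mul_one]
  have h4 : s = ex (fun i => s i) := by
    ext i
    rfl
  rw [h3, map_smul, h4, hmon _ ?_, smul_zero]
  rw [Finset.mem_piAntidiag]
  refine ⟨?_, fun _ _ => Finset.mem_univ _⟩
  have h5 := hP (mem_support_iff.1 hs)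
  rw [← h5, Finsupp.weight_apply, Finsupp.sum_fintype]
  · simp
  · simp

end

end M4P
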