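import Pool.Agent.Work.MP_f82ddf_M4.Interface3
set_option autoImplicit false

/-! # Block RTP (helper65): the values of R on the plane at the points u, e, θ -/

open Topology Filter
open scoped Differential
open Pool.Agent.Work.MP_f82ddf_nt.DQ

namespace M4P
open MvPolynomial Pool.ThmM Pool.Agent.Work.MP_f82ddf_M5

private theorem RTP_evC_sb {σ τ : Type} (g : σ → MvPolynomial τ ℂ) (F : MvPolynomial σ Mer) (p : τ → ℂ) :
    evC p (sb g F) = evC (fun i => eval p (g i)) F := by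
  unfold evC sb
  induction F using MvPolynomial.induction_on with
  | C a => simp
  | add F G hF hG => rw [map_add, map_add, map_add, hF, hG]
  | mul_X F i hF =>
    rw [map_mul, map_mul, map_mul, hF, aeval_X, eval_X]
    congr 1
    rw [MvPolynomial.map_eval (algebraMap ℂ Mer) p (g i)]
    rfl

private theorem RTP_hom {ρ : ℕ} {F : MvPolynomial (Fin 3) Mer} (hF : F.IsHomogeneous ρ) :
    evC ![0, -1, 0] F = (-1) ^ ρ * evC ![0, 1, 0] F := by
  unfold evC
  rw [eval_eq', eval_eq', Finset.mul_sum]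
  refine Finset.sum_congr rfl fun s hs => ?_
  have hd : ∑ i, s i = ρ := by
    have := hF (mem_support_iff.mp hs)
    rw [Finsupp.weight_apply, Finsupp.sum_fintype] at this
    · simpa using this
    · intro i; simp
  have : ∀ i : Fin 3, (algebraMap ℂ Mer) ((![0, -1, 0] : Fin 3 → ℂ) i) =
      (-1) * (algebraMap ℂ Mer) ((![0, 1, 0] : Fin 3 → ℂ) i) := by
    intro i
    fin_cases i <;> simp
  have h2 : ∏ i, (algebraMap ℂ Mer) ((![0, -1, 0] : Fin 3 → ℂ) i) ^ s i =
      (-1) ^ ρ * ∏ i, (algebraMap ℂ Mer) ((![0, 1, 0] : Fin 3 → ℂ) i) ^ s i := by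
    rw [← hd, ← Finset.prod_pow_eq_pow_sum, ← Finset.prod_mul_distrib]
    refine Finset.prod_congr rfl fun i _ => ?_
    rw [this i, mul_pow]
  rw [h2]
  ring

theorem all_RTP : M4P.RTP := by
  intro N ρ u e θ R F hF hS
  refine ⟨?_, ?_, ?_⟩
  · have h := congrArg (evC (fun p : Fin 2 × Fin 3 => if p.1 = 0 then (![1, 0, 0] : Fin 3 → ℂ) p.2
      else (![0, 1, 0] : Fin 3 → ℂ) p.2)) hS
    rw [RTP_evC_sb, RTP_evC_sb] at h
    have h1 : (fun i => eval (fun p : Fin 2 × Fin 3 => if p.1 = 0 then (![1, 0, 0] : Fin 3 → ℂ) p.2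
      else (![0, 1, 0] : Fin 3 → ℂ) p.2) (gC i)) = ![0, 0, 1] := by
      funext i
      fin_cases i <;> simp [gC]
    have h2 : (fun i => eval (fun p : Fin 2 × Fin 3 => if p.1 = 0 then (![1, 0, 0] : Fin 3 → ℂ) p.2
      else (![0, 1, 0] : Fin 3 → ℂ) p.2) (gB u e θ i)) =
        (fun p : Fin 2 × Fin N => if p.1 = 0 then u p.2 else e p.2) := by
      funext i
      obtain ⟨a, b⟩ := i
      fin_cases a <;> simp [gB]
    rw [h1, h2] at h
    exact h.symm
  · rw [← RTP_hom hF]
    have h := congrArg (evC (fun p : Fin 2 × Fin 3 => if p.1 = 0 then (![1, 0, 0] : Fin 3 → ℂ) p.2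
      else (![0, 0, 1] : Fin 3 → ℂ) p.2)) hS
    rw [RTP_evC_sb, RTP_evC_sb] at h
    have h1 : (fun i => eval (fun p : Fin 2 × Fin 3 => if p.1 = 0 then (![1, 0, 0] : Fin 3 → ℂ) p.2
      else (![0, 0, 1] : Fin 3 → ℂ) p.2) (gC i)) = ![0, -1, 0] := by
      funext i
      fin_cases i <;> simp [gC]
    have h2 : (fun i => eval (fun p : Fin 2 × Fin 3 => if p.1 = 0 then (![1, 0, 0] : Fin 3 → ℂ) p.2
      else (![0, 0, 1] : Fin 3 → ℂ) p.2) (gB u e θ i)) =
        (fun p : Fin 2 × Fin N => if p.1 = 0 then u p.2 else θ p.2) := by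
      funext i
      obtain ⟨a, b⟩ := i
      fin_cases a <;> simp [gB]
    rw [h1, h2] at h
    exact h.symm
  · unfold ru
    rw [RTP_evC_sb]
    unfold rab
    congr 1
    funext p
    by_cases hp : p.1 = 0
    · simp [hp]
    · simp [hp]

end M4P
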