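import Pool.Agent.Work.MP_f82ddf_M4.Interface3

set_option autoImplicit false

/-! # Block VZM (helper30): values of polynomials with coefficients in `Mer` -/

open Topology Filter
open scoped Differential
open Pool.Agent.Work.MP_f82ddf_nt.DQ

namespace M4P
open MvPolynomial Pool.ThmM Pool.Agent.Work.MP_f82ddf_M5

namespace VZM

theorem cod {p : ℂ → Prop} : (∀ᶠ z in codiscrete ℂ, p z) ↔ ∀ z₀, ∀ᶠ z in 𝓝[≠] z₀, p z := by
  unfold Filter.Eventually Filter.codiscrete
  rw [mem_codiscreteWithin_iff_forall_mem_nhdsNE]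
  simp

theorem rep_zero (hA : Pool.ThmM.Stmt_ALG) (hR : Pool.ThmM.Stmt_REP) (z : ℂ) :
    rep (0 : Mer) z = 0 := by
  obtain ⟨_, _, _, _, _, _, h7, _⟩ := hA
  have h1 := h7 0
  rw [map_zero] at h1
  have h2 : rep (0 : Mer) =ᶠ[𝓝[≠] z] (fun _ : ℂ => (0 : ℂ)) := cod.1 h1 z
  have h3 : MeromorphicNFAt (rep (0 : Mer)) z := (hR 0).1 (Set.mem_univ z)
  have h4 : MeromorphicNFAt (fun _ : ℂ => (0 : ℂ)) z := analyticAt_const.meromorphicNFAt
  have h5 := (MeromorphicNFAt.eventuallyEq_nhdsNE_iff_eventuallyEq_nhds h3 h4).1 h2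
  exact h5.eq_of_nhds

theorem coeff_vz (h0 : ∀ z, rep (0 : Mer) z = 0) {σ : Type} (F : MvPolynomial σ Mer) (z : ℂ)
    (m : σ →₀ ℕ) : coeff m (vz F z) = rep (coeff m F) z := by
  classical
  unfold vz
  rw [coeff_sum]
  simp only [coeff_monomial]
  by_cases hm : m ∈ F.support
  · rw [Finset.sum_eq_single m]
    · rw [if_pos rfl]
    · intro b _ hb
      rw [if_neg hb]
    · intro h
      exact absurd hm h
  · rw [notMem_support_iff.1 hm, h0]
    refine Finset.sum_eq_zero fun b hb => if_neg ?_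
    rintro rfl
    exact hm hb

theorem rep_sum (hA : Pool.ThmM.Stmt_ALG) {α : Type} (s : Finset α) (f : α → Mer) :
    ∀ᶠ z in codiscrete ℂ, rep (∑ i ∈ s, f i) z = ∑ i ∈ s, rep (f i) z := by
  classical
  induction s using Finset.induction_on with
  | empty =>
    have h1 := hA.2.2.2.2.2.2.1 0
    rw [map_zero] at h1
    filter_upwards [h1] with z hz
    rw [Finset.sum_empty, Finset.sum_empty]
    exact hz
  | insert a s ha ih =>
    filter_upwards [ih, hA.2.1 (f a) (∑ i ∈ s, f i)] with z h1 h2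
    rw [Finset.sum_insert ha, Finset.sum_insert ha, h2, h1]

theorem mulc (hA : Pool.ThmM.Stmt_ALG) (h0 : ∀ z, rep (0 : Mer) z = 0) {σ : Type}
    (F G : MvPolynomial σ Mer) :
    ∀ᶠ z in codiscrete ℂ, vz (F * G) z = vz F z * vz G z := by
  classical
  set T : Finset (σ →₀ ℕ) := (F.support ×ˢ G.support).image (fun q => q.1 + q.2) with hT
  have h1 : ∀ᶠ z in codiscrete ℂ, ∀ m ∈ T, rep (coeff m (F * G)) z =
      ∑ x ∈ Finset.HasAntidiagonal.antidiagonal m, rep (coeff x.1 F) z * rep (coeff x.2 G) z := by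
    rw [Filter.eventually_all_finset]
    intro m _
    rw [coeff_mul]
    have h2 := rep_sum hA (Finset.HasAntidiagonal.antidiagonal m) (fun x => coeff x.1 F * coeff x.2 G)
    have h3 : ∀ᶠ z in codiscrete ℂ, ∀ x ∈ Finset.HasAntidiagonal.antidiagonal m,
        rep (coeff x.1 F * coeff x.2 G) z = rep (coeff x.1 F) z * rep (coeff x.2 G) z := by
      rw [Filter.eventually_all_finset]
      intro x _
      exact hA.2.2.2.1 _ _
    filter_upwards [h2, h3] with z h4 h5
    rw [h4]
    exact Finset.sum_congr rfl h5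
  filter_upwards [h1] with z hz
  ext m
  rw [coeff_mul, coeff_vz h0]
  simp only [coeff_vz h0]
  by_cases hm : m ∈ T
  · exact hz m hm
  · have h6 : ∀ x ∈ Finset.HasAntidiagonal.antidiagonal m, coeff x.1 F = 0 ∨ coeff x.2 G = 0 := by
      intro x hx
      by_contra hcon
      push Not at hcon
      apply hm
      rw [hT, Finset.mem_image]
      exact ⟨x, Finset.mem_product.2 ⟨mem_support_iff.2 hcon.1, mem_support_iff.2 hcon.2⟩,
        Finset.HasAntidiagonal.mem_antidiagonal.1 hx⟩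
    rw [coeff_mul, Finset.sum_eq_zero, h0]
    · refine (Finset.sum_eq_zero fun x hx => ?_).symm
      rcases h6 x hx with h7 | h7 <;> rw [h7, h0] <;> simp
    · intro x hx
      rcases h6 x hx with h7 | h7 <;> rw [h7] <;> simp

end VZM

open VZM in
theorem all_VZM (hA : Pool.ThmM.Stmt_ALG) (hR : Pool.ThmM.Stmt_REP) : M4P.VZM := by
  have h0 := rep_zero hA hR
  intro σ _
  refine ⟨mulc hA h0, ?_, ?_, ?_, ?_⟩
  · intro P
    have h1 : ∀ᶠ z in codiscrete ℂ, ∀ m ∈ P.support, rep (algebraMap ℂ Mer (coeff m P)) z =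
        coeff m P := by
      rw [Filter.eventually_all_finset]
      intro m _
      exact hA.2.2.2.2.2.2.1 _
    filter_upwards [h1] with z hz
    ext m
    rw [coeff_vz h0, coeff_map]
    by_cases hm : m ∈ P.support
    · exact hz m hm
    · rw [notMem_support_iff.1 hm, map_zero, h0]
  · intro F hF
    obtain ⟨m, hm⟩ := exists_coeff_ne_zero hF
    filter_upwards [hA.2.2.2.2.2.2.2 _ hm] with z hz h
    apply hz
    rw [← coeff_vz h0, h, coeff_zero]
  · intro F G E hE h
    ext m
    by_contra hne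
    have h1 : coeff m F - coeff m G ≠ 0 := sub_ne_zero.2 hne
    have h2 := hA.2.2.2.2.2.2.2 _ h1
    have h3 := hA.2.2.1 (coeff m F) (coeff m G)
    have h4 : ∀ᶠ z in codiscrete ℂ, z ∈ E := by
      filter_upwards [h2, h3] with z h5 h6
      by_contra hz
      apply h5
      rw [h6, ← coeff_vz h0, ← coeff_vz h0, h z hz, sub_self]
    have h5 := cod.1 h4 0
    have h6 : Dense Eᶜ := hE.dense_compl ℝ
    rw [eventually_nhdsWithin_iff, Metric.eventually_nhds_iff] at h5
    obtain ⟨ε, hε, h7⟩ := h5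
    have h8 : (Metric.ball (0 : ℂ) ε \ {0}).Nonempty := by
      refine ⟨((ε / 2 : ℝ) : ℂ), ?_, ?_⟩
      · rw [mem_ball_zero_iff, Complex.norm_real, Real.norm_eq_abs, abs_of_pos (by positivity)]
        linarith
      · intro h9
        have h10 : ((ε / 2 : ℝ) : ℂ) = 0 := h9
        rw [Complex.ofReal_eq_zero] at h10
        linarith
    obtain ⟨z, hz, hzE⟩ := h6.inter_open_nonempty _ (Metric.isOpen_ball.sdiff isClosed_singleton) h8
    exact hzE (h7 hz.1 hz.2)
  · intro F n z hF m hm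
    rw [coeff_vz h0] at hm
    apply hF
    intro h
    rw [h, h0] at hm
    exact hm rfl

end M4P
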