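import Pool.Agent.Work.MP_f82ddf_M4.Interface3
set_option autoImplicit false

/-! # Block VZS (helper63): numeric substitutions commute with taking the value -/

open Topology Filter
open scoped Differential
open Pool.Agent.Work.MP_f82ddf_nt.DQ

namespace M4P
open MvPolynomial Pool.ThmM Pool.Agent.Work.MP_f82ddf_M5

noncomputable section

namespace VZS

private theorem rep_sum (hA : Pool.ThmM.Stmt_ALG) {α : Type} (S : Finset α) (g : α → Mer) (b : α → ℂ) :
    ∀ᶠ z in codiscrete ℂ, rep (∑ s ∈ S, g s * algebraMap ℂ Mer (b s)) z = ∑ s ∈ S, rep (g s) z * b s := by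
  classical
  obtain ⟨-, ha, -, hm, -, -, hc, -⟩ := hA
  induction S using Finset.induction_on with
  | empty =>
    have h := hc 0
    rw [map_zero] at h
    filter_upwards [h] with z hz
    rw [Finset.sum_empty, Finset.sum_empty, hz]
  | insert a S hS ih =>
    rw [Finset.sum_insert hS]
    filter_upwards [ih, ha (g a * algebraMap ℂ Mer (b a)) (∑ s ∈ S, g s * algebraMap ℂ Mer (b s)),
      hm (g a) (algebraMap ℂ Mer (b a)), hc (b a)] with z h1 h2 h3 h4
    rw [Finset.sum_insert hS, h2, h1, h3, h4]

private theorem map_alg {τ : Type} (K : Type) [CommRing K] [Algebra ℂ K] {σ : Type} (g : σ → MvPolynomial τ ℂ)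
    (s : σ →₀ ℕ) :
    (s.prod fun i k => (map (algebraMap ℂ K) (g i)) ^ k) = map (algebraMap ℂ K) (s.prod fun i k => g i ^ k) := by
  unfold Finsupp.prod
  rw [map_prod]
  simp only [map_pow]

private theorem sb_coeff {σ τ : Type} (K : Type) [CommRing K] [Algebra ℂ K] (g : σ → MvPolynomial τ ℂ)
    (S : Finset (σ →₀ ℕ)) (c : (σ →₀ ℕ) → K) (t : τ →₀ ℕ) :
    (sb g (∑ s ∈ S, monomial s (c s))).coeff t =
      ∑ s ∈ S, c s * algebraMap ℂ K ((s.prod fun i k => g i ^ k).coeff t) := by
  unfold sb
  rw [map_sum, coeff_sum]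
  refine Finset.sum_congr rfl fun s _ => ?_
  rw [aeval_monomial, map_alg, algebraMap_eq, coeff_C_mul, coeff_map]

open scoped Classical in
private theorem coeff_vz {σ : Type} (F : MvPolynomial σ Mer) (z : ℂ) (t : σ →₀ ℕ) :
    (vz F z).coeff t = if t ∈ F.support then rep (F.coeff t) z else 0 := by
  unfold vz
  rw [coeff_sum]
  simp only [coeff_monomial]
  rw [Finset.sum_ite_eq']

end VZS

open M4P.VZS in
theorem all_VZS (hA : Pool.ThmM.Stmt_ALG) (_hP : Pool.ThmM.Stmt_POL) : M4P.VZS := by
  classical
  intro σ τ _ _ g F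
  refine ⟨?_, ?_⟩
  · set G : (σ →₀ ℕ) → MvPolynomial τ ℂ := fun s => s.prod fun i k => g i ^ k with hG
    have hcoef : ∀ t, (sb g F).coeff t = ∑ s ∈ F.support, F.coeff s * algebraMap ℂ Mer ((G s).coeff t) := by
      intro t
      conv_lhs => rw [F.as_sum]
      exact sb_coeff Mer g F.support (fun s => F.coeff s) t
    have hcoef2 : ∀ z t, (sb g (vz F z)).coeff t = ∑ s ∈ F.support, rep (F.coeff s) z * (G s).coeff t := by
      intro z t
      unfold vz
      have h := sb_coeff ℂ g F.support (fun s => rep (F.coeff s) z) t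
      rw [h]
      rfl
    have h1 : ∀ᶠ z in codiscrete ℂ, ∀ t ∈ (sb g F).support ∪ F.support.biUnion fun s => (G s).support,
        rep (∑ s ∈ F.support, F.coeff s * algebraMap ℂ Mer ((G s).coeff t)) z =
          ∑ s ∈ F.support, rep (F.coeff s) z * (G s).coeff t := by
      rw [Filter.eventually_all_finset]
      intro t _
      exact rep_sum hA F.support (fun s => F.coeff s) (fun s => (G s).coeff t)
    have h0 : ∀ᶠ z in codiscrete ℂ, rep (0 : Mer) z = 0 := by
      obtain ⟨-, -, -, -, -, -, hc, -⟩ := hA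
      have h := hc 0
      rw [map_zero] at h
      exact h
    filter_upwards [h1, h0] with z hz hz0
    ext t
    rw [coeff_vz, hcoef2]
    by_cases ht : t ∈ (sb g F).support ∪ F.support.biUnion fun s => (G s).support
    · rw [← hz t ht, ← hcoef]
      split_ifs with h
      · rfl
      · rw [notMem_support_iff.1 h, hz0]
    · rw [Finset.mem_union, not_or] at ht
      rw [if_neg ht.1]
      symm
      refine Finset.sum_eq_zero fun s hs => ?_
      have h2 : t ∉ (G s).support := fun h => ht.2 (Finset.mem_biUnion.2 ⟨s, hs, h⟩)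
      rw [notMem_support_iff.1 h2, mul_zero]
  · intro p
    have h0 : evC p F = ∑ s ∈ F.support, F.coeff s * algebraMap ℂ Mer (s.prod fun i k => p i ^ k) := by
      unfold evC
      conv_lhs => rw [F.as_sum]
      rw [map_sum]
      refine Finset.sum_congr rfl fun s _ => ?_
      rw [eval_monomial]
      unfold Finsupp.prod
      rw [map_prod]
      simp only [map_pow]
    have h1 : ∀ z, eval p (vz F z) = ∑ s ∈ F.support, rep (F.coeff s) z * s.prod fun i k => p i ^ k := by
      intro z
      unfold vz
      rw [map_sum]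
      refine Finset.sum_congr rfl fun s _ => ?_
      rw [eval_monomial]
    filter_upwards [rep_sum hA F.support (fun s => F.coeff s) (fun s => s.prod fun i k => p i ^ k)] with z hz
    rw [h0, h1, hz]

end

end M4P
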