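import Pool.Agent.Work.MP_f82ddf_M4.Interface3
set_option autoImplicit false

open Topology Filter
open scoped Differential
open Pool.Agent.Work.MP_f82ddf_nt.DQ

namespace M4P
open MvPolynomial Pool.ThmM Pool.Agent.Work.MP_f82ddf_M5

namespace ZRN

lemma res_zero (f g : Polynomial ℂ) (d D : ℕ) (hf : f.natDegree ≤ d) (hg : g.natDegree ≤ D)
    (h : f.resultant g d D = 0) :
    (f.coeff d = 0 ∧ g.coeff D = 0) ∨ ∃ s : ℂ, f.eval s = 0 ∧ g.eval s = 0 := by
  by_cases h0 : f.coeff d = 0 ∧ g.coeff D = 0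
  · exact Or.inl h0
  right
  have hres : f.resultant g = 0 := by
    by_cases h1 : f.coeff d = 0
    · have h2 : g.coeff D ≠ 0 := fun h2 => h0 ⟨h1, h2⟩
      have h3 : g.natDegree = D := le_antisymm hg (Polynomial.le_natDegree_of_ne_zero h2)
      obtain ⟨k, hk⟩ := Nat.exists_eq_add_of_le hf
      subst hk
      rw [Polynomial.resultant_add_left_deg f g f.natDegree D k le_rfl] at h
      have h4 := (mul_eq_zero.1 h).resolve_left (mul_ne_zero (by simp) (pow_ne_zero _ h2))
      rw [h3]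
      exact h4
    · have h3 : f.natDegree = d := le_antisymm hf (Polynomial.le_natDegree_of_ne_zero h1)
      obtain ⟨k, hk⟩ := Nat.exists_eq_add_of_le hg
      subst hk
      rw [Polynomial.resultant_add_right_deg f g d g.natDegree k le_rfl] at h
      have h4 := (mul_eq_zero.1 h).resolve_left (pow_ne_zero _ h1)
      rw [h3]
      exact h4
  have hnc := (Polynomial.resultant_eq_zero_iff.1 hres).2
  rw [Polynomial.isCoprime_iff_aeval_ne_zero_of_isAlgClosed ℂ ℂ] at hnc
  push Not at hnc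
  obtain ⟨s, hs⟩ := hnc
  refine ⟨s, ?_, ?_⟩
  · simpa using hs.1
  · simpa using hs.2

lemma eval_lineAt {N : ℕ} (F : MvPolynomial (Fin N) ℂ) (a b : Fin N → ℂ) (s : ℂ) :
    (lineAt (RingHom.id ℂ) F a b).eval s = eval (fun i => a i * s + b i) F := by
  have h : (Polynomial.evalRingHom s).comp (eval₂Hom (Polynomial.C.comp (RingHom.id ℂ))
      (fun i => Polynomial.C (a i) * Polynomial.X + Polynomial.C (b i))) =
      eval (fun i => a i * s + b i) := by
    apply ringHom_ext
    · intro r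
      simp
    · intro i
      simp
  exact congrArg (fun g : MvPolynomial (Fin N) ℂ →+* ℂ => g F) h

lemma eval_dt (b : Fin 2 × Fin 3 → ℂ) (t : Fin 3 → ℂ) : eval b (dt t) =
    t 0 * (b (0, 1) * b (1, 2) - b (0, 2) * b (1, 1)) +
    t 1 * (b (0, 2) * b (1, 0) - b (0, 0) * b (1, 2)) +
    t 2 * (b (0, 0) * b (1, 1) - b (0, 1) * b (1, 0)) := by
  simp [dt, sb, lf, gC, Fin.sum_univ_three]

lemma eval_smul {N d : ℕ} {F : MvPolynomial (Fin N) ℂ} (hF : F.IsHomogeneous d) (c : ℂ)
    (v : Fin N → ℂ) : eval (c • v) F = c ^ d * eval v F := by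
  rw [eval_eq, eval_eq, Finset.mul_sum]
  refine Finset.sum_congr rfl fun s hs => ?_
  have h1 := hF (mem_support_iff.1 hs)
  have h2 : ∏ i ∈ s.support, (c • v) i ^ s i = c ^ d * ∏ i ∈ s.support, v i ^ s i := by
    simp only [Pi.smul_apply, smul_eq_mul, mul_pow, Finset.prod_mul_distrib]
    congr 1
    rw [Finset.prod_pow_eq_pow_sum, ← h1]
    congr 1
    rw [Finsupp.weight_apply]
    simp [Finsupp.sum]
  rw [h2]
  ring

end ZRN

open ZRN in
theorem all_ZRN (hFIN : FIN) (hFUN : Stmt_FUN) (hDEG : Stmt_DEG) : ZRN := by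
  intro d D q X' hq hqd hXD he hd hD hnd
  obtain ⟨V, hV0, hV⟩ := hFIN d D q X' hq hqd hXD he hnd
  classical
  refine ⟨V.filter (fun v => eval v q = 0), fun v hv => ?_, ?_⟩
  · rw [Finset.mem_filter] at hv
    exact ⟨hV0 v hv.1, hv.2⟩
  intro b t0 hb
  rw [map_mul, map_prod]
  by_cases h0 : eval b (dt t0) = 0
  · rw [h0, zero_mul]
  have h5 := hFUN.2.2.2.2.1 3 d D ℂ ℂ (RingHom.id ℂ) q X' (fun j => b (0, j)) (fun j => b (1, j))
  have h6 : at2 (RingHom.id ℂ) (fun j => b (0, j)) (fun j => b (1, j)) (chow d D q X') =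
      eval b (chow d D q X') := by
    have hbp : (fun p : Fin 2 × Fin 3 => if p.1 = 0 then b (0, p.2) else b (1, p.2)) = b := by
      funext p
      obtain ⟨i, j⟩ := p
      fin_cases i
      · simp
      · simp
    unfold at2
    beta_reduce
    rw [hbp]
    rfl
  rw [h6, hb] at h5
  have hdq := hDEG 3 d ℂ ℂ (RingHom.id ℂ) q (fun j => b (0, j)) (fun j => b (1, j)) hqd
  have hdX := hDEG 3 D ℂ ℂ (RingHom.id ℂ) X' (fun j => b (0, j)) (fun j => b (1, j)) hXD
  have key : ∃ t : Fin 3 → ℂ, t ≠ 0 ∧ eval t q = 0 ∧ eval t X' = 0 ∧ eval b (dt t) = 0 := by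
    rcases res_zero _ _ d D hdq.1 hdX.1 h5.symm with h | ⟨s, hs1, hs2⟩
    · rw [hdq.2.1, hdX.2.1] at h
      refine ⟨fun j => b (0, j), ?_, ?_, ?_, ?_⟩
      · intro h7
        apply h0
        have h8 : ∀ j, b (0, j) = 0 := fun j => congrFun h7 j
        rw [eval_dt, h8, h8, h8]
        ring
      · exact h.1
      · exact h.2
      · rw [eval_dt]
        ring
    · rw [eval_lineAt] at hs1 hs2
      refine ⟨_, ?_, hs1, hs2, ?_⟩
      · intro h7
        apply h0
        have h8 : ∀ j, b (1, j) = - (b (0, j) * s) := fun j => by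
          have := congrFun h7 j
          simp only [Pi.zero_apply] at this
          linear_combination this
        rw [eval_dt, h8, h8, h8]
        ring
      · rw [eval_dt]
        ring
  obtain ⟨t, ht0, ht1, ht2, ht3⟩ := key
  obtain ⟨v, hvV, c, hc⟩ := hV t ht0 ht1 ht2
  have hc0 : c ≠ 0 := by
    rintro rfl
    apply ht0
    rw [hc, zero_smul]
  have hvq : eval v q = 0 := by
    rw [hc, eval_smul hqd] at ht1
    exact (mul_eq_zero.1 ht1).resolve_left (pow_ne_zero _ hc0)
  have hvd : eval b (dt v) = 0 := by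
    rw [hc, eval_dt] at ht3
    simp only [Pi.smul_apply, smul_eq_mul] at ht3
    have h9 : c * eval b (dt v) = 0 := by
      rw [eval_dt, ← ht3]
      ring
    exact (mul_eq_zero.1 h9).resolve_left hc0
  rw [Finset.prod_eq_zero (Finset.mem_filter.2 ⟨hvV, hvq⟩) hvd, mul_zero]

end M4P

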