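import Pool.Agent.Work.MP_f82ddf_M4.B_BND
import Pool.Agent.Work.MP_f82ddf_M4.B_ESY
import Pool.Agent.Work.MP_f82ddf_M4.B_NEW
import Pool.Agent.Work.MP_f82ddf_M4.B_POW
import Pool.Agent.Work.MP_f82ddf_M4.B_MSA
import Pool.Agent.Work.MP_f82ddf_M4.B_LOC
import Pool.Agent.Work.MP_f82ddf_M4.B_ETA
import Pool.Agent.Work.MP_f82ddf_M4.B_FIN
import Pool.Agent.Work.MP_f82ddf_M4.B_HEX1
import Pool.Agent.Work.MP_f82ddf_M4.B_HEX2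
import Pool.Agent.Work.MP_f82ddf_M4.B_EVZ
import Pool.Agent.Work.MP_f82ddf_M4.B_GLU
import Pool.Agent.Work.MP_f82ddf_M4.B_NEX
import Pool.Agent.Work.MP_f82ddf_M4.B_NHN
import Pool.Agent.Work.MP_f82ddf_M4.B_ORD
import Pool.Agent.Work.MP_f82ddf_M4.B_BLL
import Pool.Agent.Work.MP_f82ddf_M4.B_PLANE
import Pool.Agent.Work.MP_f82ddf_M4.B_VZM
import Pool.Agent.Work.MP_f82ddf_M4.B_VZS
import Pool.Agent.Work.MP_f82ddf_M4.B_VZC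
import Pool.Agent.Work.MP_f82ddf_M4.B_CHR
import Pool.Agent.Work.MP_f82ddf_M4.B_DTI
import Pool.Agent.Work.MP_f82ddf_M4.B_ZRN
import Pool.Agent.Work.MP_f82ddf_M4.B_FACN
import Pool.Agent.Work.MP_f82ddf_M4.B_PFZ
import Pool.Agent.Work.MP_f82ddf_M4.B_CRL
import Pool.Agent.Work.MP_f82ddf_M4.B_EXF
import Pool.Agent.Work.MP_f82ddf_M4.B_LFD
import Pool.Agent.Work.MP_f82ddf_M4.B_FIX
import Pool.Agent.Work.MP_f82ddf_M4.B_IR1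
import Pool.Agent.Work.MP_f82ddf_M4.B_IR2
import Pool.Agent.Work.MP_f82ddf_M4.B_CTB
import Pool.Agent.Work.MP_f82ddf_M4.B_GEN
import Pool.Agent.Work.MP_f82ddf_M4.B_LNR
import Pool.Agent.Work.MP_f82ddf_M4.B_NUF
import Pool.Agent.Work.MP_f82ddf_M4.B_RTP
import Pool.Agent.Work.MP_f82ddf_M4.B_PLN
import Pool.Agent.Work.MP_f82ddf_M1.All1
import Pool.Agent.Work.MP_f82ddf_M5.All
set_option autoImplicit false

/-! # Theorem M, parts P4 and P3b: the plane theorem, without hypotheses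

`M4P.cl_PLANE : PLANE`, `M4P.cl_PLN : PLN`. -/

namespace M4P

theorem cl_BND : M4P.BND := M4P.all_BND 

theorem cl_ESY : M4P.ESY := M4P.all_ESY 

theorem cl_NEW : M4P.NEW := M4P.all_NEW 

theorem cl_POW : M4P.POW := M4P.all_POW 

theorem cl_MSA : M4P.MSA := M4P.all_MSA cl_ESY cl_NEW cl_POW

theorem cl_LOC : M4P.LOC := M4P.all_LOC cl_MSA

theorem cl_ETA : M4P.ETA := M4P.all_ETA 

theorem cl_FIN : M4P.FIN := M4P.all_FIN 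

theorem cl_HEX1 : M4P.HEX1 := M4P.all_HEX1 cl_ETA

theorem cl_HEX2 : M4P.HEX2 := M4P.all_HEX2 cl_HEX1

theorem cl_EVZ : M4P.EVZ := M4P.all_EVZ Pool.ThmM.all_ALG

theorem cl_GLU : M4P.GLU := M4P.all_GLU Pool.ThmM.all_ALG

theorem cl_NEX : M4P.NEX := M4P.all_NEX cl_LOC cl_GLU cl_BND Pool.ThmM.all_REP Pool.ThmM.all_ALG Pool.ThmM.all_VAL Pool.ThmM.all_VPD

theorem cl_NHN : M4P.NHN := M4P.all_NHN cl_FIN cl_EVZ Pool.ThmM.all_ALG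

theorem cl_ORD : M4P.ORD := M4P.all_ORD cl_EVZ Pool.ThmM.all_ALG Pool.ThmM.all_REP

theorem cl_BLL : M4P.BLL := M4P.all_BLL Pool.ThmM.all_REP Pool.ThmM.all_ALG Pool.ThmM.all_ORD Pool.ThmM.all_CMP

theorem cl_PLANE : M4P.PLANE := M4P.all_PLANE cl_NEX cl_HEX2 cl_NHN cl_ORD cl_BLL Pool.ThmM.all_VAL Pool.ThmM.all_NNP Pool.ThmM.all_JEN Pool.ThmM.all_VPD

theorem cl_VZM : M4P.VZM := M4P.all_VZM Pool.ThmM.all_ALG Pool.ThmM.all_REP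

theorem cl_VZS : M4P.VZS := M4P.all_VZS Pool.ThmM.all_ALG Pool.ThmM.all_POL

theorem cl_VZC : M4P.VZC := M4P.all_VZC Pool.ThmM.all_POL Pool.ThmM.all_ALG Pool.Agent.Work.MP_f82ddf_M5.stmt_FUN

theorem cl_CHR : M4P.CHR := M4P.all_CHR Pool.Agent.Work.MP_f82ddf_M5.stmt_FUN

theorem cl_DTI : M4P.DTI := M4P.all_DTI 

theorem cl_ZRN : M4P.ZRN := M4P.all_ZRN cl_FIN Pool.Agent.Work.MP_f82ddf_M5.stmt_FUN Pool.Agent.Work.MP_f82ddf_M5.stmt_DEG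

theorem cl_FACN : M4P.FACN := M4P.all_FACN cl_ZRN cl_DTI Pool.Agent.Work.MP_f82ddf_M5.all_LINE

theorem cl_PFZ : M4P.PFZ := M4P.all_PFZ cl_VZM cl_VZS cl_VZC cl_CHR cl_FACN

theorem cl_CRL : M4P.CRL := M4P.all_CRL 

theorem cl_EXF : M4P.EXF := M4P.all_EXF cl_VZM cl_VZS cl_CRL Pool.ThmM.all_ALG

theorem cl_LFD : M4P.LFD := M4P.all_LFD 

theorem cl_FIX : M4P.FIX := M4P.all_FIX cl_LFD cl_VZM

theorem cl_IR1 : M4P.IR1 := M4P.all_IR1 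

theorem cl_IR2 : M4P.IR2 := M4P.all_IR2 cl_IR1

theorem cl_CTB : M4P.CTB := M4P.all_CTB 

theorem cl_GEN : M4P.GEN := M4P.all_GEN cl_CTB Pool.ThmM.all_VAL

theorem cl_LNR : M4P.LNR := M4P.all_LNR Pool.ThmM.all_LIN Pool.ThmM.all_VPD Pool.ThmM.all_NNP

theorem cl_NUF : M4P.NUF := M4P.all_NUF Pool.ThmM.all_GAU Pool.ThmM.all_GEL Pool.ThmM.all_VAL Pool.ThmM.all_VPD

theorem cl_RTP : M4P.RTP := M4P.all_RTP 

theorem cl_PLN : M4P.PLN := M4P.all_PLN cl_PLANE cl_PFZ cl_CRL cl_EXF cl_FIX cl_IR2 cl_GEN cl_LNR cl_NUF cl_RTP Pool.ThmM.all_VAL Pool.ThmM.all_NNP Pool.ThmM.all_VPD Pool.ThmM.all_LOW Pool.ThmM.all_ORD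

end M4P
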