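import Pool.Agent.Work.MP_f82ddf_M4.Interface
import Pool.Agent.Work.MP_f82ddf_M1.Interface
set_option autoImplicit false

/-! # Theorem M (MP_f82ddf_nt), part P4: the plane theorem over the field Mer of meromorphic functions.  helper24, note 3011.

F is a form of degree ρ in the dual coordinates m_0, m_1, m_2 with coefficients in Mer; its value `spz F z` is a product of linear forms
lf (t_i(z)), t_i(z) moving points of the curve q = 0.  A block may assume (as hypotheses of its theorem) every Prop of Interface.lean,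
every EARLIER Prop of this file and the named Props `Pool.ThmM.Stmt_X` of MP_f82ddf_M1/Interface.lean (helper32's kit; column uses: M1.X).
`∀ᶠ z in codiscrete ℂ` is the same as `∀ z0, ∀ᶠ z in 𝓝[≠] z0`; a codiscrete set has a countable complement. -/

open Topology Filter
open scoped Differential
open Pool.Agent.Work.MP_f82ddf_nt.DQ

namespace M4P
open MvPolynomial Pool.ThmM

noncomputable section

/-- The value of a form with coefficients in `Mer` at the point `z`. -/
def spz (F : MvPolynomial (Fin 3) Mer) (z : ℂ) : P3 := ∑ s ∈ F.support, monomial s (rep (F.coeff s) z)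

/-- `F` is a form of degree `ρ`; outside of the countable set `E` its value is a product of linear forms `lf t` with `q t = 0`; it has
no constant factor `lf v`. -/
structure Dat (ρ : ℕ) (q : P3) (F : MvPolynomial (Fin 3) Mer) (E : Set ℂ) : Prop where
  hom : F.IsHomogeneous ρ
  cnt : E.Countable
  fac : ∀ z, z ∉ E → ∃ t : Fin ρ → Fin 3 → ℂ, spz F z = ∏ i, lf (t i) ∧ ∀ i, eval (t i) q = 0
  mov : ∀ v : Fin 3 → ℂ, v ≠ 0 → ∃ m : Fin 3 → ℂ, (∑ i, v i * m i = 0) ∧ evC m F ≠ 0

/-- `h` is the norm of the form `P`: `h z = ∏ P(t_i)` if `spz F z = ∏ lf (t_i)`, outside of a countable set. -/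
def IsN (ρ : ℕ) (F : MvPolynomial (Fin 3) Mer) (P : P3) (h : Mer) : Prop :=
  ∃ E : Set ℂ, E.Countable ∧ ∀ z, z ∉ E → ∀ t : Fin ρ → Fin 3 → ℂ, spz F z = ∏ i, lf (t i) → rep h z = ∏ i, eval (t i) P

/-! ### Part 3 -/

/-- EVZ (M1.ALG).  Evaluation commutes with taking the value, off a discrete set: evC p F = Σ_s F.coeff s * algebraMap (∏ p_j^(s_j)) (MvPolynomial.eval_eq), a finite
sum; ALG for sums and products (induction over the finite support). -/
def EVZ : Prop := ∀ (F : MvPolynomial (Fin 3) Mer) (p : Fin 3 → ℂ), ∀ᶠ z in codiscrete ℂ, rep (evC p F) z = eval p (spz F z)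

/-- GLU.  Gluing of local meromorphic functions.  G is given outside of the countable set E; near every z0 it is the restriction of a function
meromorphic at z0.  Then there is h in Mer with h = φ near z0 (punctured) for all these φ.  Proof: the complement of E is dense in every open set.  For z0 let
φ be as in the hypothesis; it is analytic on a punctured neighbourhood U of z0.  Define H z0 := the limit of φ at z0 along 𝓝[≠] z0 if φ is
bounded near z0 (it exists), 0 otherwise; it does not depend on φ (two such φ agree on the punctured neighbourhood outside of E, hence by continuity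
everywhere on it).  For z in U: φ is a possible choice at z (analytic at z, so meromorphic), so H z = φ z.  So H is meromorphic at every z0, h := Mer.mk H;
rep h = H off a discrete set (M1.ALG (1)), and H = φ on a punctured neighbourhood of z0. -/
def GLU : Prop := ∀ (E : Set ℂ) (G : ℂ → ℂ), E.Countable →
  (∀ z0 : ℂ, ∃ φ : ℂ → ℂ, MeromorphicAt φ z0 ∧ ∀ᶠ z in 𝓝[≠] z0, z ∉ E → φ z = G z) →
  ∃ h : Mer, ∀ (z0 : ℂ) (φ : ℂ → ℂ), MeromorphicAt φ z0 → (∀ᶠ z in 𝓝[≠] z0, z ∉ E → φ z = G z) → ∀ᶠ z in 𝓝[≠] z0, rep h z = φ z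

/-- NEX (LOC, GLU, BND, M1.REP, M1.VAL).  Existence of norms, with the order and the bound.  F ≠ 0 by mov.  G z = ∏ P(t_i) for a chosen factorisation of spz F z
(z ∉ E), 0 for z ∈ E.  Fix z0, n = vP F z0 (an integer).  For s in the support let a_s be analytic at z0 with rep (F.coeff s) z = (z - z0)^n a_s z for z ≠ z0 near z0
(order ≥ n), Psi z = Σ monomial s (a_s z), Psi z0 ≠ 0 (some order is n).  So spz F z = (z - z0)^n Psi z (scalar multiple) for z ≠ z0 near z0.  LOC for Psi: φ0 analytic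
at z0.  If z ≠ z0 is near z0 and spz F z = ∏ lf (t_i): for ρ ≥ 1 put t'_1 = (z - z0)^(-n) t_1, t'_i = t_i otherwise: Psi z = ∏ lf (t'_i) and ∏ P(t_i) = (z - z0)^(n p) ∏ P(t'_i)
= (z - z0)^(n p) φ0 z =: φ z (P homogeneous of degree p).  For ρ = 0: both products are 1, F = C c, take φ = 1 (spz F z = C (rep c z) = 1 outside E forces c = 1, n = 0).
So ∏ P(t_i) does not depend on the factorisation near z0, φ z = G z for z ∉ E, GLU gives h with rep h = φ near z0: om h z0 = order of φ ≥ n p, and IsN with the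
exceptional set E ∪ (a discrete set) (IsN holds for z ≠ z0 near z0; the set of z where it fails is discrete, so countable).  Bound: |P(t)| ≤ nrm P * (Σ|t_j|)^p and BND:
|rep h z| ≤ (nrm P)^ρ C^p nrm (spz F z)^p outside of a countable set; on a punctured neighbourhood of every z0 both sides are continuous (rep of an element of Mer is
analytic on a punctured neighbourhood), so it holds there. -/
def NEX : Prop := ∀ (ρ : ℕ) (q : P3) (F : MvPolynomial (Fin 3) Mer) (E : Set ℂ) (p : ℕ) (P : P3), Dat ρ q F E → P.IsHomogeneous p →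
  ∃ h : Mer, IsN ρ F P h ∧ (∀ z, p • vP F z ≤ om h z) ∧ ∃ C : ℝ, ∀ᶠ z in codiscrete ℂ, ‖rep h z‖ ≤ C * nrm (spz F z) ^ p

/-- NHN (FIN, EVZ, M1.ALG).  The norm of H is not 0.  Suppose h = 0.  Let E' be the union of E, the exceptional set of IsN, the discrete set where rep 0 ≠ 0 and the (countable)
set where spz F z = 0 (F ≠ 0 by mov: some coefficient is not 0 in Mer).  For z ∉ E': spz F z = ∏ lf (t_i) ≠ 0 with q(t_i) = 0, all t_i ≠ 0,
0 = rep h z = ∏ H(t_i), so H(t_i) = 0 for some i, t_i = c v with v ∈ V (FIN), and eval m (spz F z) = 0 for all m with Σ v_j m_j = 0 (eval m (lf (t_i)) = c Σ v_j m_j).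
So the complement of E' is the union over v ∈ V of Z_v = {z ∉ E' | ∀ m, Σ v_j m_j = 0 → eval m (spz F z) = 0}; some Z_v is uncountable (V finite).  mov: m with
Σ v_j m_j = 0 and evC m F ≠ 0; rep (evC m F) z = eval m (spz F z) off a discrete set (EVZ) and rep (evC m F) z ≠ 0 off a discrete set (ALG): so Z_v is contained in a
countable set, contradiction. -/
def NHN : Prop := ∀ (ρ d e : ℕ) (q H : P3) (F : MvPolynomial (Fin 3) Mer) (E : Set ℂ) (h : Mer), Dat ρ q F E → Irreducible q → q.IsHomogeneous d →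
  H.IsHomogeneous e → eval ![0, 1, 0] q ≠ 0 → ¬ q ∣ H → IsN ρ F H h → h ≠ 0

/-- ORD (EVZ, M1.ALG, M1.REP).  For z outside of a countable set, spz F z = ∏ lf (t_i), q(t_i) = 0: ∏ (t_i 1) = eval ![0,1,0] (spz F z) = rep g z, ∏ (t_i 2) =
eval ![0,0,1] (spz F z) = rep f z (eval ![0,1,0] (lf t) = t 1), and H(t_i) (t_i 1)^b = (t_i 2)^b H1(t_i); take the product over i:
rep h z * rep g z^b = rep f z^b * rep h1 z outside of a countable set; so the element k = h g^b - f^b h1 of Mer has rep k z = 0 outside of a countable set, and k = 0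
(a nonzero element has rep k z ≠ 0 off a discrete set, ALG; ℂ is uncountable). -/
def ORD : Prop := ∀ (ρ b : ℕ) (q H H1 Q1 : P3) (F : MvPolynomial (Fin 3) Mer) (E : Set ℂ) (h h1 : Mer), Dat ρ q F E → IsN ρ F H h →
  IsN ρ F H1 h1 → H * X 1 ^ b = X 2 ^ b * H1 + q * Q1 →
  h * evC ![0, 1, 0] F ^ b = evC ![0, 0, 1] F ^ b * h1

/-- BLL (M1.REP, M1.ALG, M1.ORD, M1.CMP).  The mean of the bound: log |rep h z| ≤ log C' + p log ‖vec (cf F) z‖ off a discrete set (nrm (spz F z) ≤ #support * ‖vec (cf F) z‖, rep h z ≠ 0 and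
vec (cf F) z ≠ 0 off a discrete set), CMP with integrability of log |rep h| and log ‖vec (cf F)‖ (MeromorphicOn.circleIntegrable_log_norm; vec is meromorphic: M1.ORD). -/
def BLL : Prop := ∀ (F : MvPolynomial (Fin 3) Mer) (h : Mer) (p : ℕ) (C : ℝ), F ≠ 0 → h ≠ 0 →
  (∀ᶠ z in codiscrete ℂ, ‖rep h z‖ ≤ C * nrm (spz F z) ^ p) → ∃ K : ℝ, ∀ r : ℝ, r ≠ 0 → LL1 h r ≤ p * LL (cf F) r + K

/-- PLANE, the exported theorem of P4 (NEX, HEX2, NHN, ORD, BLL, M1.VAL, M1.NNP, M1.JEN, M1.VPD).  F ≠ 0 (mov), n(z) := vP F z = dvP F z integers.  b = d^2, HEX2: H, H1, E0; NEX: h with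
(b-1) n(z) ≤ om h z and the bound, h1 with (b-1) n(z) ≤ om h1 z; NHN: h ≠ 0; ORD: h g^b = f^b h1 (g = evC ![0,1,0] F, f = evC ![0,0,1] F).  Where D z > 0: om g z = n(z) and
om f z ≥ n(z) + D z, so om h z + b n(z) = b om f z + om h1 z ≥ b (n(z) + D z) + (b-1) n(z): om h z ≥ b D z + (b-1) n(z).  Where D z = 0: om h z ≥ (b-1) n(z).  So
b • D + (b-1) • dvP F ≤ dv1 h, and for r ≥ 1 (NNP): b NN D + (b-1) NN (dvP F) ≤ NN (dv1 h) = LL1 h r - C (JEN) ≤ (b-1) LL (cf F) r + K - C (BLL).  TP F = LL (cf F) - NN (dvP F). -/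
def PLANE : Prop := ∀ (ρ d : ℕ) (q : P3) (F : MvPolynomial (Fin 3) Mer) (E : Set ℂ), Irreducible q → q.IsHomogeneous d → eval ![1, 0, 0] q = 0 →
  eval ![1, 0, 0] (pderiv 1 q) ≠ 0 → eval ![0, 1, 0] q ≠ 0 → Dat ρ q F E → evC ![0, 0, 1] F ≠ 0 →
  ∃ C : ℝ, ∀ D : Function.locallyFinsupp ℂ ℤ, 0 ≤ D →
    (∀ z, 0 < D z → om (evC ![0, 1, 0] F) z = vP F z ∧ vP F z + ((D z : ℤ) : WithTop ℤ) ≤ om (evC ![0, 0, 1] F) z) →
    ∀ r : ℝ, 1 ≤ r → (d ^ 2 : ℕ) * NN D r ≤ (d ^ 2 - 1 : ℕ) * TP F r + C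

end

end M4P
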