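import Pool.Agent.Work.MP_f82ddf_M4.Interface
set_option autoImplicit false

/-! # Theorem M (MP_f82ddf_nt), part P4: block HEX2 (the homogeneous form H).  helper79. -/

namespace M4P
namespace HEX2
open MvPolynomial

noncomputable section

/-- Dehomogenisation. -/
def ph : P3 →ₐ[ℂ] Polynomial (Polynomial ℂ) :=
  MvPolynomial.aeval ![1, Polynomial.X, Polynomial.C Polynomial.X]

/-- total degree at most N -/
def TD (N : ℕ) (P : Polynomial (Polynomial ℂ)) : Prop := ∀ i j, N < i + j → (P.coeff i).coeff j = 0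

lemma ph_X0 : ph (X 0) = 1 := by simp [ph]
lemma ph_X1 : ph (X 1) = Polynomial.X := by simp [ph]
lemma ph_X2 : ph (X 2) = Polynomial.C Polynomial.X := by simp [ph]
lemma ph_C (c : ℂ) : ph (C c) = Polynomial.C (Polynomial.C c) := by
  simp [ph]

lemma ph_monomial (s : Fin 3 →₀ ℕ) (c : ℂ) :
    ph (monomial s c) = Polynomial.monomial (s 1) (Polynomial.monomial (s 2) c) := by
  rw [MvPolynomial.monomial_eq, Finsupp.prod_fintype _ _ (fun i => pow_zero _), Fin.prod_univ_three]
  rw [map_mul, map_mul, map_mul, map_pow, map_pow, map_pow, ph_C, ph_X0, ph_X1, ph_X2, one_pow, one_mul]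
  rw [← Polynomial.C_mul_X_pow_eq_monomial, ← Polynomial.C_mul_X_pow_eq_monomial, Polynomial.C_mul,
    Polynomial.C_pow]
  ring

lemma ph_coeff_sum (F : P3) (i j : ℕ) :
    ((ph F).coeff i).coeff j = ∑ t ∈ F.support, (if t 1 = i ∧ t 2 = j then F.coeff t else 0) := by
  conv_lhs => rw [← F.support_sum_monomial_coeff]
  rw [map_sum, Polynomial.finsetSum_coeff, Polynomial.finsetSum_coeff]
  refine Finset.sum_congr rfl (fun t _ => ?_)
  rw [ph_monomial, Polynomial.coeff_monomial]
  by_cases h1 : t 1 = i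
  · rw [if_pos h1, Polynomial.coeff_monomial]
    by_cases h2 : t 2 = j
    · rw [if_pos h2, if_pos ⟨h1, h2⟩]
    · rw [if_neg h2, if_neg (fun h => h2 h.2)]
  · rw [if_neg h1, Polynomial.coeff_zero, if_neg (fun h => h1 h.1)]

lemma hom_deg {F : P3} {N : ℕ} (hF : F.IsHomogeneous N) {t : Fin 3 →₀ ℕ} (ht : F.coeff t ≠ 0) :
    t 0 + t 1 + t 2 = N := by
  by_contra h
  apply ht
  apply hF.coeff_eq_zero
  rw [Finsupp.degree_eq_sum, Fin.sum_univ_three]
  exact h

lemma ext3 {s t : Fin 3 →₀ ℕ} (h0 : s 0 = t 0) (h1 : s 1 = t 1) (h2 : s 2 = t 2) : s = t := by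
  ext i
  fin_cases i
  · exact h0
  · exact h1
  · exact h2

lemma ph_coeff (F : P3) (N : ℕ) (hF : F.IsHomogeneous N) (s : Fin 3 →₀ ℕ) (hs : s 0 + s 1 + s 2 = N) :
    ((ph F).coeff (s 1)).coeff (s 2) = F.coeff s := by
  rw [ph_coeff_sum, Finset.sum_eq_single s]
  · rw [if_pos ⟨rfl, rfl⟩]
  · intro t ht hts
    apply if_neg
    rintro ⟨h1, h2⟩
    apply hts
    have h := hom_deg hF (MvPolynomial.mem_support_iff.mp ht)
    apply ext3 _ h1 h2
    omega
  · intro h
    rw [if_pos ⟨rfl, rfl⟩]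
    exact MvPolynomial.notMem_support_iff.mp h

lemma ph_TD (F : P3) (N : ℕ) (hF : F.IsHomogeneous N) : TD N (ph F) := by
  intro i j hij
  rw [ph_coeff_sum]
  apply Finset.sum_eq_zero
  intro t ht
  apply if_neg
  rintro ⟨h1, h2⟩
  have h := hom_deg hF (MvPolynomial.mem_support_iff.mp ht)
  omega

lemma ph_inj (F G : P3) (N : ℕ) (hF : F.IsHomogeneous N) (hG : G.IsHomogeneous N) (h : ph F = ph G) : F = G := by
  ext s
  by_cases hs : s 0 + s 1 + s 2 = N
  · rw [← ph_coeff F N hF s hs, ← ph_coeff G N hG s hs, h]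
  · have h1 : F.coeff s = 0 := by
      by_contra h0
      exact hs (hom_deg hF h0)
    have h2 : G.coeff s = 0 := by
      by_contra h0
      exact hs (hom_deg hG h0)
    rw [h1, h2]

/-- exponent vector -/
def mk (a b c : ℕ) : Fin 3 →₀ ℕ := Finsupp.equivFunOnFinite.symm ![a, b, c]

lemma mk0 (a b c : ℕ) : mk a b c 0 = a := rfl
lemma mk1 (a b c : ℕ) : mk a b c 1 = b := rfl
lemma mk2 (a b c : ℕ) : mk a b c 2 = c := rfl

lemma ex_hm (N : ℕ) (P : Polynomial (Polynomial ℂ)) (hP : TD N P) : ∃ F : P3, F.IsHomogeneous N ∧ ph F = P := by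
  have key : P ∈ (homogeneousSubmodule (Fin 3) ℂ N).map ph.toLinearMap := by
    rw [P.as_sum_support]
    apply Submodule.sum_mem
    intro i _
    have h1 : Polynomial.monomial i (P.coeff i) =
        ∑ j ∈ (P.coeff i).support, Polynomial.monomial i (Polynomial.monomial j ((P.coeff i).coeff j)) := by
      conv_lhs => rw [(P.coeff i).as_sum_support]
      rw [map_sum]
    rw [h1]
    apply Submodule.sum_mem
    intro j hj
    have hij : i + j ≤ N := by
      by_contra hlt
      exact (Polynomial.mem_support_iff.mp hj) (hP i j (by omega))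
    refine Submodule.mem_map.mpr ⟨monomial (mk (N - i - j) i j) ((P.coeff i).coeff j), ?_, ?_⟩
    · rw [mem_homogeneousSubmodule]
      apply isHomogeneous_monomial
      rw [Finsupp.degree_eq_sum, Fin.sum_univ_three, mk0, mk1, mk2]
      omega
    · exact (ph_monomial _ _).trans (by rw [mk1, mk2])
  obtain ⟨F, hF, h⟩ := Submodule.mem_map.mp key
  exact ⟨F, (mem_homogeneousSubmodule _ _).mp hF, h⟩

/-! total degree of sums and products -/

lemma TD_sub {N : ℕ} {P Q : Polynomial (Polynomial ℂ)} (hP : TD N P) (hQ : TD N Q) : TD N (P - Q) := by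
  intro i j h
  rw [Polynomial.coeff_sub, Polynomial.coeff_sub, hP i j h, hQ i j h, sub_zero]

lemma TD_add {N : ℕ} {P Q : Polynomial (Polynomial ℂ)} (hP : TD N P) (hQ : TD N Q) : TD N (P + Q) := by
  intro i j h
  rw [Polynomial.coeff_add, Polynomial.coeff_add, hP i j h, hQ i j h, add_zero]

lemma TD_zero (N : ℕ) : TD N 0 := by
  intro i j _
  rw [Polynomial.coeff_zero, Polynomial.coeff_zero]

lemma TD_mul {M N : ℕ} {P Q : Polynomial (Polynomial ℂ)} (hP : TD M P) (hQ : TD N Q) : TD (M + N) (P * Q) := by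
  intro i j h
  rw [Polynomial.coeff_mul, Polynomial.finsetSum_coeff]
  apply Finset.sum_eq_zero
  intro x hx
  rw [Polynomial.coeff_mul]
  apply Finset.sum_eq_zero
  intro y hy
  have h1 := Finset.HasAntidiagonal.mem_antidiagonal.mp hx
  have h2 := Finset.HasAntidiagonal.mem_antidiagonal.mp hy
  by_cases h3 : M < x.1 + y.1
  · rw [hP _ _ h3, zero_mul]
  · have h4 : N < x.2 + y.2 := by omega
    rw [hQ _ _ h4, mul_zero]

lemma TD_Xpow (b : ℕ) : TD b (Polynomial.X ^ b) := by
  intro i j h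
  rw [Polynomial.coeff_X_pow]
  by_cases hi : i = b
  · rw [if_pos hi, Polynomial.coeff_one, if_neg (by omega)]
  · rw [if_neg hi, Polynomial.coeff_zero]

/-- division with remainder respects the total degree -/
lemma div_ex (d : ℕ) (qt : Polynomial (Polynomial ℂ)) (hm : qt.Monic) (hd : qt.natDegree = d) (ht : TD d qt)
    (N : ℕ) (hN : d ≤ N) : ∀ (n : ℕ) (P : Polynomial (Polynomial ℂ)), P.natDegree ≤ n → TD N P →
    ∃ B A : Polynomial (Polynomial ℂ), P = qt * B + A ∧ A.degree < qt.degree ∧ TD N A ∧ TD (N - d) B := by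
  intro n
  induction n with
  | zero =>
    intro P hP hT
    by_cases h : P.degree < qt.degree
    · exact ⟨0, P, by ring, h, hT, TD_zero _⟩
    · have hd0 : d = 0 := by
        have h1 : qt.degree ≤ P.degree := not_lt.mp h
        have h2 := Polynomial.natDegree_le_natDegree h1
        omega
      have hq1 : qt = 1 := by
        apply Polynomial.eq_one_of_monic_natDegree_zero hm
        omega
      refine ⟨P, 0, by rw [hq1]; ring, ?_, TD_zero _, by rw [hd0]; exact hT⟩
      rw [hq1, Polynomial.degree_zero, Polynomial.degree_one]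
      exact WithBot.bot_lt_coe 0
  | succ n ih =>
    intro P hP hT
    by_cases hlt : P.natDegree < d
    · refine ⟨0, P, by ring, ?_, hT, TD_zero _⟩
      apply Polynomial.degree_lt_degree
      omega
    · by_cases hle : P.natDegree ≤ n
      · exact ih P hle hT
      · have hPn : P.natDegree = n + 1 := by omega
        -- the step
        have hc : TD (N - d) (Polynomial.C (P.coeff (n + 1)) * Polynomial.X ^ (n + 1 - d)) := by
          intro i j hij
          rw [Polynomial.coeff_C_mul, Polynomial.coeff_X_pow]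
          by_cases hi : i = n + 1 - d
          · rw [if_pos hi, mul_one]
            exact hT _ _ (by omega)
          · rw [if_neg hi, mul_zero, Polynomial.coeff_zero]
        have hT2 : TD N (P - qt * (Polynomial.C (P.coeff (n + 1)) * Polynomial.X ^ (n + 1 - d))) := by
          apply TD_sub hT
          have := TD_mul ht hc
          rwa [Nat.add_sub_of_le hN] at this
        have hdeg : (P - qt * (Polynomial.C (P.coeff (n + 1)) * Polynomial.X ^ (n + 1 - d))).natDegree ≤ n := by
          rw [Polynomial.natDegree_le_iff_coeff_eq_zero]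
          intro k hk
          rw [Polynomial.coeff_sub, ← mul_assoc, Polynomial.coeff_mul_X_pow', Polynomial.coeff_mul_C]
          by_cases hk1 : k = n + 1
          · rw [if_pos (by omega), hk1, show n + 1 - (n + 1 - d) = qt.natDegree by omega,
              Polynomial.coeff_natDegree, hm.leadingCoeff, one_mul, sub_self]
          · rw [Polynomial.coeff_eq_zero_of_natDegree_lt (show P.natDegree < k by omega)]
            rw [Polynomial.coeff_eq_zero_of_natDegree_lt (show qt.natDegree < k - (n + 1 - d) by omega), zero_mul]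
            rw [ite_self, sub_zero]
        obtain ⟨B, A, h1, h2, h3, h4⟩ := ih _ hdeg hT2
        refine ⟨Polynomial.C (P.coeff (n + 1)) * Polynomial.X ^ (n + 1 - d) + B, A, ?_, h2, h3, TD_add hc h4⟩
        rw [mul_add, add_assoc, ← h1]
        ring

lemma div_TD (d : ℕ) (qt : Polynomial (Polynomial ℂ)) (hm : qt.Monic) (hd : qt.natDegree = d) (ht : TD d qt)
    (N : ℕ) (hN : d ≤ N) (P : Polynomial (Polynomial ℂ)) (hP : TD N P) :
    TD N (P %ₘ qt) ∧ TD (N - d) (P /ₘ qt) := by
  obtain ⟨B, A, h1, h2, h3, h4⟩ := div_ex d qt hm hd ht N hN P.natDegree P le_rfl hP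
  obtain ⟨h5, h6⟩ := Polynomial.div_modByMonic_unique (f := P) B A hm ⟨by rw [h1]; ring, h2⟩
  rw [h5, h6]
  exact ⟨h3, h4⟩

/-! values of q -/

lemma ev_ph (F : P3) : ((ph F).coeff 0).coeff 0 = eval ![1, 0, 0] F := by
  induction F using MvPolynomial.induction_on with
  | C a => simp
  | add p q hp hq => rw [map_add, map_add, Polynomial.coeff_add, Polynomial.coeff_add, hp, hq]
  | mul_X p i hp =>
    rw [map_mul, map_mul, Polynomial.mul_coeff_zero, Polynomial.mul_coeff_zero, hp, eval_X]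
    fin_cases i
    · simp [ph_X0]
    · simp [ph_X1]
    · simp [ph_X2]

lemma der_ph (F : P3) : Polynomial.derivative (ph F) = ph (pderiv 1 F) := by
  induction F using MvPolynomial.induction_on with
  | C a => rw [ph_C, Polynomial.derivative_C, pderiv_C, map_zero]
  | add p q hp hq => rw [map_add, map_add, map_add, map_add, hp, hq]
  | mul_X p i hp =>
    rw [map_mul, Polynomial.derivative_mul, hp, Derivation.leibniz, map_add, smul_eq_mul, smul_eq_mul, map_mul, map_mul]
    have h : Polynomial.derivative (ph (X i)) = ph (pderiv 1 (X i)) := by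
      fin_cases i
      · simp [ph_X0, pderiv_X]
      · simp [ph_X1, pderiv_X]
      · simp [ph_X2, pderiv_X]
    rw [h]
    ring

lemma ev_ph1 (F : P3) : ((ph F).coeff 1).coeff 0 = eval ![1, 0, 0] (pderiv 1 F) := by
  rw [← ev_ph, ← der_ph, Polynomial.coeff_derivative]
  simp

lemma ev_top (d : ℕ) (F : P3) (hF : F.IsHomogeneous d) : ((ph F).coeff d).coeff 0 = eval ![0, 1, 0] F := by
  have h0 : ((ph F).coeff d).coeff 0 = F.coeff (mk 0 d 0) :=
    ph_coeff F d hF (mk 0 d 0) (by rw [mk0, mk1, mk2]; omega)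
  rw [h0, eval_eq', Finset.sum_eq_single (mk 0 d 0)]
  · rw [Fin.prod_univ_three, mk0, mk1, mk2]
    simp
  · intro t ht hts
    have h := hom_deg hF (MvPolynomial.mem_support_iff.mp ht)
    rw [Fin.prod_univ_three]
    by_cases h2 : t 0 = 0
    · by_cases h3 : t 2 = 0
      · exact absurd (ext3 (by rw [mk0]; exact h2) (by rw [mk1]; omega) (by rw [mk2]; exact h3)) hts
      · simp [h3]
    · simp [h2]
  · intro h
    rw [MvPolynomial.notMem_support_iff.mp h, zero_mul]

end

end HEX2

open MvPolynomial HEX2 in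
theorem all_HEX2 (hex1 : HEX1) : M4P.HEX2 := by
  intro d q hq h100 hder h010
  -- q(0,1,0) = c
  obtain ⟨c, hc⟩ : ∃ c, c = eval ![0, 1, 0] q := ⟨_, rfl⟩
  have hc0 : c ≠ 0 := by rw [hc]; exact h010
  have e0 : ((ph q).coeff 0).coeff 0 = 0 := by rw [ev_ph, h100]
  have e1 : ((ph q).coeff 1).coeff 0 ≠ 0 := by rw [ev_ph1]; exact hder
  have ed : ((ph q).coeff d).coeff 0 = c := by rw [ev_top d q hq, hc]
  have hTq : TD d (ph q) := ph_TD q d hq
  have hd1 : 1 ≤ d := by
    by_contra h
    have hd0 : d = 0 := by omega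
    rw [hd0, e0] at ed
    exact hc0 ed.symm
  have ecd : (ph q).coeff d = Polynomial.C c := by
    ext j
    rw [Polynomial.coeff_C]
    by_cases hj : j = 0
    · rw [if_pos hj, hj, ed]
    · rw [if_neg hj]
      exact hTq _ _ (by omega)
  -- the monic polynomial
  obtain ⟨qt, hqt⟩ : ∃ qt, qt = Polynomial.C (Polynomial.C c⁻¹) * ph q := ⟨_, rfl⟩
  have hqq : ph q = Polynomial.C (Polynomial.C c) * qt := by
    rw [hqt, ← mul_assoc, ← Polynomial.C_mul, ← Polynomial.C_mul, mul_inv_cancel₀ hc0, Polynomial.C_1,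
      Polynomial.C_1, one_mul]
  have hcq : ∀ i, qt.coeff i = Polynomial.C c⁻¹ * (ph q).coeff i := by
    intro i
    rw [hqt, Polynomial.coeff_C_mul]
  have hcqq : ∀ i j, (qt.coeff i).coeff j = c⁻¹ * ((ph q).coeff i).coeff j := by
    intro i j
    rw [hcq, Polynomial.coeff_C_mul]
  have hTqt : TD d qt := by
    intro i j h
    rw [hcqq, hTq i j h, mul_zero]
  have hqd : qt.coeff d = 1 := by
    rw [hcq, ecd, ← Polynomial.C_mul, inv_mul_cancel₀ hc0, Polynomial.C_1]
  have hle : qt.natDegree ≤ d := by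
    rw [Polynomial.natDegree_le_iff_coeff_eq_zero]
    intro k hk
    ext j
    rw [Polynomial.coeff_zero]
    exact hTqt _ _ (by omega)
  have hdeg : qt.natDegree = d := by
    apply le_antisymm hle
    apply Polynomial.le_natDegree_of_ne_zero
    rw [hqd]
    exact one_ne_zero
  have hmon : qt.Monic := by
    unfold Polynomial.Monic Polynomial.leadingCoeff
    rw [hdeg, hqd]
  have hb1 : 1 ≤ d ^ 2 := Nat.one_le_pow _ _ hd1
  have hdb : d ≤ d ^ 2 := by nlinarith
  obtain ⟨Ht, A, B, hH0, hHd, hHT, hE⟩ := hex1 d (d ^ 2) qt hd1 hmon hdeg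
    (by rw [hcqq, e0, mul_zero]) (by rw [hcqq]; exact mul_ne_zero (inv_ne_zero hc0) e1)
    (by
      obtain ⟨k, hk⟩ : ∃ k, d = k + 1 := ⟨d - 1, by omega⟩
      rw [hk]
      simp only [Nat.add_sub_cancel]
      nlinarith)
  have hTH : TD (d ^ 2 - 1) Ht := by
    intro i j h
    exact hHT i j (by omega)
  have hTHX : TD (d ^ 2 - 1 + d ^ 2) (Ht * Polynomial.X ^ (d ^ 2)) := TD_mul hTH (TD_Xpow _)
  obtain ⟨hR, hB1⟩ := div_TD d qt hmon hdeg hTqt (d ^ 2 - 1 + d ^ 2) (by omega) _ hTHX
  -- the remainder is divisible by C (X ^ b)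
  have hrem : (Ht * Polynomial.X ^ (d ^ 2)) %ₘ qt = Polynomial.C (Polynomial.X ^ (d ^ 2)) * (A %ₘ qt) := by
    refine (Polynomial.div_modByMonic_unique (B + Polynomial.C (Polynomial.X ^ (d ^ 2)) * (A /ₘ qt)) _ hmon
      ⟨?_, ?_⟩).2
    · rw [hE]
      conv_rhs => rw [← Polynomial.modByMonic_add_div A qt]
      ring
    · refine lt_of_le_of_lt ?_ (Polynomial.degree_modByMonic_lt A hmon)
      refine (Polynomial.degree_mul_le _ _).trans ?_
      refine (add_le_add_left (Polynomial.degree_C_le) _).trans ?_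
      rw [zero_add]
  have hTA : TD (d ^ 2 - 1) (A %ₘ qt) := by
    intro i j h
    have h1 := hR i (j + d ^ 2) (by omega)
    rw [hrem, Polynomial.coeff_C_mul, Polynomial.coeff_X_pow_mul] at h1
    exact h1
  obtain ⟨H, hHh, hHp⟩ := ex_hm _ _ hTH
  obtain ⟨H1, hH1h, hH1p⟩ := ex_hm _ _ hTA
  obtain ⟨E, hEh, hEp⟩ := ex_hm _ _ hB1
  refine ⟨H, H1, C c⁻¹ * E, hHh, hH1h, ?_, ?_⟩
  · rintro ⟨G, hG⟩
    have h1 : Ht = ph q * ph G := by rw [← hHp, hG, map_mul]
    have h2 : ph q ≠ 0 := by
      intro h0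
      rw [h0, zero_mul] at h1
      exact hH0 h1
    have h3 : ph G ≠ 0 := by
      intro h0
      rw [h0, mul_zero] at h1
      exact hH0 h1
    have h4 := Polynomial.natDegree_mul h2 h3
    rw [← h1] at h4
    have h5 : d ≤ (ph q).natDegree := by
      apply Polynomial.le_natDegree_of_ne_zero
      rw [ecd]
      exact fun h => hc0 (Polynomial.C_eq_zero.mp h)
    omega
  · apply ph_inj _ _ (d ^ 2 - 1 + d ^ 2)
    · exact hHh.mul (isHomogeneous_X_pow _ _)
    · apply IsHomogeneous.add
      · have := (isHomogeneous_X_pow (R := ℂ) (2 : Fin 3) (d ^ 2)).mul hH1h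
        rwa [add_comm] at this
      · have h1 := ((isHomogeneous_C (Fin 3) c⁻¹).mul hEh)
        rw [zero_add] at h1
        have h2 := hq.mul h1
        rwa [Nat.add_sub_of_le (show d ≤ d ^ 2 - 1 + d ^ 2 by omega)] at h2
    · rw [map_mul, map_pow, ph_X1, hHp, map_add, map_mul, map_pow, ph_X2, hH1p, map_mul, map_mul, ph_C, hEp, hqq]
      have h1 := Polynomial.modByMonic_add_div (Ht * Polynomial.X ^ (d ^ 2)) qt
      rw [hrem, Polynomial.C_pow] at h1
      have h2 : Polynomial.C (Polynomial.C c) * qt * (Polynomial.C (Polynomial.C c⁻¹) *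
          (Ht * Polynomial.X ^ d ^ 2 /ₘ qt)) = qt * (Ht * Polynomial.X ^ d ^ 2 /ₘ qt) := by
        have h3 : Polynomial.C (Polynomial.C c) * Polynomial.C (Polynomial.C c⁻¹) =
            (1 : Polynomial (Polynomial ℂ)) := by
          rw [← Polynomial.C_mul, ← Polynomial.C_mul, mul_inv_cancel₀ hc0, Polynomial.C_1, Polynomial.C_1]
        calc _ = (Polynomial.C (Polynomial.C c) * Polynomial.C (Polynomial.C c⁻¹)) *
              (qt * (Ht * Polynomial.X ^ d ^ 2 /ₘ qt)) := by ring
          _ = _ := by rw [h3, one_mul]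
      rw [h2, h1]

end M4P
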