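import Pool.Agent.Work.MP_f82ddf_M4.Interface3
set_option autoImplicit false

open Topology Filter
open scoped Differential
open Pool.Agent.Work.MP_f82ddf_nt.DQ

namespace M4P
open MvPolynomial Pool.ThmM Pool.Agent.Work.MP_f82ddf_M5

namespace IR1

noncomputable section

/-- Polynomials in `α, β, γ` and `θ`. -/
abbrev RR (N : ℕ) := MvPolynomial (Fin 3 ⊕ Fin N) ℂ

/-- The substitution `θ ↦ α u + β e + γ θ`. -/
def Ph {N : ℕ} (u e : Fin N → ℂ) : RR N →ₐ[ℂ] RR N :=
  aeval (Sum.elim (fun i => X (Sum.inl i))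
    (fun j => C (u j) * X (Sum.inl 0) + C (e j) * X (Sum.inl 1) + X (Sum.inr j) * X (Sum.inl 2)))

lemma Ph_inl {N : ℕ} (u e : Fin N → ℂ) (i : Fin 3) : Ph u e (X (Sum.inl i)) = X (Sum.inl i) := by
  simp [Ph]

lemma Ph_inr {N : ℕ} (u e : Fin N → ℂ) (j : Fin N) : Ph u e (X (Sum.inr j)) =
    C (u j) * X (Sum.inl 0) + C (e j) * X (Sum.inl 1) + X (Sum.inr j) * X (Sum.inl 2) := by
  simp [Ph]

lemma Ph_C {N : ℕ} (u e : Fin N → ℂ) (a : ℂ) : Ph u e (C a) = C a := by
  simp [Ph, algebraMap_eq]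

lemma eval_Ph {N : ℕ} (u e : Fin N → ℂ) (a : Fin 3 → ℂ) (t : Fin N → ℂ) (f : RR N) :
    eval (Sum.elim a t) (Ph u e f) =
      eval (Sum.elim a (fun j => u j * a 0 + e j * a 1 + t j * a 2)) f := by
  have h : ((eval (Sum.elim a t)).comp (Ph u e : RR N →+* RR N)) =
      eval (Sum.elim a (fun j => u j * a 0 + e j * a 1 + t j * a 2)) := by
    apply ringHom_ext
    · intro r
      simp
    · intro i
      rcases i with i | j
      · simp [Ph_inl]
      · simp [Ph_inr]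
  exact congrArg (fun g : RR N →+* ℂ => g f) h

lemma Ph_inj {N : ℕ} (u e : Fin N → ℂ) (f : RR N) (h : Ph u e f = 0) : f = 0 := by
  have h1 : f * X (Sum.inl 2) = 0 := by
    apply MvPolynomial.funext
    intro p
    rw [map_mul, map_zero, eval_X]
    by_cases h2 : p (Sum.inl 2) = 0
    · rw [h2, mul_zero]
    · have h3 := eval_Ph u e (fun i => p (Sum.inl i))
        (fun j => (p (Sum.inr j) - u j * p (Sum.inl 0) - e j * p (Sum.inl 1)) / p (Sum.inl 2)) f
      rw [h, map_zero] at h3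
      have h4 : (Sum.elim (fun i => p (Sum.inl i)) (fun j => u j * p (Sum.inl 0) + e j * p (Sum.inl 1) +
          (p (Sum.inr j) - u j * p (Sum.inl 0) - e j * p (Sum.inl 1)) / p (Sum.inl 2) *
            p (Sum.inl 2))) = p := by
        funext i
        rcases i with i | j
        · rfl
        · simp only [Sum.elim_inr]
          rw [div_mul_cancel₀ _ h2]
          ring
      rw [h4] at h3
      rw [← h3, zero_mul]
  exact (mul_eq_zero.1 h1).resolve_right (X_ne_zero _)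

lemma Ph_injective {N : ℕ} (u e : Fin N → ℂ) : Function.Injective (Ph u e) :=
  (injective_iff_map_eq_zero _).2 (Ph_inj u e)

lemma Ph_surj {N : ℕ} (u e : Fin N → ℂ) (f : RR N) :
    ∃ (n : ℕ) (h : RR N), X (Sum.inl 2) ^ n * f = Ph u e h := by
  induction f using MvPolynomial.induction_on with
  | C a => exact ⟨0, C a, by rw [Ph_C]; simp⟩
  | add p q hp hq =>
    obtain ⟨n, h, hn⟩ := hp
    obtain ⟨m, k, hm⟩ := hq
    refine ⟨n + m, X (Sum.inl 2) ^ m * h + X (Sum.inl 2) ^ n * k, ?_⟩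
    rw [map_add, map_mul, map_mul, map_pow, map_pow, ← hn, ← hm, Ph_inl]
    ring
  | mul_X p i hp =>
    obtain ⟨n, h, hn⟩ := hp
    rcases i with i | j
    · refine ⟨n, h * X (Sum.inl i), ?_⟩
      rw [map_mul, ← hn, Ph_inl]
      ring
    · refine ⟨n + 1, h * (X (Sum.inr j) - C (u j) * X (Sum.inl 0) - C (e j) * X (Sum.inl 1)), ?_⟩
      rw [map_mul, ← hn, map_sub, map_sub, map_mul, map_mul, Ph_inl, Ph_inl, Ph_inr, Ph_C, Ph_C]
      ring

lemma prime_rename {N : ℕ} {Q : MvPolynomial (Fin N) ℂ} (hQ : Irreducible Q) :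
    Prime (rename Sum.inr Q : RR N) := by
  have h1 : Prime (C Q : MvPolynomial (Fin 3) (MvPolynomial (Fin N) ℂ)) :=
    (prime_C_iff _).2 hQ.prime
  have h2 : sumAlgEquiv ℂ (Fin 3) (Fin N) (rename Sum.inr Q) = C Q := by
    have h3 := congrArg (fun g => g Q) (sumAlgEquiv_comp_rename_inr (R := ℂ) (S₁ := Fin 3) (S₂ := Fin N))
    simpa using h3
  rw [← h2] at h1
  exact (MulEquiv.prime_iff (sumAlgEquiv ℂ (Fin 3) (Fin N))).1 h1

lemma prime_P {N : ℕ} {u e : Fin N → ℂ} {Q : MvPolynomial (Fin N) ℂ} (hQ : Irreducible Q)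
    (hu : eval u Q = 0) (he : eval e Q ≠ 0) : Prime (Ph u e (rename Sum.inr Q)) := by
  have hQ1 := prime_rename hQ
  have hev : ∀ (a : Fin 3 → ℂ) (t : Fin N → ℂ),
      eval (Sum.elim a t) (rename Sum.inr Q : RR N) = eval t Q := by
    intro a t
    rw [eval_rename]
    rfl
  generalize (rename Sum.inr Q : RR N) = Q1 at hQ1 hev ⊢
  have hG : Prime (X (Sum.inl 2) : RR N) := X_prime
  have hGP : ¬ (X (Sum.inl 2) : RR N) ∣ Ph u e Q1 := by
    rintro ⟨z, hz⟩
    have h1 := congrArg (eval (Sum.elim ![0, 1, 0] (fun _ => 0))) hz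
    rw [eval_Ph, hev, map_mul, eval_X] at h1
    simp only [Sum.elim_inl] at h1
    have h2 : (fun j => u j * (![0, 1, 0] : Fin 3 → ℂ) 0 + e j * (![0, 1, 0] : Fin 3 → ℂ) 1 +
        0 * (![0, 1, 0] : Fin 3 → ℂ) 2) = e := by
      funext j
      simp
    rw [h2] at h1
    apply he
    rw [h1]
    simp
  have hQG : ∀ k : ℕ, ¬ Q1 ∣ X (Sum.inl 2) ^ k := by
    intro k hk
    obtain ⟨z, hz⟩ := hQ1.dvd_of_dvd_pow hk
    have h1 := congrArg (eval (Sum.elim ![0, 0, 1] u)) hz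
    rw [map_mul, hev, hu, zero_mul, eval_X] at h1
    simp at h1
  refine ⟨fun h => hQ1.ne_zero (Ph_inj u e _ h), ?_, ?_⟩
  · intro hun
    obtain ⟨z, hz⟩ := hun.exists_right_inv
    have h1 := congrArg (eval (Sum.elim ![1, 0, 0] (fun _ => 0))) hz
    rw [map_mul, eval_Ph, hev, map_one] at h1
    have h2 : (fun j => u j * (![1, 0, 0] : Fin 3 → ℂ) 0 + e j * (![1, 0, 0] : Fin 3 → ℂ) 1 +
        0 * (![1, 0, 0] : Fin 3 → ℂ) 2) = u := by
      funext j
      simp
    rw [h2, hu, zero_mul] at h1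
    exact zero_ne_one h1
  · have key : ∀ (f f' : RR N) (n : ℕ), X (Sum.inl 2) ^ n * f = Ph u e f' → Q1 ∣ f' →
        Ph u e Q1 ∣ f := by
      intro f f' n hf hd
      obtain ⟨z, hz⟩ := hd
      rw [hz, map_mul] at hf
      have h1 : (X (Sum.inl 2) : RR N) ^ n ∣ Ph u e Q1 * Ph u e z := ⟨f, hf.symm⟩
      have h2 := hG.pow_dvd_of_dvd_mul_left n hGP h1
      obtain ⟨y, hy⟩ := h2
      refine ⟨y, ?_⟩
      rw [hy] at hf
      have h3 : (X (Sum.inl 2) : RR N) ^ n * f = X (Sum.inl 2) ^ n * (Ph u e Q1 * y) := by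
        rw [hf]
        ring
      exact mul_left_cancel₀ (pow_ne_zero n hG.ne_zero) h3
    rintro f g ⟨w, hw⟩
    obtain ⟨n, f', hf⟩ := Ph_surj u e f
    obtain ⟨m, g', hg⟩ := Ph_surj u e g
    obtain ⟨k, w', hw'⟩ := Ph_surj u e w
    have h1 : Ph u e (f' * g' * X (Sum.inl 2) ^ k) = Ph u e (Q1 * (w' * X (Sum.inl 2) ^ (n + m))) := by
      rw [map_mul, map_mul, map_mul, map_mul, map_pow, map_pow, Ph_inl, ← hf, ← hg, ← hw']
      calc _ = X (Sum.inl 2) ^ n * X (Sum.inl 2) ^ m * X (Sum.inl 2) ^ k * (f * g) := by ring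
        _ = _ := by rw [hw]; ring
    have h2 := Ph_injective u e h1
    have h3 : Q1 ∣ f' * g' * X (Sum.inl 2) ^ k := ⟨_, h2⟩
    rcases hQ1.dvd_or_dvd h3 with h4 | h4
    · rcases hQ1.dvd_or_dvd h4 with h5 | h5
      · exact Or.inl (key f f' n hf h5)
      · exact Or.inr (key g g' m hg h5)
    · exact absurd h4 (hQG k)

/-- The ring homomorphism `Q ↦ Q(α u + β e + γ θ)`, as polynomials in `α, β, γ` with coefficients
in `ℂ[θ]`. -/
def PT {N : ℕ} (u e : Fin N → ℂ) :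
    MvPolynomial (Fin N) ℂ →+* MvPolynomial (Fin 3) (MvPolynomial (Fin N) ℂ) :=
  eval₂Hom (C.comp C) (fun j => C (C (u j)) * X 0 + C (C (e j)) * X 1 + C (X j) * X 2)

lemma PT_eq {N : ℕ} (u e : Fin N → ℂ) (Q : MvPolynomial (Fin N) ℂ) :
    sumAlgEquiv ℂ (Fin 3) (Fin N) (Ph u e (rename Sum.inr Q)) = PT u e Q := by
  have h : ((sumAlgEquiv ℂ (Fin 3) (Fin N)).toRingEquiv.toRingHom.comp
      ((Ph u e : RR N →+* RR N).comp
        (rename Sum.inr : MvPolynomial (Fin N) ℂ →ₐ[ℂ] RR N).toRingHom)) = PT u e := by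
    apply ringHom_ext
    · intro r
      simp [PT, Ph_C, sumAlgEquiv_C_inl]
    · intro i
      simp [PT, Ph_inr, sumAlgEquiv_C_inl, sumAlgEquiv_X_inl, sumAlgEquiv_X_inr]
  exact congrArg (fun g : MvPolynomial (Fin N) ℂ →+* MvPolynomial (Fin 3) (MvPolynomial (Fin N) ℂ) =>
    g Q) h

lemma PT_prime {N : ℕ} {u e : Fin N → ℂ} {Q : MvPolynomial (Fin N) ℂ} (hQ : Irreducible Q)
    (hu : eval u Q = 0) (he : eval e Q ≠ 0) : Prime (PT u e Q) := by
  rw [← PT_eq]
  exact (MulEquiv.prime_iff (sumAlgEquiv ℂ (Fin 3) (Fin N))).2 (prime_P hQ hu he)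

lemma eval_PT {N : ℕ} (u e : Fin N → ℂ) (Q : MvPolynomial (Fin N) ℂ) :
    eval (![1, 0, 0] : Fin 3 → MvPolynomial (Fin N) ℂ) (PT u e Q) = C (eval u Q) := by
  have h : (eval (![1, 0, 0] : Fin 3 → MvPolynomial (Fin N) ℂ)).comp (PT u e) = C.comp (eval u) := by
    apply ringHom_ext
    · intro r
      simp [PT]
    · intro i
      simp [PT]
  exact congrArg (fun g : MvPolynomial (Fin N) ℂ →+* MvPolynomial (Fin N) ℂ => g Q) h

lemma map_PT {N : ℕ} (u e : Fin N → ℂ) (Q : MvPolynomial (Fin N) ℂ) :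
    MvPolynomial.map (algebraMap (MvPolynomial (Fin N) ℂ) (FractionRing (MvPolynomial (Fin N) ℂ))) (PT u e Q) =
      qgen u e Q := by
  have h : (MvPolynomial.map (algebraMap (MvPolynomial (Fin N) ℂ) (FractionRing (MvPolynomial (Fin N) ℂ)))).comp
      (PT u e) = eval₂Hom (C.comp (algebraMap ℂ (FractionRing (MvPolynomial (Fin N) ℂ))))
        (fun j => C (algebraMap ℂ _ (u j)) * X 0 + C (algebraMap ℂ _ (e j)) * X 1 +
          C (algebraMap (MvPolynomial (Fin N) ℂ) _ (X j)) * X 2) := by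
    apply ringHom_ext
    · intro r
      simp only [PT, RingHom.comp_apply, eval₂Hom_C, map_C]
      rfl
    · intro i
      simp only [PT, RingHom.comp_apply, eval₂Hom_X', map_add, map_mul, map_C, map_X]
      rfl
  exact congrArg (fun g : MvPolynomial (Fin N) ℂ →+*
    MvPolynomial (Fin 3) (FractionRing (MvPolynomial (Fin N) ℂ)) => g Q) h

attribute [local instance] algebraMvPolynomial

theorem main (N : ℕ) (Q : MvPolynomial (Fin N) ℂ) (u e : Fin N → ℂ) (hQ : Irreducible Q)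
    (hu : eval u Q = 0) (he : eval e Q ≠ 0) : Irreducible (qgen u e Q) := by
  have hP := PT_prime hQ hu he
  have hI : (Ideal.span {PT u e Q}).IsPrime := (Ideal.span_singleton_prime hP.ne_zero).2 hP
  have hdis : Disjoint ((Submonoid.map (C (σ := Fin 3)) (nonZeroDivisors (MvPolynomial (Fin N) ℂ)) :
      Submonoid _) : Set (MvPolynomial (Fin 3) (MvPolynomial (Fin N) ℂ)))
      ↑(Ideal.span {PT u e Q}) := by
    rw [Set.disjoint_left]
    rintro x ⟨a, ha, rfl⟩ hx
    obtain ⟨z, hz⟩ := Ideal.mem_span_singleton.1 hx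
    have h1 := congrArg (eval (![1, 0, 0] : Fin 3 → MvPolynomial (Fin N) ℂ)) hz
    rw [map_mul, eval_PT, hu, C_0, zero_mul] at h1
    have h2 : a = 0 := by simpa using h1
    exact nonZeroDivisors.ne_zero ha h2
  have h3 := IsLocalization.isPrime_of_isPrime_disjoint
    (Submonoid.map (C (σ := Fin 3)) (nonZeroDivisors (MvPolynomial (Fin N) ℂ)))
    (MvPolynomial (Fin 3) (FractionRing (MvPolynomial (Fin N) ℂ))) _ hI hdis
  rw [Ideal.map_span, Set.image_singleton] at h3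
  have h4 : algebraMap (MvPolynomial (Fin 3) (MvPolynomial (Fin N) ℂ))
      (MvPolynomial (Fin 3) (FractionRing (MvPolynomial (Fin N) ℂ))) (PT u e Q) = qgen u e Q := by
    rw [← map_PT]
    rfl
  rw [h4] at h3
  have h5 : qgen u e Q ≠ 0 := by
    rw [← map_PT]
    intro h
    apply hP.ne_zero
    exact MvPolynomial.map_injective _ (IsFractionRing.injective (MvPolynomial (Fin N) ℂ)
      (FractionRing (MvPolynomial (Fin N) ℂ))) (by rw [h, map_zero])
  exact ((Ideal.span_singleton_prime h5).1 h3).irreducible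

end

end IR1

theorem all_IR1 : IR1 := fun N _ Q u e _ hQ _ hu he => IR1.main N Q u e hQ hu he

end M4P

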