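import Pool.Agent.Work.MP_f82ddf_M4.Interface3
set_option autoImplicit false

/-! # Block VZC (helper58): the Chow form commutes with values -/

open Topology Filter
open scoped Differential
open Pool.Agent.Work.MP_f82ddf_nt.DQ

namespace M4P
open MvPolynomial Pool.ThmM Pool.Agent.Work.MP_f82ddf_M5

namespace VZC

/-- The universal polynomial with the monomials of `F`. -/
private noncomputable def un {N : ℕ} {ι : Type} (F : MvPolynomial (Fin N) Mer) (j : F.support → ι) :
    MvPolynomial (Fin N) (MvPolynomial ι ℂ) :=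
  ∑ s : F.support, monomial (s : Fin N →₀ ℕ) (X (j s))

private theorem map_un {N : ℕ} {ι : Type} {B : Type} [CommRing B] (F : MvPolynomial (Fin N) Mer)
    (j : F.support → ι) (ψ : MvPolynomial ι ℂ →+* B) :
    map ψ (un F j) = ∑ s : F.support, monomial (s : Fin N →₀ ℕ) (ψ (X (j s))) := by
  unfold un
  rw [map_sum]
  refine Finset.sum_congr rfl fun s _ => ?_
  rw [map_monomial]

end VZC

open M4P.VZC in
theorem all_VZC (hP : Stmt_POL) (hA : Stmt_ALG) (hF : Stmt_FUN) : M4P.VZC := by
  intro N d D F G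
  obtain ⟨-, -, -, -, -, hF6⟩ := hF
  have h0 : ∀ᶠ z in codiscrete ℂ, rep (0 : Mer) z = 0 := by
    have h := hA.2.2.2.2.2.2.1 0
    rw [map_zero] at h
    exact h
  -- the coefficients
  obtain ⟨c, hc⟩ : ∃ c : (F.support ⊕ G.support) → Mer,
      c = Sum.elim (fun s : F.support => F.coeff (s : Fin N →₀ ℕ)) (fun s : G.support => G.coeff (s : Fin N →₀ ℕ)) := ⟨_, rfl⟩
  obtain ⟨Cu, hCu⟩ : ∃ Cu, Cu = chow d D (un F Sum.inl) (un (ι := F.support ⊕ G.support) G Sum.inr) :=
    ⟨_, rfl⟩
  have h1 : chow d D F G = map (aeval c : MvPolynomial (F.support ⊕ G.support) ℂ →ₐ[ℂ] Mer).toRingHom Cu := by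
    rw [hCu, hF6, map_un, map_un]
    congr 1
    · conv_lhs => rw [F.as_sum]
      rw [← Finset.sum_coe_sort]
      refine Finset.sum_congr rfl fun s _ => ?_
      congr 1
      change _ = aeval c (X (Sum.inl s))
      rw [aeval_X, hc, Sum.elim_inl]
    · conv_lhs => rw [G.as_sum]
      rw [← Finset.sum_coe_sort]
      refine Finset.sum_congr rfl fun s _ => ?_
      congr 1
      change _ = aeval c (X (Sum.inr s))
      rw [aeval_X, hc, Sum.elim_inr]
  have h2 : ∀ z, chow d D (vz F z) (vz G z) = map (eval (vec c z)) Cu := by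
    intro z
    rw [hCu, hF6, map_un, map_un]
    congr 1
    · unfold vz
      rw [← Finset.sum_coe_sort]
      refine Finset.sum_congr rfl fun s _ => ?_
      congr 1
      rw [eval_X]
      unfold vec
      rw [hc, Sum.elim_inl]
    · unfold vz
      rw [← Finset.sum_coe_sort]
      refine Finset.sum_congr rfl fun s _ => ?_
      congr 1
      rw [eval_X]
      unfold vec
      rw [hc, Sum.elim_inr]
  have h3 : ∀ᶠ z in codiscrete ℂ, ∀ t ∈ Cu.support, rep (aeval c (Cu.coeff t)) z = eval (vec c z) (Cu.coeff t) := by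
    rw [Filter.eventually_all_finset]
    intro t _
    exact hP _ (Cu.coeff t) c
  filter_upwards [h0, h3] with z hz0 hz3
  rw [h2, h1]
  unfold vz
  rw [Finset.sum_subset (support_map_subset (aeval c : MvPolynomial (F.support ⊕ G.support) ℂ →ₐ[ℂ] Mer).toRingHom Cu)]
  · conv_rhs => rw [Cu.as_sum, map_sum]
    refine Finset.sum_congr rfl fun t ht => ?_
    rw [map_monomial, coeff_map, ← hz3 t ht]
    rfl
  · intro t _ ht
    rw [notMem_support_iff] at ht
    rw [ht, hz0, monomial_zero]

end M4P
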