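import Mathlib
set_option autoImplicit false

/-! # Theorem M (MP_f82ddf_nt), part P4 (the plane theorem): definitions.  helper24, note 3011. -/

namespace M4P
open MvPolynomial

noncomputable section

/-- Polynomials in three variables `X 0 = α, X 1 = β, X 2 = γ` (points `t` of the plane) or in the dual coordinates
`m_0, m_1, m_2` (linear forms on the plane). -/
abbrev P3 := MvPolynomial (Fin 3) ℂ

/-- The linear form `m ↦ t_0 m_0 + t_1 m_1 + t_2 m_2`. -/
def lf (t : Fin 3 → ℂ) : P3 := ∑ i, C (t i) * X i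

/-- Sum of the absolute values of the coefficients. -/
def nrm (p : P3) : ℝ := ∑ s ∈ p.support, ‖p.coeff s‖

/-- Elementary symmetric function of degree `k` of `ρ` numbers. -/
def esm (ρ : ℕ) (a : Fin ρ → ℂ) (k : ℕ) : ℂ := ∑ s ∈ Finset.powersetCard k (Finset.univ : Finset (Fin ρ)), ∏ i ∈ s, a i

/-- The systems of `ρ` points with `<t_i, m0> = 1`. -/
abbrev SS (ρ : ℕ) (m0 : Fin 3 → ℂ) := {t : Fin ρ → Fin 3 → ℂ // ∀ i, ∑ j, t i j * m0 j = 1}

/-- The algebra of functions on `SS ρ m0` generated by the coefficients of `∏ lf (t_i)`. -/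
def BB (ρ : ℕ) (m0 : Fin 3 → ℂ) : Subalgebra ℂ (SS ρ m0 → ℂ) :=
  Algebra.adjoin ℂ (Set.range fun (s : Fin 3 →₀ ℕ) => fun t : SS ρ m0 => (∏ i, lf (t.1 i)).coeff s)

end

end M4P
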