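import Pool.Agent.Work.MP_f82ddf_M4.Defs
set_option autoImplicit false

/-! # Theorem M (MP_f82ddf_nt), part P4: the plane theorem.  Blocks with proofs.  helper24, note 3011.

q is an irreducible form of degree d in three variables (the plane section of the hypersurface Q by the plane through the
lifted node u' = (1,0,0), the centre e = (0,1,0) of the projection and theta = (0,0,1)); Psi z is a product of the linear
forms lf (t_i(z)), t_i(z) moving points of the curve q = 0.  A block may assume (as hypotheses of its theorem) every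
EARLIER Prop of this file.  Parts over the field Mer: Interface2.lean. -/

namespace M4P
open MvPolynomial Topology Filter

noncomputable section

/-! ### Part 1: norms of forms are entire functions -/

/-- ESY. The elementary symmetric functions of the numbers <t_i,m> are in BB (fixed numeric m0, m).  For every complex number τ:
eval (m0 + τ m) (∏ lf (t_i)) = ∏ (<t_i,m0> + τ <t_i,m>) = ∏ (1 + τ <t_i,m>) = Σ_k τ^k esm_k.  The left side is
Σ_s coeff_s * ∏_j (m0_j + τ m_j)^(s_j), the sum over the finite set of all s with |s| = ρ (∏ lf (t_i) is homogeneous of degree ρ);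
compare the coefficients of τ^k (identity of polynomials in τ: equal for all τ, or work in Polynomial ℂ from the start, evaluating
∏ lf (t_i) at C (m0 j) + C (m j) * X): esm_k = Σ_s coeff_s * c(s,k) with constants c(s,k) = coefficient of τ^k in
∏_j (m0_j + τ m_j)^(s_j).  So it is a linear combination of generators of BB (k > ρ: zero on both sides). -/
def ESY : Prop := ∀ (ρ : ℕ) (m0 m : Fin 3 → ℂ) (k : ℕ),
  (fun t : SS ρ m0 => esm ρ (fun i => ∑ j, t.1 i j * m j) k) ∈ BB ρ m0

/-- NEW. Newton's identities for functions with values in a subalgebra B of S → ℂ.  (1) If all esm_k (a) are in B then all power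
sums are: Newton p_k = (-1)^(k-1) k e_k + Σ_(0<i<k) (-1)^(i-1) e_i p_(k-i) (strong induction; MvPolynomial.psum_eq_mul_esymm_sub_sum or
mul_esymm_eq_sum evaluated at i ↦ a i t with MvPolynomial.aeval; esymm evaluates to esm by definition).  k = 0: the constant ρ.
(2) If all power sums are in B then all e_k are (k e_k = Σ ..., divide by k, characteristic 0), in particular e_ρ = ∏ a_i. -/
def NEW : Prop := ∀ (ρ : ℕ) (S : Type) (B : Subalgebra ℂ (S → ℂ)) (a : Fin ρ → S → ℂ),
  ((∀ k, (fun t => esm ρ (fun i => a i t) k) ∈ B) → ∀ k, (fun t => ∑ i, a i t ^ k) ∈ B) ∧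
  ((∀ k, (fun t => ∑ i, a i t ^ k) ∈ B) → (fun t => ∏ i, a i t) ∈ B)

/-- POW. The forms of degree k in three variables are spanned by the k-th powers of linear forms (characteristic 0).
Proof: lf m ^ k = Σ_(|s| = k) multinomial(s) m^s X^s.  If the powers did not span the (finite dimensional) space of forms of
degree k there would be a linear functional c ≠ 0 on it with Σ_s c_s multinomial(s) m^s = 0 for all m ∈ ℂ^3; a polynomial in m
which vanishes everywhere is 0 (MvPolynomial.funext), so all c_s multinomial(s) = 0, c = 0.  (Or: derive monomials by finite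
differences.) -/
def POW : Prop := ∀ (k : ℕ) (P : P3), P.IsHomogeneous k → P ∈ Submodule.span ℂ (Set.range fun m : Fin 3 → ℂ => lf m ^ k)

/-- MSA. ∏ P(t_i) is a polynomial in the coefficients of ∏ lf (t_i), on the set <t_i,m0> = 1.  eval t (lf m) = Σ_j m_j t_j.  ESY and
NEW (1): t ↦ Σ_i <t_i,m>^k is in BB for all m, k.  For j : ℕ the form P^j is homogeneous of degree p j, so by POW it is a linear
combination of (lf m)^(p j), hence t ↦ Σ_i P(t_i)^j is in BB (linear combination; Submodule.span_induction).  NEW (2) with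
a i t = eval (t.1 i) P. -/
def MSA : Prop := ∀ (ρ : ℕ) (m0 : Fin 3 → ℂ) (p : ℕ) (P : P3), P.IsHomogeneous p →
  (fun t : SS ρ m0 => ∏ i, eval (t.1 i) P) ∈ BB ρ m0

/-- LOC. Local holomorphic norm.  Choose m0 with eval m0 (Psi z0) ≠ 0 (MvPolynomial.funext).  Near z0 the function c(z) := eval m0 (Psi z) is
analytic (Psi z is homogeneous of degree ρ near z0: the finite sum over |s| = ρ of coefficient * constant), c(z0) ≠ 0.  By MSA and
Algebra.adjoin_range_eq_range_aeval there is N : MvPolynomial (Fin 3 →₀ ℕ) ℂ with ∏ P(t_i) = aeval (s ↦ coeff_s ∏ lf (t_i)) N for all t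
in SS ρ m0.  Put φ z = c(z)^p * eval (fun s => (Psi z).coeff s / c z) N: analytic at z0.  If c z ≠ 0 and Psi z = ∏ lf (t_i) then
c z = ∏ <t_i,m0>, t'_i = t_i / <t_i,m0> is in SS ρ m0, ∏ lf (t'_i) = Psi z / c z, and ∏ P(t_i) = ∏ <t_i,m0>^p P(t'_i) = c(z)^p ∏ P(t'_i) = φ z. -/
def LOC : Prop := ∀ (ρ : ℕ) (Psi : ℂ → P3) (p : ℕ) (P : P3) (z0 : ℂ), (∀ᶠ z in 𝓝 z0, (Psi z).IsHomogeneous ρ) →
  (∀ s : Fin 3 →₀ ℕ, AnalyticAt ℂ (fun z => (Psi z).coeff s) z0) → P.IsHomogeneous p → Psi z0 ≠ 0 →
  ∃ φ : ℂ → ℂ, AnalyticAt ℂ φ z0 ∧ ∀ᶠ z in 𝓝 z0, ∀ t : Fin ρ → Fin 3 → ℂ, Psi z = ∏ i, lf (t i) → φ z = ∏ i, eval (t i) P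

/-- BND. A product of linear forms is not small.  If some t_i = 0 both sides are 0 (C ≥ 0).  Otherwise scale to Σ_j |t_i j| = 1 (nrm is
homogeneous): the set of all such t is compact (closed and bounded in (Fin ρ → Fin 3 → ℂ)), t ↦ nrm (∏ lf (t_i)) is continuous
(= Σ over the finite set of s with |s| = ρ of |coeff_s|, coefficients are polynomials in t) and positive (∏ lf (t_i) ≠ 0: no zero
divisors, lf t ≠ 0 for t ≠ 0), so it has a positive minimum. -/
def BND : Prop := ∀ ρ : ℕ, ∃ C : ℝ, 0 < C ∧ ∀ t : Fin ρ → Fin 3 → ℂ, ∏ i, (∑ j, ‖t i j‖) ≤ C * nrm (∏ i, lf (t i))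

/-! ### Part 2: the form H -/

/-- ETA. Newton: a root of q̃(γ, β) as a polynomial in γ modulo γ^b, with η(0) = 0.  Coefficients of q̃ : ℂ[γ][β].  Induction on b: b = 0, 1:
η = 0 (b = 1: q̃(0) = q̃.coeff 0 has constant term 0).  Step (b ≥ 1): η' = η + c X^b: q̃(η') ≡ q̃(η) + c X^b q̃'(η) mod X^(b+1)
(2b ≥ b+1), q̃'(η) has the constant term (q̃.coeff 1).coeff 0 ≠ 0 (η.coeff 0 = 0); choose c.  (Polynomial.taylor or
Polynomial.evalSubFactor / binomExpansion.) -/
def ETA : Prop := ∀ (b : ℕ) (qt : Polynomial (Polynomial ℂ)), (qt.coeff 0).coeff 0 = 0 → (qt.coeff 1).coeff 0 ≠ 0 →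
  ∃ η : Polynomial ℂ, η.coeff 0 = 0 ∧ (Polynomial.X ^ b : Polynomial ℂ) ∣ qt.eval η

/-- HEX1. ETA gives η with γ^b | q̃(η).  Divide by β - η: q̃ = (β - η) q1 + C (q̃(η)) (Polynomial.mul_divByMonic_eq_iff_isRoot /
modByMonic_X_sub_C), q1 monic of degree d-1 (in β).  For κ ∈ ℂ[γ] of degree < b let H = Σ_(i<d) β^i (κ * (q1.coeff i) mod γ^b) (the
truncation to degree < b; e.g. %ₘ X^b).  The conditions (H.coeff i).coeff j = 0 for b ≤ i+j (j < b, i < d) are Σ_(i<d) i = d(d-1)/2
linear conditions on the b coefficients of κ, so since d(d-1) < 2b some κ ≠ 0 satisfies them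
(LinearMap.exists_ne_zero of finrank <, e.g. Matrix / Submodule dimension).  H.coeff (d-1) = κ ≠ 0 (q1 monic), so H ≠ 0.
H = C κ * q1 + C(γ^b) * A0.  β^b = (β - η) s + C (η^b), γ^b | η^b: q1 β^b = q1 (β - η) s + q1 η^b = (q̃ - q̃(η)) s + q1 η^b, so
H β^b = C κ q̃ s + C(γ^b) (...). -/
def HEX1 : Prop := ∀ (d b : ℕ) (qt : Polynomial (Polynomial ℂ)), 1 ≤ d → qt.Monic → qt.natDegree = d → (qt.coeff 0).coeff 0 = 0 →
  (qt.coeff 1).coeff 0 ≠ 0 → d * (d - 1) < 2 * b →
  ∃ H A B : Polynomial (Polynomial ℂ), H ≠ 0 ∧ H.natDegree < d ∧ (∀ i j, b ≤ i + j → (H.coeff i).coeff j = 0) ∧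
    H * Polynomial.X ^ b = Polynomial.C (Polynomial.X ^ b) * A + qt * B

/-- HEX2. The homogeneous form, b = d^2.  d ≥ 1 (a constant q with q(1,0,0) = 0 is 0).  Scale q to q(0,1,0) = 1 (dividing by a constant changes
nothing).  Dehomogenise: the ring homomorphism α ↦ 1, β ↦ X, γ ↦ C X : P3 → Polynomial (Polynomial ℂ) sends q to q̃, monic of degree d in β
(the coefficient of β^d is q(0,1,0) = 1, no β^i with i > d), q̃(0,0) = q(1,0,0), (q̃.coeff 1).coeff 0 = ∂_β q(1,0,0).  HEX1 gives
H̃ = Σ c_ij γ^j β^i, i + j ≤ b-1, i < d; H := Σ c_ij α^(b-1-i-j) β^i γ^j, a form of degree b-1, not 0, β-degree < d, so q does not divide it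
(q ∣ H: degree in β: the dehomogenisation H̃ ≠ 0 has β-degree < d and q̃ monic of degree d divides it).  Division with remainder of
H β^b by q in the ring ℂ[α,γ][β] (q is monic in β): H β^b = q E + Rm, Rm = Σ_(i<d) β^i r_i(α,γ); we may take E and Rm homogeneous
(replace them by their components of degree 2b-1-d and 2b-1: MvPolynomial.homogeneousComponent; the β-degree of Rm stays < d).
Dehomogenise: R̃m = H̃ β^b - q̃ Ẽ = C(γ^b) A + q̃ (B - Ẽ); reduce A modulo the monic q̃: R̃m = C(γ^b) A' + q̃ B' with β-degree A' < d, so B' = 0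
(degrees) and γ^b divides R̃m, i.e. every coefficient r_i(1,γ).  As Rm is homogeneous of degree 2b-1 (monomials
α^(2b-1-i-j) β^i γ^j ↔ β^i γ^j), γ^b divides Rm: Rm = γ^b H1, H1 homogeneous of degree b-1. -/
def HEX2 : Prop := ∀ (d : ℕ) (q : P3), q.IsHomogeneous d → eval ![1, 0, 0] q = 0 → eval ![1, 0, 0] (pderiv 1 q) ≠ 0 →
  eval ![0, 1, 0] q ≠ 0 →
  ∃ H H1 E : P3, H.IsHomogeneous (d ^ 2 - 1) ∧ H1.IsHomogeneous (d ^ 2 - 1) ∧ ¬ q ∣ H ∧
    H * X 1 ^ (d ^ 2) = X 2 ^ (d ^ 2) * H1 + q * E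

/-- FIN. Two forms without common factor have finitely many common zeros up to scaling.  q irreducible, monic in β up to a constant.  In
ℂ[α,γ][β] (a polynomial ring over the UFD ℂ[α,γ]) q is irreducible of positive degree in β, hence (Gauss) irreducible over ℂ(α,γ), it does
not divide H there (q monic in β up to a constant: divisibility over the fraction field gives divisibility, Polynomial.IsPrimitive /
Monic), so U q + V H = r with r ≠ 0 in ℂ[α,γ].  A common zero t: all c t (c ∈ ℂ) are common zeros (forms), so r(c α, c γ) = 0 for all c,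
so every homogeneous component of r vanishes at (α,γ) = (t 0, t 2); take one component ≠ 0: a binary form, zero on finitely many
directions.  (α,γ) ≠ 0, as q(0,β,0) = β^d q(0,1,0).  For each direction (α0,γ0): q(α0,β,γ0) = 0 has finitely many β. -/
def FIN : Prop := ∀ (d e : ℕ) (q H : P3), Irreducible q → q.IsHomogeneous d → H.IsHomogeneous e → eval ![0, 1, 0] q ≠ 0 → ¬ q ∣ H →
  ∃ V : Finset (Fin 3 → ℂ), (∀ v ∈ V, v ≠ 0) ∧ ∀ t : Fin 3 → ℂ, t ≠ 0 → eval t q = 0 → eval t H = 0 → ∃ v ∈ V, ∃ c : ℂ, t = c • v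

end

end M4P
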