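import Pool.Agent.Work.MP_f82ddf_M4.Interface2
import Pool.Agent.Work.MP_f82ddf_M5.Stmts
set_option autoImplicit false

/-! # Theorem M (MP_f82ddf_nt), part P3b: from the Chow form R to the plane (helper24).

R divides the Chow form chow d d Q X of the section of the irreducible form Q (N variables) by X = XM (coefficients in Mer); u is a smooth
point of Q = 0, e is not on it.  In the plane spanned by u, e and a generic numeric θ the values of R are products of determinants
det(t_i, b1, b2), t_i on the curve q = Q|plane, and R|plane = F(b1 × b2) for a form F in three variables over Mer: then `M4P.PLANE` applies.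
Exported: `M4P.PLN`.  A block may assume every Prop of Interface.lean, Interface2.lean, every EARLIER Prop of this file, the named Props
`Pool.ThmM.Stmt_X` (M1.X, all proved: Pool.ThmM.all_X in MP_f82ddf_M1/All1.lean) and `Pool.Agent.Work.MP_f82ddf_M5.Stmt_X` (M5.X). -/

open Topology Filter
open scoped Differential
open Pool.Agent.Work.MP_f82ddf_nt.DQ

namespace M4P
open MvPolynomial Pool.ThmM Pool.Agent.Work.MP_f82ddf_M5

noncomputable section

/-- Substitution of polynomials with complex coefficients, over any `ℂ`-algebra `K` of coefficients. -/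
def sb {σ τ : Type} {K : Type} [CommRing K] [Algebra ℂ K] (g : σ → MvPolynomial τ ℂ) : MvPolynomial σ K →ₐ[K] MvPolynomial τ K :=
  aeval fun i => map (algebraMap ℂ K) (g i)

/-- The point `α u + β e + γ θ`. -/
def gP {N : ℕ} (u e θ : Fin N → ℂ) : Fin N → MvPolynomial (Fin 3) ℂ := fun j => C (u j) * X 0 + C (e j) * X 1 + C (θ j) * X 2

/-- Two such points. -/
def gB {N : ℕ} (u e θ : Fin N → ℂ) : Fin 2 × Fin N → MvPolynomial (Fin 2 × Fin 3) ℂ :=
  fun p => C (u p.2) * X (p.1, 0) + C (e p.2) * X (p.1, 1) + C (θ p.2) * X (p.1, 2)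

/-- The cross product `b1 × b2`. -/
def gC : Fin 3 → MvPolynomial (Fin 2 × Fin 3) ℂ :=
  ![X (0, 1) * X (1, 2) - X (0, 2) * X (1, 1), X (0, 2) * X (1, 0) - X (0, 0) * X (1, 2), X (0, 0) * X (1, 1) - X (0, 1) * X (1, 0)]

/-- `det (t, b1, b2)`. -/
def dt (t : Fin 3 → ℂ) : MvPolynomial (Fin 2 × Fin 3) ℂ := sb gC (lf t)

/-- The value at `z` of a polynomial with coefficients in `Mer` (`spz` is the case of three variables). -/
def vz {σ : Type} (F : MvPolynomial σ Mer) (z : ℂ) : MvPolynomial σ ℂ := ∑ s ∈ F.support, monomial s (rep (F.coeff s) z)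

/-- `R(u, b2)`. -/
def ru {N : ℕ} (u : Fin N → ℂ) (R : MvPolynomial (Fin 2 × Fin N) Mer) : MvPolynomial (Fin N) Mer :=
  sb (fun p => if p.1 = 0 then C (u p.2) else X p.2) R

/-- `R(a, b)`. -/
def rab {N : ℕ} (a b : Fin N → ℂ) (R : MvPolynomial (Fin 2 × Fin N) Mer) : Mer :=
  evC (fun p => if p.1 = 0 then a p.2 else b p.2) R

/-! ### Part 4: values -/

/-- VZM (M1.POL or M1.ALG, M1.REP).  Rules for the values, for z outside of a discrete set.  (1) products: the coefficients of F * G are finite sums of products (ALG);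
(2) constants; (3) F ≠ 0 → value ≠ 0 (one coefficient, ALG); (4) equality: if the values agree outside of a countable set then F = G (coefficients: a nonzero
element of Mer has rep ≠ 0 off a discrete set, ℂ is uncountable). -/
def VZM : Prop := ∀ (σ : Type) [Finite σ],
  (∀ F G : MvPolynomial σ Mer, ∀ᶠ z in codiscrete ℂ, vz (F * G) z = vz F z * vz G z) ∧
  (∀ P : MvPolynomial σ ℂ, ∀ᶠ z in codiscrete ℂ, vz (map (algebraMap ℂ Mer) P) z = P) ∧
  (∀ F : MvPolynomial σ Mer, F ≠ 0 → ∀ᶠ z in codiscrete ℂ, vz F z ≠ 0) ∧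
  (∀ (F G : MvPolynomial σ Mer) (E : Set ℂ), E.Countable → (∀ z, z ∉ E → vz F z = vz G z) → F = G) ∧
  (∀ (F : MvPolynomial σ Mer) (n : ℕ) (z : ℂ), F.IsHomogeneous n → (vz F z).IsHomogeneous n)

/-- VZS (M1.POL or M1.ALG).  Numeric substitutions commute with values.  The coefficient of s in sb g F is Σ_t F.coeff t * algebraMap (coeff s (∏ g_i^(t_i))), a finite sum
with constants; ALG.  Second claim: evaluation at a numeric point (as EVZ). -/
def VZS : Prop := ∀ (σ τ : Type) [Finite σ] [Finite τ] (g : σ → MvPolynomial τ ℂ) (F : MvPolynomial σ Mer),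
  (∀ᶠ z in codiscrete ℂ, vz (sb g F) z = sb g (vz F z)) ∧ ∀ p : σ → ℂ, ∀ᶠ z in codiscrete ℂ, rep (evC p F) z = eval p (vz F z)

/-- VZC (VZM, M1.POL, M5.FUN).  The Chow form commutes with values.  Let A = MvPolynomial ι ℂ with one variable for each pair (0, s), (1, s), s in the supports of F, G, and Fu, Gu the
universal polynomials Σ X_(0,s) X^s, Σ X_(1,s) X^s over A; F = map (aeval c) Fu, G = map (aeval c) Gu with c the coefficients.  FUN (6): chow d D F G = map (aeval c) (chow d D Fu Gu), so its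
coefficients are aeval c P_t with P_t = coeff_t (chow Fu Gu) ∈ A, and by POL rep (aeval c P_t) z = eval (values of c at z) P_t; again FUN (6) for the ring homomorphism
eval (values): map (eval ..) Fu = vz F z.  Finitely many t (support of chow Fu Gu). -/
def VZC : Prop := ∀ (N d D : ℕ) (F G : MvPolynomial (Fin N) Mer), ∀ᶠ z in codiscrete ℂ, vz (chow d D F G) z = chow d D (vz F z) (vz G z)

/-- CHR (M5.FUN).  Restriction of the numeric Chow form to the plane: both sides are resAt C F G at the two points gB-coordinates: the left side by FUN (5) (at2 / sb are the same substitution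
of b1, b2), FUN (3); the right side: lineAt C (sb gP F) b1 b2 = lineAt C F (the plane points of b1, b2) (both are ring homomorphisms in F, compare on variables:
u_j (α1 s + α2) + e_j (β1 s + β2) + θ_j (γ1 s + γ2) = (u_j α1 + e_j β1 + θ_j γ1) s + (...)). -/
def CHR : Prop := ∀ (N d D : ℕ) (F G : MvPolynomial (Fin N) ℂ) (u e θ : Fin N → ℂ),
  sb (K := ℂ) (gB u e θ) (chow d D F G) = chow d D (sb (K := ℂ) (gP u e θ) F) (sb (K := ℂ) (gP u e θ) G)

/-! ### Part 5: the numeric factorisation into determinants -/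

/-- DTI.  det (t, b1, b2) is irreducible (t ≠ 0) and it is divisible by det (t', b1, b2) only if t' is a multiple of t.  Proof: it is of degree 1 in b1 and of degree 1 in b2; in a
factorisation F G the degrees in b1 and in b2 add up (MvPolynomial weighted degrees / degreeOf over a domain), so if both factors are not constant, F = F(b1), G = G(b2) are linear
(or conversely); b1 = b2 = b gives F(b) G(b) = det(t,b,b) = 0 for all b, so F = 0 or G = 0: contradiction.  The second claim: equal degrees, so det (t,..) = c det (t',..),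
t = c t'. -/
def DTI : Prop := ∀ t : Fin 3 → ℂ, t ≠ 0 → Irreducible (dt t) ∧ ∀ t' : Fin 3 → ℂ, dt t' ∣ dt t → ∃ c : ℂ, t = c • t'

/-- ZRN (FIN, M5.FUN, M5.DEG).  Zeros of the numeric Chow form of two plane forms.  V = representatives of the common zeros from FIN (keep only those v which are common zeros).  Let b1, b2 be linearly
independent and let the resultant with the formal degrees d, D of f(s) = q(s b1 + b2), g(s) = X'(s b1 + b2) be 0.  Then q and X' have a common zero ≠ 0 on the line: if both coefficients of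
s^d in f (= q(b1)) and of s^D in g (= X'(b1)) vanish: b1 (DEG (2)).  Otherwise (Polynomial.resultant_add_left_deg / right_deg reduce to the true degrees up to a power of a nonzero leading
coefficient) f and g are not coprime: if both are ≠ 0 they have a common root s; if f = 0 (then q(b1) = 0): g has a root s, or g is a constant ≠ 0, and then X'(b1) = 0 since D ≥ 1: excluded
here; or g = 0: any s.  Same for g = 0.  s b1 + b2 ≠ 0 (independent).  So the common zero is c v, v ∈ V, c ≠ 0, in the span of b1, b2: det(v, b1, b2) = 0 (eval of dt v).  If b1, b2 are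
dependent every determinant is 0. -/
def ZRN : Prop := ∀ (d D : ℕ) (q X' : P3), Irreducible q → q.IsHomogeneous d → X'.IsHomogeneous D → eval ![0, 1, 0] q ≠ 0 → 1 ≤ d → 1 ≤ D → ¬ q ∣ X' →
  ∃ V : Finset (Fin 3 → ℂ), (∀ v ∈ V, v ≠ 0 ∧ eval v q = 0) ∧ ∀ (b : Fin 2 × Fin 3 → ℂ) (t0 : Fin 3 → ℂ), eval b (chow d D q X') = 0 →
    eval b (dt t0 * ∏ v ∈ V, dt v) = 0

/-- FACN (ZRN, DTI, M5.LINE).  Every divisor of the numeric Chow form is a product of determinants.  G := chow d D q X' ≠ 0 (LINE).  Let π be a prime (irreducible) divisor of G (UFD).  For every t0: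
dt t0 * ∏ dt v vanishes on the zeros of π, so (Nullstellensatz, MvPolynomial.vanishingIdeal_zeroLocus_eq_radical, (π) is prime) π divides it.  If π divides no dt v, v ∈ V, it divides
dt t0 for t0 = ![1,0,0] and ![0,1,0], irreducible and not associated (DTI): contradiction (π is not a unit).  So π is associated to dt v for some v ∈ V.  R' ∣ G: factor R' into
irreducibles (UniqueFactorizationMonoid.induction_on_prime or Multiset of factors): each is associated to some dt v; collect the constants. -/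
def FACN : Prop := ∀ (d D : ℕ) (q X' : P3), Irreducible q → q.IsHomogeneous d → X'.IsHomogeneous D → eval ![0, 1, 0] q ≠ 0 → 1 ≤ d → 1 ≤ D → ¬ q ∣ X' →
  ∀ R' : MvPolynomial (Fin 2 × Fin 3) ℂ, R' ∣ chow d D q X' →
    ∃ (n : ℕ) (c : ℂ) (t : Fin n → Fin 3 → ℂ), R' = C c * ∏ i, dt (t i) ∧ ∀ i, t i ≠ 0 ∧ eval (t i) q = 0

/-- PFZ (VZM, VZS, VZC, CHR, FACN).  The values of R on the plane are products of determinants.  For z outside of a countable set: vz R z ∣ vz (chow ..) z = chow d d Q (vz XM z) (VZM (1) applied to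
chow = R * S; VZC; VZM (2)), so vz (sb gB R) z = sb gB (vz R z) (VZS) divides chow d d q (sb gP (vz XM z)) (CHR) with q = sb gP Q.  q ∤ sb gP (vz XM z): the value of the latter at (1,0,0) is
eval u (vz XM z) = rep (evC u XM) z ≠ 0 (VZS, evC u XM ≠ 0), q(1,0,0) = Q(u) = 0.  FACN with D = d ≥ 1 (q is not a constant).  q(0,1,0) = Q(e). -/
def PFZ : Prop := ∀ (N d : ℕ) (Q : MvPolynomial (Fin N) ℂ) (XM : MvPolynomial (Fin N) Mer) (R : MvPolynomial (Fin 2 × Fin N) Mer) (u e θ : Fin N → ℂ),
  Q.IsHomogeneous d → XM.IsHomogeneous d → eval u Q = 0 → eval e Q ≠ 0 → evC u XM ≠ 0 → Irreducible (sb (K := ℂ) (gP u e θ) Q) →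
  R ∣ chow d d (map (algebraMap ℂ Mer) Q) XM →
  ∃ E : Set ℂ, E.Countable ∧ ∀ z, z ∉ E → ∃ (n : ℕ) (c : ℂ) (t : Fin n → Fin 3 → ℂ),
    vz (sb (gB u e θ) R) z = C c * ∏ i, dt (t i) ∧ ∀ i, t i ≠ 0 ∧ eval (t i) (sb (K := ℂ) (gP u e θ) Q) = 0

/-! ### Part 6: the form F on the dual plane -/

/-- CRL.  The coefficients of a form F of degree ρ are fixed linear combinations of the coefficients of F(b1 × b2).  Proof: substitute b1 = (m2, 0, -m0), b2 = (0, m2, -m1): b1 × b2 = m2 (m0, m1, m2), so
F(b1 × b2) becomes m2^ρ F(m): the coefficient of s in F is the coefficient of s + ρ e_2 in the substituted polynomial, a linear combination (with integer coefficients) of the coefficients of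
sb gC F.  Given for all commutative ℂ-algebras K at once. -/
def CRL : Prop := ∀ ρ : ℕ, ∃ M : (Fin 3 →₀ ℕ) → (Fin 2 × Fin 3 →₀ ℕ) → ℂ, ∀ (K : Type) [CommRing K] [Algebra ℂ K] (F : MvPolynomial (Fin 3) K), F.IsHomogeneous ρ →
  ∀ s, F.coeff s = ∑ t ∈ (sb gC F).support, algebraMap ℂ K (M s t) * (sb gC F).coeff t

/-- EXF (VZM, VZS, CRL).  A polynomial Rp in b1, b2 whose values are products of determinants is of the form F(b1 × b2).  Proof: the value of Rp at z ∉ E (and off a discrete set, so that it is ≠ 0) is a product of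
n determinants, homogeneous of degree 2 n = m (VZM (5); degrees of a nonzero form), so m = 2 ρ with n = ρ for all such z.  Let M be as in CRL and F_s = Σ_(t in support Rp) algebraMap (M s t) Rp.coeff t for
|s| = ρ, F = Σ_(|s| = ρ) monomial s F_s.  For z outside of a countable set vz Rp z = C c ∏ dt (t_i) = sb gC (C c ∏ lf (t_i)), and by CRL over ℂ and M1.ALG the value of F at z is C c ∏ lf (t_i); so
vz (sb gC F) z = vz Rp z outside of a countable set and sb gC F = Rp (VZM (4)). -/
def EXF : Prop := ∀ (m : ℕ) (Rp : MvPolynomial (Fin 2 × Fin 3) Mer) (q : P3) (E : Set ℂ), Rp ≠ 0 → Rp.IsHomogeneous m → E.Countable →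
  (∀ z, z ∉ E → ∃ (n : ℕ) (c : ℂ) (t : Fin n → Fin 3 → ℂ), vz Rp z = C c * ∏ i, dt (t i) ∧ ∀ i, t i ≠ 0 ∧ eval (t i) q = 0) →
  ∃ (ρ : ℕ) (F : MvPolynomial (Fin 3) Mer) (E' : Set ℂ), F.IsHomogeneous ρ ∧ F ≠ 0 ∧ sb gC F = Rp ∧ E'.Countable ∧
    ∀ z, z ∉ E' → ∃ (c : ℂ) (t : Fin ρ → Fin 3 → ℂ), spz F z = C c * ∏ i, lf (t i) ∧ ∀ i, t i ≠ 0 ∧ eval (t i) q = 0

/-- LFD.  A form which vanishes on the plane v^⊥ of the numeric points is divisible by lf v.  v ≠ 0; say v 2 ≠ 0 (the other cases are the same).  Divide F by the linear polynomial lf v, monic up to the constant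
v 2 in X 2 (over Mer[X 0, X 1]): F = (map lf v) F' + G(X 0, X 1).  For all numeric m0, m1 take m2 with Σ v_i m_i = 0: G(m0, m1) = 0; a polynomial over Mer (an infinite domain containing ℂ)
which vanishes at all numeric points is 0 (MvPolynomial.funext over the infinite set ℂ: e.g. MvPolynomial.funext_set / induction on the number of variables, or linear independence
arguments).  F' is homogeneous (a factor of a form). -/
def LFD : Prop := ∀ (ρ : ℕ) (F : MvPolynomial (Fin 3) Mer) (v : Fin 3 → ℂ), v ≠ 0 → F.IsHomogeneous (ρ + 1) →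
  (∀ m : Fin 3 → ℂ, ∑ i, v i * m i = 0 → evC m F = 0) →
  ∃ F' : MvPolynomial (Fin 3) Mer, F'.IsHomogeneous ρ ∧ F = map (algebraMap ℂ Mer) (lf v) * F'

/-- FIX (LFD, VZM).  Removal of the constant factors.  Induction on ρ.  If ρ = 0: κ = 1.  If ρ ≥ 1 and no v violates mov: κ = 1, F' = F, the constant c is put into t_0 (c • t_0; c ≠ 0 for z off a discrete set, but
Dat does not need it; q is homogeneous), E' = E: Dat ρ q F E.  Otherwise LFD for v: F = map (lf v) * F1; for z outside of a countable set spz F z = lf v * spz F1 z (VZM) = C c ∏ lf (t_i) ≠ 0, lf v is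
irreducible (a linear form ≠ 0), so it is associated to lf (t_i) for one i, cancel: spz F1 z = C c' ∏_(j ≠ i) lf (t_j) (reindex by Fin.succAbove); induction gives κ1, F', put κ = lf v * κ1. -/
def FIX : Prop := ∀ (ρ d : ℕ) (q : P3) (F : MvPolynomial (Fin 3) Mer) (E : Set ℂ), q.IsHomogeneous d → F ≠ 0 → F.IsHomogeneous ρ → E.Countable →
  (∀ z, z ∉ E → ∃ (c : ℂ) (t : Fin ρ → Fin 3 → ℂ), spz F z = C c * ∏ i, lf (t i) ∧ ∀ i, t i ≠ 0 ∧ eval (t i) q = 0) →
  ∃ (κ : P3) (ρ' : ℕ) (F' : MvPolynomial (Fin 3) Mer), κ ≠ 0 ∧ F = map (algebraMap ℂ Mer) κ * F' ∧ F'.IsHomogeneous ρ' ∧ (ρ' = 0 ∨ ∃ E' : Set ℂ, Dat ρ' q F' E')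

/-! ### Part 7: generic θ -/

/-- The form Q(α u + β e + γ θ) over the field of rational functions in the coordinates of θ. -/
def qgen {N : ℕ} (u e : Fin N → ℂ) (Q : MvPolynomial (Fin N) ℂ) : MvPolynomial (Fin 3) (FractionRing (MvPolynomial (Fin N) ℂ)) :=
  eval₂ (C.comp (algebraMap ℂ (FractionRing (MvPolynomial (Fin N) ℂ))))
    (fun j => C (algebraMap ℂ _ (u j)) * X 0 + C (algebraMap ℂ _ (e j)) * X 1 + C (algebraMap (MvPolynomial (Fin N) ℂ) _ (X j)) * X 2) Q

/-- IR1.  The restriction of Q to the plane through u, e and a generic point is irreducible (N ≥ 3).  u, e are linearly independent (Q(u) = 0, Q(e) ≠ 0, Q a form of positive degree).  After a linear change of the N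
coordinates (applied to X and to θ) u = (1,0,0,..,0), e = (0,1,0,..,0): the point is (α + γ θ_0, β + γ θ_1, γ θ_2, .., γ θ_(N-1)).  Over κ = ℂ(θ) the invertible linear change α' = α + γ θ_0, β' = β + γ θ_1,
γ' = γ θ_2 of the three variables gives Q(α', β', γ', γ' τ_3, .., γ' τ_(N-1)), τ_j = θ_j / θ_2.  The ring homomorphism ℂ[X] → ℂ[α', β', γ', τ_3, .., τ_(N-1)], X_0 ↦ α', X_1 ↦ β', X_2 ↦ γ', X_j ↦ γ' τ_j becomes an
isomorphism ℂ[X][1/X_2] ≃ ℂ[α',β',γ',τ][1/γ'], so the image of the prime Q is prime after inverting γ'; it is not divisible by γ' (the coefficient of β'^d is Q(e) ≠ 0), so it is prime in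
ℂ[α',β',γ',τ] = ℂ[τ][α',γ'][β'], of degree d ≥ 1 in β'; by Gauss it is irreducible in ℂ(τ)[α',β',γ'], and also over the bigger field κ = ℂ(θ), a purely transcendental extension of ℂ(τ) (add the further
variables from the start: it is prime in ℂ[θ_0, θ_1, θ_2, τ][α',β',γ'], and κ is the fraction field of ℂ[θ_0,θ_1,θ_2,τ]; a prime element of a polynomial ring stays prime when variables
are added; then Gauss, MvPolynomial version: a prime of B[x..] not in B is prime in Frac(B)[x..], IsLocalization). -/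
def IR1 : Prop := ∀ (N d : ℕ) (Q : MvPolynomial (Fin N) ℂ) (u e : Fin N → ℂ), 3 ≤ N → Irreducible Q → Q.IsHomogeneous d → eval u Q = 0 → eval e Q ≠ 0 →
  Irreducible (qgen u e Q)

/-- IR2 (IR1).  The same for numeric θ outside of a hypersurface H = 0.  A = MvPolynomial (Fin N) ℂ (coordinates of θ), κ = Frac A.  g(β,γ) = Q(u + β e + γ θ) ∈ A[γ][β] has β-degree d with leading coefficient Q(e),
g(0,0) = Q(u) = 0, ∂_β g(0,0) = c1 = Σ e_j ∂_j Q(u) ≠ 0 (constants).  NEWTON: there is η = Σ_(n ≥ 1) η_n γ^n ∈ A⟦γ⟧ with g(η, γ) = 0 (successive approximation modulo γ^n as in ETA, dividing only by the constant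
c1; or Hensel for the γ-adically complete ring A⟦γ⟧).  For numeric θ0 the specialisation η^0 ∈ ℂ⟦γ⟧ satisfies g^0(η^0, γ) = 0.  INDEPENDENCE: the elements γ^i η^j, i ≤ d, j < d, of κ⟦γ⟧ are linearly
independent over κ: a relation is a polynomial P(β,γ) ∈ κ[γ][β] of β-degree < d with P(η,γ) = 0; g is irreducible in κ[γ][β] (the dehomogenisation α = 1 of the irreducible form qgen, in which β^d
has a nonzero coefficient, so that it is not divisible by α) and so irreducible over κ(γ) (Gauss), of degree d, with the root η in κ((γ)): it is up to a constant the minimal polynomial of η, so P = 0.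
So for some n0 the truncations modulo γ^(n0) are independent over κ (decreasing kernels of linear maps from κ^(d(d+1)) stabilise), and some d(d+1) × d(d+1) minor H ∈ A of the matrix of their coefficients
(entries in A) is ≠ 0.  If H(θ0) ≠ 0, the γ^i (η^0)^j are independent over ℂ.  Suppose q0 = sb (gP u e θ0) Q = a b with a, b not constant: a, b are forms of degrees d_a, d_b ≥ 1, d_a + d_b = d, with nonzero coefficients
of β^(d_a), β^(d_b) (product Q(e)).  0 = g^0(η^0, γ) = a(1,η^0,γ) b(1,η^0,γ) in the domain ℂ⟦γ⟧, say the first factor is 0: a relation between the γ^i (η^0)^j with i ≤ d_a ≤ d, j ≤ d_a < d, not trivial: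
contradiction.  q0 ≠ 0 is not a unit (d ≥ 1). -/
def IR2 : Prop := ∀ (N d : ℕ) (Q : MvPolynomial (Fin N) ℂ) (u e : Fin N → ℂ), 3 ≤ N → Irreducible Q → Q.IsHomogeneous d → eval u Q = 0 → eval e Q ≠ 0 →
  (∑ j, e j * eval u (pderiv j Q)) ≠ 0 →
  ∃ H : MvPolynomial (Fin N) ℂ, H ≠ 0 ∧ ∀ θ : Fin N → ℂ, eval θ H ≠ 0 → Irreducible (sb (K := ℂ) (gP u e θ) Q)

/-- CTB.  Countably many nonzero polynomials have a common point where none of them vanishes.  Induction on N with MvPolynomial.finSuccEquiv: for every n choose a nonzero coefficient (a polynomial in the last N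
variables) of P n; a common point θ' for these; then P n (·, θ') is a nonzero polynomial in one variable, finitely many zeros; the union over n is countable, ℂ is uncountable.  (N = 0: nonzero constants.) -/
def CTB : Prop := ∀ (N : ℕ) (P : ℕ → MvPolynomial (Fin N) ℂ), (∀ n, P n ≠ 0) → ∃ θ : Fin N → ℂ, ∀ n, eval θ (P n) ≠ 0

/-- GEN (CTB, M1.VAL).  Choice of θ.  For z0 ∈ Z let n = vP G z0 and L_(z0) = Σ_s c_s X^s with c_s = the value at z0 of (z - z0)^(-n) rep (G.coeff s) (order ≥ n: a removable singularity; c_s = the leading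
coefficient if the order is n, 0 otherwise): L_(z0) ≠ 0.  evC θ G = Σ_s G.coeff s * algebraMap (θ^s) has order ≥ n, and order exactly n iff L_(z0)(θ) ≠ 0 (the value at z0 of (z - z0)^(-n) times it).
CTB for H, the L_(z0) (Z countable; enumerate, or Z empty) and one more polynomial which makes evC θ G ≠ 0: take one more point z1 in Z ∪ {0} (order finite implies ≠ 0). -/
def GEN : Prop := ∀ (N : ℕ) (H : MvPolynomial (Fin N) ℂ) (G : MvPolynomial (Fin N) Mer) (Z : Set ℂ), H ≠ 0 → G ≠ 0 → Z.Countable →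
  ∃ θ : Fin N → ℂ, eval θ H ≠ 0 ∧ evC θ G ≠ 0 ∧ ∀ z ∈ Z, om (evC θ G) z = vP G z

/-! ### Part 8: heights and the assembly -/

/-- LNR (M1.LIN, M1.VPD, M1.NNP, M1.VAL).  Polynomials whose coefficients are numeric linear combinations of the coefficients of F: orders do not decrease, heights do not increase (up to a constant).
M1.LIN with c = cf F, d = cf G and M1.VPD for the orders (F ≠ 0 because G ≠ 0); TP = LL - NN dv, NN monotone for r ≥ 1. -/
def LNR : Prop := ∀ (σ τ : Type) [Finite σ] [Finite τ] (F : MvPolynomial σ Mer) (G : MvPolynomial τ Mer) (M : (τ →₀ ℕ) → (σ →₀ ℕ) → ℂ), G ≠ 0 →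
  (∀ s, G.coeff s = ∑ t ∈ F.support, algebraMap ℂ Mer (M s t) * F.coeff t) →
  (∀ z, vP F z ≤ vP G z) ∧ ∃ C : ℝ, ∀ r : ℝ, 1 ≤ r → TP G r ≤ TP F r + C

/-- NUF (M1.GAU, M1.GEL, M1.VAL, M1.VPD).  A numeric factor κ ≠ 0 changes nothing: vP (map κ) z = 0, so vP (map κ * F') z = vP F' z (GAU); TP (map κ) r is constant (constant entries), so GEL gives the heights. -/
def NUF : Prop := ∀ (σ : Type) [Finite σ] (κ : MvPolynomial σ ℂ) (F' : MvPolynomial σ Mer), κ ≠ 0 → F' ≠ 0 →
  (∀ z, vP (map (algebraMap ℂ Mer) κ * F') z = vP F' z) ∧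
  ∃ C : ℝ, ∀ r : ℝ, 1 ≤ r → |TP (map (algebraMap ℂ Mer) κ * F') r - TP F' r| ≤ C

/-- RTP.  The values of R on the plane at the points u, e, θ: with crossed products (1,0,0) × (0,1,0) = (0,0,1) and (1,0,0) × (0,0,1) = (0,-1,0): if sb gC F = sb (gB u e θ) R, F a form of degree ρ, then
rab u e R = evC ![0,0,1] F and rab u θ R = (-1)^ρ evC ![0,1,0] F; and evC θ (ru u R) = rab u θ R (substitutions compose). -/
def RTP : Prop := ∀ (N ρ : ℕ) (u e θ : Fin N → ℂ) (R : MvPolynomial (Fin 2 × Fin N) Mer) (F : MvPolynomial (Fin 3) Mer), F.IsHomogeneous ρ →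
  sb gC F = sb (gB u e θ) R →
  rab u e R = evC ![0, 0, 1] F ∧ rab u θ R = (-1) ^ ρ * evC ![0, 1, 0] F ∧ evC θ (ru u R) = rab u θ R

/-- PLN, the exported theorem (PLANE, PFZ, CRL, EXF, FIX, IR2, GEN, LNR, NUF, RTP, M1.VAL, M1.NNP, M1.VPD, M1.LOW).  f := rab u e R ≠ 0, so R ≠ 0 and ru u R ≠ 0 (evC e (ru u R) = f).  Z := {z | vP R z < om f z}, countable
(a discrete set: vP R z = 0 and om f z = 0 off a discrete set, or: the supports of the locally finite divisors dvP R, dv1 f).  H from IR2, GEN for H, G = ru u R, Z gives θ; q := sb (gP u e θ) Q is irreducible, homogeneous of degree d ≥ 1, q(1,0,0) = Q(u) = 0,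
∂_1 q (1,0,0) = Σ e_j ∂_j Q(u) ≠ 0, q(0,1,0) = Q(e) ≠ 0.  Rp = sb (gB u e θ) R is homogeneous of degree m, ≠ 0 (its value at ((1,0,0),(0,1,0)) is f).  PFZ, EXF: F, FIX: κ, F'.  RTP: f = κ(0,0,1) f', f' = evC ![0,0,1] F', so
κ(0,0,1) ≠ 0, f' ≠ 0; g := evC θ (ru u R) = ± κ(0,1,0) g', g' = evC ![0,1,0] F', g ≠ 0, κ(0,1,0) ≠ 0.  vP R z ≤ vP F' z (LNR for R → Rp: coefficients of a numeric substitution; Rp → F: CRL; NUF), TP F' r ≤ TP R r + C.
Let D be as in the statement, D z > 0: z ∈ Z, so om g' z = om g z = vP (ru u R) z (GEN) = vP R z ≤ vP F' z ≤ om g' z (an evaluation does not decrease the order): equality everywhere, vP F' z = vP R z = om g' z and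
vP F' z + D z ≤ om f z = om f' z.  If ρ' ≥ 1: PLANE for F': d^2 NN D r ≤ (d^2-1) TP F' r + C ≤ (d^2-1) TP R r + C'.  If ρ' = 0: F' = C a, om f' z = om a z = vP F' z for all z, so D = 0, NN D r = 0, and
TP R r ≥ -C (M1.LOW: some coefficient of R is not 0). -/
def PLN : Prop := ∀ (N d m : ℕ) (Q : MvPolynomial (Fin N) ℂ) (XM : MvPolynomial (Fin N) Mer) (R : MvPolynomial (Fin 2 × Fin N) Mer) (u e : Fin N → ℂ),
  3 ≤ N → Irreducible Q → Q.IsHomogeneous d → XM.IsHomogeneous d → eval u Q = 0 → eval e Q ≠ 0 → (∑ j, e j * eval u (pderiv j Q)) ≠ 0 → evC u XM ≠ 0 →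
  R ∣ chow d d (map (algebraMap ℂ Mer) Q) XM → R.IsHomogeneous m → rab u e R ≠ 0 →
  ∃ C : ℝ, ∀ D : Function.locallyFinsupp ℂ ℤ, 0 ≤ D →
    (∀ z, 0 < D z → vP (ru u R) z = vP R z ∧ vP R z + ((D z : ℤ) : WithTop ℤ) ≤ om (rab u e R) z) →
    ∀ r : ℝ, 1 ≤ r → (d ^ 2 : ℕ) * NN D r ≤ (d ^ 2 - 1 : ℕ) * TP R r + C

end

end M4P
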